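import Mathlib

/-! Helper for MP_2482e1_an: coefficient extraction on the unit circle. -/

namespace Carath

open MeasureTheory Set Filter Topology Metric

/-- `∮ ζ⁻¹ g(ζ) dζ` -/
noncomputable def J (g : ℂ → ℂ) : ℂ := ∮ ζ in C(0, 1), ζ⁻¹ • g ζ

lemma sphere_ne {ζ : ℂ} {R : ℝ} (hR : 0 < R) (h : ζ ∈ sphere (0 : ℂ) R) : ζ ≠ 0 := by
  intro h0
  rw [h0] at h
  simp at h
  linarith

lemma J_congr {g g' : ℂ → ℂ} (h : ∀ ζ : ℂ, ‖ζ‖ = 1 → g ζ = g' ζ) : J g = J g' := by
  unfold J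
  apply circleIntegral.integral_congr (by norm_num)
  intro ζ hζ
  simp only
  rw [h ζ (by simpa using hζ)]

lemma J_add {g g' : ℂ → ℂ} (hg : ContinuousOn g (sphere 0 1)) (hg' : ContinuousOn g' (sphere 0 1)) :
    J (fun ζ => g ζ + g' ζ) = J g + J g' := by
  unfold J
  have hinv : ContinuousOn (fun ζ : ℂ => ζ⁻¹) (sphere 0 1) :=
    continuousOn_inv₀.mono fun ζ hζ => sphere_ne one_pos hζ
  rw [← circleIntegral.integral_add]
  · apply circleIntegral.integral_congr (by norm_num)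
    intro ζ _
    simp only [smul_eq_mul]; ring
  · exact (hinv.smul hg).circleIntegrable (by norm_num)
  · exact (hinv.smul hg').circleIntegrable (by norm_num)

lemma J_const_mul (c : ℂ) (g : ℂ → ℂ) : J (fun ζ => c * g ζ) = c * J g := by
  unfold J
  rw [← circleIntegral.integral_const_mul]
  apply circleIntegral.integral_congr (by norm_num)
  intro ζ _
  simp only [smul_eq_mul]; ring

lemma J_sum {ι : Type} (s : Finset ι) (g : ι → ℂ → ℂ) (hg : ∀ i ∈ s, ContinuousOn (g i) (sphere 0 1)) :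
    J (fun ζ => ∑ i ∈ s, g i ζ) = ∑ i ∈ s, J (g i) := by
  classical
  induction s using Finset.induction_on with
  | empty =>
    simp only [Finset.sum_empty]
    unfold J; simp [circleIntegral]
  | insert a s ha ih =>
    simp only [Finset.sum_insert ha]
    rw [J_add (hg a (Finset.mem_insert_self a s))
      (continuousOn_finsetSum s fun i hi => hg i (Finset.mem_insert_of_mem hi)),
      ih fun i hi => hg i (Finset.mem_insert_of_mem hi)]

lemma J_zpow (n : ℤ) : J (fun ζ => ζ ^ n) = if n = 0 then 2 * Real.pi * Complex.I else 0 := by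
  split_ifs with h
  · subst h
    unfold J
    have := circleIntegral.integral_sub_center_inv (0 : ℂ) (R := 1) one_ne_zero
    simpa using this
  · have h1 := circleIntegral.integral_sub_zpow_of_ne (n := n - 1) (by omega) (0 : ℂ) (0 : ℂ) 1
    unfold J
    refine Eq.trans ?_ h1
    apply circleIntegral.integral_congr (by norm_num)
    intro ζ hζ
    have h0 : ζ ≠ 0 := sphere_ne one_pos hζ
    simp only [smul_eq_mul, sub_zero]
    rw [zpow_sub_one₀ h0]; ring

/-- The remainder contributes nothing. -/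
lemma J_remainder (m j : ℕ) (hj : j ≤ m) (R : ℂ → ℂ) (hc : ContinuousOn R (closedBall 0 1))
    (hd : DifferentiableOn ℂ R (ball 0 1)) (hO : R =O[𝓝 0] fun ζ : ℂ => ζ ^ (m + 1)) :
    J (fun ζ => (ζ ^ j)⁻¹ * R ζ) = 0 := by
  obtain ⟨C, hC⟩ := hO.bound
  rw [Metric.eventually_nhds_iff] at hC
  obtain ⟨ε, hε, hC⟩ := hC
  have hC0 : ∀ ζ : ℂ, ‖ζ‖ < ε → ‖R ζ‖ ≤ |C| * ‖ζ‖ ^ (m + 1) := by
    intro ζ hζ
    have := hC (y := ζ) (by simpa using hζ)
    rw [norm_pow] at this
    exact this.trans (mul_le_mul_of_nonneg_right (le_abs_self C) (by positivity))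
  have hJ : ∀ ρ : ℝ, 0 < ρ → ρ ≤ 1 → J (fun ζ => (ζ ^ j)⁻¹ * R ζ)
      = ∮ ζ in C(0, ρ), ζ⁻¹ • ((ζ ^ j)⁻¹ * R ζ) := by
    intro ρ hρ hρ1
    have h := Complex.circleIntegral_sub_center_inv_smul_eq_of_differentiable_on_annulus_off_countable
      (c := 0) (r := ρ) (R := 1) hρ hρ1 (f := fun ζ => (ζ ^ j)⁻¹ * R ζ) (s := ∅) countable_empty ?_ ?_
    · unfold J
      simpa using h
    · apply ContinuousOn.mul
      · apply ContinuousOn.inv₀ (by fun_prop)
        intro ζ hζ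
        apply pow_ne_zero
        intro h0
        apply hζ.2
        rw [h0]; simpa using hρ
      · exact hc.mono sdiff_subset
    · intro ζ hζ
      simp only [sdiff_empty] at hζ
      have h0 : ζ ≠ 0 := by
        intro h0; apply hζ.2; rw [h0]; simp [hρ.le]
      apply DifferentiableAt.mul
      · exact (differentiableAt_id.pow j).inv (pow_ne_zero _ h0)
      · exact (hd ζ hζ.1).differentiableAt (isOpen_ball.mem_nhds hζ.1)
  have hbd : ∀ ρ : ℝ, 0 < ρ → ρ ≤ 1 → ρ < ε → ‖J (fun ζ => (ζ ^ j)⁻¹ * R ζ)‖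
      ≤ 2 * Real.pi * |C| * ρ := by
    intro ρ hρ hρ1 hρε
    rw [hJ ρ hρ hρ1]
    have h := circleIntegral.norm_integral_le_of_norm_le_const (c := 0) (R := ρ) hρ.le
      (f := fun ζ : ℂ => ζ⁻¹ • ((ζ ^ j)⁻¹ * R ζ)) (C := |C|) ?_
    · calc _ ≤ 2 * Real.pi * ρ * |C| := h
        _ = _ := by ring
    · intro ζ hζ
      have hn : ‖ζ‖ = ρ := by simpa using hζ
      rw [norm_smul, norm_mul, norm_inv, norm_inv, norm_pow, hn]
      have h1 := hC0 ζ (by rw [hn]; exact hρε)
      rw [hn] at h1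
      have h2 : ρ ^ (m + 1) ≤ ρ * ρ ^ j := by
        have : ρ ^ (m + 1) ≤ ρ ^ (j + 1) := pow_le_pow_of_le_one hρ.le hρ1 (by omega)
        have e : ρ * ρ ^ j = ρ ^ (j + 1) := by ring
        rw [e]; exact this
      have h3 : 0 < ρ * ρ ^ j := by positivity
      calc ρ⁻¹ * ((ρ ^ j)⁻¹ * ‖R ζ‖) = ‖R ζ‖ / (ρ * ρ ^ j) := by
            field_simp
        _ ≤ |C| := by
            rw [div_le_iff₀ h3]
            exact h1.trans (mul_le_mul_of_nonneg_left h2 (abs_nonneg C))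
  by_contra hne
  have hpos : 0 < ‖J (fun ζ => (ζ ^ j)⁻¹ * R ζ)‖ := norm_pos_iff.mpr hne
  set x := ‖J (fun ζ => (ζ ^ j)⁻¹ * R ζ)‖ with hx
  have hK : 0 < 2 * Real.pi * |C| + 1 := by positivity
  set ρ := min (min 1 (ε / 2)) (x / (2 * (2 * Real.pi * |C| + 1))) with hρ
  have hρ0 : 0 < ρ := by
    apply lt_min (lt_min one_pos (by linarith)) (by positivity)
  have h1 : ρ ≤ 1 := (min_le_left _ _).trans (min_le_left _ _)
  have h2 : ρ < ε := lt_of_le_of_lt ((min_le_left _ _).trans (min_le_right _ _)) (by linarith)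
  have h3 : ρ ≤ x / (2 * (2 * Real.pi * |C| + 1)) := min_le_right _ _
  have h4 := hbd ρ hρ0 h1 h2
  rw [le_div_iff₀ (by positivity)] at h3
  have h5 : 2 * Real.pi * |C| * ρ ≤ (2 * Real.pi * |C| + 1) * ρ := by nlinarith
  nlinarith

/-- coefficient extraction -/
lemma J_coef (m j : ℕ) (hj : j ≤ m) (F : ℂ → ℂ) (hc : ContinuousOn F (closedBall 0 1))
    (hd : DifferentiableOn ℂ F (ball 0 1)) (c : ℕ → ℂ)
    (hO : (fun ζ => F ζ - ∑ k ∈ Finset.range (m + 1), c k * ζ ^ k) =O[𝓝 0] fun ζ : ℂ => ζ ^ (m + 1)) :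
    J (fun ζ => (ζ ^ j)⁻¹ * F ζ) = 2 * Real.pi * Complex.I * c j := by
  have hP : Continuous fun ζ : ℂ => ∑ k ∈ Finset.range (m + 1), c k * ζ ^ k := by fun_prop
  have hPd : Differentiable ℂ fun ζ : ℂ => ∑ k ∈ Finset.range (m + 1), c k * ζ ^ k := by fun_prop
  have h1 := J_remainder m j hj (fun ζ => F ζ - ∑ k ∈ Finset.range (m + 1), c k * ζ ^ k)
    (hc.sub hP.continuousOn) (hd.sub hPd.differentiableOn) hO
  have hss : sphere (0 : ℂ) 1 ⊆ closedBall 0 1 := sphere_subset_closedBall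
  have hinv : ContinuousOn (fun ζ : ℂ => (ζ ^ j)⁻¹) (sphere 0 1) :=
    ContinuousOn.inv₀ (by fun_prop) fun ζ hζ => pow_ne_zero _ (sphere_ne one_pos hζ)
  have h2 : J (fun ζ => (ζ ^ j)⁻¹ * F ζ)
      = J (fun ζ => (ζ ^ j)⁻¹ * (F ζ - ∑ k ∈ Finset.range (m + 1), c k * ζ ^ k))
        + J (fun ζ => ∑ k ∈ Finset.range (m + 1), c k * ((ζ ^ j)⁻¹ * ζ ^ k)) := by
    rw [← J_add]
    · apply J_congr
      intro ζ _
      rw [mul_sub, Finset.mul_sum]
      have : ∑ k ∈ Finset.range (m + 1), (ζ ^ j)⁻¹ * (c k * ζ ^ k)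
          = ∑ k ∈ Finset.range (m + 1), c k * ((ζ ^ j)⁻¹ * ζ ^ k) :=
        Finset.sum_congr rfl fun k _ => by ring
      rw [this]; ring
    · exact hinv.mul ((hc.mono hss).sub hP.continuousOn)
    · apply continuousOn_finsetSum
      intro k _
      exact continuousOn_const.mul (hinv.mul (by fun_prop))
  rw [h2, h1, zero_add, J_sum]
  · have h3 : ∀ k ∈ Finset.range (m + 1), J (fun ζ => c k * ((ζ ^ j)⁻¹ * ζ ^ k))
        = if k = j then 2 * Real.pi * Complex.I * c j else 0 := by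
      intro k _
      rw [J_const_mul]
      have : J (fun ζ => (ζ ^ j)⁻¹ * ζ ^ k) = J (fun ζ => ζ ^ ((k : ℤ) - j)) := by
        apply J_congr
        intro ζ hζ
        have h0 : ζ ≠ 0 := by intro h0; rw [h0] at hζ; simp at hζ
        rw [zpow_sub₀ h0, zpow_natCast, zpow_natCast]; ring
      rw [this, J_zpow]
      by_cases hk : k = j
      · rw [if_pos hk, if_pos (by omega)]; rw [hk]; ring
      · rw [if_neg hk, if_neg (by omega)]; ring
    rw [Finset.sum_congr rfl h3, Finset.sum_ite_eq' , if_pos (Finset.mem_range.mpr (by omega))]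
  · intro k _
    exact continuousOn_const.mul (hinv.mul (by fun_prop))

/-- positivity -/
lemma J_im_nonneg (g : ℂ → ℂ) (hg : ContinuousOn g (sphere 0 1))
    (hpos : ∀ ζ : ℂ, ‖ζ‖ = 1 → 0 ≤ (g ζ).re) : 0 ≤ (J g).im := by
  have e : J g = Complex.I * ∫ θ in (0 : ℝ)..2 * Real.pi, g (circleMap 0 1 θ) := by
    unfold J circleIntegral
    rw [← intervalIntegral.integral_const_mul]
    apply intervalIntegral.integral_congr
    intro θ _
    have h0 : circleMap 0 1 θ ≠ 0 := circleMap_ne_center one_ne_zero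
    simp only [deriv_circleMap, smul_eq_mul]
    field_simp
  rw [e]
  have hcont : Continuous fun θ : ℝ => g (circleMap 0 1 θ) :=
    hg.comp_continuous (continuous_circleMap 0 1) fun θ => circleMap_mem_sphere 0 zero_le_one θ
  have h2 : (Complex.I * ∫ θ in (0 : ℝ)..2 * Real.pi, g (circleMap 0 1 θ)).im
      = ∫ θ in (0 : ℝ)..2 * Real.pi, (g (circleMap 0 1 θ)).re := by
    have h3 := Complex.reCLM.intervalIntegral_comp_comm (hcont.intervalIntegrable 0 (2 * Real.pi))
      (μ := volume)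
    simp only [Complex.reCLM_apply] at h3
    rw [h3]; simp
  rw [h2]
  apply intervalIntegral.integral_nonneg (by positivity)
  intro θ _
  apply hpos
  simp

end Carath
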