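import Mathlib
import Pool.Agent.Helper6.CarathA

/-! Helper for MP_2482e1_an: the sharp estimate of the homogeneous terms. -/

namespace Carath

open MeasureTheory Set Filter Topology Metric Asymptotics

lemma uv_exists (A : ℝ) (γ : ℂ) (hA : 0 ≤ A) (h : 2 * (A * ‖γ‖) < 1) :
    ∃ (u : ℝ) (v : ℂ), 0 < u ∧ u ≤ 1 ∧ ‖v‖ < u ∧ u ^ 2 + ‖v‖ ^ 2 = 1 ∧
      (u : ℂ) * v = (A : ℂ) * γ := by
  set t := A * ‖γ‖ with ht
  have ht0 : 0 ≤ t := by positivity
  have hd : 0 < 1 - 4 * t ^ 2 := by nlinarith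
  set s := √(1 - 4 * t ^ 2) with hs
  have hs0 : 0 < s := Real.sqrt_pos.mpr hd
  have hs2 : s ^ 2 = 1 - 4 * t ^ 2 := Real.sq_sqrt hd.le
  have hs1 : s ≤ 1 := by nlinarith
  set u := √((1 + s) / 2) with hu
  have hu0 : 0 < u := Real.sqrt_pos.mpr (by linarith)
  have hu2 : u ^ 2 = (1 + s) / 2 := Real.sq_sqrt (by linarith)
  have hu1 : u ≤ 1 := by nlinarith
  have hv : ‖(((A / u : ℝ)) : ℂ) * γ‖ = t / u := by
    rw [norm_mul, Complex.norm_real, Real.norm_of_nonneg (by positivity), ht]; ring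
  have hv2 : (t / u) ^ 2 = 1 - u ^ 2 := by
    rw [div_pow, div_eq_iff (by positivity), hu2]
    nlinarith
  refine ⟨u, ((A / u : ℝ) : ℂ) * γ, hu0, hu1, ?_, ?_, ?_⟩
  · rw [hv]
    have : (t / u) ^ 2 < u ^ 2 := by rw [hv2, hu2]; linarith
    exact lt_of_pow_lt_pow_left₀ 2 hu0.le this
  · rw [hv, hv2]; ring
  · have : (u : ℂ) ≠ 0 := by exact_mod_cast hu0.ne'
    push_cast
    field_simp

section
variable {E : Type*} [NormedAddCommGroup E] [InnerProductSpace ℂ E] [CompleteSpace E]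

/-- data of the test disc -/
structure Data (E : Type*) [NormedAddCommGroup E] [InnerProductSpace ℂ E] where
  k : ℕ
  a : ℝ
  b : ℝ
  u : ℝ
  v : ℂ
  e : E
  w : E
  ha : 0 < a
  hb : 0 < b
  hab : a ^ 2 + b ^ 2 = 1
  hu : 0 < u
  hu1 : u ≤ 1
  hv : ‖v‖ < u
  huv : u ^ 2 + ‖v‖ ^ 2 = 1
  huv2 : (u : ℂ) * v = ((a * b : ℝ) : ℂ) * inner ℂ e w
  he : ‖e‖ = 1
  hw : ‖w‖ = 1

variable (d : Data E)

noncomputable def Data.n0 (η : ℂ) : E := (d.a : ℂ) • d.e + (η * (d.b : ℂ)) • d.w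
noncomputable def Data.D0 (η : ℂ) : ℂ := (d.u : ℂ) + d.v * η
noncomputable def Data.D (ζ : ℂ) : ℂ := d.D0 (ζ ^ (d.k + 1))
noncomputable def Data.N (ζ : ℂ) : E := ζ • d.n0 (ζ ^ (d.k + 1))
noncomputable def Data.psi (ζ : ℂ) : E := (d.D ζ)⁻¹ • d.N ζ

lemma Data.D0_ne {η : ℂ} (hη : ‖η‖ ≤ 1) : d.D0 η ≠ 0 := by
  intro h0
  unfold Data.D0 at h0
  have h1 : (d.u : ℂ) = -(d.v * η) := by linear_combination h0
  have h2 : d.u = ‖d.v * η‖ := by
    rw [← norm_neg, ← h1, Complex.norm_real, Real.norm_of_nonneg d.hu.le]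
  rw [norm_mul] at h2
  have := d.hv
  nlinarith [norm_nonneg d.v, norm_nonneg η]

lemma Data.D_ne {ζ : ℂ} (hζ : ‖ζ‖ ≤ 1) : d.D ζ ≠ 0 := by
  apply d.D0_ne
  rw [norm_pow]
  exact pow_le_one₀ (norm_nonneg _) hζ

lemma Data.norm_n0 {η : ℂ} (hη : ‖η‖ = 1) : ‖d.n0 η‖ ^ 2 = ‖d.D0 η‖ ^ 2 := by
  have h1 := norm_add_sq (𝕜 := ℂ) ((d.a : ℂ) • d.e) ((η * (d.b : ℂ)) • d.w)
  have h2 := norm_add_sq (𝕜 := ℂ) (d.u : ℂ) (d.v * η)
  unfold Data.n0 Data.D0
  rw [h1, h2]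
  have e1 : inner ℂ ((d.a : ℂ) • d.e) ((η * (d.b : ℂ)) • d.w)
      = η * (((d.a * d.b : ℝ) : ℂ) * inner ℂ d.e d.w) := by
    rw [inner_smul_left, inner_smul_right]
    simp; ring
  have e2 : inner ℂ (d.u : ℂ) (d.v * η) = η * ((d.u : ℂ) * d.v) := by
    rw [RCLike.inner_apply]
    simp; ring
  rw [e1, e2, d.huv2, norm_smul, norm_smul, norm_mul, norm_mul, hη, d.he, d.hw,
    Complex.norm_real, Complex.norm_real, Complex.norm_real, Real.norm_of_nonneg d.ha.le,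
    Real.norm_of_nonneg d.hb.le, Real.norm_of_nonneg d.hu.le]
  have := d.hab
  have := d.huv
  nlinarith

lemma Data.norm_N {ζ : ℂ} (hζ : ‖ζ‖ = 1) : ‖d.N ζ‖ = ‖d.D ζ‖ := by
  unfold Data.N Data.D
  rw [norm_smul, hζ, one_mul]
  have h := d.norm_n0 (η := ζ ^ (d.k + 1)) (by rw [norm_pow, hζ, one_pow])
  exact (pow_left_inj₀ (norm_nonneg _) (norm_nonneg _) two_ne_zero).mp h

lemma Data.D_diff : Differentiable ℂ d.D := by
  unfold Data.D Data.D0; fun_prop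

lemma Data.n0_diff : Differentiable ℂ d.n0 := by
  unfold Data.n0; fun_prop

lemma Data.N_diff : Differentiable ℂ d.N := by
  unfold Data.N
  apply differentiable_id.smul
  exact d.n0_diff.comp (by fun_prop)

lemma Data.psi_diffAt {ζ : ℂ} (hζ : ‖ζ‖ ≤ 1) : DifferentiableAt ℂ d.psi ζ := by
  unfold Data.psi
  exact ((d.D_diff ζ).inv (d.D_ne hζ)).smul (d.N_diff ζ)

lemma Data.norm_psi_le {ζ : ℂ} (hζ : ‖ζ‖ ≤ 1) : ‖d.psi ζ‖ ≤ 1 := by
  apply Complex.norm_le_of_forall_mem_frontier_norm_le (U := ball (0 : ℂ) 1) isBounded_ball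
  · constructor
    · intro z hz
      exact (d.psi_diffAt (by simpa using (le_of_lt (by simpa using hz)))).differentiableWithinAt
    · rw [closure_ball _ one_ne_zero]
      intro z hz
      exact (d.psi_diffAt (by simpa using hz)).continuousAt.continuousWithinAt
  · intro z hz
    rw [frontier_ball _ one_ne_zero] at hz
    have hz1 : ‖z‖ = 1 := by simpa using hz
    unfold Data.psi
    rw [norm_smul, norm_inv, d.norm_N hz1, inv_mul_cancel₀]
    exact norm_ne_zero_iff.mpr (d.D_ne hz1.le)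
  · rw [closure_ball _ one_ne_zero]; simpa using hζ

lemma Data.psi_zero : d.psi 0 = 0 := by
  unfold Data.psi Data.N; simp

/-- the function `D(ζ) h(r ψ(ζ))` -/
noncomputable def Data.K (h : E → E) (r : ℝ) (ζ : ℂ) : E := d.D ζ • h ((r : ℂ) • d.psi ζ)

lemma Data.K_diffAt {h : E → E} (hh : AnalyticOnNhd ℂ h (ball 0 1)) {r : ℝ} (hr0 : 0 ≤ r)
    (hr : r < 1) {ζ : ℂ} (hζ : ‖ζ‖ ≤ 1) : DifferentiableAt ℂ (d.K h r) ζ := by
  unfold Data.K
  apply (d.D_diff ζ).smul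
  have hm : (r : ℂ) • d.psi ζ ∈ ball (0 : E) 1 := by
    rw [mem_ball_zero_iff, norm_smul, Complex.norm_real, Real.norm_of_nonneg hr0]
    have := d.norm_psi_le hζ
    nlinarith [norm_nonneg (d.psi ζ)]
  exact (hh _ hm).differentiableAt.comp ζ ((d.psi_diffAt hζ).const_smul _)

/-- coefficients of the expansion of `K` -/
noncomputable def Data.C (p : FormalMultilinearSeries ℂ E E) (r : ℝ) (j : ℕ) : E :=
  ((d.u : ℂ) * (((r : ℂ) / d.u) * d.a) ^ j) • p j fun _ => d.e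

noncomputable def Data.cc (p : FormalMultilinearSeries ℂ E E) (r : ℝ) (j : ℕ) : E :=
  (if j = 1 then ((r * d.a : ℝ) : ℂ) • d.e else 0)
    + (if j = d.k + 2 then ((r * d.b : ℝ) : ℂ) • d.w else 0)
    + (if 2 ≤ j then d.C p r j else 0)

lemma pow_tendsto_zero (k : ℕ) : Tendsto (fun ζ : ℂ => ζ ^ (k + 1)) (𝓝 0) (𝓝 0) := by
  have : Continuous fun ζ : ℂ => ζ ^ (k + 1) := by fun_prop
  have h := this.tendsto 0
  simpa using h

lemma Data.term_expand (p : FormalMultilinearSeries ℂ E E) (r : ℝ) (j : ℕ) (hj : 2 ≤ j) :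
    (fun ζ : ℂ => d.D ζ • (p j fun _ => (r : ℂ) • d.psi ζ) - ζ ^ j • d.C p r j)
      =O[𝓝 0] fun ζ : ℂ => ζ ^ (d.k + 2 + 1) := by
  set G : ℂ → E := fun η => (d.D0 η * ((r : ℂ) / d.D0 η) ^ j) • p j fun _ => d.n0 η with hG
  have hD0 : d.D0 0 ≠ 0 := d.D0_ne (by simp)
  have hGd : DifferentiableAt ℂ G 0 := by
    rw [hG]
    apply DifferentiableAt.smul
    · have : DifferentiableAt ℂ d.D0 0 := by unfold Data.D0; fun_prop
      apply this.mul
      apply DifferentiableAt.pow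
      exact (differentiableAt_const _).fun_div this hD0
    · have h1 : ContDiff ℂ 1 (p j) := (p j).contDiff
      have h2 : Differentiable ℂ (p j) := h1.differentiable (by norm_num)
      apply (h2 _).comp
      rw [differentiableAt_pi]
      intro _
      exact d.n0_diff 0
  have hO : (fun ζ : ℂ => G (ζ ^ (d.k + 1)) - G 0) =O[𝓝 0] fun ζ : ℂ => ζ ^ (d.k + 1) := by
    have h1 := hGd.isBigO_sub
    have h2 := h1.comp_tendsto (pow_tendsto_zero d.k)
    simpa [Function.comp_def] using h2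
  have hC : G 0 = d.C p r j := by
    rw [hG]
    unfold Data.C
    have hn : d.n0 0 = (d.a : ℂ) • d.e := by unfold Data.n0; simp
    have hD : d.D0 0 = d.u := by unfold Data.D0; simp
    simp only
    rw [hn, hD]
    have h1 : (p j fun _ => (d.a : ℂ) • d.e) = (d.a : ℂ) ^ j • p j fun _ => d.e := by
      have := (p j).map_smul_univ (fun _ => (d.a : ℂ)) (fun _ => d.e)
      simpa using this
    rw [h1, smul_smul]
    congr 1
    rw [mul_pow]; ring
  have hev : ∀ᶠ ζ : ℂ in 𝓝 0, d.D ζ • (p j fun _ => (r : ℂ) • d.psi ζ) - ζ ^ j • d.C p r j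
      = ζ ^ j • (G (ζ ^ (d.k + 1)) - G 0) := by
    have : ∀ᶠ ζ : ℂ in 𝓝 0, ‖ζ‖ < 1 := by
      have := ball_mem_nhds (0 : ℂ) one_pos
      filter_upwards [this] with ζ hζ
      simpa using hζ
    filter_upwards [this] with ζ hζ
    have hDn := d.D_ne hζ.le
    rw [hC, smul_sub]
    congr 1
    have h1 : (fun _ : Fin j => (r : ℂ) • d.psi ζ)
        = fun _ => ((r : ℂ) * (d.D ζ)⁻¹ * ζ) • d.n0 (ζ ^ (d.k + 1)) := by
      funext _
      unfold Data.psi Data.N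
      rw [smul_smul, smul_smul]
    have h2 : (p j fun _ => ((r : ℂ) * (d.D ζ)⁻¹ * ζ) • d.n0 (ζ ^ (d.k + 1)))
        = ((r : ℂ) * (d.D ζ)⁻¹ * ζ) ^ j • p j fun _ => d.n0 (ζ ^ (d.k + 1)) := by
      have := (p j).map_smul_univ (fun _ => (r : ℂ) * (d.D ζ)⁻¹ * ζ)
        (fun _ => d.n0 (ζ ^ (d.k + 1)))
      simpa using this
    rw [h1, h2, smul_smul, hG]
    simp only
    rw [smul_smul]
    congr 1
    have : d.D0 (ζ ^ (d.k + 1)) = d.D ζ := rfl
    rw [this, div_eq_mul_inv, mul_pow _ ζ]; ring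
  have hmain : (fun ζ : ℂ => ζ ^ j • (G (ζ ^ (d.k + 1)) - G 0))
      =O[𝓝 0] fun ζ : ℂ => ζ ^ (d.k + 2 + 1) := by
    have h1 : (fun ζ : ℂ => ζ ^ j • (G (ζ ^ (d.k + 1)) - G 0))
        =O[𝓝 0] fun ζ : ℂ => ζ ^ j • ζ ^ (d.k + 1) := (isBigO_refl _ _).smul hO
    apply h1.trans
    have h2 : (fun ζ : ℂ => ζ ^ j • ζ ^ (d.k + 1)) = fun ζ : ℂ => ζ ^ (j + (d.k + 1)) := by
      funext ζ; rw [smul_eq_mul, ← pow_add]
    rw [h2]
    apply IsBigO.of_bound 1
    have : ∀ᶠ ζ : ℂ in 𝓝 0, ‖ζ‖ < 1 := by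
      have := ball_mem_nhds (0 : ℂ) one_pos
      filter_upwards [this] with ζ hζ
      simpa using hζ
    filter_upwards [this] with ζ hζ
    rw [norm_pow, norm_pow, one_mul]
    exact pow_le_pow_of_le_one (norm_nonneg _) hζ.le (by omega)
  exact hmain.congr' (hev.mono fun ζ h => h.symm) EventuallyEq.rfl

lemma Data.K_expand {h : E → E} {p : FormalMultilinearSeries ℂ E E} (hp : HasFPowerSeriesAt h p 0)
    (h0 : h 0 = 0) (hder : fderiv ℂ h 0 = ContinuousLinearMap.id ℂ E) (r : ℝ) :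
    (fun ζ : ℂ => d.K h r ζ - ∑ j ∈ Finset.range (d.k + 2 + 1), ζ ^ j • d.cc p r j)
      =O[𝓝 0] fun ζ : ℂ => ζ ^ (d.k + 2 + 1) := by
  have hp0 : ∀ x : Fin 0 → E, p 0 x = 0 := fun x => by rw [hp.coeff_zero, h0]
  have hp1 : ∀ y : E, (p 1 fun _ => y) = y := by
    intro y
    have h1 := hp.fderiv_eq
    rw [hder] at h1
    have h2 := congrArg (fun L : E →L[ℂ] E => L y) h1
    have e : (fun _ : Fin 1 => y) = ![y] := by
      funext i; fin_cases i; rfl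
    rw [e]
    simpa using h2.symm
  -- y(ζ) = r ψ(ζ)
  have hψ : (fun ζ : ℂ => (r : ℂ) • d.psi ζ) =O[𝓝 0] fun ζ : ℂ => ζ := by
    have h1 : DifferentiableAt ℂ (fun ζ => (r : ℂ) • d.psi ζ) 0 :=
      (d.psi_diffAt (by simp)).const_smul _
    have h2 := h1.isBigO_sub
    simpa [d.psi_zero] using h2
  have hψ0 : Tendsto (fun ζ : ℂ => (r : ℂ) • d.psi ζ) (𝓝 0) (𝓝 0) := by
    have h1 : ContinuousAt (fun ζ => (r : ℂ) • d.psi ζ) 0 :=
      ((d.psi_diffAt (by simp)).const_smul _).continuousAt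
    have h2 := h1.tendsto
    simpa [d.psi_zero] using h2
  have hpart := hp.isBigO_sub_partialSum_pow (d.k + 2 + 1)
  have hcomp := hpart.comp_tendsto hψ0
  have hDb : (fun ζ : ℂ => d.D ζ) =O[𝓝 0] fun _ : ℂ => (1 : ℂ) :=
    (d.D_diff 0).continuousAt.isBigO_one ℂ
  have hfirst : (fun ζ : ℂ => d.K h r ζ
      - d.D ζ • p.partialSum (d.k + 2 + 1) ((r : ℂ) • d.psi ζ)) =O[𝓝 0]
        fun ζ : ℂ => ζ ^ (d.k + 2 + 1) := by
    have h1 : (fun ζ : ℂ => h ((r : ℂ) • d.psi ζ)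
        - p.partialSum (d.k + 2 + 1) ((r : ℂ) • d.psi ζ)) =O[𝓝 0]
          fun ζ : ℂ => ζ ^ (d.k + 2 + 1) := by
      have h2 : (fun ζ : ℂ => ‖(r : ℂ) • d.psi ζ‖ ^ (d.k + 2 + 1)) =O[𝓝 0]
          fun ζ : ℂ => ζ ^ (d.k + 2 + 1) := (hψ.norm_left).pow _
      refine IsBigO.trans ?_ h2
      simpa [Function.comp_def] using hcomp
    have h3 := hDb.smul h1
    simp only [one_smul] at h3
    refine h3.congr_left ?_
    intro ζ
    unfold Data.K
    rw [smul_sub]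
  have hsecond : (fun ζ : ℂ => d.D ζ • p.partialSum (d.k + 2 + 1) ((r : ℂ) • d.psi ζ)
      - ∑ j ∈ Finset.range (d.k + 2 + 1), ζ ^ j • d.cc p r j) =O[𝓝 0]
        fun ζ : ℂ => ζ ^ (d.k + 2 + 1) := by
    -- split both sums
    have hT : ∀ ζ : ℂ, ∑ j ∈ Finset.range (d.k + 2 + 1), ζ ^ j • d.cc p r j
        = ζ • (((r * d.a : ℝ) : ℂ) • d.e) + ζ ^ (d.k + 2) • (((r * d.b : ℝ) : ℂ) • d.w)
          + ∑ j ∈ Finset.range (d.k + 1), ζ ^ (j + 2) • d.C p r (j + 2) := by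
      intro ζ
      unfold Data.cc
      simp only [smul_add, Finset.sum_add_distrib, smul_ite, smul_zero]
      rw [Finset.sum_ite_eq' , if_pos (Finset.mem_range.mpr (by omega)), Finset.sum_ite_eq',
        if_pos (Finset.mem_range.mpr (by omega))]
      have e3 : ∑ j ∈ Finset.range (d.k + 2 + 1), (if 2 ≤ j then ζ ^ j • d.C p r j else 0)
          = ∑ j ∈ Finset.range (d.k + 1), ζ ^ (j + 2) • d.C p r (j + 2) := by
        rw [show d.k + 2 + 1 = (d.k + 1) + 1 + 1 by ring, Finset.sum_range_succ',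
          Finset.sum_range_succ']
        simp
      rw [e3, pow_one]
    have hsum : (fun ζ : ℂ => ∑ j ∈ Finset.range (d.k + 1),
        (d.D ζ • (p (j + 2) fun _ => (r : ℂ) • d.psi ζ) - ζ ^ (j + 2) • d.C p r (j + 2)))
          =O[𝓝 0] fun ζ : ℂ => ζ ^ (d.k + 2 + 1) := by
      have := IsBigO.sum (s := Finset.range (d.k + 1))
        fun j _ => d.term_expand p r (j + 2) (by omega)
      refine this.congr_left ?_
      intro ζ
      simp [Finset.sum_apply]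
    have hev : ∀ᶠ ζ : ℂ in 𝓝 0, d.D ζ • p.partialSum (d.k + 2 + 1) ((r : ℂ) • d.psi ζ)
        - ∑ j ∈ Finset.range (d.k + 2 + 1), ζ ^ j • d.cc p r j
        = ∑ j ∈ Finset.range (d.k + 1),
        (d.D ζ • (p (j + 2) fun _ => (r : ℂ) • d.psi ζ) - ζ ^ (j + 2) • d.C p r (j + 2)) := by
      have : ∀ᶠ ζ : ℂ in 𝓝 0, ‖ζ‖ < 1 := by
        have := ball_mem_nhds (0 : ℂ) one_pos
        filter_upwards [this] with ζ hζ
        simpa using hζ
      filter_upwards [this] with ζ hζ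
      have hDn := d.D_ne hζ.le
      rw [hT ζ]
      unfold FormalMultilinearSeries.partialSum
      rw [show d.k + 2 + 1 = (d.k + 1) + 1 + 1 by ring, Finset.sum_range_succ',
        Finset.sum_range_succ', hp0, add_zero, smul_add, Finset.smul_sum,
        Finset.sum_sub_distrib]
      have e1 : d.D ζ • (p (0 + 1) fun _ => (r : ℂ) • d.psi ζ)
          = ζ • (((r * d.a : ℝ) : ℂ) • d.e) + ζ ^ (d.k + 2) • (((r * d.b : ℝ) : ℂ) • d.w) := by
        have : (p (0 + 1) fun _ => (r : ℂ) • d.psi ζ) = (r : ℂ) • d.psi ζ := hp1 _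
        rw [this]
        unfold Data.psi
        rw [smul_comm (d.D ζ) (r : ℂ), smul_smul (d.D ζ), mul_inv_cancel₀ hDn, one_smul]
        unfold Data.N Data.n0
        simp only [smul_add, smul_smul]
        congr 2
        · push_cast; ring
        · push_cast; ring
      rw [e1]
      abel
    exact hsum.congr' (hev.mono fun ζ h => h.symm) EventuallyEq.rfl
  have := hfirst.add hsecond
  refine this.congr_left ?_
  intro ζ
  simp

/-- the key inequality, for `r < 1` -/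
lemma Data.key_r {h : E → E} (hh : AnalyticOnNhd ℂ h (ball 0 1))
    {p : FormalMultilinearSeries ℂ E E} (hp : HasFPowerSeriesAt h p 0)
    (h0 : h 0 = 0) (hder : fderiv ℂ h 0 = ContinuousLinearMap.id ℂ E)
    (hpos : ∀ z ∈ ball (0 : E) 1, 0 ≤ (inner ℂ z (h z)).re) (r : ℝ) (hr0 : 0 < r) (hr : r < 1) :
    0 ≤ r + d.b * (d.u * ((r / d.u) * d.a) ^ (d.k + 2)) * (inner ℂ d.w (p (d.k + 2) fun _ => d.e)).re := by
  set m := d.k + 2 with hm
  have hKd : ∀ ζ : ℂ, ‖ζ‖ ≤ 1 → DifferentiableAt ℂ (d.K h r) ζ :=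
    fun ζ hζ => d.K_diffAt hh hr0.le hr hζ
  have hcoef : ∀ (x : E) (j : ℕ), j ≤ m →
      J (fun ζ => (ζ ^ j)⁻¹ * inner ℂ x (d.K h r ζ)) = 2 * Real.pi * Complex.I * inner ℂ x (d.cc p r j) := by
    intro x j hj
    apply J_coef m j hj (fun ζ => inner ℂ x (d.K h r ζ))
    · intro ζ hζ
      have : DifferentiableAt ℂ (fun ζ => (innerSL ℂ x) (d.K h r ζ)) ζ :=
        (innerSL ℂ x).differentiableAt.comp ζ (hKd ζ (by simpa using hζ))
      exact this.continuousAt.continuousWithinAt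
    · intro ζ hζ
      have : DifferentiableAt ℂ (fun ζ => (innerSL ℂ x) (d.K h r ζ)) ζ :=
        (innerSL ℂ x).differentiableAt.comp ζ (hKd ζ (by simpa using (le_of_lt (by simpa using hζ))))
      exact this.differentiableWithinAt
    · have h1 := d.K_expand hp h0 hder r
      have h2 : (fun ζ : ℂ => (innerSL ℂ x) (d.K h r ζ - ∑ j ∈ Finset.range (d.k + 2 + 1), ζ ^ j • d.cc p r j))
          =O[𝓝 0] fun ζ : ℂ => ζ ^ (d.k + 2 + 1) :=
        ((innerSL ℂ x).isBigO_comp _ _).trans h1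
      refine h2.congr_left ?_
      intro ζ
      rw [map_sub, map_sum]
      simp only [innerSL_apply_apply, inner_smul_right]
      congr 1
      apply Finset.sum_congr rfl
      intro j _
      ring
  -- positivity on the circle
  have hcircle : ∀ ζ : ℂ, ‖ζ‖ = 1 → 0 ≤ ((d.a : ℂ) * ((ζ ^ 1)⁻¹ * inner ℂ d.e (d.K h r ζ))
      + (d.b : ℂ) * ((ζ ^ m)⁻¹ * inner ℂ d.w (d.K h r ζ))).re := by
    intro ζ hζ
    have hmem : (r : ℂ) • d.psi ζ ∈ ball (0 : E) 1 := by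
      rw [mem_ball_zero_iff, norm_smul, Complex.norm_real, Real.norm_of_nonneg hr0.le]
      have := d.norm_psi_le hζ.le
      nlinarith [norm_nonneg (d.psi ζ)]
    have h1 := hpos _ hmem
    have hDn := d.D_ne hζ.le
    have hconj : ∀ j : ℕ, (ζ ^ j)⁻¹ = starRingEnd ℂ (ζ ^ j) := by
      intro j
      rw [Complex.inv_def, Complex.normSq_eq_norm_sq, norm_pow, hζ]; simp
    have e1 : (d.a : ℂ) * ((ζ ^ 1)⁻¹ * inner ℂ d.e (d.K h r ζ))
        + (d.b : ℂ) * ((ζ ^ m)⁻¹ * inner ℂ d.w (d.K h r ζ)) = inner ℂ (d.N ζ) (d.K h r ζ) := by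
      unfold Data.N Data.n0
      rw [hconj, hconj, smul_add, inner_add_left, smul_smul, smul_smul, inner_smul_left,
        inner_smul_left, hm]
      simp only [map_mul, map_pow, Complex.conj_ofReal]
      ring
    have e2 : inner ℂ (d.N ζ) (d.K h r ζ)
        = (((‖d.D ζ‖ ^ 2 / r : ℝ)) : ℂ) * inner ℂ ((r : ℂ) • d.psi ζ) (h ((r : ℂ) • d.psi ζ)) := by
      have hrc : (r : ℂ) ≠ 0 := by exact_mod_cast hr0.ne'
      have hN : d.N ζ = d.D ζ • d.psi ζ := by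
        unfold Data.psi; rw [smul_smul, mul_inv_cancel₀ hDn, one_smul]
      rw [hN]
      unfold Data.K
      rw [inner_smul_left, inner_smul_right, inner_smul_left]
      have h3 : starRingEnd ℂ (d.D ζ) * d.D ζ = ((‖d.D ζ‖ ^ 2 : ℝ) : ℂ) := by
        rw [mul_comm, Complex.mul_conj, Complex.normSq_eq_norm_sq]
      push_cast at h3 ⊢
      rw [← mul_assoc, h3, Complex.conj_ofReal]
      field_simp
    rw [e1, e2, Complex.re_ofReal_mul]
    apply mul_nonneg (by positivity) h1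
  have hcont : ∀ (x : E) (j : ℕ), ContinuousOn (fun ζ : ℂ => (ζ ^ j)⁻¹ * inner ℂ x (d.K h r ζ)) (sphere 0 1) := by
    intro x j
    apply ContinuousOn.mul
    · exact ContinuousOn.inv₀ (by fun_prop) fun ζ hζ => pow_ne_zero _ (sphere_ne one_pos hζ)
    · intro ζ hζ
      have : DifferentiableAt ℂ (fun ζ => (innerSL ℂ x) (d.K h r ζ)) ζ :=
        (innerSL ℂ x).differentiableAt.comp ζ (hKd ζ (by simpa using (le_of_eq (by simpa using hζ))))
      exact this.continuousAt.continuousWithinAt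
  have hJ : 0 ≤ (J (fun ζ => (d.a : ℂ) * ((ζ ^ 1)⁻¹ * inner ℂ d.e (d.K h r ζ))
      + (d.b : ℂ) * ((ζ ^ m)⁻¹ * inner ℂ d.w (d.K h r ζ)))).im :=
    J_im_nonneg _ ((continuousOn_const.mul (hcont d.e 1)).add
      (continuousOn_const.mul (hcont d.w m))) hcircle
  have hJadd : J (fun ζ => (d.a : ℂ) * ((ζ ^ 1)⁻¹ * inner ℂ d.e (d.K h r ζ))
      + (d.b : ℂ) * ((ζ ^ m)⁻¹ * inner ℂ d.w (d.K h r ζ)))
      = J (fun ζ => (d.a : ℂ) * ((ζ ^ 1)⁻¹ * inner ℂ d.e (d.K h r ζ)))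
        + J (fun ζ => (d.b : ℂ) * ((ζ ^ m)⁻¹ * inner ℂ d.w (d.K h r ζ))) :=
    J_add (continuousOn_const.mul (hcont d.e 1)) (continuousOn_const.mul (hcont d.w m))
  rw [hJadd, J_const_mul, J_const_mul, hcoef d.e 1 (by omega), hcoef d.w m le_rfl] at hJ
  have c1 : d.cc p r 1 = ((r * d.a : ℝ) : ℂ) • d.e := by
    unfold Data.cc
    rw [if_pos rfl, if_neg (by omega), if_neg (by omega)]; simp
  have cm : d.cc p r m = ((r * d.b : ℝ) : ℂ) • d.w + d.C p r m := by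
    unfold Data.cc
    rw [if_neg (by omega), if_pos rfl, if_pos (by omega)]; simp
  have ee : inner ℂ d.e d.e = (1 : ℂ) := by
    rw [inner_self_eq_norm_sq_to_K, d.he]; simp
  have ww : inner ℂ d.w d.w = (1 : ℂ) := by
    rw [inner_self_eq_norm_sq_to_K, d.hw]; simp
  rw [c1, cm, inner_add_right, inner_smul_right, inner_smul_right, ee, ww] at hJ
  unfold Data.C at hJ
  rw [inner_smul_right] at hJ
  set X := inner ℂ d.w (p m fun _ => d.e) with hX
  have hreal : (d.a : ℂ) * (2 * Real.pi * Complex.I * (((r * d.a : ℝ) : ℂ) * 1))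
      + (d.b : ℂ) * (2 * Real.pi * Complex.I * (((r * d.b : ℝ) : ℂ) * 1
        + (d.u : ℂ) * (((r : ℂ) / d.u) * d.a) ^ m * X))
      = (((2 * Real.pi * (r * (d.a ^ 2 + d.b ^ 2)) : ℝ)) : ℂ) * Complex.I
        + (((2 * Real.pi * (d.b * (d.u * ((r / d.u) * d.a) ^ m)) : ℝ)) : ℂ) * (X * Complex.I) := by
    push_cast; ring
  rw [hreal] at hJ
  rw [Complex.add_im, Complex.im_ofReal_mul, Complex.im_ofReal_mul, Complex.I_im, Complex.mul_I_im,
    d.hab] at hJ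
  have hpi : 0 < 2 * Real.pi := by positivity
  have : 0 ≤ 2 * Real.pi * (r + d.b * (d.u * ((r / d.u) * d.a) ^ m) * X.re) := by
    have e : 2 * Real.pi * (r + d.b * (d.u * ((r / d.u) * d.a) ^ m) * X.re)
      = 2 * Real.pi * (r * 1) * 1 + 2 * Real.pi * (d.b * (d.u * (r / d.u * d.a) ^ m)) * X.re := by ring
    rw [e]; exact hJ
  exact (mul_nonneg_iff_of_pos_left hpi).mp this

lemma Data.key {h : E → E} (hh : AnalyticOnNhd ℂ h (ball 0 1))
    {p : FormalMultilinearSeries ℂ E E} (hp : HasFPowerSeriesAt h p 0)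
    (h0 : h 0 = 0) (hder : fderiv ℂ h 0 = ContinuousLinearMap.id ℂ E)
    (hpos : ∀ z ∈ ball (0 : E) 1, 0 ≤ (inner ℂ z (h z)).re) :
    -(inner ℂ d.w (p (d.k + 2) fun _ => d.e)).re ≤ 1 / (d.b * d.a ^ (d.k + 2)) := by
  set X := (inner ℂ d.w (p (d.k + 2) fun _ => d.e)).re with hX
  have hlim : 0 ≤ 1 + d.b * (d.u * ((1 / d.u) * d.a) ^ (d.k + 2)) * X := by
    have hcont : Continuous fun r : ℝ => r + d.b * (d.u * ((r / d.u) * d.a) ^ (d.k + 2)) * X := by
      fun_prop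
    have ht : Tendsto (fun r : ℝ => r + d.b * (d.u * ((r / d.u) * d.a) ^ (d.k + 2)) * X)
        (𝓝[<] 1) (𝓝 (1 + d.b * (d.u * ((1 / d.u) * d.a) ^ (d.k + 2)) * X)) :=
      (hcont.tendsto 1).mono_left nhdsWithin_le_nhds
    apply ge_of_tendsto ht
    have h1 : ∀ᶠ r : ℝ in 𝓝[<] 1, 0 < r := nhdsWithin_le_nhds (lt_mem_nhds one_pos)
    filter_upwards [h1, self_mem_nhdsWithin] with r hr0 hr1
    exact d.key_r hh hp h0 hder hpos r hr0 hr1
  have hu := d.hu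
  have ha := d.ha
  have hb := d.hb
  have e1 : d.u * ((1 / d.u) * d.a) ^ (d.k + 2) = d.a ^ (d.k + 2) / d.u ^ (d.k + 1) := by
    rw [mul_pow, one_div, inv_pow, pow_succ d.u (d.k + 1)]
    field_simp
  rw [e1] at hlim
  have hup : 0 < d.u ^ (d.k + 1) := by positivity
  have hup1 : d.u ^ (d.k + 1) ≤ 1 := pow_le_one₀ hu.le d.hu1
  have hba : 0 < d.b * d.a ^ (d.k + 2) := by positivity
  rw [le_div_iff₀ hba]
  have e2 : 1 + d.b * (d.a ^ (d.k + 2) / d.u ^ (d.k + 1)) * X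
      = (d.u ^ (d.k + 1) + d.b * d.a ^ (d.k + 2) * X) / d.u ^ (d.k + 1) := by
    field_simp
  rw [e2] at hlim
  have h3 : 0 ≤ d.u ^ (d.k + 1) + d.b * d.a ^ (d.k + 2) * X := by
    by_contra hneg
    push Not at hneg
    have := div_neg_of_neg_of_pos hneg hup
    linarith
  nlinarith

/-- the sharp constant -/
noncomputable def qc (m : ℕ) : ℝ := √(((m : ℝ) + 1) ^ (m + 1) / (m : ℝ) ^ m)

/-- sharp bound for the homogeneous terms -/
theorem norm_coeff_le {h : E → E} (hh : AnalyticOnNhd ℂ h (ball 0 1))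
    {p : FormalMultilinearSeries ℂ E E} (hp : HasFPowerSeriesAt h p 0)
    (h0 : h 0 = 0) (hder : fderiv ℂ h 0 = ContinuousLinearMap.id ℂ E)
    (hpos : ∀ z ∈ ball (0 : E) 1, 0 ≤ (inner ℂ z (h z)).re) (m : ℕ) (hm : 2 ≤ m)
    (e : E) (he : ‖e‖ = 1) : ‖p m fun _ => e‖ ≤ qc m := by
  by_cases hP : (p m fun _ => e) = 0
  · rw [hP, norm_zero]; exact Real.sqrt_nonneg _
  obtain ⟨k, rfl⟩ : ∃ k, m = k + 2 := ⟨m - 2, by omega⟩
  set P := p (k + 2) fun _ => e with hPdef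
  have hPn : 0 < ‖P‖ := norm_pos_iff.mpr hP
  set w : E := ((-(‖P‖⁻¹) : ℝ) : ℂ) • P with hw
  have hwn : ‖w‖ = 1 := by
    rw [hw, norm_smul, Complex.norm_real, norm_neg, norm_inv, norm_norm, inv_mul_cancel₀ hPn.ne']
  set M : ℝ := ((k + 2 : ℕ) : ℝ) with hM
  have hM2 : 2 ≤ M := by rw [hM]; exact_mod_cast hm
  set a := √(M / (M + 1)) with ha
  set b := √(1 / (M + 1)) with hb
  have ha0 : 0 < a := Real.sqrt_pos.mpr (by positivity)
  have hb0 : 0 < b := Real.sqrt_pos.mpr (by positivity)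
  have ha2 : a ^ 2 = M / (M + 1) := Real.sq_sqrt (by positivity)
  have hb2 : b ^ 2 = 1 / (M + 1) := Real.sq_sqrt (by positivity)
  have hab : a ^ 2 + b ^ 2 = 1 := by rw [ha2, hb2]; field_simp
  have hγ : ‖inner ℂ e w‖ ≤ 1 := by
    have := norm_inner_le_norm (𝕜 := ℂ) e w
    rw [he, hwn] at this
    simpa using this
  have h2ab : 2 * (a * b) < 1 := by
    have hne : a ^ 2 ≠ b ^ 2 := by
      rw [ha2, hb2]; intro h
      rw [div_left_inj' (by positivity)] at h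
      linarith
    have hne' : a - b ≠ 0 := by
      intro h; apply hne; rw [sub_eq_zero.mp h]
    have := sq_pos_of_ne_zero hne'
    nlinarith
  obtain ⟨u, v, hu0, hu1, hv, huv, huv2⟩ := uv_exists (a * b) (inner ℂ e w) (by positivity)
    (by
      have h3 : 0 ≤ a * b := by positivity
      nlinarith [norm_nonneg (inner ℂ e w : ℂ)])
  let d : Data E := ⟨k, a, b, u, v, e, w, ha0, hb0, hab, hu0, hu1, hv, huv, huv2, he, hwn⟩
  have key := d.key hh hp h0 hder hpos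
  have e1 : -(inner ℂ d.w (p (d.k + 2) fun _ => d.e)).re = ‖P‖ := by
    change -(inner ℂ w P).re = ‖P‖
    rw [hw, inner_smul_left, inner_self_eq_norm_sq_to_K, Complex.conj_ofReal, Complex.re_ofReal_mul]
    have : ((((‖P‖ : ℝ) : ℂ)) ^ 2).re = ‖P‖ ^ 2 := by norm_cast
    simp only [Complex.coe_algebraMap]
    rw [this]
    field_simp
  rw [e1] at key
  refine key.trans ?_
  change 1 / (b * a ^ (k + 2)) ≤ qc (k + 2)
  unfold qc
  apply Real.le_sqrt_of_sq_le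
  rw [div_pow, one_pow, mul_pow, ← pow_mul, mul_comm (k + 2) 2, pow_mul, ha2, hb2, div_pow, ← hM]
  have hMp : 0 < M ^ (k + 2) := by positivity
  have hM1p : 0 < (M + 1) ^ (k + 2) := by positivity
  apply le_of_eq
  rw [pow_succ (M + 1) (k + 2)]
  field_simp

end

end Carath
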