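import Mathlib

/-! Helper for MP_27276c_an: abstract part of the stability argument. -/

namespace Hil

open MeasureTheory Set Filter Topology
open scoped ENNReal

/-- pointwise improved weighted AM-GM -/
lemma amgm {al be ga th X Y Z : ℝ} (hX : 0 ≤ X) (hY : 0 ≤ Y) (hZ : 0 ≤ Z) (hth : 0 < th)
    (h1 : th ≤ al) (h2 : th ≤ be) (h3 : th ≤ ga) (hs : al + be + ga = 1) :
    X ^ al * Y ^ be * Z ^ ga + th / 2 * (√X - √Z) ^ 2 + th / 2 * (√Y - √Z) ^ 2
      ≤ al * X + be * Y + ga * Z := by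
  have key : X ^ al * Y ^ be * Z ^ ga ≤ (al - th / 2) * X + (be - th / 2) * Y + (ga - th) * Z
      + th * (√X * √Z) + th * (√Y * √Z) := by
    by_cases h0 : X = 0 ∨ Y = 0 ∨ Z = 0
    · have : X ^ al * Y ^ be * Z ^ ga = 0 := by
        rcases h0 with h | h | h
        · rw [h, Real.zero_rpow (by linarith)]; ring
        · rw [h, Real.zero_rpow (by linarith)]; ring
        · rw [h, Real.zero_rpow (by linarith)]; ring
      rw [this]
      have e1 : 0 ≤ (al - th / 2) * X := mul_nonneg (by linarith) hX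
      have e2 : 0 ≤ (be - th / 2) * Y := mul_nonneg (by linarith) hY
      have e3 : 0 ≤ (ga - th) * Z := mul_nonneg (by linarith) hZ
      have e4 : 0 ≤ th * (√X * √Z) := by positivity
      have e5 : 0 ≤ th * (√Y * √Z) := by positivity
      linarith
    · push Not at h0
      have hX' : 0 < X := lt_of_le_of_ne hX (Ne.symm h0.1)
      have hY' : 0 < Y := lt_of_le_of_ne hY (Ne.symm h0.2.1)
      have hZ' : 0 < Z := lt_of_le_of_ne hZ (Ne.symm h0.2.2)
      have h := Real.geom_mean_le_arith_mean_weighted (Finset.univ : Finset (Fin 5))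
        ![al - th / 2, be - th / 2, ga - th, th, th] ![X, Y, Z, √X * √Z, √Y * √Z] ?_ ?_ ?_
      · simp only [Fin.prod_univ_five, Fin.sum_univ_five, Matrix.cons_val_zero,
          Matrix.cons_val_one, Matrix.cons_val] at h
        have e : X ^ (al - th / 2) * Y ^ (be - th / 2) * Z ^ (ga - th) * (√X * √Z) ^ th
            * (√Y * √Z) ^ th = X ^ al * Y ^ be * Z ^ ga := by
          rw [Real.mul_rpow (Real.sqrt_nonneg _) (Real.sqrt_nonneg _),
            Real.mul_rpow (Real.sqrt_nonneg _) (Real.sqrt_nonneg _), Real.sqrt_eq_rpow,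
            Real.sqrt_eq_rpow, Real.sqrt_eq_rpow, ← Real.rpow_mul hX, ← Real.rpow_mul hY,
            ← Real.rpow_mul hZ]
          have e1 : X ^ al = X ^ (al - th / 2) * X ^ (1 / 2 * th) := by
            rw [← Real.rpow_add hX']; congr 1; ring
          have e2 : Y ^ be = Y ^ (be - th / 2) * Y ^ (1 / 2 * th) := by
            rw [← Real.rpow_add hY']; congr 1; ring
          have e3 : Z ^ ga = Z ^ (ga - th) * Z ^ (1 / 2 * th) * Z ^ (1 / 2 * th) := by
            rw [← Real.rpow_add hZ', ← Real.rpow_add hZ']; congr 1; ring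
          rw [e1, e2, e3]
          ring
        rw [e] at h
        linarith
      · intro i _
        fin_cases i <;> simp <;> linarith
      · simp only [Fin.sum_univ_five, Matrix.cons_val_zero,
          Matrix.cons_val_one, Matrix.cons_val]
        linarith
      · intro i _
        fin_cases i <;> simp <;> positivity
  have sX : √X ^ 2 = X := Real.sq_sqrt hX
  have sY : √Y ^ 2 = Y := Real.sq_sqrt hY
  have sZ : √Z ^ 2 = Z := Real.sq_sqrt hZ
  have e6 : (√X - √Z) ^ 2 = X + Z - 2 * (√X * √Z) := by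
    calc (√X - √Z) ^ 2 = √X ^ 2 + √Z ^ 2 - 2 * (√X * √Z) := by ring
      _ = _ := by rw [sX, sZ]
  have e7 : (√Y - √Z) ^ 2 = Y + Z - 2 * (√Y * √Z) := by
    calc (√Y - √Z) ^ 2 = √Y ^ 2 + √Z ^ 2 - 2 * (√Y * √Z) := by ring
      _ = _ := by rw [sY, sZ]
  rw [e6, e7]
  linarith

lemma ptw {P Q ε : ℝ} (hP : 0 ≤ P) (hQ : 0 ≤ Q) (hε : 0 < ε) :
    P ≤ Q + 1 / (2 * ε) * (√P - √Q) ^ 2 + ε * (P + Q) := by
  have sP : √P ^ 2 = P := Real.sq_sqrt hP
  have sQ : √Q ^ 2 = Q := Real.sq_sqrt hQ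
  have h1 : 0 ≤ (2 * ε)⁻¹ * ((√P - √Q) - ε * (√P + √Q)) ^ 2 := by positivity
  have h2 : (2 * ε)⁻¹ * ((√P - √Q) - ε * (√P + √Q)) ^ 2
      = 1 / (2 * ε) * (√P - √Q) ^ 2 - (√P ^ 2 - √Q ^ 2) + ε / 2 * (√P + √Q) ^ 2 := by
    field_simp
    ring
  rw [h2, sP, sQ] at h1
  have h3 : ε / 2 * (√P + √Q) ^ 2 ≤ ε * (P + Q) := by
    have : (√P + √Q) ^ 2 ≤ 2 * (P + Q) := by
      nlinarith [sq_nonneg (√P - √Q)]
    calc ε / 2 * (√P + √Q) ^ 2 ≤ ε / 2 * (2 * (P + Q)) :=
          mul_le_mul_of_nonneg_left this (by positivity)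
      _ = _ := by ring
  linarith

lemma mass {μ : Measure ℝ} {P Q : ℝ → ℝ} (hPm : Measurable P) (hQm : Measurable Q)
    (hP : ∀ x, 0 ≤ P x) (hQ : ∀ x, 0 ≤ Q x)
    (hP1 : ∫⁻ x, ENNReal.ofReal (P x) ∂μ ≤ 1) (hQ1 : ∫⁻ x, ENNReal.ofReal (Q x) ∂μ ≤ 1)
    {ε : ℝ} (hε : 0 < ε) (A : Set ℝ) :
    ∫⁻ x in A, ENNReal.ofReal (P x) ∂μ ≤ ∫⁻ x in A, ENNReal.ofReal (Q x) ∂μ
      + ENNReal.ofReal (1 / (2 * ε)) * ∫⁻ x, ENNReal.ofReal ((√(P x) - √(Q x)) ^ 2) ∂μ
      + ENNReal.ofReal (2 * ε) := by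
  have hmeas : Measurable fun x => ENNReal.ofReal ((√(P x) - √(Q x)) ^ 2) := by fun_prop
  calc ∫⁻ x in A, ENNReal.ofReal (P x) ∂μ
      ≤ ∫⁻ x in A, (ENNReal.ofReal (Q x) + (ENNReal.ofReal (1 / (2 * ε)) *
          ENNReal.ofReal ((√(P x) - √(Q x)) ^ 2)
          + ENNReal.ofReal ε * (ENNReal.ofReal (P x) + ENNReal.ofReal (Q x)))) ∂μ := by
        apply lintegral_mono
        intro x
        have h := ptw (hP x) (hQ x) hε
        have h2 : ENNReal.ofReal (Q x) + (ENNReal.ofReal (1 / (2 * ε)) *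
          ENNReal.ofReal ((√(P x) - √(Q x)) ^ 2)
          + ENNReal.ofReal ε * (ENNReal.ofReal (P x) + ENNReal.ofReal (Q x)))
          = ENNReal.ofReal (Q x + 1 / (2 * ε) * (√(P x) - √(Q x)) ^ 2 + ε * (P x + Q x)) := by
          have := hP x
          have := hQ x
          rw [← ENNReal.ofReal_mul (by positivity), ← ENNReal.ofReal_add (hP x) (hQ x),
            ← ENNReal.ofReal_mul hε.le, ← ENNReal.ofReal_add (by positivity) (by positivity),
            ← ENNReal.ofReal_add (by positivity) (by positivity)]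
          congr 1; ring
        simp only
        rw [h2]
        exact ENNReal.ofReal_le_ofReal h
    _ = ∫⁻ x in A, ENNReal.ofReal (Q x) ∂μ + (∫⁻ x in A, ENNReal.ofReal (1 / (2 * ε)) *
          ENNReal.ofReal ((√(P x) - √(Q x)) ^ 2) ∂μ
          + ∫⁻ x in A, ENNReal.ofReal ε * (ENNReal.ofReal (P x) + ENNReal.ofReal (Q x)) ∂μ) := by
        rw [lintegral_add_left (by fun_prop), lintegral_add_left (by fun_prop)]
    _ ≤ ∫⁻ x in A, ENNReal.ofReal (Q x) ∂μ + (ENNReal.ofReal (1 / (2 * ε)) *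
          ∫⁻ x, ENNReal.ofReal ((√(P x) - √(Q x)) ^ 2) ∂μ + ENNReal.ofReal (2 * ε)) := by
        gcongr
        · rw [lintegral_const_mul _ hmeas]
          gcongr
          exact Measure.restrict_le_self
        · refine (setLIntegral_le_lintegral _ _).trans ?_
          rw [lintegral_const_mul _ (by fun_prop), lintegral_add_left (by fun_prop)]
          calc ENNReal.ofReal ε * (∫⁻ x, ENNReal.ofReal (P x) ∂μ + ∫⁻ x, ENNReal.ofReal (Q x) ∂μ)
              ≤ ENNReal.ofReal ε * (1 + 1) := by gcongr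
            _ = ENNReal.ofReal (2 * ε) := by
                rw [mul_comm 2 ε, ENNReal.ofReal_mul hε.le]
                norm_num
    _ = _ := by rw [add_assoc]

/-- arithmetic in `[0,∞]` -/
lemma comb {V D H : ℝ≥0∞} {hi lo m0 k e : ℝ} (hV : V ≤ 1) (hlo : 0 ≤ lo) (hlh : lo ≤ hi)
    (hhi : hi ≤ 1 + lo) (hm : 0 ≤ m0) (hk : 0 ≤ k) (he : 0 ≤ e)
    (h1 : V * ENNReal.ofReal hi ≤ V * ENNReal.ofReal lo + (ENNReal.ofReal k * D + ENNReal.ofReal e))
    (h2 : ENNReal.ofReal m0 ≤ V + ENNReal.ofReal k * H + ENNReal.ofReal e) :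
    ENNReal.ofReal ((hi - lo) * m0) ≤ ENNReal.ofReal k * D + ENNReal.ofReal k * H
      + ENNReal.ofReal (2 * e) := by
  by_cases hA : ENNReal.ofReal k * D = ⊤
  · rw [hA]; simp
  by_cases hB : ENNReal.ofReal k * H = ⊤
  · rw [hB]; simp
  have hVt : V ≠ ⊤ := ne_top_of_le_ne_top ENNReal.one_ne_top hV
  obtain ⟨v, hv⟩ : ∃ v : ℝ, v = V.toReal := ⟨_, rfl⟩
  obtain ⟨a, ha⟩ : ∃ a : ℝ, a = (ENNReal.ofReal k * D).toReal := ⟨_, rfl⟩
  obtain ⟨b, hb⟩ : ∃ b : ℝ, b = (ENNReal.ofReal k * H).toReal := ⟨_, rfl⟩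
  have hv0 : 0 ≤ v := by rw [hv]; exact ENNReal.toReal_nonneg
  have ha0 : 0 ≤ a := by rw [ha]; exact ENNReal.toReal_nonneg
  have hb0 : 0 ≤ b := by rw [hb]; exact ENNReal.toReal_nonneg
  have eV : V = ENNReal.ofReal v := by rw [hv, ENNReal.ofReal_toReal hVt]
  have eA : ENNReal.ofReal k * D = ENNReal.ofReal a := by rw [ha, ENNReal.ofReal_toReal hA]
  have eB : ENNReal.ofReal k * H = ENNReal.ofReal b := by rw [hb, ENNReal.ofReal_toReal hB]
  rw [eA, eV] at h1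
  rw [eB, eV] at h2
  rw [eA, eB]
  have hhi0 : 0 ≤ hi := hlo.trans hlh
  rw [← ENNReal.ofReal_mul hv0, ← ENNReal.ofReal_mul hv0, ← ENNReal.ofReal_add ha0 he,
    ← ENNReal.ofReal_add (by positivity) (by positivity),
    ENNReal.ofReal_le_ofReal_iff (by positivity)] at h1
  rw [← ENNReal.ofReal_add hv0 hb0, ← ENNReal.ofReal_add (by positivity) (by positivity),
    ENNReal.ofReal_le_ofReal_iff (by positivity)] at h2
  rw [← ENNReal.ofReal_add ha0 hb0, ← ENNReal.ofReal_add (by positivity) (by positivity)]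
  apply ENNReal.ofReal_le_ofReal
  have h3 : (hi - lo) * m0 ≤ (hi - lo) * (v + b + e) :=
    mul_le_mul_of_nonneg_left h2 (by linarith)
  have h4 : (hi - lo) * b ≤ b := by nlinarith
  have h5 : (hi - lo) * e ≤ e := by nlinarith
  nlinarith

/-- The stability estimate. `μ` is Lebesgue measure on the half-line; `k1 x y` is a probability
density in `x`, `k2 x y` is a probability density in `y`. -/
lemma stab {μ : Measure ℝ} [SFinite μ] {k1 k2 : ℝ → ℝ → ℝ}
    (hk1m : Measurable (fun z : ℝ × ℝ => k1 z.1 z.2)) (hk2m : Measurable (fun z : ℝ × ℝ => k2 z.1 z.2))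
    (hk1 : ∀ x y, 0 ≤ k1 x y) (hk2 : ∀ x y, 0 ≤ k2 x y)
    (hk1i : ∀ᵐ y ∂μ, ∫⁻ x, ENNReal.ofReal (k1 x y) ∂μ ≤ 1)
    (hk2i : ∀ᵐ x ∂μ, ∫⁻ y, ENNReal.ofReal (k2 x y) ∂μ ≤ 1)
    {t2 t1 m0 : ℝ} (ht2 : 0 ≤ t2) (ht : t2 < t1) (ht1 : t1 ≤ 1) (hm0 : 0 < m0)
    (A B : ℝ → Set ℝ) (hAm : ∀ x, MeasurableSet (A x)) (hBm : ∀ x, MeasurableSet (B x))
    (hA : ∀ᵐ x ∂μ, ENNReal.ofReal m0 ≤ ∫⁻ y in A x, ENNReal.ofReal (k2 x y) ∂μ)
    (hB : ∀ᵐ x ∂μ, ENNReal.ofReal m0 ≤ ∫⁻ y in B x, ENNReal.ofReal (k2 x y) ∂μ)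
    (hkA : ∀ᵐ x ∂μ, ∀ᵐ y ∂μ, y ∈ A x → ∫⁻ s in Ioi x, ENNReal.ofReal (k1 s y) ∂μ ≤ ENNReal.ofReal t2)
    (hkB : ∀ᵐ x ∂μ, ∀ᵐ y ∂μ, y ∈ B x → ENNReal.ofReal t1 ≤ ∫⁻ s in Ioi x, ENNReal.ofReal (k1 s y) ∂μ)
    {u v : ℝ → ℝ} (hum : Measurable u) (hvm : Measurable v) (hu : ∀ x, 0 ≤ u x) (hv : ∀ x, 0 ≤ v x)
    (hu1 : ∫⁻ x, ENNReal.ofReal (u x) ∂μ = 1) (hv1 : ∫⁻ x, ENNReal.ofReal (v x) ∂μ = 1) :
    ENNReal.ofReal (((t1 - t2) * m0) ^ 2 / 128)
      ≤ ∫⁻ y, ENNReal.ofReal (v y) * ∫⁻ x, ENNReal.ofReal ((√(k1 x y) - √(u x)) ^ 2) ∂μ ∂μ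
        + ∫⁻ x, ENNReal.ofReal (u x) * ∫⁻ y, ENNReal.ofReal ((√(k2 x y) - √(v y)) ^ 2) ∂μ ∂μ := by
  set D1 := ∫⁻ y, ENNReal.ofReal (v y) * ∫⁻ x, ENNReal.ofReal ((√(k1 x y) - √(u x)) ^ 2) ∂μ ∂μ with hD1
  set D2 := ∫⁻ x, ENNReal.ofReal (u x) * ∫⁻ y, ENNReal.ofReal ((√(k2 x y) - √(v y)) ^ 2) ∂μ ∂μ with hD2
  set h1 : ℝ → ℝ≥0∞ := fun y => ∫⁻ x, ENNReal.ofReal ((√(k1 x y) - √(u x)) ^ 2) ∂μ with hh1
  set h2 : ℝ → ℝ≥0∞ := fun x => ∫⁻ y, ENNReal.ofReal ((√(k2 x y) - √(v y)) ^ 2) ∂μ with hh2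
  have hk1m' : ∀ y, Measurable fun x => k1 x y := fun y =>
    hk1m.comp (measurable_id.prodMk measurable_const)
  have hk2m' : ∀ x, Measurable fun y => k2 x y := fun x =>
    hk2m.comp (measurable_const.prodMk measurable_id)
  have hh1m : Measurable h1 := by
    apply Measurable.lintegral_prod_left' (f := fun z : ℝ × ℝ => ENNReal.ofReal ((√(k1 z.1 z.2) - √(u z.1)) ^ 2))
    apply Measurable.ennreal_ofReal
    exact ((hk1m.sqrt).sub (hum.comp measurable_fst).sqrt).pow_const 2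
  have hh2m : Measurable h2 := by
    apply Measurable.lintegral_prod_right' (f := fun z : ℝ × ℝ => ENNReal.ofReal ((√(k2 z.1 z.2) - √(v z.2)) ^ 2))
    apply Measurable.ennreal_ofReal
    exact ((hk2m.sqrt).sub (hvm.comp measurable_snd).sqrt).pow_const 2
  set Δ := (t1 - t2) / 2 with hΔ
  have hΔ0 : 0 < Δ := by rw [hΔ]; linarith
  set ε := Δ * m0 / 8 with hε
  have hε0 : 0 < ε := by positivity
  have hclaim : ∀ᵐ x ∂μ, ENNReal.ofReal (Δ * m0) ≤ ENNReal.ofReal (1 / (2 * ε)) * D1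
      + ENNReal.ofReal (1 / (2 * ε)) * h2 x + ENNReal.ofReal (2 * (2 * ε)) := by
    filter_upwards [hk2i, hA, hB, hkA, hkB] with x hx1 hxA hxB hxkA hxkB
    set U := ∫⁻ s in Ioi x, ENNReal.ofReal (u s) ∂μ with hU
    set m := (t1 + t2) / 2 with hm
    have hswap : ∀ y, ∫⁻ s, ENNReal.ofReal ((√(u s) - √(k1 s y)) ^ 2) ∂μ = h1 y := by
      intro y
      rw [hh1]
      simp only
      apply lintegral_congr
      intro s
      congr 1
      ring
    -- mass comparisons for k1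
    have hup : ∀ᵐ y ∂μ, U ≤ ∫⁻ s in Ioi x, ENNReal.ofReal (k1 s y) ∂μ
        + ENNReal.ofReal (1 / (2 * ε)) * h1 y + ENNReal.ofReal (2 * ε) := by
      filter_upwards [hk1i] with y hy
      have := mass (μ := μ) hum (hk1m' y) hu (fun s => hk1 s y) hu1.le hy hε0 (Ioi x)
      rw [hswap] at this
      exact this
    have hdn : ∀ᵐ y ∂μ, ∫⁻ s in Ioi x, ENNReal.ofReal (k1 s y) ∂μ ≤ U
        + ENNReal.ofReal (1 / (2 * ε)) * h1 y + ENNReal.ofReal (2 * ε) := by
      filter_upwards [hk1i] with y hy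
      exact mass (μ := μ) (hk1m' y) hum (fun s => hk1 s y) hu hy hu1.le hε0 (Ioi x)
    -- mass comparison for k2
    have hV : ∀ S : Set ℝ, ENNReal.ofReal m0 ≤ ∫⁻ y in S, ENNReal.ofReal (k2 x y) ∂μ →
        ENNReal.ofReal m0 ≤ ∫⁻ y in S, ENNReal.ofReal (v y) ∂μ
          + ENNReal.ofReal (1 / (2 * ε)) * h2 x + ENNReal.ofReal (2 * ε) := by
      intro S hS
      exact hS.trans (mass (μ := μ) (hk2m' x) hvm (hk2 x) hv hx1 hv1.le hε0 S)
    have hVle : ∀ S : Set ℝ, ∫⁻ y in S, ENNReal.ofReal (v y) ∂μ ≤ 1 := fun S =>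
      (setLIntegral_le_lintegral _ _).trans hv1.le
    -- integrate an inequality against v over S
    have hint : ∀ (S : Set ℝ) (hi lo : ℝ), MeasurableSet S → (∀ᵐ y ∂μ, y ∈ S → ENNReal.ofReal hi
        ≤ ENNReal.ofReal lo + ENNReal.ofReal (1 / (2 * ε)) * h1 y + ENNReal.ofReal (2 * ε)) →
        (∫⁻ y in S, ENNReal.ofReal (v y) ∂μ) * ENNReal.ofReal hi
          ≤ (∫⁻ y in S, ENNReal.ofReal (v y) ∂μ) * ENNReal.ofReal lo
            + (ENNReal.ofReal (1 / (2 * ε)) * D1 + ENNReal.ofReal (2 * ε)) := by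
      intro S hi lo hSm hS
      calc (∫⁻ y in S, ENNReal.ofReal (v y) ∂μ) * ENNReal.ofReal hi
          = ∫⁻ y in S, ENNReal.ofReal (v y) * ENNReal.ofReal hi ∂μ :=
            (lintegral_mul_const _ (by fun_prop)).symm
        _ ≤ ∫⁻ y in S, (ENNReal.ofReal (v y) * ENNReal.ofReal lo
            + (ENNReal.ofReal (1 / (2 * ε)) * (ENNReal.ofReal (v y) * h1 y)
              + ENNReal.ofReal (2 * ε) * ENNReal.ofReal (v y))) ∂μ := by
            apply lintegral_mono_ae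
            rw [ae_restrict_iff' hSm]
            filter_upwards [hS] with y hy hyS
            calc ENNReal.ofReal (v y) * ENNReal.ofReal hi
                ≤ ENNReal.ofReal (v y) * (ENNReal.ofReal lo
                  + ENNReal.ofReal (1 / (2 * ε)) * h1 y + ENNReal.ofReal (2 * ε)) := by
                    gcongr; exact hy hyS
              _ = _ := by ring
        _ = (∫⁻ y in S, ENNReal.ofReal (v y) ∂μ) * ENNReal.ofReal lo
            + (ENNReal.ofReal (1 / (2 * ε)) * ∫⁻ y in S, ENNReal.ofReal (v y) * h1 y ∂μ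
              + ENNReal.ofReal (2 * ε) * ∫⁻ y in S, ENNReal.ofReal (v y) ∂μ) := by
            rw [lintegral_add_left (by fun_prop), lintegral_add_left (by fun_prop),
              lintegral_mul_const _ (by fun_prop), lintegral_const_mul _ (by fun_prop),
              lintegral_const_mul _ (by fun_prop)]
        _ ≤ _ := by
            gcongr
            · rw [hD1]; exact setLIntegral_le_lintegral _ _
            · calc ENNReal.ofReal (2 * ε) * ∫⁻ y in S, ENNReal.ofReal (v y) ∂μ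
                  ≤ ENNReal.ofReal (2 * ε) * 1 := by gcongr; exact hVle S
                _ = _ := mul_one _
    rcases le_total (ENNReal.ofReal m) U with hc | hc
    · -- U is large: use A
      have h3 := hint (A x) m t2 (hAm x) (by
        filter_upwards [hup, hxkA] with y hy1 hy2 hyA
        refine (hc.trans hy1).trans ?_
        gcongr
        exact hy2 hyA)
      have h4 := comb (hVle (A x)) ht2 (by rw [hm]; linarith) (by rw [hm]; linarith) hm0.le
        (by positivity) (by positivity) h3 (hV _ hxA)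
      have e : (m - t2) * m0 = Δ * m0 := by rw [hm, hΔ]; ring
      rwa [e] at h4
    · have h3 := hint (B x) t1 m (hBm x) (by
        filter_upwards [hdn, hxkB] with y hy1 hy2 hyB
        refine (hy2 hyB).trans (hy1.trans ?_)
        gcongr)
      have h4 := comb (hVle (B x)) (by rw [hm]; linarith) (by rw [hm]; linarith)
        (by rw [hm]; linarith) hm0.le
        (by positivity) (by positivity) h3 (hV _ hxB)
      have e : (t1 - m) * m0 = Δ * m0 := by rw [hm, hΔ]; ring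
      rwa [e] at h4
  -- integrate against u
  have hfin : ENNReal.ofReal (Δ * m0) ≤ ENNReal.ofReal (1 / (2 * ε)) * D1
      + ENNReal.ofReal (1 / (2 * ε)) * D2 + ENNReal.ofReal (2 * (2 * ε)) := by
    calc ENNReal.ofReal (Δ * m0) = ∫⁻ x, ENNReal.ofReal (u x) * ENNReal.ofReal (Δ * m0) ∂μ := by
          rw [lintegral_mul_const _ (by fun_prop), hu1, one_mul]
      _ ≤ ∫⁻ x, (ENNReal.ofReal (u x) * (ENNReal.ofReal (1 / (2 * ε)) * D1)
          + (ENNReal.ofReal (1 / (2 * ε)) * (ENNReal.ofReal (u x) * h2 x)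
            + ENNReal.ofReal (u x) * ENNReal.ofReal (2 * (2 * ε)))) ∂μ := by
          apply lintegral_mono_ae
          filter_upwards [hclaim] with x hx
          calc ENNReal.ofReal (u x) * ENNReal.ofReal (Δ * m0)
              ≤ ENNReal.ofReal (u x) * (ENNReal.ofReal (1 / (2 * ε)) * D1
                + ENNReal.ofReal (1 / (2 * ε)) * h2 x + ENNReal.ofReal (2 * (2 * ε))) := by
                  gcongr
            _ = _ := by ring
      _ = _ := by
          rw [lintegral_add_left (by fun_prop), lintegral_add_left (by fun_prop),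
            lintegral_mul_const _ (by fun_prop), lintegral_const_mul _ (by fun_prop),
            lintegral_mul_const _ (by fun_prop), hu1, one_mul, one_mul, add_assoc]
  have e1 : ENNReal.ofReal (2 * (2 * ε)) = ENNReal.ofReal (Δ * m0 / 2) := by
    congr 1; rw [hε]; ring
  rw [e1, ← mul_add] at hfin
  by_cases hT : D1 + D2 = ⊤
  · rw [hT]; exact le_top
  obtain ⟨s, hs⟩ : ∃ s : ℝ, s = (D1 + D2).toReal := ⟨_, rfl⟩
  have hs0 : 0 ≤ s := by rw [hs]; exact ENNReal.toReal_nonneg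
  have eS : D1 + D2 = ENNReal.ofReal s := by rw [hs, ENNReal.ofReal_toReal hT]
  rw [eS] at hfin ⊢
  rw [← ENNReal.ofReal_mul (by positivity), ← ENNReal.ofReal_add (by positivity) (by positivity),
    ENNReal.ofReal_le_ofReal_iff (by positivity)] at hfin
  apply ENNReal.ofReal_le_ofReal
  have h5 : Δ * m0 / 2 ≤ 1 / (2 * ε) * s := by linarith
  have h6 : 1 / (2 * ε) * s = 4 * s / (Δ * m0) := by
    rw [hε]; field_simp; ring
  rw [h6, le_div_iff₀ (by positivity)] at h5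
  have h7 : ((t1 - t2) * m0) ^ 2 = 4 * (Δ * m0) ^ 2 := by rw [hΔ]; ring
  rw [h7]
  nlinarith

end Hil
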