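import Mathlib
import Pool.Agent.Helper6.HilA

/-! Helper for MP_27276c_an: the kernel. -/

namespace Hil

open MeasureTheory Set Filter Topology
open scoped ENNReal

/-- `∫_0^∞ s^{a-1}/(1+s) ds = Γ(a)Γ(1-a)` -/
lemma beta_lintegral {a : ℝ} (h0 : 0 < a) (h1 : a < 1) :
    ∫⁻ s in Ioi (0 : ℝ), ENNReal.ofReal (s ^ (a - 1) / (1 + s))
      = ENNReal.ofReal (Real.pi / Real.sin (Real.pi * a)) := by
  have hint1 : ∀ s ∈ Ioi (0 : ℝ), ∫⁻ t in Ioi (0 : ℝ), ENNReal.ofReal (s ^ (a - 1) * Real.exp (-((1 + s) * t)))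
      = ENNReal.ofReal (s ^ (a - 1) / (1 + s)) := by
    intro s hs
    have hs' : (0 : ℝ) < s := hs
    have h := Real.integral_rpow_mul_exp_neg_mul_Ioi (a := 1) (r := 1 + s) one_pos (by positivity)
    have hi : IntegrableOn (fun t : ℝ => Real.exp (-((1 + s) * t))) (Ioi 0) := by
      have := integrableOn_rpow_mul_exp_neg_mul_rpow (s := 0) (p := 1) (b := 1 + s)
        (by norm_num) one_pos (by positivity)
      refine this.congr_fun ?_ measurableSet_Ioi
      intro t _
      simp only [Real.rpow_zero, one_mul, Real.rpow_one]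
      congr 1; ring
    have hI : ∫ t in Ioi (0 : ℝ), Real.exp (-((1 + s) * t)) = 1 / (1 + s) := by
      have e : ∫ t in Ioi (0 : ℝ), Real.exp (-((1 + s) * t))
          = ∫ t in Ioi (0 : ℝ), t ^ ((1 : ℝ) - 1) * Real.exp (-((1 + s) * t)) := by
        apply setIntegral_congr_fun measurableSet_Ioi
        intro t _
        simp
      rw [e, h]; simp
    have e2 : ∫ t in Ioi (0 : ℝ), s ^ (a - 1) * Real.exp (-((1 + s) * t)) = s ^ (a - 1) / (1 + s) := by
      rw [integral_const_mul, hI]; ring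
    rw [← e2, ofReal_integral_eq_lintegral_ofReal (hi.const_mul _)]
    filter_upwards with t
    positivity
  have hint2 : ∀ t ∈ Ioi (0 : ℝ), ∫⁻ s in Ioi (0 : ℝ), ENNReal.ofReal (s ^ (a - 1) * Real.exp (-((1 + s) * t)))
      = ENNReal.ofReal (Real.Gamma a * (t ^ (-a) * Real.exp (-t))) := by
    intro t ht
    have ht' : (0 : ℝ) < t := ht
    have h := Real.integral_rpow_mul_exp_neg_mul_Ioi (a := a) (r := t) h0 ht'
    have hi : IntegrableOn (fun s : ℝ => s ^ (a - 1) * Real.exp (-(t * s))) (Ioi 0) := by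
      have := integrableOn_rpow_mul_exp_neg_mul_rpow (s := a - 1) (p := 1) (b := t)
        (by linarith) one_pos ht'
      refine this.congr_fun ?_ measurableSet_Ioi
      intro s _
      simp
    have e2 : ∫ s in Ioi (0 : ℝ), s ^ (a - 1) * Real.exp (-((1 + s) * t))
        = Real.Gamma a * (t ^ (-a) * Real.exp (-t)) := by
      have e3 : ∀ s : ℝ, s ^ (a - 1) * Real.exp (-((1 + s) * t))
          = Real.exp (-t) * (s ^ (a - 1) * Real.exp (-(t * s))) := by
        intro s
        rw [show -((1 + s) * t) = -t + -(t * s) by ring, Real.exp_add]; ring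
      simp_rw [e3]
      rw [integral_const_mul, h, one_div, Real.inv_rpow ht'.le, ← Real.rpow_neg ht'.le]
      ring
    have hi2 : IntegrableOn (fun s : ℝ => s ^ (a - 1) * Real.exp (-((1 + s) * t))) (Ioi 0) := by
      have : IntegrableOn (fun s : ℝ => Real.exp (-t) * (s ^ (a - 1) * Real.exp (-(t * s)))) (Ioi 0) :=
        hi.const_mul (Real.exp (-t))
      refine this.congr_fun ?_ measurableSet_Ioi
      intro s _
      simp only
      rw [show -((1 + s) * t) = -t + -(t * s) by ring, Real.exp_add]; ring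
    rw [← e2, ofReal_integral_eq_lintegral_ofReal hi2]
    rw [EventuallyLE, ae_restrict_iff' measurableSet_Ioi]
    filter_upwards with s hs
    have hs' : (0 : ℝ) < s := hs
    have := Real.rpow_nonneg hs'.le (a - 1)
    simp only [Pi.zero_apply]
    positivity
  have hswap : ∫⁻ s in Ioi (0 : ℝ), ∫⁻ t in Ioi (0 : ℝ), ENNReal.ofReal (s ^ (a - 1) * Real.exp (-((1 + s) * t)))
      = ∫⁻ t in Ioi (0 : ℝ), ∫⁻ s in Ioi (0 : ℝ), ENNReal.ofReal (s ^ (a - 1) * Real.exp (-((1 + s) * t))) := by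
    apply lintegral_lintegral_swap
    apply Measurable.aemeasurable
    unfold Function.uncurry
    fun_prop
  rw [setLIntegral_congr_fun measurableSet_Ioi hint1,
    setLIntegral_congr_fun measurableSet_Ioi hint2] at hswap
  rw [hswap]
  have h := Real.integral_rpow_mul_exp_neg_mul_Ioi (a := 1 - a) (r := 1) (by linarith) one_pos
  have hi : IntegrableOn (fun t : ℝ => t ^ (-a) * Real.exp (-t)) (Ioi 0) := by
    have := integrableOn_rpow_mul_exp_neg_mul_rpow (s := -a) (p := 1) (b := 1)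
      (by linarith) one_pos one_pos
    refine this.congr_fun ?_ measurableSet_Ioi
    intro s _
    simp
  have e4 : ∫ t in Ioi (0 : ℝ), Real.Gamma a * (t ^ (-a) * Real.exp (-t))
      = Real.pi / Real.sin (Real.pi * a) := by
    rw [integral_const_mul, ← Real.Gamma_mul_Gamma_one_sub]
    congr 1
    have e5 : ∫ t in Ioi (0 : ℝ), t ^ (-a) * Real.exp (-t)
        = ∫ t in Ioi (0 : ℝ), t ^ ((1 - a) - 1) * Real.exp (-(1 * t)) := by
      apply setIntegral_congr_fun measurableSet_Ioi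
      intro t _
      simp only
      rw [one_mul]; congr 2; ring
    rw [e5, h]; simp
  rw [← e4, ofReal_integral_eq_lintegral_ofReal (hi.const_mul _)]
  rw [EventuallyLE, ae_restrict_iff' measurableSet_Ioi]
  filter_upwards with t ht
  have ht' : (0 : ℝ) < t := ht
  have h1 := Real.rpow_nonneg ht'.le (-a)
  have h2 := (Real.Gamma_pos_of_pos h0).le
  simp only [Pi.zero_apply]
  positivity

/-- the normalizing constant -/
noncomputable def cc (a : ℝ) : ℝ := Real.sin (Real.pi * a) / Real.pi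

lemma cc_pos {a : ℝ} (h0 : 0 < a) (h1 : a < 1) : 0 < cc a := by
  unfold cc
  apply div_pos _ Real.pi_pos
  apply Real.sin_pos_of_pos_of_lt_pi
  · exact mul_pos Real.pi_pos h0
  · nlinarith [Real.pi_pos]

lemma cc_symm (a : ℝ) : cc (1 - a) = cc a := by
  unfold cc
  rw [show Real.pi * (1 - a) = Real.pi - Real.pi * a by ring, Real.sin_pi_sub]

/-- the kernel (extended by zero) -/
noncomputable def ka (a x y : ℝ) : ℝ :=
  if 0 < x ∧ 0 < y then cc a * ((x / y) ^ (a - 1) / (x + y)) else 0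

lemma ka_nonneg {a : ℝ} (h0 : 0 < a) (h1 : a < 1) (x y : ℝ) : 0 ≤ ka a x y := by
  unfold ka
  split_ifs with h
  · obtain ⟨hx, hy⟩ := h
    have := cc_pos h0 h1
    positivity
  · exact le_rfl

lemma ka_meas (a : ℝ) : Measurable (fun z : ℝ × ℝ => ka a z.1 z.2) := by
  unfold ka
  apply Measurable.ite
  · exact (measurableSet_lt measurable_const measurable_fst).inter
      (measurableSet_lt measurable_const measurable_snd)
  · fun_prop
  · exact measurable_const

/-- tail function -/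
noncomputable def T (a r : ℝ) : ℝ≥0∞ :=
  ∫⁻ s in Ioi r, ENNReal.ofReal (cc a * (s ^ (a - 1) / (1 + s)))

lemma T_zero {a : ℝ} (h0 : 0 < a) (h1 : a < 1) : T a 0 = 1 := by
  unfold T
  have hc := cc_pos h0 h1
  simp_rw [ENNReal.ofReal_mul hc.le]
  rw [lintegral_const_mul _ (by fun_prop), beta_lintegral h0 h1, ← ENNReal.ofReal_mul hc.le]
  unfold cc at hc ⊢
  have hs : Real.sin (Real.pi * a) ≠ 0 := by
    intro h; rw [h] at hc; simp at hc
  have hp : Real.pi ≠ 0 := Real.pi_ne_zero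
  rw [show Real.sin (Real.pi * a) / Real.pi * (Real.pi / Real.sin (Real.pi * a)) = 1 by
    field_simp]
  simp

lemma T_anti (a : ℝ) {r r' : ℝ} (h : r ≤ r') : T a r' ≤ T a r := by
  unfold T
  exact lintegral_mono_set (Ioi_subset_Ioi h)

/-- scaling -/
lemma ka_tail {a : ℝ} (r y : ℝ) (hr : 0 ≤ r) (hy : 0 < y) :
    ∫⁻ x in Ioi r, ENNReal.ofReal (ka a x y) = T a (r / y) := by
  unfold T
  have hemb : MeasurableEmbedding (fun s : ℝ => y * s) :=
    (Homeomorph.mulLeft₀ y hy.ne').measurableEmbedding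
  have hmap : Measure.map (fun s : ℝ => y * s) volume = ENNReal.ofReal (y⁻¹) • volume := by
    rw [Real.map_volume_mul_left hy.ne', abs_of_pos (by positivity)]
  have h1 : ∫⁻ x in Ioi r, ENNReal.ofReal (ka a x y) ∂(Measure.map (fun s : ℝ => y * s) volume)
      = ∫⁻ s in (fun s : ℝ => y * s) ⁻¹' Ioi r, ENNReal.ofReal (ka a (y * s) y) := by
    rw [hemb.restrict_map, hemb.lintegral_map]
  rw [hmap, Measure.restrict_smul, lintegral_smul_measure] at h1
  have h2 : (fun s : ℝ => y * s) ⁻¹' Ioi r = Ioi (r / y) := by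
    ext s
    simp only [mem_preimage, mem_Ioi]
    rw [div_lt_iff₀ hy, mul_comm]
  rw [h2] at h1
  have h3 : ∫⁻ s in Ioi (r / y), ENNReal.ofReal (ka a (y * s) y)
      = ENNReal.ofReal y⁻¹ * ∫⁻ s in Ioi (r / y), ENNReal.ofReal (cc a * (s ^ (a - 1) / (1 + s))) := by
    rw [← lintegral_const_mul _ (by fun_prop)]
    apply setLIntegral_congr_fun measurableSet_Ioi
    intro s hs
    have hs0 : 0 < s := lt_of_le_of_lt (by positivity) (show r / y < s from hs)
    simp only
    rw [← ENNReal.ofReal_mul (by positivity)]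
    congr 1
    unfold ka
    rw [if_pos ⟨by positivity, hy⟩]
    have e : y * s / y = s := by field_simp
    rw [e]
    field_simp
    ring
  rw [h3, smul_eq_mul] at h1
  have hyne : ENNReal.ofReal y⁻¹ ≠ 0 := by
    rw [Ne, ENNReal.ofReal_eq_zero, not_le]; positivity
  exact (ENNReal.mul_right_inj hyne ENNReal.ofReal_ne_top).mp h1

lemma T_lt_top {a : ℝ} (h0 : 0 < a) (h1 : a < 1) {r : ℝ} (hr : 0 ≤ r) : T a r ≤ 1 := by
  rw [← T_zero h0 h1]; exact T_anti a hr

lemma lint_pos {a : ℝ} (h0 : 0 < a) (h1 : a < 1) {r r' : ℝ} (hr : 0 ≤ r) (h : r < r') :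
    0 < ∫⁻ s in Ioc r r', ENNReal.ofReal (cc a * (s ^ (a - 1) / (1 + s))) := by
  rw [setLIntegral_pos_iff (by fun_prop)]
  have hsub : Ioc r r' ⊆ Function.support
      (fun s : ℝ => ENNReal.ofReal (cc a * (s ^ (a - 1) / (1 + s)))) ∩ Ioc r r' := by
    intro s hs
    refine ⟨?_, hs⟩
    have hs0 : 0 < s := lt_of_le_of_lt hr hs.1
    have hc := cc_pos h0 h1
    rw [Function.mem_support, Ne, ENNReal.ofReal_eq_zero, not_le]
    positivity
  refine lt_of_lt_of_le ?_ (measure_mono hsub)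
  rw [Real.volume_Ioc, ENNReal.ofReal_pos]
  linarith

lemma T_split {a : ℝ} {r r' : ℝ} (h : r ≤ r') :
    T a r = (∫⁻ s in Ioc r r', ENNReal.ofReal (cc a * (s ^ (a - 1) / (1 + s)))) + T a r' := by
  unfold T
  rw [← Ioc_union_Ioi_eq_Ioi h, lintegral_union measurableSet_Ioi]
  rw [Set.disjoint_left]
  intro x hx hx'
  exact absurd hx.2 (not_le.mpr hx')

lemma T_pos {a : ℝ} (h0 : 0 < a) (h1 : a < 1) {r : ℝ} (hr : 0 ≤ r) : 0 < T a r := by
  rw [T_split (show r ≤ r + 1 by linarith)]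
  exact lt_of_lt_of_le (lint_pos h0 h1 hr (by linarith)) le_self_add

lemma T_strict {a : ℝ} (h0 : 0 < a) (h1 : a < 1) {r r' : ℝ} (hr : 0 ≤ r) (h : r < r') :
    T a r' < T a r := by
  rw [T_split h.le]
  have h2 : T a r' ≠ ⊤ := ne_top_of_le_ne_top ENNReal.one_ne_top (T_lt_top h0 h1 (by linarith))
  rw [add_comm]
  exact ENNReal.lt_add_right h2 (lint_pos h0 h1 hr h).ne'

/-- mass on `(0, r]` -/
lemma ka_head {a : ℝ} (h0 : 0 < a) (h1 : a < 1) (r y : ℝ) (hr : 0 ≤ r) (hy : 0 < y) :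
    ∫⁻ x in Ioc 0 r, ENNReal.ofReal (ka a x y)
      = ∫⁻ s in Ioc 0 (r / y), ENNReal.ofReal (cc a * (s ^ (a - 1) / (1 + s))) := by
  have e1 : T a 0 = (∫⁻ x in Ioc 0 r, ENNReal.ofReal (ka a x y)) + T a (r / y) := by
    have h2 := ka_tail (a := a) 0 y le_rfl hy
    rw [zero_div] at h2
    rw [← h2, ← ka_tail r y hr hy, ← Ioc_union_Ioi_eq_Ioi hr, lintegral_union measurableSet_Ioi]
    rw [Set.disjoint_left]
    intro x hx hx'
    exact absurd hx.2 (not_le.mpr hx')
  have e2 := T_split (a := a) (show (0 : ℝ) ≤ r / y by positivity)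
  rw [e1] at e2
  have h2 : T a (r / y) ≠ ⊤ := ne_top_of_le_ne_top ENNReal.one_ne_top (T_lt_top h0 h1 (by positivity))
  exact (ENNReal.add_left_inj h2).mp e2

end Hil
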