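import Mathlib
import Pool.Agent.Helper6.HilB

/-! Helper for MP_27276c_an: the improved inequality for probability densities. -/

namespace Hil

open MeasureTheory Set Filter Topology
open scoped ENNReal

lemma factor {al be a : ℝ} (hal : 0 < al) (hbe : 0 < be) (hs : al + be < 1)
    (ha : a = al / (al + be)) {x y u v : ℝ} (hx : 0 < x) (hy : 0 < y) (hu : 0 ≤ u) (hv : 0 ≤ v) :
    u ^ (1 - al) * v ^ (1 - be) * (x + y) ^ (-(al + be))
      = (cc a) ^ (-(al + be)) *
        ((v * ka a x y) ^ al * (u * ka (1 - a) y x) ^ be * (u * v) ^ (1 - al - be)) := by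
  have hab : 0 < al + be := by positivity
  have ha0 : 0 < a := by rw [ha]; positivity
  have ha1 : a < 1 := by rw [ha, div_lt_one hab]; linarith
  have hc := cc_pos ha0 ha1
  have hxy : 0 < x + y := by positivity
  have hR : 0 < x / y := by positivity
  have e1 : ka a x y = cc a * ((x / y) ^ (a - 1) * (x + y)⁻¹) := by
    unfold ka; rw [if_pos ⟨hx, hy⟩, div_eq_mul_inv]
  have e2 : ka (1 - a) y x = cc a * ((x / y) ^ a * (x + y)⁻¹) := by
    unfold ka
    rw [if_pos ⟨hy, hx⟩, cc_symm, div_eq_mul_inv, add_comm y x]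
    congr 2
    rw [show 1 - a - 1 = -a by ring, ← inv_div x y, Real.inv_rpow hR.le, Real.rpow_neg hR.le, inv_inv]
  rw [e1, e2]
  have hp1 : 0 ≤ (x / y) ^ (a - 1) := by positivity
  have hp2 : 0 ≤ (x / y) ^ a := by positivity
  have hi : 0 ≤ (x + y)⁻¹ := by positivity
  rw [Real.mul_rpow hv (by positivity), Real.mul_rpow hc.le (by positivity), Real.mul_rpow hp1 hi,
    Real.mul_rpow hu (by positivity), Real.mul_rpow hc.le (by positivity), Real.mul_rpow hp2 hi,
    Real.mul_rpow hu hv, ← Real.rpow_mul hR.le, ← Real.rpow_mul hR.le]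
  have g1 : (x / y) ^ ((a - 1) * al) * (x / y) ^ (a * be) = 1 := by
    rw [← Real.rpow_add hR]
    have : (a - 1) * al + a * be = 0 := by
      rw [ha]; field_simp; ring
    rw [this, Real.rpow_zero]
  have g2 : cc a ^ (-(al + be)) * (cc a ^ al * cc a ^ be) = 1 := by
    rw [← Real.rpow_add hc, ← Real.rpow_add hc]
    simp
  have g3 : (x + y)⁻¹ ^ al * (x + y)⁻¹ ^ be = (x + y) ^ (-(al + be)) := by
    rw [← Real.rpow_add (by positivity), Real.inv_rpow hxy.le, Real.rpow_neg hxy.le]
  have g4 : u ^ (1 - al) = u ^ be * u ^ (1 - al - be) := by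
    rw [← Real.rpow_add_of_nonneg hu hbe.le (by linarith)]; congr 1; ring
  have g5 : v ^ (1 - be) = v ^ al * v ^ (1 - al - be) := by
    rw [← Real.rpow_add_of_nonneg hv hal.le (by linarith)]; congr 1; ring
  calc u ^ (1 - al) * v ^ (1 - be) * (x + y) ^ (-(al + be))
      = (u ^ be * u ^ (1 - al - be)) * (v ^ al * v ^ (1 - al - be)) *
        ((x + y)⁻¹ ^ al * (x + y)⁻¹ ^ be) * ((x / y) ^ ((a - 1) * al) * (x / y) ^ (a * be))
        * (cc a ^ (-(al + be)) * (cc a ^ al * cc a ^ be)) := by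
        rw [g1, g2, g3, g4, g5]; ring
    _ = _ := by ring

theorem norm_bound {al be : ℝ} (hal : 0 < al) (hbe : 0 < be) (hs : al + be < 1) :
    ∃ η : ℝ, 0 < η ∧ η < 1 ∧ ∀ u v : ℝ → ℝ, Measurable u → Measurable v → (∀ x, 0 ≤ u x) →
      (∀ x, 0 ≤ v x) → ∫⁻ x in Ioi 0, ENNReal.ofReal (u x) = 1 →
      ∫⁻ x in Ioi 0, ENNReal.ofReal (v x) = 1 →
      ∫⁻ x in Ioi 0, ∫⁻ y in Ioi 0,
        ENNReal.ofReal (u x ^ (1 - al) * v y ^ (1 - be) * (x + y) ^ (-(al + be)))
        ≤ ENNReal.ofReal ((1 - η) * (cc (al / (al + be))) ^ (-(al + be))) := by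
  set a := al / (al + be) with ha
  have hab : 0 < al + be := by positivity
  have ha0 : 0 < a := by rw [ha]; positivity
  have ha1 : a < 1 := by rw [ha, div_lt_one hab]; linarith
  have ha0' : 0 < 1 - a := by linarith
  have ha1' : 1 - a < 1 := by linarith
  have hc := cc_pos ha0 ha1
  set μ : Measure ℝ := volume.restrict (Ioi 0) with hμ
  set ga := 1 - al - be with hga
  have hga0 : 0 < ga := by rw [hga]; linarith
  set th := min al (min be ga) with hth
  have hth0 : 0 < th := lt_min hal (lt_min hbe hga0)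
  have hth1 : th ≤ al := min_le_left _ _
  have hth2 : th ≤ be := (min_le_right _ _).trans (min_le_left _ _)
  have hth3 : th ≤ ga := (min_le_right _ _).trans (min_le_right _ _)
  -- constants
  set t1 := (T a (1 / 2)).toReal with ht1
  set t2 := (T a 2).toReal with ht2
  have hT1 : T a (1 / 2) ≤ 1 := T_lt_top ha0 ha1 (by norm_num)
  have hT2 : T a 2 ≤ 1 := T_lt_top ha0 ha1 (by norm_num)
  have hT1' : T a (1 / 2) ≠ ⊤ := ne_top_of_le_ne_top ENNReal.one_ne_top hT1
  have hT2' : T a 2 ≠ ⊤ := ne_top_of_le_ne_top ENNReal.one_ne_top hT2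
  have hT12 : t2 < t1 := by
    rw [ht1, ht2]
    exact (ENNReal.toReal_lt_toReal hT2' hT1').mpr (T_strict ha0 ha1 (by norm_num) (by norm_num))
  have ht11 : t1 ≤ 1 := by
    rw [ht1]; exact ENNReal.toReal_le_of_le_ofReal zero_le_one (by simpa using hT1)
  have ht20 : 0 ≤ t2 := ENNReal.toReal_nonneg
  set hd := ∫⁻ s in Ioc 0 (1 / 2), ENNReal.ofReal (cc (1 - a) * (s ^ ((1 - a) - 1) / (1 + s))) with hhd
  have hhd0 : 0 < hd := lint_pos ha0' ha1' le_rfl (by norm_num)
  have hhd1 : hd ≤ 1 := by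
    rw [← T_zero ha0' ha1', T_split (a := 1 - a) (show (0 : ℝ) ≤ 1 / 2 by norm_num)]
    exact le_self_add
  have hhdt : hd ≠ ⊤ := ne_top_of_le_ne_top ENNReal.one_ne_top hhd1
  have hTt : T (1 - a) 2 ≠ ⊤ := ne_top_of_le_ne_top ENNReal.one_ne_top (T_lt_top ha0' ha1' (by norm_num))
  set m0 := min hd.toReal (T (1 - a) 2).toReal with hm0
  have hm00 : 0 < m0 := lt_min (ENNReal.toReal_pos hhd0.ne' hhdt)
    (ENNReal.toReal_pos (T_pos ha0' ha1' (by norm_num)).ne' hTt)
  have hm01 : m0 ≤ 1 := (min_le_left _ _).trans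
    (ENNReal.toReal_le_of_le_ofReal zero_le_one (by simpa using hhd1))
  set c1 := ((t1 - t2) * m0) ^ 2 / 128 with hc1
  have hc10 : 0 < c1 := by
    rw [hc1]
    have : 0 < t1 - t2 := by linarith
    positivity
  have hc11 : c1 < 1 := by
    rw [hc1]
    have h1 : 0 ≤ (t1 - t2) * m0 := mul_nonneg (by linarith) hm00.le
    have h2 : (t1 - t2) * m0 ≤ 1 := by nlinarith
    nlinarith
  have hthl : th < 1 := by linarith
  refine ⟨th / 2 * c1, by positivity, by nlinarith, ?_⟩
  intro u v hum hvm hu hv hu1 hv1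
  set k1 : ℝ → ℝ → ℝ := fun x y => ka a x y with hk1
  set k2 : ℝ → ℝ → ℝ := fun x y => ka (1 - a) y x with hk2
  have hk1m : Measurable (fun z : ℝ × ℝ => k1 z.1 z.2) := ka_meas a
  have hk2m : Measurable (fun z : ℝ × ℝ => k2 z.1 z.2) := (ka_meas (1 - a)).comp measurable_swap
  have hk1n : ∀ x y, 0 ≤ k1 x y := fun x y => ka_nonneg ha0 ha1 x y
  have hk2n : ∀ x y, 0 ≤ k2 x y := fun x y => ka_nonneg ha0' ha1' y x
  have hae : ∀ᵐ x ∂μ, (0 : ℝ) < x := by
    rw [hμ, ae_restrict_iff' measurableSet_Ioi]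
    filter_upwards with x hx using hx
  have hk1i : ∀ y, 0 < y → ∫⁻ x, ENNReal.ofReal (k1 x y) ∂μ = 1 := by
    intro y hy
    have := ka_tail (a := a) 0 y le_rfl hy
    rw [zero_div, T_zero ha0 ha1] at this
    exact this
  have hk2i : ∀ x, 0 < x → ∫⁻ y, ENNReal.ofReal (k2 x y) ∂μ = 1 := by
    intro x hx
    have := ka_tail (a := 1 - a) 0 x le_rfl hx
    rw [zero_div, T_zero ha0' ha1'] at this
    exact this
  have hres : ∀ S : Set ℝ, MeasurableSet S → S ⊆ Ioi 0 → μ.restrict S = volume.restrict S := by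
    intro S hS hS0
    rw [hμ, Measure.restrict_restrict hS, inter_eq_left.mpr hS0]
  have hstab := stab (μ := μ) (k1 := k1) (k2 := k2) hk1m hk2m hk1n hk2n
    (by filter_upwards [hae] with y hy using (hk1i y hy).le)
    (by filter_upwards [hae] with x hx using (hk2i x hx).le)
    ht20 hT12 ht11 hm00 (fun x => Ioc 0 (x / 2)) (fun x => Ioi (2 * x))
    (fun x => measurableSet_Ioc) (fun x => measurableSet_Ioi)
    (by
      filter_upwards [hae] with x hx
      rw [hres _ measurableSet_Ioc (fun s hs => hs.1)]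
      have h := ka_head ha0' ha1' (x / 2) x (by positivity) hx
      rw [show x / 2 / x = 1 / 2 by field_simp] at h
      rw [show ∫⁻ y in Ioc 0 (x / 2), ENNReal.ofReal (k2 x y) = hd from h]
      rw [ENNReal.ofReal_le_iff_le_toReal hhdt]
      exact min_le_left _ _)
    (by
      filter_upwards [hae] with x hx
      rw [hres _ measurableSet_Ioi (fun s hs => lt_trans (by positivity) (show 2 * x < s from hs))]
      have h := ka_tail (a := 1 - a) (2 * x) x (by positivity) hx
      rw [show 2 * x / x = 2 by field_simp] at h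
      rw [show ∫⁻ y in Ioi (2 * x), ENNReal.ofReal (k2 x y) = T (1 - a) 2 from h]
      rw [ENNReal.ofReal_le_iff_le_toReal hTt]
      exact min_le_right _ _)
    (by
      filter_upwards [hae] with x hx
      filter_upwards [hae] with y hy hyA
      rw [hres _ measurableSet_Ioi (fun s hs => lt_trans hx (show x < s from hs))]
      rw [show ∫⁻ s in Ioi x, ENNReal.ofReal (k1 s y) = T a (x / y) from ka_tail x y hx.le hy]
      rw [ht2, ENNReal.ofReal_toReal hT2']
      apply T_anti
      rw [le_div_iff₀ hy]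
      linarith [hyA.2])
    (by
      filter_upwards [hae] with x hx
      filter_upwards [hae] with y hy hyB
      rw [hres _ measurableSet_Ioi (fun s hs => lt_trans hx (show x < s from hs))]
      rw [show ∫⁻ s in Ioi x, ENNReal.ofReal (k1 s y) = T a (x / y) from ka_tail x y hx.le hy]
      rw [ht1, ENNReal.ofReal_toReal hT1']
      apply T_anti
      rw [div_le_iff₀ hy]
      have : 2 * x < y := hyB
      linarith)
    hum hvm hu hv hu1 hv1
  set D1 := ∫⁻ y, ENNReal.ofReal (v y) * ∫⁻ x, ENNReal.ofReal ((√(k1 x y) - √(u x)) ^ 2) ∂μ ∂μ with hD1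
  set D2 := ∫⁻ x, ENNReal.ofReal (u x) * ∫⁻ y, ENNReal.ofReal ((√(k2 x y) - √(v y)) ^ 2) ∂μ ∂μ with hD2
  -- the three integrals
  have mu1 : Measurable (fun z : ℝ × ℝ => u z.1) := hum.comp measurable_fst
  have mv2 : Measurable (fun z : ℝ × ℝ => v z.2) := hvm.comp measurable_snd
  set W : ℝ → ℝ → ℝ := fun x y => (v y * k1 x y) ^ al * (u x * k2 x y) ^ be * (u x * v y) ^ ga with hW
  have hWm : Measurable (fun z : ℝ × ℝ => W z.1 z.2) := by
    rw [hW]
    exact (((mv2.mul hk1m).pow_const al).mul ((mu1.mul hk2m).pow_const be)).mul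
      ((mu1.mul mv2).pow_const ga)
  set E1 : ℝ → ℝ → ℝ := fun x y => (√(v y * k1 x y) - √(u x * v y)) ^ 2 with hE1
  set E2 : ℝ → ℝ → ℝ := fun x y => (√(u x * k2 x y) - √(u x * v y)) ^ 2 with hE2
  have hE1m : Measurable (fun z : ℝ × ℝ => E1 z.1 z.2) :=
    ((mv2.mul hk1m).sqrt.sub (mu1.mul mv2).sqrt).pow_const 2
  have hE2m : Measurable (fun z : ℝ × ℝ => E2 z.1 z.2) :=
    ((mu1.mul hk2m).sqrt.sub (mu1.mul mv2).sqrt).pow_const 2
  have hE1D : ∫⁻ x, ∫⁻ y, ENNReal.ofReal (E1 x y) ∂μ ∂μ = D1 := by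
    rw [lintegral_lintegral_swap (f := fun x y => ENNReal.ofReal (E1 x y))
      (hE1m.ennreal_ofReal.aemeasurable), hD1]
    apply lintegral_congr
    intro y
    rw [← lintegral_const_mul]
    · apply lintegral_congr
      intro x
      rw [← ENNReal.ofReal_mul (hv y)]
      congr 1
      rw [hE1]
      simp only
      rw [Real.sqrt_mul (hv y), mul_comm (u x) (v y), Real.sqrt_mul (hv y), ← mul_sub, mul_pow,
        Real.sq_sqrt (hv y)]
    · have hh : Measurable fun x => k1 x y := hk1m.comp (measurable_id.prodMk measurable_const)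
      fun_prop
  have hE2D : ∫⁻ x, ∫⁻ y, ENNReal.ofReal (E2 x y) ∂μ ∂μ = D2 := by
    rw [hD2]
    apply lintegral_congr
    intro x
    rw [← lintegral_const_mul]
    · apply lintegral_congr
      intro y
      rw [← ENNReal.ofReal_mul (hu x)]
      congr 1
      rw [hE2]
      simp only
      rw [Real.sqrt_mul (hu x), Real.sqrt_mul (hu x), ← mul_sub, mul_pow,
        Real.sq_sqrt (hu x)]
    · have hh : Measurable fun y => k2 x y := hk2m.comp (measurable_const.prodMk measurable_id)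
      fun_prop
  have hX1 : ∫⁻ x, ∫⁻ y, ENNReal.ofReal (v y * k1 x y) ∂μ ∂μ = 1 := by
    rw [lintegral_lintegral_swap (f := fun x y => ENNReal.ofReal (v y * k1 x y))
      ((mv2.mul hk1m).ennreal_ofReal.aemeasurable)]
    rw [← hv1]
    apply lintegral_congr_ae
    filter_upwards [hae] with y hy
    have hh : Measurable fun x => k1 x y := hk1m.comp (measurable_id.prodMk measurable_const)
    calc ∫⁻ x, ENNReal.ofReal (v y * k1 x y) ∂μ
        = ∫⁻ x, ENNReal.ofReal (v y) * ENNReal.ofReal (k1 x y) ∂μ := by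
          simp_rw [ENNReal.ofReal_mul (hv y)]
      _ = _ := by rw [lintegral_const_mul _ (by fun_prop), hk1i y hy, mul_one]
  have hY1 : ∫⁻ x, ∫⁻ y, ENNReal.ofReal (u x * k2 x y) ∂μ ∂μ = 1 := by
    rw [← hu1]
    apply lintegral_congr_ae
    filter_upwards [hae] with x hx
    have hh : Measurable fun y => k2 x y := hk2m.comp (measurable_const.prodMk measurable_id)
    calc ∫⁻ y, ENNReal.ofReal (u x * k2 x y) ∂μ
        = ∫⁻ y, ENNReal.ofReal (u x) * ENNReal.ofReal (k2 x y) ∂μ := by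
          simp_rw [ENNReal.ofReal_mul (hu x)]
      _ = _ := by rw [lintegral_const_mul _ (by fun_prop), hk2i x hx, mul_one]
  have hZ1 : ∫⁻ x, ∫⁻ y, ENNReal.ofReal (u x * v y) ∂μ ∂μ = 1 := by
    have h1 : ∀ x, ∫⁻ y, ENNReal.ofReal (u x * v y) ∂μ = ENNReal.ofReal (u x) := by
      intro x
      simp_rw [ENNReal.ofReal_mul (hu x)]
      rw [lintegral_const_mul _ (by fun_prop), hv1, mul_one]
    simp_rw [h1]
    exact hu1
  have key : (∫⁻ x, ∫⁻ y, ENNReal.ofReal (W x y) ∂μ ∂μ) + ENNReal.ofReal (th / 2) * (D1 + D2) ≤ 1 := by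
    have hp : ∀ x y, ENNReal.ofReal (W x y) + (ENNReal.ofReal (th / 2) * ENNReal.ofReal (E1 x y)
        + ENNReal.ofReal (th / 2) * ENNReal.ofReal (E2 x y))
        ≤ ENNReal.ofReal al * ENNReal.ofReal (v y * k1 x y)
          + (ENNReal.ofReal be * ENNReal.ofReal (u x * k2 x y)
            + ENNReal.ofReal ga * ENNReal.ofReal (u x * v y)) := by
      intro x y
      have hX : 0 ≤ v y * k1 x y := mul_nonneg (hv y) (hk1n x y)
      have hY : 0 ≤ u x * k2 x y := mul_nonneg (hu x) (hk2n x y)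
      have hZ : 0 ≤ u x * v y := mul_nonneg (hu x) (hv y)
      have h := amgm hX hY hZ hth0 hth1 hth2 hth3 (by rw [hga]; ring)
      have hW0 : 0 ≤ W x y := by rw [hW]; positivity
      have hE10 : 0 ≤ E1 x y := by rw [hE1]; positivity
      have hE20 : 0 ≤ E2 x y := by rw [hE2]; positivity
      rw [← ENNReal.ofReal_mul (by positivity), ← ENNReal.ofReal_mul (by positivity),
        ← ENNReal.ofReal_add (by positivity) (by positivity),
        ← ENNReal.ofReal_add (by positivity) (by positivity),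
        ← ENNReal.ofReal_mul hal.le, ← ENNReal.ofReal_mul hbe.le, ← ENNReal.ofReal_mul hga0.le,
        ← ENNReal.ofReal_add (by positivity) (by positivity),
        ← ENNReal.ofReal_add (by positivity) (by positivity)]
      apply ENNReal.ofReal_le_ofReal
      have e1 : W x y = (v y * k1 x y) ^ al * (u x * k2 x y) ^ be * (u x * v y) ^ ga := rfl
      have e2 : E1 x y = (√(v y * k1 x y) - √(u x * v y)) ^ 2 := rfl
      have e3 : E2 x y = (√(u x * k2 x y) - √(u x * v y)) ^ 2 := rfl
      rw [e1, e2, e3]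
      linarith
    have hm1 : ∀ x, Measurable fun y => ENNReal.ofReal (W x y) := fun x =>
      (hWm.comp (measurable_const.prodMk measurable_id)).ennreal_ofReal
    have hm2 : ∀ x, Measurable fun y => ENNReal.ofReal (E1 x y) := fun x =>
      (hE1m.comp (measurable_const.prodMk measurable_id)).ennreal_ofReal
    have hm3 : ∀ x, Measurable fun y => ENNReal.ofReal (E2 x y) := fun x =>
      (hE2m.comp (measurable_const.prodMk measurable_id)).ennreal_ofReal
    have hm4 : ∀ x, Measurable fun y => ENNReal.ofReal (v y * k1 x y) := fun x =>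
      ((mv2.mul hk1m).comp (measurable_const.prodMk measurable_id)).ennreal_ofReal
    have hm5 : ∀ x, Measurable fun y => ENNReal.ofReal (u x * k2 x y) := fun x =>
      ((mu1.mul hk2m).comp (measurable_const.prodMk measurable_id)).ennreal_ofReal
    have hm6 : ∀ x, Measurable fun y => ENNReal.ofReal (u x * v y) := fun x =>
      ((mu1.mul mv2).comp (measurable_const.prodMk measurable_id)).ennreal_ofReal
    have hL : ∫⁻ x, ∫⁻ y, (ENNReal.ofReal (W x y) + (ENNReal.ofReal (th / 2) * ENNReal.ofReal (E1 x y)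
        + ENNReal.ofReal (th / 2) * ENNReal.ofReal (E2 x y))) ∂μ ∂μ
        = (∫⁻ x, ∫⁻ y, ENNReal.ofReal (W x y) ∂μ ∂μ) + ENNReal.ofReal (th / 2) * (D1 + D2) := by
      have h1 : ∀ x, ∫⁻ y, (ENNReal.ofReal (W x y) + (ENNReal.ofReal (th / 2) * ENNReal.ofReal (E1 x y)
        + ENNReal.ofReal (th / 2) * ENNReal.ofReal (E2 x y))) ∂μ
          = ∫⁻ y, ENNReal.ofReal (W x y) ∂μ + (ENNReal.ofReal (th / 2) * ∫⁻ y, ENNReal.ofReal (E1 x y) ∂μ
            + ENNReal.ofReal (th / 2) * ∫⁻ y, ENNReal.ofReal (E2 x y) ∂μ) := by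
        intro x
        rw [lintegral_add_left (hm1 x), lintegral_add_left ((hm2 x).const_mul _),
          lintegral_const_mul _ (hm2 x), lintegral_const_mul _ (hm3 x)]
      simp_rw [h1]
      have hM1 : Measurable fun x => ∫⁻ y, ENNReal.ofReal (W x y) ∂μ :=
        Measurable.lintegral_prod_right' (f := fun z : ℝ × ℝ => ENNReal.ofReal (W z.1 z.2))
          hWm.ennreal_ofReal
      have hM2 : Measurable fun x => ∫⁻ y, ENNReal.ofReal (E1 x y) ∂μ :=
        Measurable.lintegral_prod_right' (f := fun z : ℝ × ℝ => ENNReal.ofReal (E1 z.1 z.2))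
          hE1m.ennreal_ofReal
      have hM3 : Measurable fun x => ∫⁻ y, ENNReal.ofReal (E2 x y) ∂μ :=
        Measurable.lintegral_prod_right' (f := fun z : ℝ × ℝ => ENNReal.ofReal (E2 z.1 z.2))
          hE2m.ennreal_ofReal
      rw [lintegral_add_left hM1, lintegral_add_left (hM2.const_mul _),
        lintegral_const_mul _ hM2, lintegral_const_mul _ hM3, hE1D, hE2D, mul_add]
    have hR : ∫⁻ x, ∫⁻ y, (ENNReal.ofReal al * ENNReal.ofReal (v y * k1 x y)
          + (ENNReal.ofReal be * ENNReal.ofReal (u x * k2 x y)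
            + ENNReal.ofReal ga * ENNReal.ofReal (u x * v y))) ∂μ ∂μ = 1 := by
      have h1 : ∀ x, ∫⁻ y, (ENNReal.ofReal al * ENNReal.ofReal (v y * k1 x y)
          + (ENNReal.ofReal be * ENNReal.ofReal (u x * k2 x y)
            + ENNReal.ofReal ga * ENNReal.ofReal (u x * v y))) ∂μ
          = ENNReal.ofReal al * ∫⁻ y, ENNReal.ofReal (v y * k1 x y) ∂μ
            + (ENNReal.ofReal be * ∫⁻ y, ENNReal.ofReal (u x * k2 x y) ∂μ
              + ENNReal.ofReal ga * ∫⁻ y, ENNReal.ofReal (u x * v y) ∂μ) := by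
        intro x
        rw [lintegral_add_left ((hm4 x).const_mul _), lintegral_add_left ((hm5 x).const_mul _),
          lintegral_const_mul _ (hm4 x), lintegral_const_mul _ (hm5 x),
          lintegral_const_mul _ (hm6 x)]
      simp_rw [h1]
      have hM1 : Measurable fun x => ∫⁻ y, ENNReal.ofReal (v y * k1 x y) ∂μ :=
        Measurable.lintegral_prod_right' (f := fun z : ℝ × ℝ => ENNReal.ofReal (v z.2 * k1 z.1 z.2))
          (mv2.mul hk1m).ennreal_ofReal
      have hM2 : Measurable fun x => ∫⁻ y, ENNReal.ofReal (u x * k2 x y) ∂μ :=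
        Measurable.lintegral_prod_right' (f := fun z : ℝ × ℝ => ENNReal.ofReal (u z.1 * k2 z.1 z.2))
          (mu1.mul hk2m).ennreal_ofReal
      have hM3 : Measurable fun x => ∫⁻ y, ENNReal.ofReal (u x * v y) ∂μ :=
        Measurable.lintegral_prod_right' (f := fun z : ℝ × ℝ => ENNReal.ofReal (u z.1 * v z.2))
          (mu1.mul mv2).ennreal_ofReal
      rw [lintegral_add_left (hM1.const_mul _), lintegral_add_left (hM2.const_mul _),
        lintegral_const_mul _ hM1, lintegral_const_mul _ hM2, lintegral_const_mul _ hM3,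
        hX1, hY1, hZ1, mul_one, mul_one, mul_one, ← ENNReal.ofReal_add hbe.le hga0.le,
        ← ENNReal.ofReal_add hal.le (by positivity)]
      rw [show al + (be + ga) = 1 by rw [hga]; ring]
      simp
    rw [← hL, ← hR]
    apply lintegral_mono
    intro x
    apply lintegral_mono
    intro y
    exact hp x y
  -- conclude
  have key2 : (∫⁻ x, ∫⁻ y, ENNReal.ofReal (W x y) ∂μ ∂μ) ≤ ENNReal.ofReal (1 - th / 2 * c1) := by
    have h1 : ENNReal.ofReal (th / 2 * c1) ≤ ENNReal.ofReal (th / 2) * (D1 + D2) := by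
      rw [ENNReal.ofReal_mul (by positivity)]
      gcongr
    have h2 : (∫⁻ x, ∫⁻ y, ENNReal.ofReal (W x y) ∂μ ∂μ) + ENNReal.ofReal (th / 2 * c1) ≤ 1 := by
      refine le_trans ?_ key
      gcongr
    rw [ENNReal.ofReal_sub _ (by positivity), ENNReal.ofReal_one]
    exact ENNReal.le_sub_of_add_le_right ENNReal.ofReal_ne_top h2
  have hlast : ∫⁻ x in Ioi 0, ∫⁻ y in Ioi 0,
        ENNReal.ofReal (u x ^ (1 - al) * v y ^ (1 - be) * (x + y) ^ (-(al + be)))
      = ENNReal.ofReal ((cc a) ^ (-(al + be))) * ∫⁻ x, ∫⁻ y, ENNReal.ofReal (W x y) ∂μ ∂μ := by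
    have hM1 : Measurable fun x => ∫⁻ y, ENNReal.ofReal (W x y) ∂μ :=
        Measurable.lintegral_prod_right' (f := fun z : ℝ × ℝ => ENNReal.ofReal (W z.1 z.2))
          hWm.ennreal_ofReal
    rw [← lintegral_const_mul _ hM1]
    apply setLIntegral_congr_fun measurableSet_Ioi
    intro x hx
    simp only
    have hm1 : Measurable fun y => ENNReal.ofReal (W x y) :=
      (hWm.comp (measurable_const.prodMk measurable_id)).ennreal_ofReal
    rw [← lintegral_const_mul _ hm1]
    apply setLIntegral_congr_fun measurableSet_Ioi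
    intro y hy
    simp only
    rw [← ENNReal.ofReal_mul (by positivity), factor hal hbe hs ha hx hy (hu x) (hv y)]
  rw [hlast, mul_comm (1 - th / 2 * c1), ENNReal.ofReal_mul (by positivity)]
  gcongr

end Hil
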