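import Mathlib

set_option autoImplicit false
open Complex Filter Topology

namespace Pool.Agent.Helper6.KKL

noncomputable section

def s (j : ℕ) : ℕ := 2 ^ (4 ^ j)

lemma s_succ (j : ℕ) : s (j+1) = s j ^ 4 := by
  unfold s; rw [← pow_mul, pow_succ]

lemma s_pos (j : ℕ) : 0 < s j := by unfold s; positivity

lemma s_mono : Monotone s := by
  intro a b hab
  unfold s
  exact Nat.pow_le_pow_right (by norm_num) (Nat.pow_le_pow_right (by norm_num) hab)

lemma four_pow_le (j : ℕ) : 4 ^ j ≤ s j := le_of_lt Nat.lt_two_pow_self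

/-- exponents -/
def m (j : ℕ) : ℕ := (j+1) * s j ^ 2

def F (j : ℕ) (z : ℂ) : ℂ := (1 - z^2/(s j:ℂ)^4)^(m j)

def h (z : ℂ) : ℂ := ∏' j, F j z

def θ (j : ℕ) : ℝ := ((j:ℝ)+1)/2^j

lemma θ_nonneg (j : ℕ) : 0 ≤ θ j := by unfold θ; positivity

lemma sum_θ (N : ℕ) : ∑ j ∈ Finset.range N, θ j = 4 - ((N:ℝ)+2)*2/2^N := by
  induction N with
  | zero => norm_num
  | succ n ih =>
    rw [Finset.sum_range_succ, ih]
    unfold θ
    push_cast
    rw [pow_succ]
    field_simp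
    ring

lemma sum_θ_le (N : ℕ) : ∑ j ∈ Finset.range N, θ j ≤ 4 := by
  rw [sum_θ]
  have : 0 ≤ ((N:ℝ)+2)*2/2^N := by positivity
  linarith

lemma summable_θ : Summable θ :=
  summable_of_sum_range_le θ_nonneg sum_θ_le

lemma θ_le (j : ℕ) : θ j ≤ 4 := by
  have h1 := sum_θ_le (j+1)
  rw [Finset.sum_range_succ] at h1
  have : 0 ≤ ∑ i ∈ Finset.range j, θ i := Finset.sum_nonneg fun i _ => θ_nonneg i
  linarith

/-- closeness to one in exponential scale -/
def Near (A : ℂ) (x : ℝ) : Prop := ‖A - 1‖ ≤ Real.exp x - 1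

lemma near_one_add {u : ℂ} {x : ℝ} (hu : ‖u‖ ≤ x) : Near (1+u) x := by
  unfold Near
  have : (1 + u - 1 : ℂ) = u := by ring
  rw [this]
  have := Real.add_one_le_exp x
  linarith

lemma Near.mul {A B : ℂ} {x y : ℝ} (hA : Near A x) (hB : Near B y) : Near (A*B) (x+y) := by
  unfold Near at *
  have e : A*B - 1 = (A-1)*(B-1) + (A-1) + (B-1) := by ring
  have h0 : 0 ≤ Real.exp x - 1 := le_trans (norm_nonneg _) hA
  calc ‖A*B-1‖ ≤ ‖A-1‖*‖B-1‖ + ‖A-1‖ + ‖B-1‖ := by
        rw [e, ← norm_mul]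
        refine le_trans (norm_add_le _ _) ?_
        gcongr
        exact norm_add_le _ _
    _ ≤ (Real.exp x - 1)*(Real.exp y - 1) + (Real.exp x - 1) + (Real.exp y - 1) := by
        gcongr
    _ = Real.exp (x+y) - 1 := by rw [Real.exp_add]; ring

lemma Near.pow {A : ℂ} {x : ℝ} (hA : Near A x) (n : ℕ) : Near (A^n) (n*x) := by
  induction n with
  | zero => simp [Near]
  | succ k ih =>
    rw [pow_succ]
    have := ih.mul hA
    have e : ((k+1:ℕ):ℝ)*x = k*x + x := by push_cast; ring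
    rw [e]; exact this

lemma near_prod {A : ℕ → ℂ} {x : ℕ → ℝ} (hA : ∀ j, Near (A j) (x j)) (N : ℕ) :
    Near (∏ j ∈ Finset.range N, A j) (∑ j ∈ Finset.range N, x j) := by
  induction N with
  | zero => simp [Near]
  | succ k ih =>
    rw [Finset.prod_range_succ, Finset.sum_range_succ]
    exact ih.mul (hA k)

lemma Near.mono {A : ℂ} {x y : ℝ} (hA : Near A x) (hxy : x ≤ y) : Near A y := by
  unfold Near at *
  have := Real.exp_le_exp.mpr hxy
  linarith

lemma Near.norm_le {A : ℂ} {x : ℝ} (hA : Near A x) : ‖A‖ ≤ Real.exp x := by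
  unfold Near at hA
  have : ‖A‖ ≤ ‖A - 1‖ + ‖(1:ℂ)‖ := by
    have := norm_add_le (A-1) 1
    simpa using this
  rw [norm_one] at this
  linarith

lemma near_F (j : ℕ) (z : ℂ) : Near (F j z) (((j:ℝ)+1)*‖z‖^2/(s j:ℝ)^2) := by
  have hs : (0:ℝ) < s j := by exact_mod_cast s_pos j
  have h1 : Near (1 + (-(z^2/(s j:ℂ)^4))) (‖z‖^2/(s j:ℝ)^4) := by
    apply near_one_add
    rw [norm_neg, norm_div, norm_pow, norm_pow]
    simp
  have h2 := h1.pow (m j)
  unfold F
  have e : (m j:ℝ) * (‖z‖^2/(s j:ℝ)^4) = ((j:ℝ)+1)*‖z‖^2/(s j:ℝ)^2 := by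
    unfold m; push_cast; field_simp
  rw [e] at h2
  rw [sub_eq_add_neg]
  exact h2

lemma one_div_s_le (j : ℕ) : ((j:ℝ)+1)/(s j:ℝ)^2 ≤ θ j := by
  unfold θ
  have hs : (4:ℝ)^j ≤ s j := by exact_mod_cast four_pow_le j
  have h1 : (1:ℝ) ≤ 4^j := one_le_pow₀ (by norm_num)
  have h2 : (2:ℝ)^j ≤ 4^j := by gcongr; norm_num
  gcongr
  nlinarith

lemma near_F' (j : ℕ) (z : ℂ) : Near (F j z) (θ j * ‖z‖^2) := by
  refine (near_F j z).mono ?_
  have := one_div_s_le j
  calc ((j:ℝ)+1)*‖z‖^2/(s j:ℝ)^2 = ((j:ℝ)+1)/(s j:ℝ)^2 * ‖z‖^2 := by ring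
    _ ≤ θ j * ‖z‖^2 := by gcongr

lemma norm_F_sub_one_le (j : ℕ) (z : ℂ) {r : ℝ} (hz : ‖z‖ ≤ r) :
    ‖F j z - 1‖ ≤ θ j * (r^2 * Real.exp (4*r^2)) := by
  have h1 := near_F' j z
  unfold Near at h1
  have hr : 0 ≤ r := le_trans (norm_nonneg _) hz
  have h2 : θ j * ‖z‖^2 ≤ θ j * r^2 := by
    have := θ_nonneg j
    gcongr
  have h3 : Real.exp (θ j * ‖z‖^2) ≤ Real.exp (θ j * r^2) := Real.exp_le_exp.mpr h2
  -- exp x - 1 ≤ x exp x
  have h4 : Real.exp (θ j * r^2) - 1 ≤ (θ j * r^2) * Real.exp (θ j * r^2) := by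
    have h5 := Real.add_one_le_exp (-(θ j * r^2))
    have h6 : Real.exp (-(θ j * r^2)) * Real.exp (θ j * r^2) = 1 := by
      rw [← Real.exp_add]; simp
    have h7 : 0 < Real.exp (θ j * r^2) := Real.exp_pos _
    nlinarith
  have h8 : Real.exp (θ j * r^2) ≤ Real.exp (4*r^2) := by
    apply Real.exp_le_exp.mpr
    have := θ_le j
    gcongr
  calc ‖F j z - 1‖ ≤ (θ j * r^2) * Real.exp (θ j * r^2) := by linarith
    _ ≤ (θ j * r^2) * Real.exp (4*r^2) := by
        have := θ_nonneg j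
        gcongr
    _ = _ := by ring

lemma F_diff (j : ℕ) : Differentiable ℂ (F j) := by
  unfold F; fun_prop

lemma summable_norm_F (z : ℂ) : Summable (fun j => ‖F j z - 1‖) := by
  refine Summable.of_nonneg_of_le (fun _ => norm_nonneg _)
    (fun j => norm_F_sub_one_le j z le_rfl) ?_
  exact summable_θ.mul_right _

lemma h_eq : h = fun z => ∏' j, (1 + (F j z - 1)) := by
  funext z; unfold h; simp

lemma h_diff : Differentiable ℂ h := by
  intro z
  have hU : IsOpen (Metric.ball (0:ℂ) (‖z‖+1)) := Metric.isOpen_ball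
  have key : HasProdLocallyUniformlyOn (fun (j:ℕ) (x:ℂ) => 1 + (F j x - 1))
      (fun x => ∏' j, (1 + (F j x - 1))) (Metric.ball (0:ℂ) (‖z‖+1)) := by
    refine (summable_θ.mul_right (((‖z‖+1)^2 * Real.exp (4*(‖z‖+1)^2)))).hasProdLocallyUniformlyOn_nat_one_add
      hU (Eventually.of_forall fun j x hx => ?_) (fun j => ?_)
    · refine norm_F_sub_one_le j x ?_
      rw [Metric.mem_ball, dist_zero_right] at hx
      exact hx.le
    · exact ((F_diff j).continuous.sub continuous_const).continuousOn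
  have hd := key.differentiableOn (.of_forall fun t => by
    have : DifferentiableOn ℂ (fun x => ∏ j ∈ t, (1 + (F j x - 1))) (Metric.ball (0:ℂ) (‖z‖+1)) :=
      DifferentiableOn.fun_finsetProd (fun j _ =>
        (((F_diff j).differentiableOn).sub_const 1).const_add 1)
    simpa [Finset.prod_fn] using this) hU
  rw [h_eq]
  exact hd.differentiableAt (hU.mem_nhds (by simp))

lemma tendsto_h (z : ℂ) :
    Tendsto (fun N => ∏ j ∈ Finset.range N, F j z) atTop (𝓝 (h z)) := by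
  have : Multipliable (fun j => F j z) := by
    have := multipliable_one_add_of_summable (f := fun j => F j z - 1) (summable_norm_F z)
    simpa using this
  exact this.hasProd.tendsto_prod_nat

lemma F_neg (j : ℕ) (z : ℂ) : F j (-z) = F j z := by unfold F; rw [neg_sq]

lemma h_neg (z : ℂ) : h (-z) = h z := by
  unfold h; simp_rw [F_neg]

lemma F_real (j : ℕ) (x : ℝ) : ∃ y : ℝ, F j x = y :=
  ⟨(1 - x^2/(s j:ℝ)^4)^(m j), by unfold F; push_cast; rfl⟩

lemma h_real (x : ℝ) : (h x).im = 0 := by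
  have h1 : ∀ N, (∏ j ∈ Finset.range N, F j (x:ℂ)).im = 0 := by
    intro N
    choose y hy using fun j => F_real j x
    simp_rw [hy]
    rw [← Complex.ofReal_prod]
    exact Complex.ofReal_im _
  have h2 := (Complex.continuous_im.tendsto _).comp (tendsto_h x)
  have h3 : Tendsto (fun N => (∏ j ∈ Finset.range N, F j (x:ℂ)).im) atTop (𝓝 (h x).im) := h2
  simp_rw [h1] at h3
  exact (tendsto_nhds_unique h3 tendsto_const_nhds)

lemma h_ne_zero {z : ℂ} (hz : ∀ j, F j z ≠ 0) : h z ≠ 0 := by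
  have := tprod_one_add_ne_zero_of_summable (f := fun j => F j z - 1)
    (by intro j; simpa using hz j) (summable_norm_F z)
  rw [h_eq]; exact this

lemma F_zero_im {j : ℕ} {z : ℂ} (hz : F j z = 0) : z.im = 0 := by
  unfold F at hz
  have h1 : 1 - z^2/(s j:ℂ)^4 = 0 := by
    by_contra hne
    exact pow_ne_zero _ hne hz
  have hs : (s j:ℂ) ≠ 0 := by exact_mod_cast (s_pos j).ne'
  have h2 : z^2 = ((s j:ℂ)^2)^2 := by
    field_simp at h1
    linear_combination -h1
  rcases sq_eq_sq_iff_eq_or_eq_neg.mp h2 with h | h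
  · rw [h]; 
    have : ((s j:ℂ)^2) = (((s j:ℝ)^2 : ℝ):ℂ) := by push_cast; rfl
    rw [this, Complex.ofReal_im]
  · rw [h, Complex.neg_im]
    have : ((s j:ℂ)^2) = (((s j:ℝ)^2 : ℝ):ℂ) := by push_cast; rfl
    rw [this, Complex.ofReal_im, neg_zero]

lemma h_zero_im {z : ℂ} (hz : h z = 0) : z.im = 0 := by
  by_contra hne
  exact h_ne_zero (fun j hj => hne (F_zero_im hj)) hz

end
end Pool.Agent.Helper6.KKL
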