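import Pool.Agent.Helper6.KKL1

set_option autoImplicit false
open Complex Filter Topology

namespace Pool.Agent.Helper6.KKL

noncomputable section

lemma one_add_sq_le_exp {x : ℝ} (hx : 0 ≤ x) : 1 + x^2 ≤ Real.exp x := by
  have h := Real.sum_le_exp_of_nonneg hx 4
  simp [Finset.sum_range_succ, Nat.factorial] at h
  nlinarith [mul_nonneg hx (sq_nonneg (x-3/2)), sq_nonneg x, mul_nonneg hx hx]

lemma one_add_sq_le_exp_rpow {x p : ℝ} (hx : 0 ≤ x) (hp1 : 1 ≤ p) (hp2 : p ≤ 2) :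
    1 + x^2 ≤ Real.exp (x^p) := by
  rcases le_total x 1 with h | h
  · have h1 : x^2 ≤ x^p := by
      rcases hx.eq_or_lt with h0 | h0
      · rw [← h0, Real.zero_rpow (by linarith)]; norm_num
      · rw [← Real.rpow_natCast]
        exact Real.rpow_le_rpow_of_exponent_ge h0 h (by simpa using hp2)
    have := Real.add_one_le_exp (x^p)
    linarith
  · have h1 : x ≤ x^p := by
      conv_lhs => rw [← Real.rpow_one x]
      exact Real.rpow_le_rpow_of_exponent_le h hp1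
    exact (one_add_sq_le_exp hx).trans (Real.exp_le_exp.mpr h1)

lemma s_rpow_le {δ : ℝ} (hδ : 0 < δ) (j : ℕ) : ((s j:ℝ)^2)^(-δ) ≤ 1/(δ*4^j) := by
  have hs : (0:ℝ) < s j := by exact_mod_cast s_pos j
  have hlog : (4:ℝ)^j ≤ Real.log ((s j:ℝ)^2) := by
    rw [Real.log_pow]
    unfold s
    push_cast
    rw [Real.log_pow]
    push_cast
    have := Real.log_two_gt_d9
    have h4 : (0:ℝ) < 4^j := by positivity
    nlinarith
  rw [Real.rpow_def_of_pos (by positivity)]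
  have h1 : Real.log ((s j:ℝ)^2) * (-δ) ≤ -(δ*4^j) := by nlinarith
  have hy : 0 < δ*(4:ℝ)^j := by positivity
  calc Real.exp (Real.log ((s j:ℝ)^2) * (-δ)) ≤ Real.exp (-(δ*4^j)) := Real.exp_le_exp.mpr h1
    _ = 1/Real.exp (δ*4^j) := by rw [Real.exp_neg, one_div]
    _ ≤ 1/(δ*4^j) := by
        apply one_div_le_one_div_of_le hy
        have := Real.add_one_le_exp (δ*(4:ℝ)^j)
        linarith

lemma norm_F_le {δ : ℝ} (hδ : 0 < δ) (hδ1 : δ ≤ 1) (j : ℕ) (z : ℂ) :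
    ‖F j z‖ ≤ Real.exp (θ j * (‖z‖^(1+δ)/δ)) := by
  have hs : (0:ℝ) < s j := by exact_mod_cast s_pos j
  have hr := norm_nonneg z
  set r := ‖z‖ with hrdef
  have h1 : ‖(1 - z^2/(s j:ℂ)^4)‖ ≤ Real.exp ((r/(s j:ℝ)^2)^(1+δ)) := by
    refine le_trans ?_ (one_add_sq_le_exp_rpow (by positivity) (by linarith) (by linarith))
    refine (norm_sub_le _ _).trans ?_
    rw [norm_one, norm_div, norm_pow, norm_pow]
    simp only [Complex.norm_natCast]
    rw [← hrdef]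
    apply le_of_eq
    field_simp
  unfold F
  rw [norm_pow]
  calc ‖(1 - z^2/(s j:ℂ)^4)‖^(m j) ≤ (Real.exp ((r/(s j:ℝ)^2)^(1+δ)))^(m j) := by gcongr
    _ = Real.exp ((m j:ℝ) * (r/(s j:ℝ)^2)^(1+δ)) := by rw [← Real.exp_nat_mul]
    _ ≤ Real.exp (θ j * (r^(1+δ)/δ)) := by
        apply Real.exp_le_exp.mpr
        have e1 : (r/(s j:ℝ)^2)^(1+δ) = r^(1+δ) * (((s j:ℝ)^2)^(-δ) / (s j:ℝ)^2) := by
          rw [Real.div_rpow hr (by positivity), Real.rpow_add (by positivity : (0:ℝ) < (s j:ℝ)^2),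
            Real.rpow_one, Real.rpow_neg (by positivity)]
          field_simp
        rw [e1]
        have e2 : (m j:ℝ) * (r^(1+δ) * (((s j:ℝ)^2)^(-δ) / (s j:ℝ)^2))
            = ((j:ℝ)+1) * r^(1+δ) * ((s j:ℝ)^2)^(-δ) := by
          unfold m; push_cast; field_simp
        rw [e2]
        have h2 := s_rpow_le hδ j
        have hrp : 0 ≤ r^(1+δ) := Real.rpow_nonneg hr _
        have h4 : (2:ℝ)^j ≤ 4^j := by gcongr; norm_num
        calc ((j:ℝ)+1) * r^(1+δ) * ((s j:ℝ)^2)^(-δ)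
            ≤ ((j:ℝ)+1) * r^(1+δ) * (1/(δ*4^j)) := by gcongr
          _ ≤ ((j:ℝ)+1) * r^(1+δ) * (1/(δ*2^j)) := by gcongr
          _ = θ j * (r^(1+δ)/δ) := by unfold θ; field_simp

lemma norm_h_le {δ : ℝ} (hδ : 0 < δ) (hδ1 : δ ≤ 1) (z : ℂ) :
    ‖h z‖ ≤ Real.exp (4 * (‖z‖^(1+δ)/δ)) := by
  have h1 := (tendsto_h z).norm
  refine le_of_tendsto h1 (Eventually.of_forall fun N => ?_)
  rw [norm_prod]
  calc ∏ j ∈ Finset.range N, ‖F j z‖ ≤ ∏ j ∈ Finset.range N, Real.exp (θ j * (‖z‖^(1+δ)/δ)) :=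
        Finset.prod_le_prod (fun _ _ => norm_nonneg _) (fun j _ => norm_F_le hδ hδ1 j z)
    _ = Real.exp (∑ j ∈ Finset.range N, θ j * (‖z‖^(1+δ)/δ)) := (Real.exp_sum _ _).symm
    _ ≤ _ := by
        apply Real.exp_le_exp.mpr
        rw [← Finset.sum_mul]
        have := sum_θ_le N
        have hrp : 0 ≤ ‖z‖^(1+δ)/δ := div_nonneg (Real.rpow_nonneg (norm_nonneg z) _) hδ.le
        gcongr

lemma norm_h_I_ge (k : ℕ) : (2:ℝ)^(m k) ≤ ‖h (((s k:ℝ)^2 : ℝ) * I)‖ := by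
  have h1 := (tendsto_h (((s k:ℝ)^2 : ℝ) * I)).norm
  refine ge_of_tendsto h1 ?_
  filter_upwards [eventually_gt_atTop k] with N hN
  rw [norm_prod]
  have hF : ∀ j, ‖F j ((((s k:ℝ)^2 : ℝ):ℂ) * I)‖ = (1 + (s k:ℝ)^4/(s j:ℝ)^4)^(m j) := by
    intro j
    unfold F
    rw [norm_pow]
    congr 1
    have : (1:ℂ) - ((((s k:ℝ)^2 : ℝ):ℂ) * I)^2/(s j:ℂ)^4 = ((1 + (s k:ℝ)^4/(s j:ℝ)^4 : ℝ):ℂ) := by
      rw [mul_pow, I_sq]; push_cast; ring
    rw [this, Complex.norm_real, Real.norm_eq_abs, abs_of_nonneg (by positivity)]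
  have hk : (s k:ℝ) ≠ 0 := by exact_mod_cast (s_pos k).ne'
  rw [← Finset.mul_prod_erase _ _ (Finset.mem_range.mpr hN)]
  have e1 : ‖F k ((((s k:ℝ)^2 : ℝ):ℂ) * I)‖ = 2^(m k) := by
    rw [hF k, div_self (by positivity)]; norm_num
  rw [e1]
  have e2 : 1 ≤ ∏ j ∈ (Finset.range N).erase k, ‖F j ((((s k:ℝ)^2 : ℝ):ℂ) * I)‖ := by
    refine Finset.prod_induction _ (fun x : ℝ => 1 ≤ x)
      (fun a b ha hb => one_le_mul_of_one_le_of_one_le ha hb) le_rfl (fun j _ => ?_)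
    rw [hF j]
    apply one_le_pow₀
    have : 0 ≤ (s k:ℝ)^4/(s j:ℝ)^4 := by positivity
    linarith
  have e3 : (0:ℝ) ≤ 2^(m k) := by positivity
  nlinarith

/-- centres -/
def a (k : ℕ) : ℝ := (2*(s (k+1):ℝ)+1)*Real.pi

lemma a_ge (k : ℕ) : 6*(s (k+1):ℝ) ≤ a k := by
  unfold a
  have h1 := Real.pi_gt_three
  have h2 : (0:ℝ) < s (k+1) := by exact_mod_cast s_pos _
  nlinarith

lemma a_le (k : ℕ) : a k ≤ 10*(s (k+1):ℝ) := by
  unfold a
  have h1 := Real.pi_lt_d2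
  have h2 : (1:ℝ) ≤ s (k+1) := by exact_mod_cast s_pos _
  nlinarith

lemma a_ge_four_pow (k : ℕ) : (4:ℝ)^k ≤ a k := by
  have h1 := a_ge k
  have h2 : (4:ℝ)^(k+1) ≤ s (k+1) := by exact_mod_cast four_pow_le (k+1)
  rw [pow_succ] at h2
  have : (0:ℝ) < 4^k := by positivity
  linarith

lemma tau_bound (k j : ℕ) : 0 < |(s j:ℝ)^4 - (a k)^2| ∧
    (m j:ℝ) * (2 * a k) / |(s j:ℝ)^4 - (a k)^2| ≤ 40 * θ j / 2^k := by
  have hsj : (1:ℝ) ≤ s j := by exact_mod_cast s_pos j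
  have hsk : (1:ℝ) ≤ s k := by exact_mod_cast s_pos k
  have hT4 : (4:ℝ) ≤ s (k+1) := by
    have h2 : (4:ℝ)^(k+1) ≤ s (k+1) := by exact_mod_cast four_pow_le (k+1)
    have : (1:ℝ) ≤ 4^k := one_le_pow₀ (by norm_num)
    rw [pow_succ] at h2; linarith
  have ha1 := a_ge k
  have ha2 := a_le k
  have ha0 : 0 < a k := by linarith
  have h4j : (4:ℝ)^j ≤ s j := by exact_mod_cast four_pow_le j
  have h4k : (4:ℝ)^k ≤ s k := by exact_mod_cast four_pow_le k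
  have h24j : (2:ℝ)^j ≤ 4^j := by gcongr; norm_num
  have h24k : (2:ℝ)^k ≤ 4^k := by gcongr; norm_num
  have hTk : (s (k+1):ℝ) = (s k:ℝ)^4 := by exact_mod_cast s_succ k
  have hm : (m j:ℝ) = ((j:ℝ)+1) * (s j:ℝ)^2 := by unfold m; push_cast; ring
  have hj1 : (0:ℝ) < (j:ℝ)+1 := by positivity
  rcases le_or_gt j k with hjk | hjk
  · -- j ≤ k
    have hS : (s j:ℝ)^4 ≤ s (k+1) := by
      have : s (j+1) ≤ s (k+1) := s_mono (by omega)
      have e : (s (j+1):ℝ) = (s j:ℝ)^4 := by exact_mod_cast s_succ j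
      rw [← e]; exact_mod_cast this
    have hjk' : (s j:ℝ) ≤ s k := by exact_mod_cast s_mono hjk
    have hD : (a k)^2/2 ≤ (a k)^2 - (s j:ℝ)^4 := by nlinarith
    have habs : |(s j:ℝ)^4 - (a k)^2| = (a k)^2 - (s j:ℝ)^4 := by
      rw [abs_sub_comm, abs_of_nonneg]; nlinarith
    rw [habs]
    refine ⟨by nlinarith, ?_⟩
    calc (m j:ℝ) * (2 * a k) / ((a k)^2 - (s j:ℝ)^4) ≤ (m j:ℝ) * (2 * a k) / ((a k)^2/2) := by
          gcongr
      _ = 4 * (m j:ℝ) / a k := by field_simp; ring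
      _ ≤ 4 * (m j:ℝ) / (6*(s k:ℝ)^4) := by rw [hTk] at ha1; gcongr
      _ = (4/6) * (((j:ℝ)+1) * ((s j:ℝ)^2 / (s k:ℝ)^4)) := by rw [hm]; ring
      _ ≤ (4/6) * (((j:ℝ)+1) * (1/(2^j * 2^k))) := by
          refine mul_le_mul_of_nonneg_left (mul_le_mul_of_nonneg_left ?_ hj1.le) (by norm_num)
          rw [div_le_div_iff₀ (by positivity) (by positivity)]
          have h1 : (2:ℝ)^j * 2^k ≤ s j * s k :=
            mul_le_mul (by linarith) (by linarith) (by positivity) (by linarith)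
          have h2 : (s j:ℝ)^2 * (s j * s k) ≤ (s k:ℝ)^4 := by
            calc (s j:ℝ)^2 * (s j * s k) ≤ (s k:ℝ)^2 * (s k * s k) := by gcongr
              _ = (s k:ℝ)^4 := by ring
          nlinarith [mul_le_mul_of_nonneg_left h1 (sq_nonneg (s j:ℝ))]
      _ ≤ 40 * (((j:ℝ)+1) * (1/(2^j * 2^k))) := by gcongr; norm_num
      _ = 40 * θ j / 2^k := by unfold θ; field_simp
  · -- j > k
    have hsT : (s (k+1):ℝ) ≤ s j := by exact_mod_cast s_mono (by omega : k+1 ≤ j)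
    have h16 : (16:ℝ) ≤ s j := by
      have h0 : s 1 ≤ s j := s_mono (by omega)
      have h1 : s 1 = 16 := by unfold s; norm_num
      rw [h1] at h0
      exact_mod_cast h0
    have haj : a k ≤ 10 * s j := by linarith
    have hD : (s j:ℝ)^4/2 ≤ (s j:ℝ)^4 - (a k)^2 := by
      have h1 : (a k)^2 ≤ 100 * (s j:ℝ)^2 := by nlinarith
      have h2 : 256 ≤ (s j:ℝ)^2 := by nlinarith
      nlinarith [mul_nonneg (sq_nonneg (s j:ℝ)) (by linarith : (0:ℝ) ≤ (s j:ℝ)^2 - 256)]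
    have hpos : 0 < (s j:ℝ)^4 := by positivity
    have habs : |(s j:ℝ)^4 - (a k)^2| = (s j:ℝ)^4 - (a k)^2 := by
      rw [abs_of_nonneg]; linarith
    rw [habs]
    refine ⟨by linarith, ?_⟩
    calc (m j:ℝ) * (2 * a k) / ((s j:ℝ)^4 - (a k)^2) ≤ (m j:ℝ) * (2 * a k) / ((s j:ℝ)^4/2) := by
          gcongr
      _ = 4 * ((j:ℝ)+1) * (a k / (s j:ℝ)^2) := by rw [hm]; field_simp; ring
      _ ≤ 4 * ((j:ℝ)+1) * (10*(s j:ℝ) / (s j:ℝ)^2) := by gcongr
      _ = 40 * (((j:ℝ)+1) * (1/ (s j:ℝ))) := by field_simp; ring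
      _ ≤ 40 * (((j:ℝ)+1) * (1/(2^j * 2^k))) := by
          gcongr
          have h1 : (2:ℝ)^k ≤ 2^j := pow_le_pow_right₀ (by norm_num) hjk.le
          have h2 : (2:ℝ)^j * 2^k ≤ 2^j*2^j := by gcongr
          have h3 : (2:ℝ)^j*2^j = 4^j := by rw [← mul_pow]; norm_num
          linarith
      _ = 40 * θ j / 2^k := by unfold θ; field_simp

/-- the closeness parameter -/
def ρ (k : ℕ) : ℝ := 160/2^k

lemma near_h (k : ℕ) (w : ℂ) :
    ‖h (a k + w) - h (a k)‖ ≤ ‖h (a k)‖ * (Real.exp (ρ k * (1+‖w‖^2)) - 1) := by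
  -- ratio of factors
  have hfac : ∀ j, ∃ A : ℂ, F j (a k + w) = F j (a k) * A ∧
      Near A (40 * θ j / 2^k * (1+‖w‖^2)) := by
    intro j
    obtain ⟨h0, h1⟩ := tau_bound k j
    have hne : ((s j:ℂ)^4 - (a k:ℂ)^2) ≠ 0 := by
      intro h
      have : (((s j:ℝ)^4 - (a k)^2 : ℝ):ℂ) = 0 := by push_cast; exact h
      have h2 := Complex.ofReal_eq_zero.mp this
      rw [h2] at h0; simp at h0
    have hs : (s j:ℂ) ≠ 0 := by exact_mod_cast (s_pos j).ne'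
    have hn1 : Near (1 + (-(2*(a k:ℂ)*w+w^2)/((s j:ℂ)^4 - (a k:ℂ)^2)))
        (2 * a k * (1+‖w‖^2) / |(s j:ℝ)^4 - (a k)^2|) := by
      apply near_one_add
      rw [norm_div, norm_neg]
      have e1 : ‖((s j:ℂ)^4 - (a k:ℂ)^2)‖ = |(s j:ℝ)^4 - (a k)^2| := by
        rw [← Real.norm_eq_abs, ← Complex.norm_real]; push_cast; rfl
      rw [e1]
      gcongr
      have ha : 1 ≤ a k := le_trans (one_le_pow₀ (by norm_num)) (a_ge_four_pow k)
      calc ‖2*(a k:ℂ)*w+w^2‖ ≤ ‖2*(a k:ℂ)*w‖ + ‖w^2‖ := norm_add_le _ _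
        _ = 2 * a k * ‖w‖ + ‖w‖^2 := by
            rw [norm_mul, norm_mul, norm_pow, Complex.norm_real, Real.norm_eq_abs,
              abs_of_nonneg (by linarith)]
            norm_num
        _ ≤ 2 * a k * (1+‖w‖^2) := by
            nlinarith [sq_nonneg (‖w‖-1), norm_nonneg w, mul_nonneg (sub_nonneg.mpr ha) (sq_nonneg (‖w‖-1)), mul_nonneg (sub_nonneg.mpr ha) (sq_nonneg (‖w‖))]
    refine ⟨(1 + (-(2*(a k:ℂ)*w+w^2)/((s j:ℂ)^4 - (a k:ℂ)^2)))^(m j), ?_, ?_⟩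
    · unfold F
      rw [← mul_pow]
      congr 1
      field_simp
      ring
    · refine (hn1.pow (m j)).mono ?_
      calc (m j:ℝ) * (2 * a k * (1+‖w‖^2) / |(s j:ℝ)^4 - (a k)^2|)
          = ((m j:ℝ) * (2 * a k) / |(s j:ℝ)^4 - (a k)^2|) * (1+‖w‖^2) := by ring
        _ ≤ _ := by gcongr
  choose A hA1 hA2 using hfac
  have hN : ∀ N, ‖∏ j ∈ Finset.range N, F j (a k + w) - ∏ j ∈ Finset.range N, F j (a k)‖ ≤
      ‖∏ j ∈ Finset.range N, F j (a k)‖ * (Real.exp (ρ k * (1+‖w‖^2)) - 1) := by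
    intro N
    have e1 : ∏ j ∈ Finset.range N, F j (a k + w) =
        (∏ j ∈ Finset.range N, F j (a k)) * ∏ j ∈ Finset.range N, A j := by
      rw [← Finset.prod_mul_distrib]
      exact Finset.prod_congr rfl fun j _ => hA1 j
    have e2 : Near (∏ j ∈ Finset.range N, A j) (ρ k * (1+‖w‖^2)) := by
      refine (near_prod hA2 N).mono ?_
      rw [← Finset.sum_mul]
      have h3 : ∑ j ∈ Finset.range N, 40 * θ j / 2^k ≤ ρ k := by
        have : ∑ j ∈ Finset.range N, 40 * θ j / 2^k = 40/2^k * ∑ j ∈ Finset.range N, θ j := by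
          rw [Finset.mul_sum]
          exact Finset.sum_congr rfl fun j _ => by ring
        rw [this]
        unfold ρ
        calc (40:ℝ)/2^k * ∑ j ∈ Finset.range N, θ j ≤ 40/2^k * 4 := by
              gcongr
              exact sum_θ_le N
          _ = 160/2^k := by ring
      gcongr
    rw [e1]
    have e3 : (∏ j ∈ Finset.range N, F j (a k)) * (∏ j ∈ Finset.range N, A j) -
        ∏ j ∈ Finset.range N, F j (a k) =
        (∏ j ∈ Finset.range N, F j (a k)) * ((∏ j ∈ Finset.range N, A j) - 1) := by ring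
    rw [e3, norm_mul]
    gcongr
    exact e2
  have t1 := ((tendsto_h (a k + w)).sub (tendsto_h (a k))).norm
  have t2 := ((tendsto_h (a k)).norm).mul_const (Real.exp (ρ k * (1+‖w‖^2)) - 1)
  exact le_of_tendsto_of_tendsto' t1 t2 hN

end
end Pool.Agent.Helper6.KKL
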