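import Pool.Agent.Helper6.KKL2

set_option autoImplicit false
open Complex Filter Topology

namespace Pool.Agent.Helper6.KKL

noncomputable section

/-- the constant `e * cosh 1` -/
def c : ℝ := Real.exp 1 * Real.cosh 1

lemma c_pos : 0 < c := by unfold c; positivity

def f (z : ℂ) : ℂ := h z * (Complex.cos z + (c:ℂ))

lemma f_diff : Differentiable ℂ f := by
  unfold f
  exact h_diff.mul (Complex.differentiable_cos.add_const _)

lemma f_neg (z : ℂ) : f (-z) = f z := by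
  unfold f; rw [h_neg, Complex.cos_neg]

lemma f_real (x : ℝ) : (f (x:ℂ)).im = 0 := by
  unfold f
  rw [Complex.mul_im, h_real]
  have : (Complex.cos (x:ℂ) + (c:ℂ)).im = 0 := by
    rw [← Complex.ofReal_cos, ← Complex.ofReal_add, Complex.ofReal_im]
  rw [this]; ring

lemma norm_cos_le (z : ℂ) : ‖Complex.cos z‖ ≤ Real.exp ‖z‖ := by
  unfold Complex.cos
  rw [norm_div]
  have h1 : ‖Complex.exp (z*I)‖ ≤ Real.exp ‖z‖ := by
    have := Complex.norm_exp_le_exp_norm (z*I)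
    simpa using this
  have h2 : ‖Complex.exp (-z*I)‖ ≤ Real.exp ‖z‖ := by
    have := Complex.norm_exp_le_exp_norm (-z*I)
    simpa using this
  have h3 := norm_add_le (Complex.exp (z*I)) (Complex.exp (-z*I))
  have h4 : ‖(2:ℂ)‖ = 2 := by norm_num
  rw [h4]
  rw [div_le_iff₀ (by norm_num)]
  linarith

lemma norm_f_le {δ : ℝ} (hδ : 0 < δ) (hδ1 : δ ≤ 1) {z : ℂ} (hz : 1 ≤ ‖z‖) :
    ‖f z‖ ≤ Real.exp ((4/δ + c + 1) * ‖z‖^(1+δ)) := by
  have hc := c_pos
  unfold f
  rw [norm_mul]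
  have h1 : ‖Complex.cos z + (c:ℂ)‖ ≤ Real.exp (c + ‖z‖) := by
    calc ‖Complex.cos z + (c:ℂ)‖ ≤ ‖Complex.cos z‖ + ‖(c:ℂ)‖ := norm_add_le _ _
      _ ≤ Real.exp ‖z‖ + c := by
          rw [Complex.norm_real, Real.norm_eq_abs, abs_of_pos hc]
          gcongr
          exact norm_cos_le z
      _ ≤ Real.exp (c + ‖z‖) := by
          rw [Real.exp_add]
          have h2 := Real.add_one_le_exp c
          have h3 : 1 ≤ Real.exp ‖z‖ := Real.one_le_exp (norm_nonneg z)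
          nlinarith
  have h4 : ‖z‖ ≤ ‖z‖^(1+δ) := by
    conv_lhs => rw [← Real.rpow_one ‖z‖]
    exact Real.rpow_le_rpow_of_exponent_le hz (by linarith)
  calc ‖h z‖ * ‖Complex.cos z + (c:ℂ)‖
      ≤ Real.exp (4 * (‖z‖^(1+δ)/δ)) * Real.exp (c + ‖z‖) := by
        gcongr
        exact norm_h_le hδ hδ1 z
    _ = Real.exp (4 * (‖z‖^(1+δ)/δ) + (c + ‖z‖)) := (Real.exp_add _ _).symm
    _ ≤ _ := by
        apply Real.exp_le_exp.mpr
        have h5 : (4/δ + c + 1) * ‖z‖^(1+δ) = 4 * (‖z‖^(1+δ)/δ) + (c*‖z‖^(1+δ) + ‖z‖^(1+δ)) := by ring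
        rw [h5]
        have h6 : c ≤ c * ‖z‖^(1+δ) := by nlinarith
        linarith

lemma f_order (ε : ℝ) (hε : 0 < ε) :
    ∃ R : ℝ, ∀ z : ℂ, R ≤ ‖z‖ → ‖f z‖ ≤ Real.exp (‖z‖ ^ (1 + ε)) := by
  set δ := min (ε/2) 1 with hδdef
  have hδ : 0 < δ := lt_min (by linarith) one_pos
  have hδ1 : δ ≤ 1 := min_le_right _ _
  have hδε : 0 < ε - δ := by have := min_le_left (ε/2) 1; linarith
  have ht := tendsto_rpow_atTop hδε
  obtain ⟨R, hR⟩ := eventually_atTop.mp (ht.eventually_ge_atTop (4/δ + c + 1))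
  refine ⟨max R 1, fun z hz => ?_⟩
  have hz1 : 1 ≤ ‖z‖ := le_trans (le_max_right _ _) hz
  have hzR : R ≤ ‖z‖ := le_trans (le_max_left _ _) hz
  refine (norm_f_le hδ hδ1 hz1).trans (Real.exp_le_exp.mpr ?_)
  have h1 := hR ‖z‖ hzR
  have h2 : ‖z‖^(1+ε) = ‖z‖^(ε-δ) * ‖z‖^(1+δ) := by
    rw [← Real.rpow_add (by linarith)]; congr 1; ring
  rw [h2]
  gcongr

lemma f_type (A R : ℝ) : ∃ z : ℂ, R ≤ ‖z‖ ∧ Real.exp (A * ‖z‖) < ‖f z‖ := by
  obtain ⟨k, hk⟩ := exists_nat_gt (max R (2*A))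
  have hkR : R < k := lt_of_le_of_lt (le_max_left _ _) hk
  have hkA : 2*A < k := lt_of_le_of_lt (le_max_right _ _) hk
  refine ⟨((s k:ℝ)^2 : ℝ) * I, ?_⟩
  have hnorm : ‖(((s k:ℝ)^2 : ℝ):ℂ) * I‖ = (s k:ℝ)^2 := by
    rw [norm_mul, Complex.norm_I, mul_one, Complex.norm_real, Real.norm_eq_abs, abs_of_nonneg (by positivity)]
  rw [hnorm]
  have hs1 : (1:ℝ) ≤ s k := by exact_mod_cast s_pos k
  have hks : (k:ℝ) ≤ s k := by
    have h1 : k < 2^k := Nat.lt_two_pow_self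
    have h2 : 2^k ≤ 4^k := Nat.pow_le_pow_left (by norm_num) k
    have h3 := four_pow_le k
    exact_mod_cast (by omega : k ≤ s k)
  refine ⟨by nlinarith, ?_⟩
  unfold f
  rw [norm_mul]
  have hc := c_pos
  have h1 : 1 ≤ ‖Complex.cos ((((s k:ℝ)^2 : ℝ):ℂ) * I) + (c:ℂ)‖ := by
    rw [Complex.cos_mul_I, ← Complex.ofReal_cosh, ← Complex.ofReal_add, Complex.norm_real,
      Real.norm_eq_abs]
    have := Real.one_le_cosh ((s k:ℝ)^2)
    rw [abs_of_nonneg (by linarith)]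
    linarith
  have h2 := norm_h_I_ge k
  have h3 : Real.exp (A * (s k:ℝ)^2) < 2^(m k) := by
    have h4 : (2:ℝ)^(m k) = Real.exp ((m k:ℝ) * Real.log 2) := by
      rw [Real.exp_nat_mul, Real.exp_log (by norm_num)]
    rw [h4]
    apply Real.exp_lt_exp.mpr
    have h5 : (m k:ℝ) = ((k:ℝ)+1) * (s k:ℝ)^2 := by unfold m; push_cast; ring
    rw [h5]
    have h6 := Real.log_two_gt_d9
    have h7 : 0 < (s k:ℝ)^2 := by positivity
    have hk0 : (0:ℝ) ≤ k := Nat.cast_nonneg k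
    have h8 : A < ((k:ℝ)+1) * Real.log 2 := by nlinarith
    nlinarith
  have h9 : (0:ℝ) ≤ 2^(m k) := by positivity
  nlinarith

lemma f_strip : ∃ Δ : ℝ, 0 < Δ ∧ ∀ z : ℂ, f z = 0 → |z.im| < Δ := by
  have hc := c_pos
  refine ⟨c + 1, by linarith, fun z hz => ?_⟩
  unfold f at hz
  rcases mul_eq_zero.mp hz with hz | hz
  · rw [h_zero_im hz]; simp; linarith
  · have hcos : Complex.cos z = -(c:ℂ) := by linear_combination hz
    have hre : (Complex.cos z).re = -c := by rw [hcos]; simp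
    have him : (Complex.cos z).im = 0 := by rw [hcos]; simp
    have e : Complex.cos z = Complex.cos (z.re + z.im * I) := by rw [Complex.re_add_im]
    rw [e, Complex.cos_add_mul_I] at hre him
    have hre' : Real.cos z.re * Real.cosh z.im = -c := by
      rw [← hre]
      simp [← Complex.ofReal_cos, ← Complex.ofReal_cosh, ← Complex.ofReal_sin, ← Complex.ofReal_sinh]
    have him' : Real.sin z.re * Real.sinh z.im = 0 := by
      have : -(Real.sin z.re * Real.sinh z.im) = 0 := by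
        rw [← him]
        simp [← Complex.ofReal_cos, ← Complex.ofReal_cosh, ← Complex.ofReal_sin, ← Complex.ofReal_sinh]
      linarith
    have h1 := Real.cosh_sq z.im
    have h2 := Real.sin_sq_add_cos_sq z.re
    have h3 : (Real.sinh z.im)^2 ≤ c^2 := by
      have : c^2 = (Real.cos z.re)^2 + (Real.sinh z.im)^2 := by
        have e1 : c^2 = (Real.cos z.re * Real.cosh z.im)^2 + (Real.sin z.re * Real.sinh z.im)^2 := by
          rw [hre', him']; ring
        rw [e1, mul_pow, mul_pow, h1]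
        linear_combination (Real.sinh z.im)^2 * h2
      nlinarith [sq_nonneg (Real.cos z.re)]
    have h4 : |Real.sinh z.im| ≤ c := abs_le_of_sq_le_sq h3 hc.le |> fun h => by
      exact h
    have h5 : |z.im| ≤ |Real.sinh z.im| := by
      rw [Real.abs_sinh]
      exact Real.self_le_sinh_iff.mpr (abs_nonneg _)
    linarith

end
end Pool.Agent.Helper6.KKL
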