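import Pool.Agent.Helper6.KKL3

set_option autoImplicit false
open Complex Filter Topology

namespace Pool.Agent.Helper6.KKL

noncomputable section

/-- local model -/
def q (w : ℂ) : ℂ := (c:ℂ) - Complex.cos w

lemma cos_a_add (k : ℕ) (w : ℂ) : Complex.cos ((a k:ℂ) + w) = - Complex.cos w := by
  have e : (a k:ℂ) + w = (w + Real.pi) + (s (k+1) : ℕ) * (2*Real.pi) := by
    unfold a; push_cast; ring
  rw [e, Complex.cos_add_nat_mul_two_pi, Complex.cos_add_pi]

lemma F_a_ne_zero (k j : ℕ) : F j (a k) ≠ 0 := by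
  obtain ⟨h0, _⟩ := tau_bound k j
  intro hz
  unfold F at hz
  have h1 : 1 - (a k:ℂ)^2/(s j:ℂ)^4 = 0 := by
    by_contra hne
    exact pow_ne_zero _ hne hz
  have hs : (s j:ℂ) ≠ 0 := by exact_mod_cast (s_pos j).ne'
  have h2 : (s j:ℂ)^4 - (a k:ℂ)^2 = 0 := by
    field_simp at h1
    simpa using h1
  have h3 : (((s j:ℝ)^4 - (a k)^2 : ℝ):ℂ) = 0 := by push_cast; exact h2
  have h4 := Complex.ofReal_eq_zero.mp h3
  rw [h4] at h0; simp at h0

lemma h_a_ne_zero (k : ℕ) : h (a k) ≠ 0 := h_ne_zero (fun j => F_a_ne_zero k j)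

/-- the error function -/
def err (k : ℕ) (w : ℂ) : ℂ := f (a k + w) / h (a k) - q w

lemma f_eq (k : ℕ) (w : ℂ) : f (a k + w) = h (a k) * (q w + err k w) := by
  unfold err
  have := h_a_ne_zero k
  field_simp
  ring

lemma q_diff : Differentiable ℂ q := by
  unfold q
  exact (differentiable_const _).sub Complex.differentiable_cos

lemma err_diff (k : ℕ) : Differentiable ℂ (err k) := by
  unfold err
  have h1 : Differentiable ℂ (fun w => f (a k + w)) := f_diff.comp (differentiable_id.const_add _)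
  exact (h1.div_const _).sub q_diff

/-- big constant -/
def C₁ : ℝ := (c+1) * Real.exp 25 * 96

lemma C₁_pos : 0 < C₁ := by unfold C₁; have := c_pos; positivity

lemma err_le {k : ℕ} (hρ : ρ k ≤ 1/96) (w : ℂ) :
    ‖err k w‖ ≤ ρ k * C₁ * Real.exp (‖w‖^2/32) := by
  have hH := h_a_ne_zero k
  have hc := c_pos
  have hρ0 : 0 < ρ k := by unfold ρ; positivity
  have e : err k w = q w * ((h (a k + w) - h (a k)) / h (a k)) := by
    unfold err f q
    rw [cos_a_add]
    field_simp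
    ring
  set t := ‖w‖^2 with ht
  have ht0 : 0 ≤ t := by positivity
  have h1 : ‖(h (a k + w) - h (a k)) / h (a k)‖ ≤ Real.exp (ρ k * (1+t)) - 1 := by
    rw [norm_div, div_le_iff₀ (norm_pos_iff.mpr hH), mul_comm]
    exact near_h k w
  have h2 : Real.exp (ρ k * (1+t)) - 1 ≤ ρ k * (1+t) * Real.exp (ρ k * (1+t)) := by
    have h5 := Real.add_one_le_exp (-(ρ k * (1+t)))
    have h6 : Real.exp (-(ρ k * (1+t))) * Real.exp (ρ k * (1+t)) = 1 := by
      rw [← Real.exp_add]; simp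
    have h7 : 0 < Real.exp (ρ k * (1+t)) := Real.exp_pos _
    nlinarith
  have h3 : ‖q w‖ ≤ (c+1) * (Real.exp 24 * Real.exp (t/96)) := by
    have h31 : ‖q w‖ ≤ c + Real.exp ‖w‖ := by
      unfold q
      refine (norm_sub_le _ _).trans ?_
      rw [Complex.norm_real, Real.norm_eq_abs, abs_of_pos hc]
      gcongr
      exact norm_cos_le w
    have h32 : 1 ≤ Real.exp ‖w‖ := Real.one_le_exp (norm_nonneg w)
    have h33 : c + Real.exp ‖w‖ ≤ (c+1) * Real.exp ‖w‖ := by nlinarith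
    have h34 : Real.exp ‖w‖ ≤ Real.exp 24 * Real.exp (t/96) := by
      rw [← Real.exp_add]
      apply Real.exp_le_exp.mpr
      rw [ht]
      nlinarith [sq_nonneg (‖w‖ - 48)]
    calc ‖q w‖ ≤ (c+1) * Real.exp ‖w‖ := by linarith
      _ ≤ _ := by gcongr
  have h4 : (1+t) ≤ 96 * Real.exp (t/96) := by
    have := Real.add_one_le_exp (t/96)
    linarith
  have h5 : Real.exp (ρ k * (1+t)) ≤ Real.exp 1 * Real.exp (t/96) := by
    rw [← Real.exp_add]
    apply Real.exp_le_exp.mpr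
    nlinarith
  rw [e, norm_mul]
  have hq0 : 0 ≤ Real.exp (ρ k * (1+t)) - 1 := by
    have := Real.one_le_exp (show 0 ≤ ρ k * (1+t) by positivity)
    linarith
  calc ‖q w‖ * ‖(h (a k + w) - h (a k)) / h (a k)‖
      ≤ ((c+1) * (Real.exp 24 * Real.exp (t/96))) * (Real.exp (ρ k * (1+t)) - 1) := by gcongr
    _ ≤ ((c+1) * (Real.exp 24 * Real.exp (t/96))) *
        (ρ k * (96 * Real.exp (t/96)) * (Real.exp 1 * Real.exp (t/96))) := by
        gcongr
        refine h2.trans ?_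
        gcongr
    _ = ρ k * C₁ * Real.exp (t/32) := by
        unfold C₁
        have e1 : Real.exp 25 = Real.exp 24 * Real.exp 1 := by rw [← Real.exp_add]; norm_num
        have e2 : Real.exp (t/32) = Real.exp (t/96) * Real.exp (t/96) * Real.exp (t/96) := by
          rw [← Real.exp_add, ← Real.exp_add]; congr 1; ring
        rw [e1, e2]; ring

lemma exp_five_fourth : Real.exp (5/4) ≤ 4 := by
  have h1 := Real.exp_one_lt_d9
  have h2 : Real.exp (1/4) ≤ 4/3 := by
    have h3 := Real.add_one_le_exp (-(1/4:ℝ))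
    have h4 : Real.exp (-(1/4:ℝ)) * Real.exp (1/4) = 1 := by rw [← Real.exp_add]; simp
    have h5 : 0 < Real.exp (1/4:ℝ) := Real.exp_pos _
    nlinarith
  have h3 : Real.exp (5/4) = Real.exp 1 * Real.exp (1/4) := by rw [← Real.exp_add]; norm_num
  rw [h3]
  have h5 : 0 < Real.exp (1/4:ℝ) := Real.exp_pos _
  nlinarith

lemma fact_le (n : ℕ) : ((2*n).factorial : ℝ) ≤ n.factorial * (2*n:ℝ)^n := by
  have h1 : ∀ k, (n + k).factorial ≤ n.factorial * (n+k)^k := by
    intro k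
    induction k with
    | zero => simp
    | succ k ih =>
      have e : n + (k+1) = (n+k)+1 := by ring
      rw [e, Nat.factorial_succ, pow_succ]
      calc (n+k+1) * (n+k).factorial ≤ (n+k+1) * (n.factorial * (n+k)^k) := by gcongr
        _ ≤ (n+k+1) * (n.factorial * (n+k+1)^k) :=
            Nat.mul_le_mul_left _ (Nat.mul_le_mul_left _ (Nat.pow_le_pow_left (by omega) k))
        _ = n.factorial * ((n+k+1)^k * (n+k+1)) := by ring
  have h2 := h1 n
  have e : n + n = 2*n := by ring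
  rw [e] at h2
  exact_mod_cast h2

lemma term_err_le {k : ℕ} (hρ : ρ k ≤ 1/96) {w : ℂ} (hw : ‖w‖ ≤ 2) (n : ℕ) :
    ‖iteratedDeriv (2*n) (err k) w‖ / n.factorial ≤ ρ k * C₁ * 4 * (1/2)^n := by
  have hC := C₁_pos
  have hρ0 : 0 < ρ k := by unfold ρ; positivity
  have hR : 0 < 4 * Real.sqrt (n+1) := by positivity
  have hR2 : (4 * Real.sqrt (n+1))^2 = 16 * ((n:ℝ)+1) := by
    rw [mul_pow, Real.sq_sqrt (by positivity)]; norm_num
  have h1 := Complex.norm_iteratedDeriv_le_of_forall_mem_sphere_norm_le (c := w)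
    (C := ρ k * C₁ * (4 * Real.exp (1*n))) (f := err k) (2*n) hR (err_diff k).diffContOnCl (by
      intro u hu
      refine (err_le hρ u).trans ?_
      gcongr
      have h2 : ‖u‖ ≤ 2 + 4 * Real.sqrt (n+1) := by
        have h3 : ‖u - w‖ = 4 * Real.sqrt (n+1) := by
          rw [mem_sphere_iff_norm] at hu; exact hu
        have h4 : ‖u‖ ≤ ‖w‖ + ‖u - w‖ := by
          have := norm_add_le w (u-w); simpa using this
        linarith
      have h5 : ‖u‖^2 ≤ 8 + 2*(16*((n:ℝ)+1)) := by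
        rw [← hR2]
        have h6 : ‖u‖^2 ≤ (2 + 4 * Real.sqrt (n+1))^2 := by
          gcongr
        nlinarith [sq_nonneg (2 - 4 * Real.sqrt (n+1))]
      calc Real.exp (‖u‖^2/32) ≤ Real.exp (5/4 + 1*n) := by
            apply Real.exp_le_exp.mpr
            linarith
        _ = Real.exp (5/4) * Real.exp (1*n) := Real.exp_add _ _
        _ ≤ 4 * Real.exp (1*n) := by
            gcongr
            exact exp_five_fourth)
  have e1 : (4 * Real.sqrt (n+1))^(2*n) = (16 * ((n:ℝ)+1))^n := by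
    rw [pow_mul, hR2]
  rw [e1] at h1
  have hfac : (0:ℝ) < n.factorial := by exact_mod_cast Nat.factorial_pos n
  rw [div_le_iff₀ hfac]
  refine h1.trans ?_
  have hpos : (0:ℝ) < (16 * ((n:ℝ)+1))^n := by positivity
  rw [div_le_iff₀ hpos]
  have he : Real.exp (1*n) ≤ 4^n := by
    rw [mul_comm, Real.exp_nat_mul]
    have := Real.exp_one_lt_d9
    gcongr
    linarith
  calc ((2*n).factorial:ℝ) * (ρ k * C₁ * (4 * Real.exp (1*n)))
      ≤ (n.factorial * (2*n:ℝ)^n) * (ρ k * C₁ * (4 * 4^n)) := by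
        gcongr
        exact fact_le n
    _ = ρ k * C₁ * 4 * n.factorial * (4 * (2*n:ℝ))^n := by rw [mul_pow 4 (2*n:ℝ)]; ring
    _ ≤ ρ k * C₁ * 4 * n.factorial * ((1/2) * (16 * ((n:ℝ)+1)))^n :=
        mul_le_mul_of_nonneg_left (pow_le_pow_left₀ (by positivity) (by linarith) n) (by positivity)
    _ = ρ k * C₁ * 4 * (1/2)^n * n.factorial * (16 * ((n:ℝ)+1))^n := by rw [mul_pow]; ring

lemma iter_q (n : ℕ) (w : ℂ) :
    iteratedDeriv (2*n) q w = (if n = 0 then (c:ℂ) else 0) - (-1)^n * Complex.cos w := by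
  rcases Nat.eq_zero_or_pos n with h0 | h0
  · subst h0; simp [q]
  · have hn : 0 < 2*n := by omega
    unfold q
    rw [iteratedDeriv_const_sub hn]
    rw [if_neg h0.ne', iteratedDeriv_neg]
    have := congrFun (Complex.iteratedDeriv_even_cos n) w
    rw [this]
    simp

lemma iter_f (k n : ℕ) (w : ℂ) :
    iteratedDeriv n f (a k + w) = h (a k) * (iteratedDeriv n q w + iteratedDeriv n (err k) w) := by
  have h1 := congrFun (iteratedDeriv_comp_const_add n f (a k : ℂ)) w
  have h2 : (fun z => f (a k + z)) = fun z => h (a k) * (q z + err k z) := by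
    funext z; exact f_eq k z
  have h1' : iteratedDeriv n (fun z => f (a k + z)) w = iteratedDeriv n f (a k + w) := h1
  rw [← h1', h2]
  have hq : ContDiff ℂ n q := q_diff.contDiff
  have he : ContDiff ℂ n (err k) := (err_diff k).contDiff
  rw [iteratedDeriv_const_mul (f := fun z => q z + err k z) _ ((hq.add he).contDiffAt)]
  rw [iteratedDeriv_fun_add hq.contDiffAt he.contDiffAt]

/-- the n-th term of the heat flow series (time 1) -/
def T (n : ℕ) (z : ℂ) : ℂ := ((-((1:ℝ) : ℂ)) ^ n / (n.factorial : ℂ)) * iteratedDeriv (2 * n) f z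

lemma norm_coef (n : ℕ) : ‖((-((1:ℝ) : ℂ)) ^ n / (n.factorial : ℂ))‖ = 1/n.factorial := by
  rw [norm_div, norm_pow, norm_neg, Complex.norm_real, Complex.norm_natCast]
  simp

lemma norm_iter_q_le {w : ℂ} (hw : ‖w‖ ≤ 2) (n : ℕ) :
    ‖iteratedDeriv (2*n) q w‖ ≤ c + Real.exp 2 := by
  rw [iter_q]
  refine (norm_sub_le _ _).trans ?_
  have hc := c_pos
  have h1 : ‖(if n = 0 then (c:ℂ) else 0)‖ ≤ c := by
    split_ifs
    · rw [Complex.norm_real, Real.norm_eq_abs, abs_of_pos hc]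
    · rw [norm_zero]; exact hc.le
  have h2 : ‖(-1)^n * Complex.cos w‖ ≤ Real.exp 2 := by
    rw [norm_mul, norm_pow, norm_neg, norm_one, one_pow, one_mul]
    exact (norm_cos_le w).trans (Real.exp_le_exp.mpr hw)
  linarith

lemma norm_T_le {k : ℕ} (hρ : ρ k ≤ 1/96) {w : ℂ} (hw : ‖w‖ ≤ 2) (n : ℕ) :
    ‖T n (a k + w)‖ ≤ ‖h (a k)‖ * ((c + Real.exp 2) * (1/n.factorial) + ρ k * C₁ * 4 * (1/2)^n) := by
  unfold T
  rw [iter_f, norm_mul, norm_coef, norm_mul]
  have h1 := term_err_le hρ hw n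
  have h2 := norm_iter_q_le hw n
  have h3 := norm_add_le (iteratedDeriv (2*n) q w) (iteratedDeriv (2*n) (err k) w)
  have hfac : (0:ℝ) < n.factorial := by exact_mod_cast Nat.factorial_pos n
  calc 1/(n.factorial:ℝ) * (‖h (a k)‖ * ‖iteratedDeriv (2*n) q w + iteratedDeriv (2*n) (err k) w‖)
      ≤ 1/(n.factorial:ℝ) * (‖h (a k)‖ * (‖iteratedDeriv (2*n) q w‖ + ‖iteratedDeriv (2*n) (err k) w‖)) := by
        gcongr
    _ = ‖h (a k)‖ * (‖iteratedDeriv (2*n) q w‖ * (1/n.factorial) + ‖iteratedDeriv (2*n) (err k) w‖ / n.factorial) := by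
        ring
    _ ≤ _ := by gcongr

lemma summable_bound (A B : ℝ) : Summable (fun n : ℕ => A * (1/(n.factorial:ℝ)) + B * (1/2)^n) := by
  have h1 : Summable (fun n : ℕ => (1:ℝ)/(n.factorial:ℝ)) := by
    have := Real.summable_pow_div_factorial 1
    simpa using this
  exact (h1.mul_left A).add ((summable_geometric_of_lt_one (by norm_num) (by norm_num)).mul_left B)

/-- the flowed function -/
def g (z : ℂ) : ℂ := ∑' n : ℕ, T n z

lemma T_diff (n : ℕ) : Differentiable ℂ (T n) := by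
  unfold T
  have h1 : Differentiable ℂ (iteratedDeriv (2*n) f) := by
    have : ContDiff ℂ ((2*n : ℕ) + 1 : ℕ) f := f_diff.contDiff
    exact ContDiff.differentiable_iteratedDeriv (2*n) this (by exact_mod_cast Nat.lt_succ_self _)
  exact h1.const_mul _

lemma g_diffOn {k : ℕ} (hρ : ρ k ≤ 1/96) : DifferentiableOn ℂ g (Metric.ball (a k : ℂ) 2) := by
  unfold g
  refine Complex.differentiableOn_tsum_of_summable_norm
    (u := fun n : ℕ => ‖h (a k)‖ * ((c + Real.exp 2) * (1/n.factorial) + ρ k * C₁ * 4 * (1/2)^n))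
    ((summable_bound _ _).mul_left _) (fun n => (T_diff n).differentiableOn) Metric.isOpen_ball ?_
  intro n z hz
  have h1 : ‖z - a k‖ ≤ 2 := by
    rw [Metric.mem_ball, dist_eq_norm] at hz; exact hz.le
  have h2 := norm_T_le hρ h1 n
  have e : (a k:ℂ) + (z - a k) = z := by ring
  rwa [e] at h2

lemma hasSum_q (w : ℂ) :
    HasSum (fun n : ℕ => ((-((1:ℝ) : ℂ)) ^ n / (n.factorial : ℂ)) * iteratedDeriv (2*n) q w)
      ((c:ℂ) - Complex.exp 1 * Complex.cos w) := by
  have h1 : HasSum (fun n : ℕ => (1:ℂ)^n / (n.factorial:ℂ)) (Complex.exp 1) := by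
    have := NormedSpace.expSeries_div_hasSum_exp (1:ℂ)
    rwa [← Complex.exp_eq_exp_ℂ] at this
  have h2 := h1.mul_right (Complex.cos w)
  have h3 : HasSum (fun n : ℕ => if n = 0 then (c:ℂ) else 0) (c:ℂ) := hasSum_ite_eq 0 (c:ℂ)
  have h4 := h3.sub h2
  refine h4.congr_fun ?_
  intro n
  rw [iter_q]
  have hfac : (n.factorial:ℂ) ≠ 0 := by exact_mod_cast (Nat.factorial_pos n).ne'
  have hsq : ((-1:ℂ)^n) * (-1)^n = 1 := by rw [← mul_pow]; norm_num
  rcases Nat.eq_zero_or_pos n with h0 | h0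
  · subst h0; simp
  · rw [if_neg h0.ne']
    push_cast
    rw [zero_sub, zero_sub, one_pow]
    linear_combination (-(Complex.cos w) / (n.factorial:ℂ)) * hsq

lemma g_approx {k : ℕ} (hρ : ρ k ≤ 1/96) {w : ℂ} (hw : ‖w‖ ≤ 2) :
    ‖g (a k + w) - h (a k) * ((c:ℂ) - Complex.exp 1 * Complex.cos w)‖ ≤
      ‖h (a k)‖ * (ρ k * C₁ * 8) := by
  have hC := C₁_pos
  have hρ0 : 0 < ρ k := by unfold ρ; positivity
  have hfac : ∀ n : ℕ, (0:ℝ) < n.factorial := fun n => by exact_mod_cast Nat.factorial_pos n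
  have hT : Summable (fun n => T n (a k + w)) :=
    Summable.of_norm_bounded ((summable_bound _ _).mul_left _) (fun n => norm_T_le hρ hw n)
  have h1 : HasSum (fun n => T n (a k + w)) (g (a k + w)) := hT.hasSum
  have h2 := (hasSum_q w).mul_left (h (a k))
  have h3 := h1.sub h2
  have hb : ∀ n : ℕ, ‖T n (a k + w) - h (a k) *
      (((-((1:ℝ) : ℂ)) ^ n / (n.factorial : ℂ)) * iteratedDeriv (2*n) q w)‖ ≤
      ‖h (a k)‖ * (ρ k * C₁ * 4) * (1/2)^n := by
    intro n
    have e : T n (a k + w) - h (a k) *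
      (((-((1:ℝ) : ℂ)) ^ n / (n.factorial : ℂ)) * iteratedDeriv (2*n) q w) =
      h (a k) * (((-((1:ℝ) : ℂ)) ^ n / (n.factorial : ℂ)) * iteratedDeriv (2*n) (err k) w) := by
      unfold T; rw [iter_f]; ring
    rw [e, norm_mul, norm_mul, norm_coef]
    have h4 := term_err_le hρ hw n
    calc ‖h (a k)‖ * (1/(n.factorial:ℝ) * ‖iteratedDeriv (2*n) (err k) w‖)
        = ‖h (a k)‖ * (‖iteratedDeriv (2*n) (err k) w‖/n.factorial) := by ring
      _ ≤ ‖h (a k)‖ * (ρ k * C₁ * 4 * (1/2)^n) := by gcongr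
      _ = _ := by ring
  have hgeo : HasSum (fun n : ℕ => ‖h (a k)‖ * (ρ k * C₁ * 4) * (1/2:ℝ)^n)
      (‖h (a k)‖ * (ρ k * C₁ * 4) * 2) := by
    have := hasSum_geometric_two
    exact this.mul_left _
  have h5 := tsum_of_norm_bounded hgeo hb
  rw [h3.tsum_eq] at h5
  calc _ ≤ _ := h5
    _ = _ := by ring

end
end Pool.Agent.Helper6.KKL
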