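import Pool.Agent.Helper6.KKL4

set_option autoImplicit false
open Complex Filter Topology

namespace Pool.Agent.Helper6.KKL

noncomputable section

/-- limit model after flow -/
def Q (w : ℂ) : ℂ := (c:ℂ) - Complex.exp 1 * Complex.cos w

lemma Q_eq (w : ℂ) : Q w = Complex.exp 1 * (Complex.cos I - Complex.cos w) := by
  unfold Q c
  have h1 : Complex.cos I = (Real.cosh 1 : ℂ) := by
    have := Complex.cos_mul_I 1
    rw [one_mul] at this
    rw [this]; push_cast; rfl
  rw [h1]; push_cast; ring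

lemma Q_I : Q I = 0 := by rw [Q_eq]; ring

lemma Q_ne {w : ℂ} (hw : ‖w - I‖ = 1/2) : Q w ≠ 0 := by
  rw [Q_eq]
  intro h0
  have h1 : Complex.cos I = Complex.cos w := by
    rcases mul_eq_zero.mp h0 with h | h
    · exact absurd h (Complex.exp_ne_zero _)
    · exact sub_eq_zero.mp h
  rw [Complex.cos_eq_cos_iff] at h1
  obtain ⟨n, h2 | h2⟩ := h1
  · have e : w - I = ((2 * n * Real.pi : ℝ) : ℂ) := by rw [h2]; push_cast; ring
    rw [e, Complex.norm_real, Real.norm_eq_abs] at hw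
    rcases eq_or_ne n 0 with hn | hn
    · subst hn; simp at hw
    · have h3 : (1:ℝ) ≤ |(n:ℝ)| := by
        have := Int.one_le_abs hn
        exact_mod_cast this
      rw [abs_mul, abs_mul, abs_of_pos Real.pi_pos] at hw
      have h4 := Real.pi_gt_three
      have h5 : |(2:ℝ)| = 2 := by norm_num
      rw [h5] at hw
      nlinarith
  · have e : (w - I).im = -2 := by
      rw [h2]
      have : (2 * (n:ℂ) * (Real.pi:ℂ) - I - I) = ((2 * n * Real.pi : ℝ) : ℂ) - 2 * I := by push_cast; ring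
      rw [this, Complex.sub_im, Complex.ofReal_im]
      simp
    have h3 := Complex.abs_im_le_norm (w - I)
    rw [e, hw] at h3
    norm_num at h3

lemma exists_delta : ∃ δ : ℝ, 0 < δ ∧ ∀ w : ℂ, ‖w - I‖ = 1/2 → δ ≤ ‖Q w‖ := by
  have hcomp : IsCompact (Metric.sphere I (1/2)) := isCompact_sphere _ _
  have hne : (Metric.sphere I (1/2)).Nonempty := NormedSpace.sphere_nonempty.mpr (by norm_num)
  have hcont : ContinuousOn (fun w => ‖Q w‖) (Metric.sphere I (1/2)) := by
    unfold Q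
    exact (continuous_const.sub (continuous_const.mul Complex.continuous_cos)).norm.continuousOn
  obtain ⟨w₀, hw₀, hmin⟩ := hcomp.exists_isMinOn hne hcont
  refine ⟨‖Q w₀‖, norm_pos_iff.mpr (Q_ne ?_), fun w hw => ?_⟩
  · rwa [mem_sphere_iff_norm] at hw₀
  · exact hmin (mem_sphere_iff_norm.mpr hw)

lemma tendsto_ρ : Tendsto ρ atTop (𝓝 0) := by
  have h1 : Tendsto (fun k : ℕ => (160:ℝ) * (1/2)^k) atTop (𝓝 (160 * 0)) :=
    (tendsto_pow_atTop_nhds_zero_of_lt_one (by norm_num) (by norm_num)).const_mul _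
  rw [mul_zero] at h1
  refine h1.congr fun k => ?_
  unfold ρ
  rw [one_div, inv_pow]; ring

lemma exists_zero {δ : ℝ} (hδ : 0 < δ) (hQ : ∀ w : ℂ, ‖w - I‖ = 1/2 → δ ≤ ‖Q w‖) {k : ℕ}
    (hρ : ρ k ≤ 1/96) (hρδ : ρ k * C₁ * 8 < δ/2) :
    ∃ z : ℂ, g z = 0 ∧ ‖z - (a k + I)‖ ≤ 1/2 := by
  by_contra hcon
  push Not at hcon
  have hH : 0 < ‖h (a k)‖ := norm_pos_iff.mpr (h_a_ne_zero k)
  set ctr : ℂ := (a k : ℂ) + I with hctr
  have hsub : Metric.closedBall ctr (1/2) ⊆ Metric.ball (a k : ℂ) 2 := by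
    intro z hz
    rw [Metric.mem_closedBall, dist_eq_norm] at hz
    rw [Metric.mem_ball, dist_eq_norm]
    have e : z - a k = (z - ctr) + I := by rw [hctr]; ring
    rw [e]
    have := norm_add_le (z - ctr) I
    rw [Complex.norm_I] at this
    linarith
  have hne : ∀ z ∈ Metric.closedBall ctr (1/2), g z ≠ 0 := by
    intro z hz h0
    rw [Metric.mem_closedBall, dist_eq_norm] at hz
    have := hcon z h0
    linarith
  have hdiff : DifferentiableOn ℂ (fun z => (g z)⁻¹) (closure (Metric.ball ctr (1/2))) := by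
    rw [closure_ball _ (by norm_num)]
    exact ((g_diffOn hρ).mono hsub).inv hne
  have hd := hdiff.diffContOnCl
  have hfr : ∀ z ∈ frontier (Metric.ball ctr (1/2)), ‖(g z)⁻¹‖ ≤ 1/(‖h (a k)‖ * (δ/2)) := by
    intro z hz
    rw [frontier_ball _ (by norm_num), mem_sphere_iff_norm] at hz
    set w := z - a k with hw
    have hwI : ‖w - I‖ = 1/2 := by
      have : w - I = z - ctr := by rw [hw, hctr]; ring
      rw [this]; exact hz
    have hw2 : ‖w‖ ≤ 2 := by
      have h1 : ‖w‖ ≤ ‖w - I‖ + ‖I‖ := by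
        have := norm_add_le (w - I) I; simpa using this
      rw [Complex.norm_I] at h1
      linarith
    have h1 := g_approx hρ hw2
    have e : (a k : ℂ) + w = z := by rw [hw]; ring
    rw [e] at h1
    have h2 := hQ w hwI
    have h3 : ‖h (a k) * Q w‖ ≤ ‖g z‖ + ‖g z - h (a k) * Q w‖ := by
      have h4 : h (a k) * Q w = g z - (g z - h (a k) * Q w) := by ring
      calc ‖h (a k) * Q w‖ = ‖g z - (g z - h (a k) * Q w)‖ := by rw [← h4]
        _ ≤ _ := norm_sub_le _ _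
    have h1' : ‖g z - h (a k) * Q w‖ ≤ ‖h (a k)‖ * (ρ k * C₁ * 8) := h1
    rw [norm_mul] at h3
    rw [norm_inv, ← one_div]
    apply one_div_le_one_div_of_le (by positivity)
    nlinarith [mul_le_mul_of_nonneg_left h2 hH.le, mul_lt_mul_of_pos_left hρδ hH]
  have hmain := Complex.norm_le_of_forall_mem_frontier_norm_le Metric.isBounded_ball hd hfr
    (subset_closure (Metric.mem_ball_self (by norm_num : (0:ℝ) < 1/2)))
  -- centre value small
  have h1 := g_approx hρ (w := I) (by rw [Complex.norm_I]; norm_num)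
  have h1' : ‖g ctr - h (a k) * Q I‖ ≤ ‖h (a k)‖ * (ρ k * C₁ * 8) := h1
  rw [Q_I, mul_zero, sub_zero] at h1'
  have hg0 : 0 < ‖g ctr‖ := norm_pos_iff.mpr (hne ctr (Metric.mem_closedBall_self (by norm_num)))
  rw [norm_inv, ← one_div, div_le_div_iff₀ hg0 (by positivity)] at hmain
  have h5 := mul_lt_mul_of_pos_left hρδ hH
  linarith

lemma infinite_bad : ¬ {z : ℂ | g z = 0 ∧ (z.im ≠ 0 ∨ deriv g z = 0)}.Finite := by
  intro hfin
  obtain ⟨δ, hδ, hQ⟩ := exists_delta
  have hC := C₁_pos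
  obtain ⟨M, hM⟩ := hfin.isBounded.exists_norm_le
  have t1 : ∀ᶠ k in atTop, ρ k ≤ 1/96 := tendsto_ρ.eventually_le_const (by norm_num)
  have t2 : ∀ᶠ k in atTop, ρ k * C₁ * 8 < δ/2 := by
    have h1 : Tendsto (fun k => ρ k * C₁ * 8) atTop (𝓝 (0 * C₁ * 8)) :=
      (tendsto_ρ.mul_const _).mul_const _
    rw [zero_mul, zero_mul] at h1
    exact h1.eventually_lt_const (by linarith)
  have t3 : ∀ᶠ k : ℕ in atTop, M + 2 ≤ (4:ℝ)^k :=
    (tendsto_pow_atTop_atTop_of_one_lt (by norm_num : (1:ℝ) < 4)).eventually_ge_atTop _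
  obtain ⟨k, hk1, hk2, hk3⟩ := (t1.and (t2.and t3)).exists
  obtain ⟨z, hz0, hz⟩ := exists_zero hδ hQ hk1 hk2
  have ha := a_ge_four_pow k
  have him : z.im ≠ 0 := by
    intro h0
    have h1 := Complex.abs_im_le_norm (z - (a k + I))
    have e : (z - ((a k:ℂ) + I)).im = -1 := by
      rw [Complex.sub_im, Complex.add_im, Complex.ofReal_im, Complex.I_im, h0]; ring
    rw [e] at h1
    norm_num at h1
    linarith
  have hmem : z ∈ {z : ℂ | g z = 0 ∧ (z.im ≠ 0 ∨ deriv g z = 0)} := ⟨hz0, Or.inl him⟩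
  have h2 := hM z hmem
  have h3 : a k ≤ ‖z‖ + 1/2 + 1 := by
    have h4 : (a k : ℂ) = z - (z - (a k + I)) - I := by ring
    have h5 : ‖(a k : ℂ)‖ = a k := by
      rw [Complex.norm_real, Real.norm_eq_abs, abs_of_nonneg]
      have : (0:ℝ) < 4^k := by positivity
      linarith
    have h6 : ‖(a k : ℂ)‖ ≤ ‖z‖ + ‖z - (a k + I)‖ + ‖I‖ := by
      calc ‖(a k : ℂ)‖ = ‖z - (z - (a k + I)) - I‖ := by rw [← h4]
        _ ≤ ‖z - (z - (a k + I))‖ + ‖I‖ := norm_sub_le _ _
        _ ≤ _ := by gcongr; exact norm_sub_le _ _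
    rw [h5, Complex.norm_I] at h6
    linarith
  linarith

end
end Pool.Agent.Helper6.KKL
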