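import Mathlib

set_option autoImplicit false
open Complex Filter Topology

namespace Pool.Agent.Helper6.Lens

noncomputable section

def D : Set ℂ := {z : ℂ | 1 < ‖z‖}

/-! ### the ellipse map -/

def F (c z : ℂ) : ℂ := z + c/z

lemma ne_zero_of_D {z : ℂ} (hz : 1 < ‖z‖) : z ≠ 0 := by
  intro h; rw [h, norm_zero] at hz; linarith

lemma F_diff (c : ℂ) : DifferentiableOn ℂ (F c) {z : ℂ | 1 < ‖z‖} := by
  intro z hz
  have h0 := ne_zero_of_D hz
  unfold F
  exact (differentiableAt_id.add ((differentiableAt_const c).div differentiableAt_id h0)).differentiableWithinAt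

lemma F_inj {c : ℂ} (hc : ‖c‖ < 1) : Set.InjOn (F c) {z : ℂ | 1 < ‖z‖} := by
  intro z hz w hw h
  have hz' : 1 < ‖z‖ := hz
  have hw' : 1 < ‖w‖ := hw
  have hz0 := ne_zero_of_D hz
  have hw0 := ne_zero_of_D hw
  unfold F at h
  have h1 : (z - w) * (z*w - c) = 0 := by
    field_simp at h
    linear_combination h
  rcases mul_eq_zero.mp h1 with h2 | h2
  · exact sub_eq_zero.mp h2
  · exfalso
    have h3 : z*w = c := sub_eq_zero.mp h2
    have h4 : ‖z‖*‖w‖ = ‖c‖ := by rw [← norm_mul, h3]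
    nlinarith

lemma tendsto_inv_cocompact : Tendsto (fun z : ℂ => z⁻¹) (cocompact ℂ) (𝓝 0) := by
  rw [← Metric.cobounded_eq_cocompact]
  exact tendsto_inv₀_cobounded

lemma F_tendsto (c : ℂ) : Tendsto (fun z => F c z - z) (cocompact ℂ) (𝓝 0) := by
  have h1 : Tendsto (fun z : ℂ => c * z⁻¹) (cocompact ℂ) (𝓝 (c*0)) :=
    tendsto_inv_cocompact.const_mul c
  rw [mul_zero] at h1
  refine h1.congr fun z => ?_
  unfold F; rw [div_eq_mul_inv]; ring

lemma F_image {c : ℂ} (hc : ‖c‖ < 1) (p : ℂ) :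
    p ∈ F c '' {z : ℂ | 1 < ‖z‖} ↔ ¬ ‖p - c * (starRingEnd ℂ) p‖ ≤ 1 - ‖c‖^2 := by
  have key : ∀ z1 z2 : ℂ, (z1 + z2) - (z1*z2) * (starRingEnd ℂ) (z1+z2) =
      z1 * ((1 - ‖z2‖^2 : ℝ) : ℂ) + z2 * ((1 - ‖z1‖^2 : ℝ) : ℂ) := by
    intro z1 z2
    have e1 : ((‖z1‖^2 : ℝ):ℂ) = z1 * (starRingEnd ℂ) z1 := by
      rw [Complex.mul_conj, Complex.normSq_eq_norm_sq]
    have e2 : ((‖z2‖^2 : ℝ):ℂ) = z2 * (starRingEnd ℂ) z2 := by
      rw [Complex.mul_conj, Complex.normSq_eq_norm_sq]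
    rw [Complex.ofReal_sub, Complex.ofReal_sub, e1, e2, map_add]
    push_cast
    ring
  constructor
  · rintro ⟨z, hz, rfl⟩ hle
    have hz' : 1 < ‖z‖ := hz
    have hz0 := ne_zero_of_D hz
    have hcz : z * (c/z) = c := by field_simp
    have h1 := key z (c/z)
    rw [hcz] at h1
    unfold F at hle
    rw [h1] at hle
    set a := ‖z‖ with ha
    set b := ‖c/z‖ with hb
    have hab : a * b = ‖c‖ := by rw [ha, hb, ← norm_mul, hcz]
    have hb0 : 0 ≤ b := norm_nonneg _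
    have hb1 : b < 1 := by nlinarith
    have h2 : a * (1 - b^2) - b * (a^2 - 1) ≤ ‖z * ((1 - b^2 : ℝ) : ℂ) + (c/z) * ((1 - a^2 : ℝ) : ℂ)‖ := by
      have h3 : ‖z * ((1 - b^2 : ℝ) : ℂ)‖ ≤ ‖z * ((1 - b^2 : ℝ) : ℂ) + (c/z) * ((1 - a^2 : ℝ) : ℂ)‖ +
          ‖(c/z) * ((1 - a^2 : ℝ) : ℂ)‖ := by
        have := norm_sub_le (z * ((1 - b^2 : ℝ) : ℂ) + (c/z) * ((1 - a^2 : ℝ) : ℂ)) ((c/z) * ((1 - a^2 : ℝ) : ℂ))
        rwa [add_sub_cancel_right] at this
      have h4 : ‖z * ((1 - b^2 : ℝ) : ℂ)‖ = a * (1 - b^2) := by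
        rw [norm_mul, Complex.norm_real, Real.norm_eq_abs, abs_of_nonneg (by nlinarith)]
      have h5 : ‖(c/z) * ((1 - a^2 : ℝ) : ℂ)‖ = b * (a^2 - 1) := by
        rw [norm_mul, Complex.norm_real, Real.norm_eq_abs, abs_of_nonpos (by nlinarith)]
        ring
      linarith
    have h6 : a * (1 - b^2) - b * (a^2 - 1) ≤ 1 - (a*b)^2 := by rw [hab]; linarith
    have h7 : 0 < (a-1)*(1-b) := mul_pos (by linarith) (by linarith)
    have h8 : 0 < 1 - a*b := by rw [hab]; linarith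
    nlinarith [mul_pos h8 h7]
  · intro hlt
    obtain ⟨d, hd⟩ := IsAlgClosed.exists_pow_nat_eq (p^2 - 4*c) (n := 2) (by norm_num)
    set z1 := (p + d)/2 with hz1
    set z2 := (p - d)/2 with hz2
    have hs : z1 + z2 = p := by rw [hz1, hz2]; ring
    have hp : z1 * z2 = c := by
      rw [hz1, hz2]
      linear_combination (-1/4 : ℂ) * hd
    have main : ∀ x y : ℂ, x + y = p → x * y = c → 1 < ‖x‖ → p ∈ F c '' {z : ℂ | 1 < ‖z‖} := by
      intro x y hxy hxyc hx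
      refine ⟨x, hx, ?_⟩
      unfold F
      have := ne_zero_of_D hx
      rw [← hxyc, ← hxy]
      field_simp
    by_contra hcon
    have ha : ‖z1‖ ≤ 1 := by
      by_contra h
      exact hcon (main z1 z2 hs hp (not_le.mp h))
    have hb : ‖z2‖ ≤ 1 := by
      by_contra h
      exact hcon (main z2 z1 (by rw [add_comm]; exact hs) (by rw [mul_comm]; exact hp) (not_le.mp h))
    apply hlt
    have h1 := key z1 z2
    rw [hs, hp] at h1
    rw [h1]
    have hab : ‖z1‖ * ‖z2‖ = ‖c‖ := by rw [← norm_mul, hp]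
    have h2 : ‖z1 * ((1 - ‖z2‖^2 : ℝ) : ℂ) + z2 * ((1 - ‖z1‖^2 : ℝ) : ℂ)‖ ≤
        ‖z1‖ * (1 - ‖z2‖^2) + ‖z2‖ * (1 - ‖z1‖^2) := by
      refine (norm_add_le _ _).trans ?_
      rw [norm_mul, norm_mul, Complex.norm_real, Complex.norm_real, Real.norm_eq_abs, Real.norm_eq_abs,
        abs_of_nonneg (by nlinarith [norm_nonneg z2]), abs_of_nonneg (by nlinarith [norm_nonneg z1])]
    refine h2.trans ?_
    rw [← hab]
    set a := ‖z1‖
    set b := ‖z2‖
    have ha0 : 0 ≤ a := norm_nonneg _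
    have hb0 : 0 ≤ b := norm_nonneg _
    have h3 : 0 ≤ (1-a)*(1-b) := mul_nonneg (by linarith) (by linarith)
    have h4 : 0 ≤ 1 - a*b := by nlinarith
    nlinarith [mul_nonneg h3 h4]

lemma F_convex {c : ℂ} (hc : ‖c‖ < 1) : Convex ℝ (F c '' {z : ℂ | 1 < ‖z‖})ᶜ := by
  have e : (F c '' {z : ℂ | 1 < ‖z‖})ᶜ = {p : ℂ | ‖p - c * (starRingEnd ℂ) p‖ ≤ 1 - ‖c‖^2} := by
    ext p
    rw [Set.mem_compl_iff, F_image hc p, not_not]; rfl
  rw [e]
  intro x hx y hy a b ha hb hab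
  simp only [Set.mem_ofPred_eq] at *
  have e1 : (a • x + b • y) - c * (starRingEnd ℂ) (a • x + b • y) =
      (a:ℂ) * (x - c * (starRingEnd ℂ) x) + (b:ℂ) * (y - c * (starRingEnd ℂ) y) := by
    simp only [Complex.real_smul, map_add, map_mul, Complex.conj_ofReal]
    ring
  rw [e1]
  refine (norm_add_le _ _).trans ?_
  rw [norm_mul, norm_mul, Complex.norm_real, Complex.norm_real, Real.norm_eq_abs, Real.norm_eq_abs,
    abs_of_nonneg ha, abs_of_nonneg hb]
  calc a * ‖x - c * (starRingEnd ℂ) x‖ + b * ‖y - c * (starRingEnd ℂ) y‖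
      ≤ a * (1 - ‖c‖^2) + b * (1 - ‖c‖^2) := by gcongr
    _ = 1 - ‖c‖^2 := by rw [← add_mul, hab, one_mul]

/-! ### the lens map -/

def S (z : ℂ) : ℂ := Complex.exp (Complex.log ((z+1)/(z-1)) / 2)

def G (z : ℂ) : ℂ := (3/2) * ((S z)^3+1)/((S z)^3-1)

/-- open wedge of opening π/2 -/
def Wedge (s : ℂ) : Prop := |s.im| < s.re

lemma sub_one_ne {z : ℂ} (hz : 1 < ‖z‖) : z - 1 ≠ 0 := by
  intro h
  have : z = 1 := by linear_combination h
  rw [this, norm_one] at hz; linarith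

lemma re_pos {z : ℂ} (hz : 1 < ‖z‖) : 0 < ((z+1)/(z-1)).re := by
  have h1 := sub_one_ne hz
  rw [Complex.div_re, ← add_div]
  apply div_pos
  · have h2 : ‖z‖^2 = z.re^2 + z.im^2 := by
      rw [← Complex.normSq_eq_norm_sq, Complex.normSq_apply]; ring
    simp only [Complex.add_re, Complex.sub_re, Complex.one_re, Complex.add_im, Complex.sub_im, Complex.one_im]
    nlinarith
  · exact Complex.normSq_pos.mpr h1

lemma S_sq {z : ℂ} (hz : 1 < ‖z‖) : (S z)^2 = (z+1)/(z-1) := by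
  have h1 : (z+1)/(z-1) ≠ 0 := by
    intro h
    have := re_pos hz
    rw [h] at this; simp at this
  unfold S
  rw [← Complex.exp_nat_mul]
  have : ((2:ℕ):ℂ) * (Complex.log ((z+1)/(z-1)) / 2) = Complex.log ((z+1)/(z-1)) := by push_cast; ring
  rw [this, Complex.exp_log h1]

lemma S_re_pos {z : ℂ} (hz : 1 < ‖z‖) : 0 < (S z).re := by
  unfold S
  rw [Complex.exp_re]
  apply mul_pos (Real.exp_pos _)
  have h1 : |Complex.arg ((z+1)/(z-1))| < Real.pi/2 :=
    Complex.abs_arg_lt_pi_div_two_iff.mpr (Or.inl (re_pos hz))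
  have h2 : (Complex.log ((z+1)/(z-1)) / 2).im = Complex.arg ((z+1)/(z-1)) / 2 := by
    rw [← Complex.log_im]
    simp
  rw [h2]
  rw [abs_lt] at h1
  apply Real.cos_pos_of_mem_Ioo
  constructor <;> linarith [Real.pi_pos, h1.1, h1.2]

lemma wedge_of_sq {s : ℂ} (h1 : 0 < s.re) (h2 : 0 < (s^2).re) : Wedge s := by
  unfold Wedge
  have h3 : (s^2).re = s.re^2 - s.im^2 := by rw [sq, Complex.mul_re]; ring
  rw [h3] at h2
  exact abs_lt_of_sq_lt_sq (by linarith) h1.le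

lemma S_wedge {z : ℂ} (hz : 1 < ‖z‖) : Wedge (S z) := by
  apply wedge_of_sq (S_re_pos hz)
  rw [S_sq hz]; exact re_pos hz

lemma Wedge.re_mul_pos {s t : ℂ} (hs : Wedge s) (ht : Wedge t) : 0 < (s*t).re := by
  unfold Wedge at *
  rw [Complex.mul_re]
  rw [abs_lt] at hs ht
  obtain ⟨h1, h2⟩ := hs
  obtain ⟨h3, h4⟩ := ht
  nlinarith [mul_pos (sub_pos.mpr h1) (sub_pos.mpr h4), mul_pos (sub_pos.mpr h2) (sub_pos.mpr h3)]

lemma Wedge.re_pos' {s : ℂ} (hs : Wedge s) : 0 < s.re := lt_of_le_of_lt (abs_nonneg _) hs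

lemma Wedge.sq_re_pos {s : ℂ} (hs : Wedge s) : 0 < (s^2).re := by rw [sq]; exact hs.re_mul_pos hs

lemma Wedge.q_ne {s : ℂ} (hs : Wedge s) : s^2 + s + 1 ≠ 0 := by
  intro h
  have h1 := congrArg Complex.re h
  simp only [Complex.add_re, Complex.one_re, Complex.zero_re] at h1
  linarith [hs.re_pos', hs.sq_re_pos]

lemma Wedge.add_ne {s : ℂ} (hs : Wedge s) : s + 1 ≠ 0 := by
  intro h
  have h1 := congrArg Complex.re h
  simp only [Complex.add_re, Complex.one_re, Complex.zero_re] at h1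
  linarith [hs.re_pos']

lemma S_sq_ne {z : ℂ} (hz : 1 < ‖z‖) : (S z)^2 - 1 ≠ 0 := by
  rw [S_sq hz]
  have h1 := sub_one_ne hz
  intro h
  have : ((z+1)/(z-1) - 1) = 2/(z-1) := by field_simp; ring
  rw [this, div_eq_zero_iff] at h
  rcases h with h | h
  · norm_num at h
  · exact h1 h

lemma cube_ne {s : ℂ} (hs : Wedge s) (h : s^2 - 1 ≠ 0) : s^3 - 1 ≠ 0 := by
  intro h3
  have h4 : (s-1)*(s^2+s+1) = 0 := by linear_combination h3
  rcases mul_eq_zero.mp h4 with h5 | h5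
  · apply h; linear_combination (s+1)*h5
  · exact hs.q_ne h5

lemma z_eq {z : ℂ} (hz : 1 < ‖z‖) : z = ((S z)^2+1)/((S z)^2-1) := by
  have h1 := S_sq_ne hz
  have h2 := sub_one_ne hz
  rw [eq_div_iff h1, S_sq hz]
  field_simp
  ring

lemma G_diff : DifferentiableOn ℂ G {z : ℂ | 1 < ‖z‖} := by
  intro z hz
  have hz' : 1 < ‖z‖ := hz
  have h1 := sub_one_ne hz'
  have h3 := cube_ne (S_wedge hz') (S_sq_ne hz')
  have hS : DifferentiableAt ℂ S z := by
    unfold S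
    have hm : DifferentiableAt ℂ (fun z : ℂ => (z+1)/(z-1)) z :=
      (differentiableAt_id.add_const 1).div (differentiableAt_id.sub_const 1) h1
    exact ((hm.clog (Or.inl (re_pos hz'))).div_const 2).cexp
  unfold G
  exact ((((hS.pow 3).add_const 1).const_mul (3/2)).div ((hS.pow 3).sub_const 1) h3).differentiableWithinAt

lemma G_inj : Set.InjOn G {z : ℂ | 1 < ‖z‖} := by
  intro z hz w hw h
  have hz' : 1 < ‖z‖ := hz
  have hw' : 1 < ‖w‖ := hw
  have h3 := cube_ne (S_wedge hz') (S_sq_ne hz')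
  have h4 := cube_ne (S_wedge hw') (S_sq_ne hw')
  have hs := S_wedge hz'
  have ht := S_wedge hw'
  unfold G at h
  rw [div_eq_div_iff h3 h4] at h
  have h5 : (S z)^3 = (S w)^3 := by linear_combination (-1/3:ℂ)*h
  have h6 : (S z - S w) * ((S z)^2 + S z * S w + (S w)^2) = 0 := by linear_combination h5
  have h7 : S z = S w := by
    rcases mul_eq_zero.mp h6 with h8 | h8
    · exact sub_eq_zero.mp h8
    · exfalso
      have h9 := congrArg Complex.re h8
      simp only [Complex.add_re, Complex.zero_re] at h9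
      linarith [hs.sq_re_pos, ht.sq_re_pos, hs.re_mul_pos ht]
  rw [z_eq hz', z_eq hw', h7]

lemma G_sub {z : ℂ} (hz : 1 < ‖z‖) :
    G z - z = (S z - 1) * ((S z)^2 + 3 * S z + 1) / (2 * ((S z)^2 + S z + 1) * (S z + 1)) := by
  have h1 := S_sq_ne hz
  have hs := S_wedge hz
  have h3 := cube_ne hs h1
  have h4 := hs.q_ne
  have h5 := hs.add_ne
  have h6 : S z - 1 ≠ 0 := by
    intro h; apply h1; linear_combination (S z + 1) * h
  have e : G z - z = (3/2) * ((S z)^3+1)/((S z)^3-1) - ((S z)^2+1)/((S z)^2-1) := by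
    rw [← z_eq hz]; rfl
  rw [e]
  have e3 : (S z)^3 - 1 = (S z - 1) * ((S z)^2 + S z + 1) := by ring
  have e2 : (S z)^2 - 1 = (S z - 1) * (S z + 1) := by ring
  rw [e3, e2]
  generalize S z = s at *
  rw [div_sub_div _ _ (mul_ne_zero h6 h4) (mul_ne_zero h6 h5),
    div_eq_div_iff (mul_ne_zero (mul_ne_zero h6 h4) (mul_ne_zero h6 h5))
      (mul_ne_zero (mul_ne_zero two_ne_zero h4) h5)]
  ring

lemma G_tendsto : Tendsto (fun z => G z - z) (cocompact ℂ) (𝓝 0) := by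
  -- S z → 1
  have h1 : Tendsto (fun z : ℂ => (1 + z⁻¹)/(1 - z⁻¹)) (cocompact ℂ) (𝓝 ((1+0)/(1-0))) :=
    (tendsto_inv_cocompact.const_add 1).div (tendsto_inv_cocompact.const_sub 1) (by norm_num)
  have hev : ∀ᶠ z : ℂ in cocompact ℂ, 1 < ‖z‖ := by
    have := (isCompact_closedBall (0:ℂ) 1).compl_mem_cocompact
    filter_upwards [this] with z hz
    rw [Set.mem_compl_iff, Metric.mem_closedBall, dist_zero_right, not_le] at hz
    exact hz
  have h2 : Tendsto (fun z : ℂ => (z+1)/(z-1)) (cocompact ℂ) (𝓝 1) := by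
    have e : ((1:ℂ)+0)/(1-0) = 1 := by norm_num
    rw [e] at h1
    refine h1.congr' ?_
    filter_upwards [hev] with z hz
    have hz0 := ne_zero_of_D hz
    have hz1 := sub_one_ne hz
    have e1 : 1 + z⁻¹ = (z+1) * z⁻¹ := by field_simp
    have e2 : 1 - z⁻¹ = (z-1) * z⁻¹ := by field_simp
    rw [e1, e2, mul_div_mul_right _ _ (inv_ne_zero hz0)]
  have hc : ContinuousAt (fun ζ : ℂ => Complex.exp (Complex.log ζ / 2)) 1 := by
    have hl : ContinuousAt Complex.log 1 := continuousAt_clog (by simp)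
    exact Complex.continuous_exp.continuousAt.comp (hl.div_const 2)
  have h3 : Tendsto S (cocompact ℂ) (𝓝 1) := by
    have := hc.tendsto.comp h2
    simp only [Complex.log_one, zero_div, Complex.exp_zero] at this
    exact this
  have h4 : Tendsto (fun z => (S z - 1) * ((S z)^2 + 3 * S z + 1) / (2 * ((S z)^2 + S z + 1) * (S z + 1)))
      (cocompact ℂ) (𝓝 ((1 - 1) * (1^2 + 3 * 1 + 1) / (2 * (1^2 + 1 + 1) * (1 + 1)))) := by
    refine Tendsto.div ?_ ?_ (by norm_num)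
    · exact (h3.sub_const 1).mul (((h3.pow 2).add (h3.const_mul 3)).add_const 1)
    · exact ((((h3.pow 2).add h3).add_const 1).const_mul 2).mul (h3.add_const 1)
  have e : ((1:ℂ) - 1) * (1^2 + 3 * 1 + 1) / (2 * (1^2 + 1 + 1) * (1 + 1)) = 0 := by norm_num
  rw [e] at h4
  refine h4.congr' ?_
  filter_upwards [hev] with z hz
  exact (G_sub hz).symm

end
end Pool.Agent.Helper6.Lens
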