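import Pool.Agent.Helper6.Lens1

set_option autoImplicit false
open Complex Filter Topology

namespace Pool.Agent.Helper6.Lens

noncomputable section

lemma lens_id1 {W : ℂ} (hW : W - 1 ≠ 0) :
    Complex.normSq ((3/2) * (W+1)/(W-1) - (3/2) * I) - 9/2 = 9 * (W.re + W.im) / Complex.normSq (W-1) := by
  have hn : Complex.normSq (W-1) ≠ 0 := (Complex.normSq_pos.mpr hW).ne'
  have e : (3/2) * (W+1)/(W-1) - (3/2) * I = ((3/2) * (W+1) - (3/2) * I * (W-1))/(W-1) := by
    field_simp
  rw [e, Complex.normSq_div, div_sub' hn, div_left_inj' hn]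
  simp only [Complex.normSq_apply, Complex.sub_re, Complex.sub_im, Complex.mul_re, Complex.mul_im,
    Complex.add_re, Complex.add_im, Complex.one_re, Complex.one_im, Complex.I_re, Complex.I_im,
    Complex.div_ofNat_re, Complex.div_ofNat_im, Complex.re_ofNat, Complex.im_ofNat]
  ring

lemma lens_id2 {W : ℂ} (hW : W - 1 ≠ 0) :
    Complex.normSq ((3/2) * (W+1)/(W-1) + (3/2) * I) - 9/2 = 9 * (W.re - W.im) / Complex.normSq (W-1) := by
  have hn : Complex.normSq (W-1) ≠ 0 := (Complex.normSq_pos.mpr hW).ne'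
  have e : (3/2) * (W+1)/(W-1) + (3/2) * I = ((3/2) * (W+1) + (3/2) * I * (W-1))/(W-1) := by
    field_simp
  rw [e, Complex.normSq_div, div_sub' hn, div_left_inj' hn]
  simp only [Complex.normSq_apply, Complex.sub_re, Complex.sub_im, Complex.mul_re, Complex.mul_im,
    Complex.add_re, Complex.add_im, Complex.one_re, Complex.one_im, Complex.I_re, Complex.I_im,
    Complex.div_ofNat_re, Complex.div_ofNat_im, Complex.re_ofNat, Complex.im_ofNat]
  ring

/-- the lens -/
def L : Set ℂ := {w | Complex.normSq (w - (3/2) * I) ≤ 9/2 ∧ Complex.normSq (w + (3/2) * I) ≤ 9/2}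

lemma mem_L_iff {W : ℂ} (hW : W - 1 ≠ 0) :
    (3/2) * (W+1)/(W-1) ∈ L ↔ (W.re + W.im ≤ 0 ∧ W.re - W.im ≤ 0) := by
  have h1 := lens_id1 hW
  have h2 := lens_id2 hW
  have hn : 0 < Complex.normSq (W-1) := Complex.normSq_pos.mpr hW
  have a1 : Complex.normSq ((3/2) * (W+1)/(W-1) - (3/2) * I) ≤ 9/2 ↔ W.re + W.im ≤ 0 := by
    rw [← sub_nonpos, h1]
    constructor
    · intro h
      by_contra hc
      push Not at hc
      have : 0 < 9 * (W.re + W.im) / Complex.normSq (W-1) := by positivity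
      linarith
    · intro h
      exact div_nonpos_of_nonpos_of_nonneg (by linarith) hn.le
  have a2 : Complex.normSq ((3/2) * (W+1)/(W-1) + (3/2) * I) ≤ 9/2 ↔ W.re - W.im ≤ 0 := by
    rw [← sub_nonpos, h2]
    constructor
    · intro h
      by_contra hc
      push Not at hc
      have : 0 < 9 * (W.re - W.im) / Complex.normSq (W-1) := by positivity
      linarith
    · intro h
      exact div_nonpos_of_nonpos_of_nonneg (by linarith) hn.le
  unfold L
  rw [Set.mem_ofPred_eq, a1, a2]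

lemma cube_not {s : ℂ} (hs : Wedge s) : ¬ ((s^3).re + (s^3).im ≤ 0 ∧ (s^3).re - (s^3).im ≤ 0) := by
  rintro ⟨h1, h2⟩
  unfold Wedge at hs
  rw [abs_lt] at hs
  obtain ⟨ha, hb⟩ := hs
  set x := s.re with hx
  set y := s.im with hy
  have e1 : (s^3).re = x^3 - 3*x*y^2 := by
    rw [pow_succ, sq]; simp only [Complex.mul_re, Complex.mul_im]; ring
  have e2 : (s^3).im = 3*x^2*y - y^3 := by
    rw [pow_succ, sq]; simp only [Complex.mul_re, Complex.mul_im]; ring
  rw [e1, e2] at h1 h2
  -- p = (x+y)/2, q = (x-y)/2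
  set p := (x+y)/2 with hp
  set q := (x-y)/2 with hq
  have hp0 : 0 < p := by rw [hp]; linarith
  have hq0 : 0 < q := by rw [hq]; linarith
  have hx' : x = p + q := by rw [hp, hq]; ring
  have hy' : y = p - q := by rw [hp, hq]; ring
  have h3 : 4*q*(3*p^2 - q^2) ≤ 0 := by
    have : 4*q*(3*p^2 - q^2) = x^3 - 3*x*y^2 + (3*x^2*y - y^3) := by rw [hx', hy']; ring
    linarith
  have h4 : 4*p*(3*q^2 - p^2) ≤ 0 := by
    have : 4*p*(3*q^2 - p^2) = x^3 - 3*x*y^2 - (3*x^2*y - y^3) := by rw [hx', hy']; ring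
    linarith
  have h5 : 3*p^2 - q^2 ≤ 0 := by
    by_contra hc
    push Not at hc
    have : 0 < 4*q*(3*p^2 - q^2) := by positivity
    linarith
  have h6 : 3*q^2 - p^2 ≤ 0 := by
    by_contra hc
    push Not at hc
    have : 0 < 4*p*(3*q^2 - p^2) := by positivity
    linarith
  nlinarith [sq_pos_of_pos hp0, sq_pos_of_pos hq0]

lemma abs_sin_lt_cos {x : ℝ} (hx : |x| < Real.pi/4) : |Real.sin x| < Real.cos x := by
  rw [abs_lt] at hx
  have h1 : 0 < Real.cos x := Real.cos_pos_of_mem_Ioo ⟨by linarith [Real.pi_pos], by linarith [Real.pi_pos]⟩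
  have h2 : 0 < Real.cos (2*x) := Real.cos_pos_of_mem_Ioo ⟨by linarith [Real.pi_pos], by linarith [Real.pi_pos]⟩
  rw [Real.cos_two_mul'] at h2
  exact abs_lt_of_sq_lt_sq (by linarith) h1.le

lemma sin_le_cos {x : ℝ} (hx0 : 0 ≤ x) (hx : x ≤ Real.pi/4) : Real.sin x ≤ Real.cos x := by
  have h1 : 0 ≤ Real.cos x := Real.cos_nonneg_of_mem_Icc ⟨by linarith [Real.pi_pos], by linarith [Real.pi_pos]⟩
  have h2 : 0 ≤ Real.cos (2*x) := Real.cos_nonneg_of_mem_Icc ⟨by linarith [Real.pi_pos], by linarith [Real.pi_pos]⟩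
  rw [Real.cos_two_mul'] at h2
  exact abs_le_of_sq_le_sq' (by linarith) h1 |>.2

lemma arg_lt {W : ℂ} (hW : ¬ (W.re + W.im ≤ 0 ∧ W.re - W.im ≤ 0)) : |Complex.arg W| < 3*Real.pi/4 := by
  by_contra hc
  push Not at hc
  apply hW
  have hr := Complex.norm_mul_cos_arg W
  have hi := Complex.norm_mul_sin_arg W
  set b := |Complex.arg W| with hb
  have hbpi : b ≤ Real.pi := Complex.abs_arg_le_pi W
  have h1 : Real.cos (Complex.arg W) = - Real.cos (Real.pi - b) := by
    rw [Real.cos_pi_sub, neg_neg, hb, Real.cos_abs]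
  have h2 : |Real.sin (Complex.arg W)| = Real.sin (Real.pi - b) := by
    rw [Real.sin_pi_sub, hb]
    rcases le_total 0 (Complex.arg W) with h | h
    · rw [abs_of_nonneg h, abs_of_nonneg]
      exact Real.sin_nonneg_of_nonneg_of_le_pi h (Complex.arg_le_pi W)
    · rw [abs_of_nonpos h, Real.sin_neg, abs_of_nonpos]
      have := Complex.neg_pi_lt_arg W
      exact Real.sin_nonpos_of_nonpos_of_neg_pi_le h this.le
  have h3 := sin_le_cos (x := Real.pi - b) (by linarith) (by linarith)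
  have h4 : |Real.sin (Complex.arg W)| ≤ - Real.cos (Complex.arg W) := by rw [h2, h1]; linarith
  rw [abs_le] at h4
  have hn := norm_nonneg W
  constructor
  · rw [← hr, ← hi]
    nlinarith [h4.1, h4.2]
  · rw [← hr, ← hi]
    nlinarith [h4.1, h4.2]

lemma three_half_mem_L : (3/2 : ℂ) ∈ L := by
  unfold L
  constructor <;> (simp [Complex.normSq_apply]; norm_num)

lemma S_unique {z s : ℂ} (hz : 1 < ‖z‖) (hs : 0 < s.re) (h : s^2 = (z+1)/(z-1)) : S z = s := by
  have h1 : (S z - s) * (S z + s) = 0 := by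
    have := S_sq hz
    linear_combination this - h
  rcases mul_eq_zero.mp h1 with h2 | h2
  · exact sub_eq_zero.mp h2
  · exfalso
    have h3 := congrArg Complex.re h2
    simp only [Complex.add_re, Complex.zero_re] at h3
    linarith [S_re_pos hz]

/-- the point of `D` attached to a wedge point -/
def Z (s : ℂ) : ℂ := (s^2+1)/(s^2-1)

lemma Z_norm {s : ℂ} (hs : Wedge s) (h : s^2 - 1 ≠ 0) : 1 < ‖Z s‖ := by
  unfold Z
  rw [norm_div, one_lt_div (norm_pos_iff.mpr h)]
  apply lt_of_pow_lt_pow_left₀ 2 (norm_nonneg _)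
  rw [← Complex.normSq_eq_norm_sq, ← Complex.normSq_eq_norm_sq, Complex.normSq_apply, Complex.normSq_apply]
  simp only [Complex.add_re, Complex.sub_re, Complex.one_re, Complex.add_im, Complex.sub_im, Complex.one_im]
  nlinarith [hs.sq_re_pos]

lemma S_Z {s : ℂ} (hs : Wedge s) (h : s^2 - 1 ≠ 0) : S (Z s) = s := by
  apply S_unique (Z_norm hs h) hs.re_pos'
  unfold Z
  have e1 : (s^2+1)/(s^2-1) + 1 = (2*s^2)/(s^2-1) := by field_simp; ring
  have e2 : (s^2+1)/(s^2-1) - 1 = 2/(s^2-1) := by field_simp; ring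
  rw [e1, e2, div_div_div_cancel_right₀ h]
  ring

lemma G_Z {s : ℂ} (hs : Wedge s) (h : s^2 - 1 ≠ 0) : G (Z s) = (3/2) * (s^3+1)/(s^3-1) := by
  unfold G; rw [S_Z hs h]

lemma G_image (w : ℂ) : w ∈ G '' {z : ℂ | 1 < ‖z‖} ↔ w ∉ L := by
  constructor
  · rintro ⟨z, hz, rfl⟩
    have hz' : 1 < ‖z‖ := hz
    have h3 := cube_ne (S_wedge hz') (S_sq_ne hz')
    unfold G
    rw [mem_L_iff h3]
    exact cube_not (S_wedge hz')
  · intro hw
    have hw1 : w - 3/2 ≠ 0 := by
      intro h
      apply hw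
      have : w = 3/2 := by linear_combination h
      rw [this]; exact three_half_mem_L
    set W := (w + 3/2)/(w - 3/2) with hWdef
    have hW1 : W - 1 ≠ 0 := by
      have : W - 1 = 3/(w-3/2) := by rw [hWdef, div_sub_one hw1]; congr 1; ring
      rw [this]
      exact div_ne_zero (by norm_num) hw1
    have hwW : w = (3/2) * (W+1)/(W-1) := by
      rw [eq_div_iff hW1]
      have hW' : W * (w - 3/2) = w + 3/2 := by rw [hWdef, div_mul_cancel₀ _ hw1]
      linear_combination hW'
    rw [hwW, mem_L_iff hW1] at hw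
    have harg := arg_lt hw
    have hW0 : W ≠ 0 := by
      intro h
      apply hw
      rw [h]; simp
    set s := Complex.exp (Complex.log W / 3) with hs
    have hs3 : s^3 = W := by
      rw [hs, ← Complex.exp_nat_mul]
      have : ((3:ℕ):ℂ) * (Complex.log W / 3) = Complex.log W := by push_cast; ring
      rw [this, Complex.exp_log hW0]
    have hwedge : Wedge s := by
      unfold Wedge
      rw [hs, Complex.exp_re, Complex.exp_im, abs_mul, abs_of_pos (Real.exp_pos _)]
      apply mul_lt_mul_of_pos_left _ (Real.exp_pos _)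
      apply abs_sin_lt_cos
      have : (Complex.log W / 3).im = Complex.arg W / 3 := by
        rw [← Complex.log_im]; simp
      rw [this, abs_div]
      have h3 : |(3:ℝ)| = 3 := by norm_num
      rw [h3]; linarith
    have hsq : s^2 - 1 ≠ 0 := by
      intro h
      have h1 : (s-1)*(s+1) = 0 := by linear_combination h
      rcases mul_eq_zero.mp h1 with h2 | h2
      · apply hW1
        have : s = 1 := by linear_combination h2
        rw [← hs3, this]; ring
      · exact hwedge.add_ne h2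
    refine ⟨Z s, Z_norm hwedge hsq, ?_⟩
    rw [G_Z hwedge hsq, hs3, ← hwW]

lemma G_convex : Convex ℝ (G '' {z : ℂ | 1 < ‖z‖})ᶜ := by
  have e : (G '' {z : ℂ | 1 < ‖z‖})ᶜ = Metric.closedBall ((3/2) * I) (Real.sqrt (9/2)) ∩
      Metric.closedBall (-((3/2) * I)) (Real.sqrt (9/2)) := by
    ext w
    rw [Set.mem_compl_iff, G_image w, not_not, Set.mem_inter_iff, Metric.mem_closedBall,
      Metric.mem_closedBall, dist_eq_norm, dist_eq_norm, sub_neg_eq_add]
    unfold L
    have h1 : ∀ u : ℂ, Complex.normSq u ≤ 9/2 ↔ ‖u‖ ≤ Real.sqrt (9/2) := by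
      intro u
      rw [Complex.normSq_eq_norm_sq, Real.le_sqrt (norm_nonneg _) (by norm_num)]
    rw [Set.mem_ofPred_eq, h1, h1]
  rw [e]
  exact (convex_closedBall _ _).inter (convex_closedBall _ _)

end
end Pool.Agent.Helper6.Lens
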