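import Pool.Agent.Helper6.Lens2

set_option autoImplicit false
open Complex Filter Topology

namespace Pool.Agent.Helper6.Lens

noncomputable section

def c₀ : ℂ := ⟨344878098590756647837/441039517405154926830, -12428856208625562812/24502195411397495935⟩
def z₁ : ℂ := ⟨63/65, 16/65⟩
def z₁' : ℂ := ⟨63/65, -16/65⟩
def g₁ : ℂ := ⟨1533/1090, 48/545⟩
def σ : ℂ := ⟨2, -2⟩
def s₀ : ℂ := ⟨101/20, -99/20⟩
def z₀ : ℂ := ⟨1, 400/9999⟩
def z₀' : ℂ := ⟨99980001/100140001, -3999600/100140001⟩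
def g₀ : ℂ := ⟨4116428107/2754970738, 76274000/12397368321⟩

lemma c₀_norm : ‖c₀‖ < 1 := by
  have h : ‖c₀‖^2 < 1^2 := by
    rw [← Complex.normSq_eq_norm_sq, Complex.normSq_apply]
    unfold c₀; norm_num
  exact lt_of_pow_lt_pow_left₀ 2 (by norm_num) h

lemma z₁_mul : z₁ * z₁' = 1 := by
  unfold z₁ z₁'; apply Complex.ext <;> norm_num [Complex.mul_re, Complex.mul_im]

lemma z₀_mul : z₀ * z₀' = 1 := by
  unfold z₀ z₀'; apply Complex.ext <;> norm_num [Complex.mul_re, Complex.mul_im]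

lemma z₁_norm : ‖z₁‖ = 1 := by
  have h : ‖z₁‖^2 = 1^2 := by
    rw [← Complex.normSq_eq_norm_sq, Complex.normSq_apply]
    unfold z₁; norm_num
  exact (pow_left_inj₀ (norm_nonneg _) (by norm_num) (by norm_num)).mp h

lemma z₁'_norm : ‖z₁'‖ = 1 := by
  have h : ‖z₁'‖^2 = 1^2 := by
    rw [← Complex.normSq_eq_norm_sq, Complex.normSq_apply]
    unfold z₁'; norm_num
  exact (pow_left_inj₀ (norm_nonneg _) (by norm_num) (by norm_num)).mp h

lemma σ_facts : z₁ * (σ*σ - 1) = σ*σ + 1 ∧ g₁ * (σ*σ*σ - 1) = (3/2) * (σ*σ*σ + 1) := by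
  constructor
  · unfold z₁ σ
    apply Complex.ext <;> norm_num [Complex.mul_re, Complex.mul_im]
  · unfold g₁ σ
    apply Complex.ext <;> norm_num [Complex.mul_re, Complex.mul_im]

lemma s₀_facts : z₀ * (s₀*s₀ - 1) = s₀*s₀ + 1 ∧ g₀ * (s₀*s₀*s₀ - 1) = (3/2) * (s₀*s₀*s₀ + 1) := by
  constructor
  · unfold z₀ s₀
    apply Complex.ext <;> norm_num [Complex.mul_re, Complex.mul_im]
  · unfold g₀ s₀
    apply Complex.ext <;> norm_num [Complex.mul_re, Complex.mul_im]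

lemma div_re_pos {u v : ℂ} (hv : v ≠ 0) (h : 0 < u.re * v.re + u.im * v.im) : 0 < (u/v).re := by
  rw [Complex.div_re, ← add_div]
  exact div_pos h (Complex.normSq_pos.mpr hv)

lemma wedge_pq {s : ℂ} (hs : Wedge s) : ∃ p q : ℝ, 0 < p ∧ 0 < q ∧ s = ⟨p+q, p-q⟩ := by
  unfold Wedge at hs
  rw [abs_lt] at hs
  refine ⟨(s.re+s.im)/2, (s.re-s.im)/2, by linarith [hs.1], by linarith [hs.2], ?_⟩
  apply Complex.ext <;> simp <;> ring

lemma RA_pos {s : ℂ} (hs : Wedge s) : 0 < ((s+1)/(s*s+s+1)).re := by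
  have h1 : s*s+s+1 ≠ 0 := by have := hs.q_ne; rwa [sq] at this
  apply div_re_pos h1
  obtain ⟨p, q, hp, hq, rfl⟩ := wedge_pq hs
  simp only [Complex.add_re, Complex.add_im, Complex.mul_re, Complex.mul_im, Complex.one_re, Complex.one_im]
  have e : (p + q + 1) * ((p + q) * (p + q) - (p - q) * (p - q) + (p + q) + 1) +
      (p - q + 0) * ((p + q) * (p - q) + (p - q) * (p + q) + (p - q) + 0) =
      1 + 2*q + 2*q^2 + 2*q^3 + 2*p + 4*p*q + 2*p*q^2 + 2*p^2 + 2*p^2*q + 2*p^3 := by ring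
  rw [e]; positivity

lemma RB_pos {s : ℂ} (hs : Wedge s) (hden : (s+σ)*(s*s+s+1)*(σ*σ+σ+1) ≠ 0) :
    0 < (((s*s+s*σ+σ*σ)*(s+1)*(σ+1))/((s+σ)*(s*s+s+1)*(σ*σ+σ+1))).re := by
  apply div_re_pos hden
  obtain ⟨p, q, hp, hq, rfl⟩ := wedge_pq hs
  unfold σ
  simp only [Complex.add_re, Complex.add_im, Complex.mul_re, Complex.mul_im, Complex.one_re, Complex.one_im]
  have hpoly : 0 < 848 + 2544*q + 3976*q^2 + 4666*q^3 + 2996*q^4 + 1160*q^5 + 232*q^6 + 1696*p + 5128*p*q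
     + 5866*p*q^2 + 2696*p*q^3 + 232*p*q^4 + 1536*p^2 + 3578*p^2*q + 3016*p^2*q^2 + 2320*p^2*q^3
     + 696*p^2*q^4 + 1546*p^3 + 2696*p^3*q + 464*p^3*q^2 + 20*p^4 + 1160*p^4*q + 696*p^4*q^2
     + 232*p^5 + 232*p^6 := by positivity
  refine lt_of_lt_of_eq hpoly ?_
  ring

lemma cz_re {c z : ℂ} (hc : ‖c‖ < 1) (hz : 1 < ‖z‖) : 0 < (1 - c/z).re := by
  have h1 : ‖c/z‖ < 1 := by
    rw [norm_div, div_lt_one (by linarith)]; linarith
  have h2 := Complex.re_le_norm (c/z)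
  rw [Complex.sub_re, Complex.one_re]; linarith

def H (z : ℂ) : ℂ := (((1/2:ℝ)) : ℂ) * F c₀ z + (1 - (((1/2:ℝ)) : ℂ)) * G z

def A : ℂ := (1/2) * (1 + c₀) + (1/2) * (3/2)
def B : ℂ := (1/2) * (z₁ + c₀ * z₁') + (1/2) * g₁

lemma A_not : A ∉ H '' {z : ℂ | 1 < ‖z‖} := by
  rintro ⟨z, hz, hzA⟩
  have hz' : 1 < ‖z‖ := hz
  have hz0 := ne_zero_of_D hz'
  have hz1 := sub_one_ne hz'
  have hs := S_wedge hz'
  have hsq := S_sq_ne hz'
  have h3 := cube_ne hs hsq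
  have h4 : S z * S z + S z + 1 ≠ 0 := by have := hs.q_ne; rwa [sq] at this
  have hG : G z - 3/2 = (z-1) * ((3/2) * ((S z + 1)/(S z * S z + S z + 1))) := by
    have hzz : (z - 1) * (S z * S z - 1) = 2 := by
      have := S_sq hz'
      rw [sq] at this
      rw [this]; field_simp; ring
    have hsq' : S z * S z - 1 ≠ 0 := by rwa [sq] at hsq
    have e1 : z - 1 = 2/(S z * S z - 1) := by rw [eq_div_iff hsq']; exact hzz
    rw [e1]; unfold G
    rw [← mul_div_assoc, div_mul_div_comm, div_sub_div _ _ h3 two_ne_zero,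
      div_eq_div_iff (mul_ne_zero h3 two_ne_zero) (mul_ne_zero hsq' h4)]
    ring
  have hsum : H z - A = (1/2) * (z-1) * ((1 - c₀/z) + (3/2) * ((S z + 1)/(S z * S z + S z + 1))) := by
    have e1 : H z - A = (1/2) * ((z + c₀/z - 1 - c₀) + (G z - 3/2)) := by
      unfold H A F; push_cast; ring
    have e2 : z + c₀/z - 1 - c₀ = (z-1) * (1 - c₀/z) := by field_simp; ring
    rw [e1, hG, e2]; ring
  rw [hzA, sub_self] at hsum
  have hpos : 0 < ((1 - c₀/z) + (3/2) * ((S z + 1)/(S z * S z + S z + 1))).re := by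
    have h5 := cz_re c₀_norm hz'
    have h6 := RA_pos hs
    rw [Complex.add_re]
    have h7 : ((3/2 : ℂ) * ((S z + 1)/(S z * S z + S z + 1))).re = (3/2) * ((S z + 1)/(S z * S z + S z + 1)).re := by
      have : (3/2 : ℂ) = ((3/2 : ℝ) : ℂ) := by push_cast; ring
      rw [this, Complex.re_ofReal_mul]
    rw [h7]; linarith
  have hne : ((1 - c₀/z) + (3/2) * ((S z + 1)/(S z * S z + S z + 1))) ≠ 0 := by
    intro h; rw [h] at hpos; simp at hpos
  exact (mul_ne_zero (mul_ne_zero (by norm_num) hz1) hne) hsum.symm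

lemma σ_ne : σ*σ - 1 ≠ 0 ∧ σ*σ*σ - 1 ≠ 0 ∧ σ*σ+σ+1 ≠ 0 := by
  refine ⟨?_, ?_, ?_⟩ <;>
  · intro h
    have := congrArg Complex.re h
    unfold σ at this
    norm_num [Complex.mul_re, Complex.mul_im] at this

lemma B_not : B ∉ H '' {z : ℂ | 1 < ‖z‖} := by
  rintro ⟨z, hz, hzB⟩
  have hz' : 1 < ‖z‖ := hz
  have hz0 := ne_zero_of_D hz'
  have hz1 : z - z₁ ≠ 0 := by
    intro h
    have : z = z₁ := sub_eq_zero.mp h
    rw [this, z₁_norm] at hz'; linarith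
  have hs := S_wedge hz'
  have hsq := S_sq_ne hz'
  have h3 := cube_ne hs hsq
  have h4 : S z * S z + S z + 1 ≠ 0 := by have := hs.q_ne; rwa [sq] at this
  obtain ⟨hσ1, hσ2, hσ3⟩ := σ_ne
  have hsσ : S z + σ ≠ 0 := by
    intro h
    have h1 := congrArg Complex.re h
    rw [Complex.add_re, Complex.zero_re] at h1
    have h2 : σ.re = 2 := rfl
    linarith [hs.re_pos']
  have hden : (S z+σ)*(S z*S z+S z+1)*(σ*σ+σ+1) ≠ 0 := mul_ne_zero (mul_ne_zero hsσ h4) hσ3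
  have hsq' : S z * S z - 1 ≠ 0 := by rwa [sq] at hsq
  have hz1e : z₁ = (σ*σ+1)/(σ*σ-1) := by rw [eq_div_iff hσ1]; exact σ_facts.1
  have hg1e : g₁ = (3/2) * (σ*σ*σ + 1)/(σ*σ*σ - 1) := by rw [eq_div_iff hσ2]; exact σ_facts.2
  have hze : z = (S z * S z + 1)/(S z * S z - 1) := by
    have := z_eq hz'
    rwa [sq] at this
  have hG : G z - g₁ = (z - z₁) * ((3/2) * (((S z*S z+S z*σ+σ*σ)*(S z+1)*(σ+1))/((S z+σ)*(S z*S z+S z+1)*(σ*σ+σ+1)))) := by
    have e1 : z - z₁ = (S z * S z + 1)/(S z * S z - 1) - (σ*σ+1)/(σ*σ-1) := by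
      rw [← hze, ← hz1e]
    rw [e1, hg1e]; unfold G
    have h3' : S z ^ 3 - 1 ≠ 0 := h3
    rw [div_sub_div _ _ h3' hσ2, div_sub_div _ _ hsq' hσ1, ← mul_div_assoc, div_mul_div_comm,
      div_eq_div_iff (mul_ne_zero h3' hσ2) (mul_ne_zero (mul_ne_zero hsq' hσ1) hden)]
    ring
  have hsum : H z - B = (1/2) * (z-z₁) * ((1 - (c₀*z₁')/z) + (3/2) * (((S z*S z+S z*σ+σ*σ)*(S z+1)*(σ+1))/((S z+σ)*(S z*S z+S z+1)*(σ*σ+σ+1)))) := by
    have e1 : H z - B = (1/2) * ((z + c₀/z - z₁ - c₀*z₁') + (G z - g₁)) := by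
      unfold H B F; push_cast; ring
    have e2 : z + c₀/z - z₁ - c₀*z₁' = (z-z₁) * (1 - (c₀*z₁')/z) := by
      have hm := z₁_mul
      field_simp
      linear_combination (-c₀) * hm
    rw [e1, hG, e2]; ring
  rw [hzB, sub_self] at hsum
  have hc : ‖c₀*z₁'‖ < 1 := by rw [norm_mul, z₁'_norm, mul_one]; exact c₀_norm
  have hpos : 0 < ((1 - (c₀*z₁')/z) + (3/2) * (((S z*S z+S z*σ+σ*σ)*(S z+1)*(σ+1))/((S z+σ)*(S z*S z+S z+1)*(σ*σ+σ+1)))).re := by
    have h5 := cz_re hc hz'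
    have h6 := RB_pos hs hden
    rw [Complex.add_re]
    have h7 : ∀ u : ℂ, ((3/2 : ℂ) * u).re = (3/2) * u.re := by
      intro u
      have : (3/2 : ℂ) = ((3/2 : ℝ) : ℂ) := by push_cast; ring
      rw [this, Complex.re_ofReal_mul]
    rw [h7]; linarith
  have hne : ((1 - (c₀*z₁')/z) + (3/2) * (((S z*S z+S z*σ+σ*σ)*(S z+1)*(σ+1))/((S z+σ)*(S z*S z+S z+1)*(σ*σ+σ+1)))) ≠ 0 := by
    intro h; rw [h] at hpos; simp at hpos
  exact (mul_ne_zero (mul_ne_zero (by norm_num) hz1) hne) hsum.symm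

lemma s₀_wedge : Wedge s₀ := by
  unfold Wedge s₀
  rw [abs_lt]; constructor <;> norm_num

lemma s₀_ne : s₀^2 - 1 ≠ 0 := by
  intro h
  have := congrArg Complex.im h
  unfold s₀ at this
  norm_num [sq, Complex.mul_re, Complex.mul_im] at this

lemma s₀_ne3 : s₀*s₀*s₀ - 1 ≠ 0 := by
  intro h
  have := congrArg Complex.im h
  unfold s₀ at this
  norm_num [Complex.mul_re, Complex.mul_im] at this

lemma Z_s₀ : Z s₀ = z₀ := by
  unfold Z
  rw [div_eq_iff s₀_ne, sq]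
  exact s₀_facts.1.symm

lemma G_z₀ : G z₀ = g₀ := by
  rw [← Z_s₀, G_Z s₀_wedge s₀_ne]
  have e : s₀^3 = s₀*s₀*s₀ := by ring
  rw [e, div_eq_iff s₀_ne3]
  exact s₀_facts.2.symm

lemma H_z₀ : H z₀ = ((9/10 : ℝ) : ℂ) * A + ((1/10 : ℝ) : ℂ) * B := by
  have hz : z₀ ≠ 0 := by
    intro h
    have := congrArg Complex.re h
    unfold z₀ at this
    norm_num at this
  have e : c₀ / z₀ = c₀ * z₀' := by
    rw [div_eq_iff hz]
    linear_combination (-c₀) * z₀_mul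
  unfold H F
  rw [e, G_z₀]
  unfold A B c₀ z₀ z₀' g₀ z₁ z₁' g₁
  apply Complex.ext
  · simp only [Complex.add_re, Complex.add_im, Complex.mul_re, Complex.mul_im, Complex.sub_re, Complex.sub_im,
      Complex.ofReal_re, Complex.ofReal_im, Complex.one_re, Complex.one_im,
      Complex.div_ofNat_re, Complex.div_ofNat_im, Complex.re_ofNat, Complex.im_ofNat]
    norm_num
  · simp only [Complex.add_re, Complex.add_im, Complex.mul_re, Complex.mul_im, Complex.sub_re, Complex.sub_im,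
      Complex.ofReal_re, Complex.ofReal_im, Complex.one_re, Complex.one_im,
      Complex.div_ofNat_re, Complex.div_ofNat_im, Complex.re_ofNat, Complex.im_ofNat]
    norm_num

lemma H_not_convex : ¬ Convex ℝ (H '' {z : ℂ | 1 < ‖z‖})ᶜ := by
  intro hconv
  have h1 := hconv (x := A) A_not (y := B) B_not (a := 9/10) (b := 1/10) (by norm_num) (by norm_num) (by norm_num)
  apply h1
  refine ⟨z₀, ?_, ?_⟩
  · have := Z_norm s₀_wedge s₀_ne
    rw [Z_s₀] at this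
    exact this
  · rw [H_z₀]
    simp only [Complex.real_smul]

end
end Pool.Agent.Helper6.Lens
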