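import Mathlib
import Pool.Agent.Helper6.CarathB

/-! Helper for MP_2306a6_an: second-order coefficients along Loewner chains. -/

namespace Loew

open Set Filter Topology Metric

section
variable {E : Type*} [NormedAddCommGroup E] [InnerProductSpace ℂ E] [CompleteSpace E]

omit [CompleteSpace E] in
lemma eventually_ball {x : E} (hx : x ∈ ball (0 : E) 1) : ∀ᶠ y in 𝓝 x, y ∈ ball (0 : E) 1 :=
  isOpen_ball.mem_nhds hx

lemma transition_analytic {f g : E → E}
    (hf : AnalyticOnNhd ℂ f (ball 0 1)) (hg : AnalyticOnNhd ℂ g (ball 0 1))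
    (hinj : InjOn g (ball 0 1))
    (hinv : ∀ z ∈ ball (0 : E) 1, (fderiv ℂ g z).IsInvertible)
    (v : E → E) (hv : ∀ z ∈ ball (0 : E) 1, v z ∈ ball (0 : E) 1 ∧ g (v z) = f z) :
    AnalyticOnNhd ℂ v (ball 0 1) := by
  intro x hx
  obtain ⟨hy, hgy⟩ := hv x hx
  obtain ⟨L, hL⟩ := hinv _ hy
  have hs : HasStrictFDerivAt g (L : E →L[ℂ] E) (v x) := by
    rw [hL]; exact (hg _ hy).hasStrictFDerivAt
  set R := hs.toOpenPartialHomeomorph g with hR
  have hRa : AnalyticAt ℂ (hs.localInverse g L (v x)) (g (v x)) :=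
    R.analyticAt_symm' (a := v x) (i := L) hs.mem_toOpenPartialHomeomorph_source (hg _ hy)
      hs.hasFDerivAt.fderiv
  have hft : Tendsto f (𝓝 x) (𝓝 (g (v x))) := by
    rw [hgy]; exact (hf x hx).continuousAt
  have h1 := hft.eventually hs.eventually_right_inverse
  have h2 := hft.eventually (hs.localInverse_tendsto.eventually (eventually_ball hy))
  have hev : (fun x' => hs.localInverse g L (v x) (f x')) =ᶠ[𝓝 x] v := by
    filter_upwards [h1, h2, eventually_ball hx] with x' h1 h2 h3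
    obtain ⟨h4, h5⟩ := hv x' h3
    apply hinj h2 h4
    rw [h1, h5]
  have hcomp : AnalyticAt ℂ (fun x' => hs.localInverse g L (v x) (f x')) x := by
    apply AnalyticAt.comp' (g := hs.localInverse g L (v x)) ?_ (hf x hx)
    rw [← hgy]; exact hRa
  exact hcomp.congr hev

/-- second derivative at `0` on the diagonal -/
noncomputable def D2 (F : E → E) (z : E) : E := fderiv ℂ (fderiv ℂ F) 0 z z

lemma D2_comp {f g v : E → E} (hf : f =ᶠ[𝓝 0] g ∘ v) (hg : AnalyticAt ℂ g 0)
    (hv : AnalyticAt ℂ v 0) (hv0 : v 0 = 0) (c : ℂ)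
    (hvd : fderiv ℂ v 0 = c • ContinuousLinearMap.id ℂ E) (z : E) :
    D2 f z = fderiv ℂ g 0 (D2 v z) + c ^ 2 • D2 g z := by
  have hvt : Tendsto v (𝓝 0) (𝓝 0) := by
    have := hv.continuousAt.tendsto
    rwa [hv0] at this
  have hev : fderiv ℂ f =ᶠ[𝓝 0] fun x => (fderiv ℂ g (v x)).comp (fderiv ℂ v x) := by
    have h1 := hf.fderiv (𝕜 := ℂ)
    refine h1.trans ?_
    filter_upwards [hv.eventually_analyticAt, hvt.eventually hg.eventually_analyticAt] with x h2 h3
    exact fderiv_comp x h3.differentiableAt h2.differentiableAt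
  have hc : HasFDerivAt (fun x => fderiv ℂ g (v x))
      ((fderiv ℂ (fderiv ℂ g) 0).comp (fderiv ℂ v 0)) 0 := by
    have h1 : HasFDerivAt (fderiv ℂ g) (fderiv ℂ (fderiv ℂ g) 0) (v 0) := by
      rw [hv0]; exact hg.fderiv.differentiableAt.hasFDerivAt
    exact h1.comp 0 hv.differentiableAt.hasFDerivAt
  have hd : HasFDerivAt (fderiv ℂ v) (fderiv ℂ (fderiv ℂ v) 0) 0 :=
    hv.fderiv.differentiableAt.hasFDerivAt
  have hcd := hc.clm_comp hd
  unfold D2
  rw [hev.fderiv_eq, hcd.fderiv]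
  rw [hvd, hv0]
  simp only [add_apply, ContinuousLinearMap.comp_apply, ContinuousLinearMap.compL_apply,
    ContinuousLinearMap.flip_apply, smul_apply, ContinuousLinearMap.id_apply, map_smul]
  rw [smul_smul, sq]

lemma iteratedDeriv_slice {F : E → E} (hF : AnalyticAt ℂ F 0) (z : E) :
    iteratedDeriv 2 (fun ζ : ℂ => F (ζ • z)) 0 = D2 F z := by
  have hl : ∀ ζ : ℂ, HasDerivAt (fun ζ : ℂ => ζ • z) z ζ := by
    intro ζ
    have := (hasDerivAt_id' ζ).smul_const z
    simpa using this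
  have ht : Tendsto (fun ζ : ℂ => ζ • z) (𝓝 0) (𝓝 0) := by
    have : Continuous fun ζ : ℂ => ζ • z := by fun_prop
    have h := this.tendsto 0
    simpa using h
  have hev : deriv (fun ζ : ℂ => F (ζ • z)) =ᶠ[𝓝 0] fun ζ => fderiv ℂ F (ζ • z) z := by
    filter_upwards [ht.eventually hF.eventually_analyticAt] with ζ h1
    exact (h1.differentiableAt.hasFDerivAt.comp_hasDerivAt ζ (hl ζ)).deriv
  rw [iteratedDeriv_succ, iteratedDeriv_one, hev.deriv_eq]
  have h1 : HasFDerivAt (fderiv ℂ F) (fderiv ℂ (fderiv ℂ F) 0) ((0 : ℂ) • z) := by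
    rw [zero_smul]; exact hF.fderiv.differentiableAt.hasFDerivAt
  have h2 := h1.comp_hasDerivAt (0 : ℂ) (hl 0)
  have h3 := h2.clm_apply (hasDerivAt_const (0 : ℂ) z)
  have h4 := h3.deriv
  simp only [Function.comp_apply, map_zero, add_zero] at h4
  exact h4

lemma D2_le {F : E → E} (hF : AnalyticOnNhd ℂ F (ball 0 1)) (M : ℝ)
    (hM : ∀ w ∈ closedBall (0 : E) (1 / 2), ‖F w‖ ≤ M) (z : E) (hz : ‖z‖ = 1) :
    ‖D2 F z‖ ≤ 8 * M := by
  rw [← iteratedDeriv_slice (hF 0 (mem_ball_self one_pos)) z]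
  have hd : ∀ ζ : ℂ, ‖ζ‖ < 1 → DifferentiableAt ℂ (fun ζ : ℂ => F (ζ • z)) ζ := by
    intro ζ hζ
    have hm : ζ • z ∈ ball (0 : E) 1 := by
      rw [mem_ball_zero_iff, norm_smul, hz, mul_one]; exact hζ
    exact (hF _ hm).differentiableAt.comp ζ (by fun_prop)
  have h := Complex.norm_iteratedDeriv_le_of_forall_mem_sphere_norm_le (c := 0) (R := 1 / 2)
    (C := M) (f := fun ζ : ℂ => F (ζ • z)) 2 (by norm_num) ?_ ?_
  · refine h.trans (le_of_eq ?_)
    norm_num
    ring
  · constructor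
    · intro ζ hζ
      apply (hd ζ ?_).differentiableWithinAt
      have : ‖ζ‖ < 1 / 2 := by simpa using hζ
      linarith
    · rw [closure_ball _ (by norm_num)]
      intro ζ hζ
      apply (hd ζ ?_).continuousAt.continuousWithinAt
      have : ‖ζ‖ ≤ 1 / 2 := by simpa using hζ
      linarith
  · intro ζ hζ
    apply hM
    rw [mem_closedBall_zero_iff, norm_smul, hz, mul_one]
    have : ‖ζ‖ = 1 / 2 := by simpa using hζ
    exact this.le

lemma D2_transition_le {v : E → E} (hv : AnalyticOnNhd ℂ v (ball 0 1))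
    (hmaps : ∀ z ∈ ball (0 : E) 1, v z ∈ ball (0 : E) 1) (hv0 : v 0 = 0) (c : ℝ) (hc : c < 1)
    (hvd : fderiv ℂ v 0 = (c : ℂ) • ContinuousLinearMap.id ℂ E) (z : E) (hz : ‖z‖ = 1) :
    ‖D2 v z‖ ≤ 2 * (Carath.qc 2 * (1 - c)) := by
  have h1c : (0 : ℝ) < 1 - c := by linarith
  have h1c' : ((1 - c : ℝ) : ℂ) ≠ 0 := by exact_mod_cast h1c.ne'
  set a : ℂ := (((1 - c)⁻¹ : ℝ) : ℂ) with ha
  set h : E → E := fun z => a • (z - v z) with hh
  have h0mem : (0 : E) ∈ ball (0 : E) 1 := mem_ball_self one_pos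
  have hha : AnalyticOnNhd ℂ h (ball 0 1) := by
    intro x hx
    exact analyticAt_const.smul (analyticAt_id.sub (hv x hx))
  have hh0 : h 0 = 0 := by rw [hh]; simp [hv0]
  have hfd : ∀ x ∈ ball (0 : E) 1, fderiv ℂ h x = a • (ContinuousLinearMap.id ℂ E - fderiv ℂ v x) := by
    intro x hx
    have := ((hasFDerivAt_id (𝕜 := ℂ) x).sub (hv x hx).differentiableAt.hasFDerivAt).const_smul a
    exact this.fderiv
  have hhd : fderiv ℂ h 0 = ContinuousLinearMap.id ℂ E := by
    rw [hfd 0 h0mem, hvd]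
    ext x
    simp only [smul_apply, sub_apply, ContinuousLinearMap.id_apply]
    rw [← one_smul ℂ x, smul_smul, ← sub_smul, smul_smul, ha]
    congr 1
    push_cast at h1c' ⊢
    field_simp
  have hpos : ∀ x ∈ ball (0 : E) 1, 0 ≤ (inner ℂ x (h x)).re := by
    intro x hx
    have hx1 : ‖x‖ < 1 := by simpa using hx
    have hs : ‖v x‖ ≤ ‖x‖ := by
      apply Complex.norm_le_norm_of_mapsTo_ball (R := 1) ?_ ?_ hv0 hx1
      · exact fun y hy => (hv y hy).differentiableAt.differentiableWithinAt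
      · exact fun y hy => ball_subset_closedBall (hmaps y hy)
    rw [hh]
    simp only
    rw [inner_smul_right, ha, Complex.re_ofReal_mul, inner_sub_right, Complex.sub_re]
    apply mul_nonneg (by positivity)
    have e1 : (inner ℂ x x).re = ‖x‖ ^ 2 := by
      rw [inner_self_eq_norm_sq_to_K]; norm_cast
    have e2 : (inner ℂ x (v x)).re ≤ ‖x‖ * ‖v x‖ :=
      (Complex.re_le_norm _).trans (norm_inner_le_norm x (v x))
    rw [e1]
    nlinarith [norm_nonneg x]
  obtain ⟨p, r, hp⟩ := hha 0 h0mem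
  have key := Carath.norm_coeff_le hha hp.hasFPowerSeriesAt hh0 hhd hpos 2 le_rfl z hz
  have e3 : ((2 : ℕ).factorial) • (p 2 fun _ => z) = D2 h z := by
    rw [hp.factorial_smul z 2, iteratedFDeriv_two_apply]; rfl
  have e4 : D2 h z = -(a • D2 v z) := by
    unfold D2
    have hev : fderiv ℂ h =ᶠ[𝓝 0] fun x => a • (ContinuousLinearMap.id ℂ E - fderiv ℂ v x) := by
      filter_upwards [eventually_ball h0mem] with x hx using hfd x hx
    have h5 : HasFDerivAt (fun x => a • (ContinuousLinearMap.id ℂ E - fderiv ℂ v x))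
        (a • ((0 : E →L[ℂ] E →L[ℂ] E) - fderiv ℂ (fderiv ℂ v) 0)) 0 :=
      ((hasFDerivAt_const (ContinuousLinearMap.id ℂ E) (0 : E)).sub
        (hv 0 h0mem).fderiv.differentiableAt.hasFDerivAt).const_smul a
    rw [hev.fderiv_eq, h5.fderiv]
    simp
  have e5 : ‖D2 h z‖ ≤ 2 * Carath.qc 2 := by
    rw [← e3]
    simp only [Nat.factorial_two]
    rw [two_smul]
    refine (norm_add_le _ _).trans ?_
    linarith
  rw [e4, norm_neg, norm_smul, ha, Complex.norm_real, Real.norm_of_nonneg (by positivity)] at e5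
  rw [inv_mul_le_iff₀ h1c] at e5
  linarith

end

end Loew
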