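import Mathlib
import Pool.Agent.Helper6.LoewA

/-! Helper for MP_2306a6_an: inequalities for the lower bound. -/

namespace Loew

open Set Filter Topology Metric

lemma poly_g {μ Y : ℝ} (hμ0 : 0 ≤ μ) (hμ1 : μ ≤ 1) (hY0 : 0 ≤ Y) (hY3 : Y ^ 2 ≤ 3) :
    0 ≤ (1 - μ) ^ 2 * (Y - 1) ^ 2 * (Y + 2)
      + μ * (4 * μ - 3 * μ ^ 2 - 3 / 4 * (1 - μ) ^ 2 * ((1 - Y ^ 2) * (5 - Y ^ 2))) := by
  have hν : 0 ≤ (1 - μ) ^ 2 := by positivity
  have h0 : 0 ≤ 4 * μ - 3 * μ ^ 2 := by nlinarith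
  rcases le_total 1 Y with h | h
  · have h1 : (1 - Y ^ 2) * (5 - Y ^ 2) ≤ 0 := by
      apply mul_nonpos_of_nonpos_of_nonneg <;> nlinarith
    have h2 : 3 / 4 * (1 - μ) ^ 2 * ((1 - Y ^ 2) * (5 - Y ^ 2)) ≤ 0 :=
      mul_nonpos_of_nonneg_of_nonpos (by positivity) h1
    have h3 : 0 ≤ (1 - μ) ^ 2 * (Y - 1) ^ 2 * (Y + 2) := by positivity
    have h4 : 0 ≤ μ * (4 * μ - 3 * μ ^ 2 - 3 / 4 * (1 - μ) ^ 2 * ((1 - Y ^ 2) * (5 - Y ^ 2))) :=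
      mul_nonneg hμ0 (by linarith)
    linarith
  · obtain ⟨d, rfl⟩ : ∃ d, Y = 1 - d := ⟨1 - Y, by ring⟩
    have hd0 : 0 ≤ d := by linarith
    have hd1 : d ≤ 1 := by linarith
    set a := (1 - μ) ^ 2 * (3 - d) with ha
    set c := 4 - 3 * μ with hc
    set u := 8 - 4 * d ^ 2 + d ^ 3 with hu
    set b := 3 / 4 * (1 - μ) ^ 2 * u with hb
    have hc0 : 0 < c := by rw [hc]; linarith
    have e : (1 - μ) ^ 2 * (1 - d - 1) ^ 2 * (1 - d + 2)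
        + μ * (4 * μ - 3 * μ ^ 2 - 3 / 4 * (1 - μ) ^ 2 * ((1 - (1 - d) ^ 2) * (5 - (1 - d) ^ 2)))
        = a * d ^ 2 - b * μ * d + c * μ ^ 2 := by
      rw [ha, hb, hc, hu]; ring
    rw [e]
    have hu1 : u ≤ 8 - 3 * d ^ 2 := by
      rw [hu]; nlinarith [sq_nonneg d, mul_nonneg (sq_nonneg d) (by linarith : 0 ≤ 1 - d)]
    have hu0 : 0 ≤ u := by
      rw [hu]; nlinarith [pow_nonneg hd0 3, sq_nonneg d]
    have hu2 : u ^ 2 ≤ 256 / 9 * (3 - d) := by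
      have h1 : u ^ 2 ≤ (8 - 3 * d ^ 2) ^ 2 := pow_le_pow_left₀ hu0 hu1 2
      have h2 : d ^ 4 ≤ d ^ 2 := by nlinarith [sq_nonneg d, mul_nonneg hd0 (by linarith : 0 ≤ 1 - d)]
      nlinarith [sq_nonneg (d - 1 / 3)]
    have hν1 : (1 - μ) ^ 2 ≤ c / 4 := by
      rw [hc]; nlinarith
    have hdisc : b ^ 2 ≤ 4 * a * c := by
      have e1 : b ^ 2 = (1 - μ) ^ 2 * (9 / 16 * ((1 - μ) ^ 2 * u ^ 2)) := by rw [hb]; ring
      have e2 : 4 * a * c = (1 - μ) ^ 2 * (4 * (3 - d) * c) := by rw [ha]; ring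
      rw [e1, e2]
      apply mul_le_mul_of_nonneg_left _ hν
      have h3 : (1 - μ) ^ 2 * u ^ 2 ≤ c / 4 * (256 / 9 * (3 - d)) :=
        mul_le_mul hν1 hu2 (by positivity) (by positivity)
      nlinarith
    have h4 : 0 ≤ 4 * c * (a * d ^ 2 - b * μ * d + c * μ ^ 2) := by
      have e3 : 4 * c * (a * d ^ 2 - b * μ * d + c * μ ^ 2)
          = (2 * c * μ - b * d) ^ 2 + (4 * a * c - b ^ 2) * d ^ 2 := by ring
      rw [e3]
      have : 0 ≤ (4 * a * c - b ^ 2) * d ^ 2 := mul_nonneg (by linarith) (by positivity)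
      positivity
    exact nonneg_of_mul_nonneg_right h4 (by positivity)

lemma poly_le {μ Y : ℝ} (hμ0 : 0 ≤ μ) (hμ1 : μ ≤ 1) (hY0 : 0 ≤ Y) (hY3 : Y ^ 2 ≤ 3) :
    (1 - μ) ^ 2 * (1 + μ * (Y * (3 - Y ^ 2)) + 3 / 4 * μ ^ 2 * (3 - Y ^ 2) ^ 2) ≤ 1 := by
  have h := mul_nonneg hμ0 (poly_g hμ0 hμ1 hY0 hY3)
  have e : 1 - (1 - μ) ^ 2 * (1 + μ * (Y * (3 - Y ^ 2)) + 3 / 4 * μ ^ 2 * (3 - Y ^ 2) ^ 2)
      = μ * ((1 - μ) ^ 2 * (Y - 1) ^ 2 * (Y + 2)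
      + μ * (4 * μ - 3 * μ ^ 2 - 3 / 4 * (1 - μ) ^ 2 * ((1 - Y ^ 2) * (5 - Y ^ 2)))) := by ring
  linarith

lemma shear_lt {X y l : ℝ} (hX : 0 ≤ X) (hy : 0 ≤ y) (h : X + y ^ 2 < 1) (hl0 : 0 < l)
    (hl1 : l ≤ 1) :
    l ^ 2 * X + (l * y + l * (1 - l) * (3 * √3 / 2) * X) ^ 2 < 1 := by
  have h3 : √3 ^ 2 = 3 := Real.sq_sqrt (by norm_num)
  have h3p : 0 < √3 := Real.sqrt_pos.mpr (by norm_num)
  set r := √3 with hr
  set y₁ := √(1 - X) with hy₁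
  have hy₁0 : 0 ≤ y₁ := Real.sqrt_nonneg _
  have hy₁2 : y₁ ^ 2 = 1 - X := Real.sq_sqrt (by nlinarith)
  have hlt : y < y₁ := by
    apply lt_of_pow_lt_pow_left₀ 2 hy₁0
    rw [hy₁2]; linarith
  have hstep : l * y + l * (1 - l) * (3 * r / 2) * X < l * y₁ + l * (1 - l) * (3 * r / 2) * X := by
    have := mul_lt_mul_of_pos_left hlt hl0
    linarith
  have h0 : 0 ≤ l * y + l * (1 - l) * (3 * r / 2) * X := by
    have : 0 ≤ l * (1 - l) * (3 * r / 2) * X := by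
      have : 0 ≤ 1 - l := by linarith
      positivity
    positivity
  have hsq : (l * y + l * (1 - l) * (3 * r / 2) * X) ^ 2
      < (l * y₁ + l * (1 - l) * (3 * r / 2) * X) ^ 2 := pow_lt_pow_left₀ hstep h0 two_ne_zero
  have hp := poly_le (μ := 1 - l) (Y := r * y₁) (by linarith) (by linarith) (by positivity)
    (by rw [mul_pow, h3, hy₁2]; linarith)
  have e : (1 - (1 - l)) ^ 2 * (1 + (1 - l) * (r * y₁ * (3 - (r * y₁) ^ 2))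
        + 3 / 4 * (1 - l) ^ 2 * (3 - (r * y₁) ^ 2) ^ 2)
      = l ^ 2 * X + (l * y₁ + l * (1 - l) * (3 * r / 2) * X) ^ 2 := by
    have e1 : (r * y₁) ^ 2 = 3 - 3 * X := by rw [mul_pow, h3, hy₁2]; ring
    rw [e1]
    have e2 : X = 1 - y₁ ^ 2 := by linarith
    have e3 : (l * y₁ + l * (1 - l) * (3 * r / 2) * X) ^ 2
        = l ^ 2 * (y₁ ^ 2 + 3 * r * (1 - l) * X * y₁ + 9 / 4 * r ^ 2 * (1 - l) ^ 2 * X ^ 2) := by ring
    rw [e3, h3, hy₁2]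
    ring
  rw [e] at hp
  linarith

section
variable {E : Type*} [NormedAddCommGroup E] [NormedSpace ℂ E]

lemma invertible_of_inverse {f g : E → E} (hf : Differentiable ℂ f) (hg : Differentiable ℂ g)
    (hfg : ∀ x, f (g x) = x) (hgf : ∀ x, g (f x) = x) (z : E) : (fderiv ℂ f z).IsInvertible := by
  have h1 : (fderiv ℂ g (f z)).comp (fderiv ℂ f z) = ContinuousLinearMap.id ℂ E := by
    rw [← fderiv_comp z (hg _) (hf _)]
    have : g ∘ f = id := funext hgf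
    rw [this, fderiv_id]
  have h2 : (fderiv ℂ f z).comp (fderiv ℂ g (f z)) = ContinuousLinearMap.id ℂ E := by
    have h3 : (fderiv ℂ f (g (f z))).comp (fderiv ℂ g (f z)) = ContinuousLinearMap.id ℂ E := by
      rw [← fderiv_comp (f z) (hf _) (hg _)]
      have : f ∘ g = id := funext hfg
      rw [this, fderiv_id]
    rwa [hgf] at h3
  refine ⟨ContinuousLinearEquiv.equivOfInverse (fderiv ℂ f z) (fderiv ℂ g (f z)) ?_ ?_, ?_⟩
  · intro x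
    exact congrArg (fun L : E →L[ℂ] E => L x) h1
  · intro x
    exact congrArg (fun L : E →L[ℂ] E => L x) h2
  · ext x; rfl

end

end Loew
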