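import Mathlib

/-! Helper for S02778: the trajectory estimate (growth theorem along one trajectory). -/

namespace LoewB2

open MeasureTheory Set Filter Topology

abbrev E2 := EuclideanSpace ℂ (Fin 2)

/-! ### product rule for the squared norm -/

section
variable (H : ℝ → E2) (V : ℝ → E2) (z : E2)

lemma V_sub (hint : ∀ t, 0 ≤ t → IntervalIntegrable H volume 0 t)
    (hV : ∀ t, 0 ≤ t → V t = z - ∫ s in (0 : ℝ)..t, H s) {s t : ℝ} (hs : 0 ≤ s) (hst : s ≤ t) :
    V t = V s - ∫ u in s..t, H u := by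
  have ht : 0 ≤ t := hs.trans hst
  have h1 : IntervalIntegrable H volume s t := by
    have := hint t ht
    exact this.mono_set (by rw [uIcc_of_le hst, uIcc_of_le ht]; exact Icc_subset_Icc_left hs)
  rw [hV t ht, hV s hs, ← intervalIntegral.integral_add_adjacent_intervals (hint s hs) h1]
  abel

lemma V_cont (hint : ∀ t, 0 ≤ t → IntervalIntegrable H volume 0 t)
    (hV : ∀ t, 0 ≤ t → V t = z - ∫ s in (0 : ℝ)..t, H s) (T : ℝ) (hT : 0 ≤ T) :
    ContinuousOn V (Icc 0 T) := by
  have h1 : ContinuousOn (fun t => z - ∫ s in (0 : ℝ)..t, H s) (Icc 0 T) := by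
    apply ContinuousOn.sub continuousOn_const
    have := intervalIntegral.continuousOn_primitive_interval' (μ := volume) (f := H) (a := 0)
      (b₁ := 0) (b₂ := T) (hint T hT) (by simp)
    rwa [uIcc_of_le hT] at this
  exact h1.congr fun t ht => hV t ht.1

lemma re_inner_integral (c : E2) {s t : ℝ} (h : IntervalIntegrable H volume s t) :
    ∫ u in s..t, (inner ℂ c (H u)).re = (inner ℂ c (∫ u in s..t, H u)).re := by
  have h1 := ContinuousLinearMap.intervalIntegral_comp_comm
    (Complex.reCLM.comp ((innerSL ℂ c).restrictScalars ℝ)) h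
  simpa using h1

lemma norm_sq_diff (hint : ∀ t, 0 ≤ t → IntervalIntegrable H volume 0 t)
    (hV : ∀ t, 0 ≤ t → V t = z - ∫ s in (0 : ℝ)..t, H s) {s t : ℝ} (hs : 0 ≤ s) (hst : s ≤ t) :
    ‖V t‖ ^ 2 - ‖V s‖ ^ 2 = - ∫ u in s..t, (inner ℂ (V s + V t) (H u)).re := by
  have ht : 0 ≤ t := hs.trans hst
  have h1 : IntervalIntegrable H volume s t := by
    have := hint t ht
    exact this.mono_set (by rw [uIcc_of_le hst, uIcc_of_le ht]; exact Icc_subset_Icc_left hs)
  rw [re_inner_integral H _ h1]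
  set W := ∫ u in s..t, H u with hW
  have e : V t = V s - W := V_sub H V z hint hV hs hst
  rw [e]
  have h2 := norm_sub_sq (𝕜 := ℂ) (V s) W
  have h3 : (inner ℂ (V s + (V s - W)) W).re
      = 2 * (inner ℂ (V s) W).re - ‖W‖ ^ 2 := by
    have h4 : (inner ℂ W W : ℂ) = ((‖W‖ ^ 2 : ℝ) : ℂ) := by
      rw [inner_self_eq_norm_sq_to_K]; norm_cast
    rw [inner_add_left, inner_sub_left, h4]
    simp only [Complex.add_re, Complex.sub_re, Complex.ofReal_re]
    ring
  rw [h3]
  simp only [RCLike.re_eq_complex_re] at h2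
  linarith

lemma inner_intervalIntegrable (hint : ∀ t, 0 ≤ t → IntervalIntegrable H volume 0 t)
    (hV : ∀ t, 0 ≤ t → V t = z - ∫ s in (0 : ℝ)..t, H s) (t : ℝ) (ht : 0 ≤ t) :
    IntervalIntegrable (fun u => (inner ℂ (V u) (H u)).re) volume 0 t := by
  have hVc := V_cont H V z hint hV t ht
  obtain ⟨C, hC⟩ := isCompact_Icc.exists_bound_of_continuousOn hVc
  have hI := hint t ht
  rw [intervalIntegrable_iff_integrableOn_Ioc_of_le ht] at hI ⊢
  have hVm : AEStronglyMeasurable V (volume.restrict (Ioc 0 t)) :=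
    (hVc.mono Ioc_subset_Icc_self).aestronglyMeasurable measurableSet_Ioc
  apply (hI.norm.const_mul C).mono'
  · exact Complex.continuous_re.comp_aestronglyMeasurable (hVm.inner hI.aestronglyMeasurable)
  · rw [ae_restrict_iff' measurableSet_Ioc]
    apply Eventually.of_forall
    intro u hu
    calc ‖(inner ℂ (V u) (H u)).re‖ ≤ ‖(inner ℂ (V u) (H u) : ℂ)‖ := Complex.abs_re_le_norm _
      _ ≤ ‖V u‖ * ‖H u‖ := norm_inner_le_norm _ _
      _ ≤ C * ‖H u‖ := mul_le_mul_of_nonneg_right (hC u (Ioc_subset_Icc_self hu)) (norm_nonneg _)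

/-- the product rule, in integrated form -/
lemma norm_sq_formula (hint : ∀ t, 0 ≤ t → IntervalIntegrable H volume 0 t)
    (hV : ∀ t, 0 ≤ t → V t = z - ∫ s in (0 : ℝ)..t, H s) {s t : ℝ} (hs : 0 ≤ s) (hst : s ≤ t) :
    ‖V t‖ ^ 2 = ‖V s‖ ^ 2 - 2 * ∫ u in s..t, (inner ℂ (V u) (H u)).re := by
  -- local estimate
  have ht : 0 ≤ t := hs.trans hst
  have hsub : ∀ a b, 0 ≤ a → a ≤ b → b ≤ t → IntervalIntegrable H volume a b := by
    intro a b ha hab hbt
    exact (hint b (ha.trans hab)).mono_set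
      (by rw [uIcc_of_le hab, uIcc_of_le (ha.trans hab)]; exact Icc_subset_Icc_left ha)
  have hsub2 : ∀ a b, 0 ≤ a → a ≤ b → b ≤ t →
      IntervalIntegrable (fun u => (inner ℂ (V u) (H u)).re) volume a b := by
    intro a b ha hab hbt
    exact (inner_intervalIntegrable H V z hint hV b (ha.trans hab)).mono_set
      (by rw [uIcc_of_le hab, uIcc_of_le (ha.trans hab)]; exact Icc_subset_Icc_left ha)
  have hsub3 : ∀ (c : E2) a b, 0 ≤ a → a ≤ b → b ≤ t →
      IntervalIntegrable (fun u => (inner ℂ c (H u)).re) volume a b := by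
    intro c a b ha hab hbt
    have := hsub a b ha hab hbt
    rw [intervalIntegrable_iff_integrableOn_Ioc_of_le hab] at this ⊢
    apply (this.norm.const_mul ‖c‖).mono'
    · exact Complex.continuous_re.comp_aestronglyMeasurable
        (aestronglyMeasurable_const.inner this.aestronglyMeasurable)
    · apply Eventually.of_forall
      intro u
      exact (Complex.abs_re_le_norm _).trans (norm_inner_le_norm _ _)
  have huc : UniformContinuousOn V (Icc 0 t) :=
    isCompact_Icc.uniformContinuousOn_of_continuous (V_cont H V z hint hV t ht)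
  set D : ℝ → ℝ := fun x => ‖V x‖ ^ 2 - ‖V s‖ ^ 2 + 2 * ∫ u in s..x, (inner ℂ (V u) (H u)).re
    with hD
  set M : ℝ := ∫ u in s..t, ‖H u‖ with hM
  have hM0 : 0 ≤ M := intervalIntegral.integral_nonneg hst fun u _ => norm_nonneg _
  have key : ∀ ε > 0, |D t - D s| ≤ 2 * ε * M := by
    intro ε hε
    obtain ⟨δ, hδ, hδ'⟩ := Metric.uniformContinuousOn_iff.mp huc ε hε
    obtain ⟨n, hn⟩ := exists_nat_gt ((t - s) / δ)
    have hn0 : 0 < (n : ℝ) := lt_of_le_of_lt (div_nonneg (by linarith) hδ.le) hn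
    set p : ℕ → ℝ := fun k => s + k * ((t - s) / n) with hp
    have hstep : 0 ≤ (t - s) / n := div_nonneg (by linarith) hn0.le
    have hp_mono : ∀ k, p k ≤ p (k + 1) := by
      intro k; simp only [hp]; push_cast; nlinarith
    have hp0 : p 0 = s := by simp [hp]
    have hpn : p n = t := by simp only [hp]; field_simp; ring
    have hps : ∀ k, s ≤ p k := by
      intro k; simp only [hp]
      have : 0 ≤ (k : ℝ) * ((t - s) / n) := mul_nonneg (Nat.cast_nonneg k) hstep
      linarith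
    have hpt : ∀ k, k ≤ n → p k ≤ t := by
      intro k hk
      have : (k : ℝ) * ((t - s) / n) ≤ n * ((t - s) / n) :=
        mul_le_mul_of_nonneg_right (by exact_mod_cast hk) hstep
      have h2 : (n : ℝ) * ((t - s) / n) = t - s := by field_simp
      simp only [hp]; linarith
    have hloc : ∀ k, k < n → |D (p (k + 1)) - D (p k)| ≤ 2 * ε * ∫ u in (p k)..(p (k + 1)), ‖H u‖ := by
      intro k hk
      have ha : 0 ≤ p k := hs.trans (hps k)
      have hab := hp_mono k
      have hbt := hpt (k + 1) hk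
      have e1 : D (p (k + 1)) - D (p k)
          = ∫ u in (p k)..(p (k + 1)), (inner ℂ ((2 : ℂ) • V u - (V (p k) + V (p (k + 1)))) (H u)).re := by
        have h1 := norm_sq_diff H V z hint hV ha hab
        have h2 : (∫ u in s..(p (k + 1)), (inner ℂ (V u) (H u)).re)
            = (∫ u in s..(p k), (inner ℂ (V u) (H u)).re)
              + ∫ u in (p k)..(p (k + 1)), (inner ℂ (V u) (H u)).re :=
          (intervalIntegral.integral_add_adjacent_intervals
            (hsub2 s (p k) hs (hps k) (hpt k hk.le)) (hsub2 _ _ ha hab hbt)).symm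
        have h3 : (∫ u in (p k)..(p (k + 1)),
              (inner ℂ ((2 : ℂ) • V u - (V (p k) + V (p (k + 1)))) (H u)).re)
            = 2 * (∫ u in (p k)..(p (k + 1)), (inner ℂ (V u) (H u)).re)
              - ∫ u in (p k)..(p (k + 1)), (inner ℂ (V (p k) + V (p (k + 1))) (H u)).re := by
          rw [← intervalIntegral.integral_const_mul, ← intervalIntegral.integral_sub
            ((hsub2 _ _ ha hab hbt).const_mul 2) (hsub3 _ _ _ ha hab hbt)]
          apply intervalIntegral.integral_congr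
          intro u _
          simp only
          rw [inner_sub_left, inner_smul_left, inner_add_left]
          simp
        rw [h3]
        simp only [hD]
        rw [h2]
        linarith
      rw [e1]
      calc |∫ u in (p k)..(p (k + 1)), (inner ℂ ((2 : ℂ) • V u - (V (p k) + V (p (k + 1)))) (H u)).re|
          = ‖∫ u in (p k)..(p (k + 1)), (inner ℂ ((2 : ℂ) • V u - (V (p k) + V (p (k + 1)))) (H u)).re‖ :=
            (Real.norm_eq_abs _).symm
        _ ≤ ∫ u in (p k)..(p (k + 1)), 2 * ε * ‖H u‖ := by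
            apply intervalIntegral.norm_integral_le_of_norm_le hab _
              (((hsub _ _ ha hab hbt).norm).const_mul _)
            apply Eventually.of_forall
            intro u hu
            have hu' : u ∈ Icc (0 : ℝ) t := ⟨ha.trans hu.1.le, hu.2.trans hbt⟩
            have hw : p (k + 1) - p k = (t - s) / n := by simp only [hp]; push_cast; ring
            have hlt : (t - s) / n < δ := by
              rw [div_lt_iff₀ hn0]
              rw [div_lt_iff₀ hδ] at hn
              linarith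
            have d1 : ‖V u - V (p k)‖ < ε := by
              rw [← dist_eq_norm]
              apply hδ' u hu' (p k) ⟨ha, hab.trans hbt⟩
              rw [Real.dist_eq, abs_of_nonneg (by linarith [hu.1])]
              linarith [hu.2]
            have d2 : ‖V u - V (p (k + 1))‖ < ε := by
              rw [← dist_eq_norm]
              apply hδ' u hu' (p (k + 1)) ⟨ha.trans hab, hbt⟩
              rw [Real.dist_eq, abs_of_nonpos (by linarith [hu.2])]
              linarith [hu.1]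
            have d3 : ‖(2 : ℂ) • V u - (V (p k) + V (p (k + 1)))‖ ≤ 2 * ε := by
              have : (2 : ℂ) • V u - (V (p k) + V (p (k + 1)))
                  = (V u - V (p k)) + (V u - V (p (k + 1))) := by
                rw [two_smul]; abel
              rw [this]
              exact (norm_add_le _ _).trans (by linarith)
            calc ‖(inner ℂ ((2 : ℂ) • V u - (V (p k) + V (p (k + 1)))) (H u)).re‖
                ≤ ‖(inner ℂ ((2 : ℂ) • V u - (V (p k) + V (p (k + 1)))) (H u) : ℂ)‖ :=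
                  Complex.abs_re_le_norm _
              _ ≤ ‖(2 : ℂ) • V u - (V (p k) + V (p (k + 1)))‖ * ‖H u‖ := norm_inner_le_norm _ _
              _ ≤ 2 * ε * ‖H u‖ := mul_le_mul_of_nonneg_right d3 (norm_nonneg _)
        _ = 2 * ε * ∫ u in (p k)..(p (k + 1)), ‖H u‖ := intervalIntegral.integral_const_mul _ _
    have htel : D t - D s = ∑ k ∈ Finset.range n, (D (p (k + 1)) - D (p k)) := by
      rw [Finset.sum_range_sub (fun k => D (p k)), hp0, hpn]
    have hMs : M = ∑ k ∈ Finset.range n, ∫ u in (p k)..(p (k + 1)), ‖H u‖ := by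
      rw [intervalIntegral.sum_integral_adjacent_intervals, hp0, hpn]
      intro k hk
      exact (hsub _ _ (hs.trans (hps k)) (hp_mono k) (hpt (k + 1) hk)).norm
    rw [htel, hMs, Finset.mul_sum]
    exact (Finset.abs_sum_le_sum_abs _ _).trans
      (Finset.sum_le_sum fun k hk => hloc k (Finset.mem_range.mp hk))
  have hz : |D t - D s| ≤ 0 := by
    apply le_of_forall_pos_le_add
    intro ε hε
    have h1 := key (ε / (2 * (M + 1))) (by positivity)
    have h2 : 2 * (ε / (2 * (M + 1))) * M ≤ ε := by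
      have : 2 * (ε / (2 * (M + 1))) * M = ε * (M / (M + 1)) := by field_simp
      rw [this]
      have h3 : M / (M + 1) ≤ 1 := by
        rw [div_le_one (by linarith)]; linarith
      nlinarith
    linarith
  have hDs : D s = 0 := by simp [hD]
  have hDt : D t = 0 := by
    have := abs_nonpos_iff.mp hz
    linarith
  simp only [hD] at hDt
  linarith

end

/-! ### Harnack inequality along slices -/

lemma re_lower_of_schwarz {q : ℂ} {ρ : ℝ} (hρ0 : 0 ≤ ρ) (hρ1 : ρ < 1)
    (h : ‖q - 1‖ ≤ ρ * ‖q + 1‖) : (1 - ρ) / (1 + ρ) ≤ q.re := by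
  have h2 : ‖q - 1‖ ^ 2 ≤ ρ ^ 2 * ‖q + 1‖ ^ 2 := by
    calc ‖q - 1‖ ^ 2 ≤ (ρ * ‖q + 1‖) ^ 2 := pow_le_pow_left₀ (norm_nonneg _) h 2
      _ = _ := by ring
  rw [Complex.sq_norm, Complex.sq_norm, Complex.normSq_apply, Complex.normSq_apply] at h2
  simp only [Complex.sub_re, Complex.one_re, Complex.sub_im, Complex.one_im, sub_zero,
    Complex.add_re, Complex.add_im, add_zero] at h2
  rw [div_le_iff₀ (by linarith)]
  by_contra hcon
  push Not at hcon
  have h3 : 0 ≤ (1 - ρ ^ 2) * (q.im * q.im) := by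
    apply mul_nonneg _ (mul_self_nonneg _); nlinarith
  -- (1-ρ²) x² - 2(1+ρ²) x + (1-ρ²) ≤ 0
  have h4 : (1 - ρ ^ 2) * (q.re * q.re) - 2 * (1 + ρ ^ 2) * q.re + (1 - ρ ^ 2) ≤ 0 := by nlinarith
  -- factor: ((1+ρ) x - (1-ρ)) ((1-ρ) x - (1+ρ)) ≤ 0
  have h5 : (q.re * (1 + ρ) - (1 - ρ)) * ((1 - ρ) * q.re - (1 + ρ)) ≤ 0 := by nlinarith
  have h6 : (1 - ρ) * q.re - (1 + ρ) < 0 := by
    have : q.re * (1 + ρ) < 1 - ρ := hcon
    have h7 : q.re < 1 := by
      by_contra h8
      push Not at h8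
      nlinarith
    nlinarith
  nlinarith [mul_pos_of_neg_of_neg (sub_neg.mpr hcon) h6]

lemma harnack (h : E2 → E2) (hd : DifferentiableOn ℂ h (Metric.ball (0 : E2) 1)) (h0 : h 0 = 0)
    (hder : fderiv ℂ h 0 = ContinuousLinearMap.id ℂ E2)
    (hpos : ∀ z ∈ Metric.ball (0 : E2) 1, z ≠ 0 → 0 < (inner ℂ z (h z)).re)
    (z : E2) (hz : z ∈ Metric.ball (0 : E2) 1) :
    ‖z‖ ^ 2 * ((1 - ‖z‖) / (1 + ‖z‖)) ≤ (inner ℂ z (h z)).re := by
  by_cases hz0 : z = 0
  · subst hz0; simp [h0]
  set ρ : ℝ := ‖z‖ with hρ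
  have hρ0 : 0 < ρ := norm_pos_iff.mpr hz0
  have hρ1 : ρ < 1 := by simpa using hz
  set u : E2 := ((ρ⁻¹ : ℝ) : ℂ) • z with hu
  have hun : ‖u‖ = 1 := by
    rw [hu, norm_smul, Complex.norm_real, Real.norm_of_nonneg (by positivity), ← hρ]
    field_simp
  have hzu : z = ((ρ : ℝ) : ℂ) • u := by
    rw [hu, smul_smul, ← Complex.ofReal_mul, mul_inv_cancel₀ hρ0.ne']; simp
  set F : ℂ → ℂ := fun ζ => inner ℂ u (h (ζ • u)) with hF
  have hmaps : ∀ ζ ∈ Metric.ball (0 : ℂ) 1, ζ • u ∈ Metric.ball (0 : E2) 1 := by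
    intro ζ hζ
    simp only [mem_ball_zero_iff] at hζ ⊢
    rw [norm_smul, hun, mul_one]; exact hζ
  have hFd : DifferentiableOn ℂ F (Metric.ball 0 1) := by
    have h1 : DifferentiableOn ℂ (fun ζ : ℂ => h (ζ • u)) (Metric.ball 0 1) :=
      hd.comp ((differentiable_id.smul_const u).differentiableOn) hmaps
    exact ((innerSL ℂ u).differentiable.comp_differentiableOn h1)
  have hF0 : F 0 = 0 := by simp [hF, h0]
  have hFder : deriv F 0 = 1 := by
    have hh : HasFDerivAt h (ContinuousLinearMap.id ℂ E2) ((0 : ℂ) • u) := by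
      rw [zero_smul, ← hder]
      exact (hd.differentiableAt (Metric.isOpen_ball.mem_nhds (by simp))).hasFDerivAt
    have h1 : HasDerivAt (fun ζ : ℂ => ζ • u) ((1 : ℂ) • u) 0 := (hasDerivAt_id (0 : ℂ)).smul_const u
    have h2 := hh.comp_hasDerivAt (0 : ℂ) h1
    have h3 : HasDerivAt F ((innerSL ℂ u) ((ContinuousLinearMap.id ℂ E2) ((1 : ℂ) • u))) 0 :=
      (innerSL ℂ u).hasFDerivAt.comp_hasDerivAt (0 : ℂ) h2
    rw [h3.deriv]
    simp only [one_smul, ContinuousLinearMap.id_apply, innerSL_apply_apply]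
    rw [inner_self_eq_norm_sq_to_K, hun]; simp
  set q : ℂ → ℂ := dslope F 0 with hq
  have hqd : DifferentiableOn ℂ q (Metric.ball 0 1) :=
    (Complex.differentiableOn_dslope (Metric.isOpen_ball.mem_nhds (by simp))).mpr hFd
  have hq0 : q 0 = 1 := by rw [hq, dslope_same, hFder]
  have hqz : ∀ ζ : ℂ, ζ ≠ 0 → q ζ = F ζ / ζ := by
    intro ζ hζ
    rw [hq, dslope_of_ne _ hζ, slope_def_field, hF0]; simp
  have hqre : ∀ ζ ∈ Metric.ball (0 : ℂ) 1, 0 < (q ζ).re := by
    intro ζ hζ
    by_cases hζ0 : ζ = 0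
    · rw [hζ0, hq0]; simp
    · rw [hqz ζ hζ0]
      have h1 := hpos (ζ • u) (hmaps ζ hζ) (by
        intro hcon
        rw [smul_eq_zero] at hcon
        rcases hcon with h | h
        · exact hζ0 h
        · rw [h] at hun; simp at hun)
      rw [inner_smul_left] at h1
      have h2 : F ζ / ζ = (starRingEnd ℂ ζ * F ζ) / ((‖ζ‖ ^ 2 : ℝ) : ℂ) := by
        have : ((‖ζ‖ ^ 2 : ℝ) : ℂ) = starRingEnd ℂ ζ * ζ := by
          rw [mul_comm, Complex.mul_conj, Complex.normSq_eq_norm_sq]
        rw [this]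
        have hc : starRingEnd ℂ ζ ≠ 0 := by simpa using hζ0
        field_simp
      rw [h2, Complex.div_ofReal_re]
      apply div_pos h1
      have : 0 < ‖ζ‖ := norm_pos_iff.mpr hζ0
      positivity
  set B : ℂ → ℂ := fun ζ => (q ζ - 1) / (q ζ + 1) with hB
  have hne : ∀ ζ ∈ Metric.ball (0 : ℂ) 1, q ζ + 1 ≠ 0 := by
    intro ζ hζ hcon
    have := hqre ζ hζ
    have h2 := congrArg Complex.re hcon
    simp at h2; linarith
  have hBd : DifferentiableOn ℂ B (Metric.ball 0 1) :=
    (hqd.sub_const 1).div (hqd.add_const 1) hne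
  have hBm : MapsTo B (Metric.ball 0 1) (Metric.ball 0 1) := by
    intro ζ hζ
    simp only [mem_ball_zero_iff, hB]
    rw [norm_div, div_lt_one (norm_pos_iff.mpr (hne ζ hζ))]
    have h1 := hqre ζ hζ
    rw [← sq_lt_sq₀ (norm_nonneg _) (norm_nonneg _), Complex.sq_norm, Complex.sq_norm,
      Complex.normSq_apply, Complex.normSq_apply]
    simp
    nlinarith
  have hB0 : B 0 = 0 := by simp [hB, hq0]
  have hρm : ((ρ : ℝ) : ℂ) ∈ Metric.ball (0 : ℂ) 1 := by
    simp [abs_of_pos hρ0, hρ1]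
  have hS := Complex.norm_le_norm_of_mapsTo_ball hBd
    (hBm.mono_right Metric.ball_subset_closedBall) hB0 (z := ((ρ : ℝ) : ℂ))
    (by simpa using hρm)
  have hS2 : ‖q ρ - 1‖ ≤ ρ * ‖q ρ + 1‖ := by
    have h1 : ‖B ρ‖ = ‖q ρ - 1‖ / ‖q ρ + 1‖ := by rw [hB, norm_div]
    rw [h1, Complex.norm_real, Real.norm_of_nonneg hρ0.le,
      div_le_iff₀ (norm_pos_iff.mpr (hne _ hρm))] at hS
    exact hS
  have hfin := re_lower_of_schwarz hρ0.le hρ1 hS2
  have e1 : (inner ℂ z (h z)).re = ρ ^ 2 * (q ρ).re := by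
    have hρc : ((ρ : ℝ) : ℂ) ≠ 0 := by exact_mod_cast hρ0.ne'
    have h1 : F ρ = ρ * q ρ := by rw [hqz _ hρc]; field_simp
    have h2 : inner ℂ z (h z) = ((ρ : ℝ) : ℂ) * F ρ := by
      simp only [hF]
      rw [← hzu]
      conv_lhs => rw [hzu]
      rw [inner_smul_left, ← hzu]; simp
    rw [h2, h1, ← mul_assoc, ← Complex.ofReal_mul, Complex.re_ofReal_mul]
    ring
  rw [e1]
  exact mul_le_mul_of_nonneg_left hfin (by positivity)

/-! ### comparison -/

noncomputable def Phi (x : ℝ) : ℝ := x * ((1 - √x) / (1 + √x))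

noncomputable def psi (x : ℝ) : ℝ := (1 / 2) * Real.log x - 2 * Real.log (1 - √x)

lemma sqrt_lt_one' {x : ℝ} (h1 : x < 1) : √x < 1 := by
  rw [Real.sqrt_lt' one_pos]; simpa using h1

lemma Phi_pos {x : ℝ} (h0 : 0 < x) (h1 : x < 1) : 0 < Phi x := by
  have := sqrt_lt_one' h1
  have h2 := Real.sqrt_nonneg x
  unfold Phi
  apply mul_pos h0
  apply div_pos <;> linarith

lemma Phi_nonneg {x : ℝ} (h0 : 0 ≤ x) (h1 : x < 1) : 0 ≤ Phi x := by
  have := sqrt_lt_one' h1
  have h2 := Real.sqrt_nonneg x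
  unfold Phi
  apply mul_nonneg h0
  apply div_nonneg <;> linarith

lemma Phi_cont : Continuous Phi := by
  unfold Phi
  apply continuous_id.mul
  apply Continuous.div (by fun_prop) (by fun_prop)
  intro x
  have := Real.sqrt_nonneg x
  linarith

lemma psi_deriv {x : ℝ} (h0 : 0 < x) (h1 : x < 1) : HasDerivAt psi (1 / (2 * Phi x)) x := by
  have hs1 := sqrt_lt_one' h1
  have hs0 : 0 < √x := Real.sqrt_pos.mpr h0
  have hd1 : HasDerivAt (fun y => √y) (1 / (2 * √x)) x := Real.hasDerivAt_sqrt h0.ne'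
  have hd2 : HasDerivAt (fun y => Real.log (1 - √y)) (-(1 / (2 * √x)) / (1 - √x)) x :=
    (hd1.const_sub 1).log (by linarith)
  have hd3 : HasDerivAt Real.log x⁻¹ x := Real.hasDerivAt_log h0.ne'
  have hd := (hd3.const_mul (1 / 2)).sub (hd2.const_mul 2)
  have hv : 1 / 2 * x⁻¹ - 2 * (-(1 / (2 * √x)) / (1 - √x)) = 1 / (2 * Phi x) := by
    unfold Phi
    have hx : x = √x * √x := (Real.mul_self_sqrt h0.le).symm
    set s := √x with hs
    rw [hx]
    have h2 : 1 - s ≠ 0 := by linarith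
    have h3 : 1 + s ≠ 0 := by linarith
    field_simp
    ring
  rw [← hv]
  exact hd

lemma psi_mono {x y : ℝ} (h0 : 0 < x) (hxy : x ≤ y) (h1 : y < 1) : psi x ≤ psi y := by
  unfold psi
  have a1 : Real.log x ≤ Real.log y := Real.log_le_log h0 hxy
  have a2 : √x ≤ √y := Real.sqrt_le_sqrt hxy
  have a3 : √y < 1 := sqrt_lt_one' h1
  have a4 : Real.log (1 - √y) ≤ Real.log (1 - √x) := Real.log_le_log (by linarith) (by linarith)
  linarith

lemma comparison (N : ℝ → ℝ) (b : ℝ) (hb : 0 ≤ b) (hNc : ContinuousOn N (Icc 0 b))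
    (hN0 : ∀ t ∈ Icc 0 b, 0 < N t) (hN1 : ∀ t ∈ Icc 0 b, N t < 1)
    (hint : ∀ s t, 0 ≤ s → s ≤ t → t ≤ b → N t ≤ N s - 2 * ∫ u in s..t, Phi (N u)) :
    b + psi (N b) ≤ psi (N 0) := by
  have hpc : ∀ t ∈ Icc 0 b, ContinuousAt psi (N t) := fun t ht =>
    (psi_deriv (hN0 t ht) (hN1 t ht)).continuousAt
  have hf : ContinuousOn (fun t => t + psi (N t)) (Icc 0 b) := by
    apply continuousOn_id.add
    intro t ht
    exact (hpc t ht).comp_continuousWithinAt (hNc t ht)
  have hPN : ContinuousOn (fun t => Phi (N t)) (Icc 0 b) := Phi_cont.comp_continuousOn hNc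
  have key := image_le_of_liminf_slope_right_le_deriv_boundary (f := fun t => t + psi (N t))
    (a := 0) (b := b) hf (B := fun _ => psi (N 0)) (B' := fun _ => 0) (by simp)
    continuousOn_const (fun x _ => hasDerivWithinAt_const _ _ _) ?_ (right_mem_Icc.mpr hb)
  · exact key
  intro x hx r hr
  apply Eventually.frequently
  have hx' : x ∈ Icc 0 b := ⟨hx.1, hx.2.le⟩
  have hP : 0 < Phi (N x) := Phi_pos (hN0 x hx') (hN1 x hx')
  set P := Phi (N x) with hPdef
  obtain ⟨ε, hε0, hε1, hε2⟩ : ∃ ε, 0 < ε ∧ ε < P ∧ ε / P < r := by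
    refine ⟨min (P / 2) (r * P / 2), by positivity, ?_, ?_⟩
    · have := min_le_left (P / 2) (r * P / 2); linarith
    · have := min_le_right (P / 2) (r * P / 2)
      rw [div_lt_iff₀ hP]
      nlinarith
  -- Φ(N u) ≥ P - ε near x on the right
  have hcw : ContinuousWithinAt (fun t => Phi (N t)) (Icc 0 b) x := hPN x hx'
  have hnear : ∀ᶠ u in 𝓝[Icc 0 b] x, P - ε < Phi (N u) :=
    hcw.eventually (lt_mem_nhds (by simp only [← hPdef]; linarith))
  rw [eventually_nhdsWithin_iff, Metric.eventually_nhds_iff] at hnear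
  obtain ⟨δ, hδ, hnear⟩ := hnear
  -- the linear comparison function
  have hlin : HasDerivAt (fun z => N x - 2 * (z - x) * (P - ε)) (-(2 * (P - ε))) x := by
    have h1 : HasDerivAt (fun z : ℝ => 2 * (z - x) * (P - ε)) (2 * 1 * (P - ε)) x :=
      ((((hasDerivAt_id x).sub_const x).const_mul 2).mul_const (P - ε))
    have h2 := h1.const_sub (N x)
    simpa using h2
  have hcomp : HasDerivAt (fun z => psi (N x - 2 * (z - x) * (P - ε)))
      (1 / (2 * P) * -(2 * (P - ε))) x := by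
    have h1 : HasDerivAt psi (1 / (2 * P)) (N x - 2 * (x - x) * (P - ε)) := by
      have : N x - 2 * (x - x) * (P - ε) = N x := by ring
      rw [this]
      exact psi_deriv (hN0 x hx') (hN1 x hx')
    exact h1.comp x hlin
  have hsl := hasDerivAt_iff_tendsto_slope.mp hcomp
  have hval : 1 / (2 * P) * -(2 * (P - ε)) = -1 + ε / P := by field_simp; ring
  rw [hval] at hsl
  have hsl2 : ∀ᶠ z in 𝓝[>] x, slope (fun z => psi (N x - 2 * (z - x) * (P - ε))) x z < r - 1 := by
    have h1 : Tendsto (slope (fun z => psi (N x - 2 * (z - x) * (P - ε))) x) (𝓝[>] x)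
        (𝓝 (-1 + ε / P)) :=
      hsl.mono_left (nhdsWithin_mono x fun y hy => ne_of_gt hy)
    exact h1.eventually (gt_mem_nhds (by linarith))
  have hz1 : ∀ᶠ z in 𝓝[>] x, z < x + δ :=
    nhdsWithin_le_nhds (gt_mem_nhds (by linarith))
  have hz2 : ∀ᶠ z in 𝓝[>] x, z < b := nhdsWithin_le_nhds (gt_mem_nhds hx.2)
  filter_upwards [hsl2, hz1, hz2, self_mem_nhdsWithin] with z h1 h2 h3 h4
  have h4' : x < z := h4
  have hzm : z ∈ Icc 0 b := ⟨hx.1.trans h4'.le, h3.le⟩
  have hI : (z - x) * (P - ε) ≤ ∫ u in x..z, Phi (N u) := by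
    have hc : ∫ u in x..z, (P - ε) = (z - x) * (P - ε) := by
      rw [intervalIntegral.integral_const]; simp
    rw [← hc]
    apply intervalIntegral.integral_mono_on h4'.le
    · exact intervalIntegrable_const
    · apply ContinuousOn.intervalIntegrable
      rw [uIcc_of_le h4'.le]
      exact hPN.mono (Icc_subset_Icc hx.1 h3.le)
    · intro u hu
      apply le_of_lt
      apply hnear
      · rw [Real.dist_eq, abs_of_nonneg (by linarith [hu.1])]
        linarith [hu.2]
      · exact ⟨hx.1.trans hu.1, hu.2.trans h3.le⟩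
  have hNz : N z ≤ N x - 2 * (z - x) * (P - ε) := by
    have := hint x z hx.1 h4'.le h3.le
    linarith
  have hle1 : N x - 2 * (z - x) * (P - ε) < 1 := by
    have : 0 ≤ 2 * (z - x) * (P - ε) := by
      apply mul_nonneg <;> linarith
    linarith [hN1 x hx']
  have hpsi := psi_mono (hN0 z hzm) hNz hle1
  rw [slope_def_field] at h1 ⊢
  have hzx : 0 < z - x := by linarith
  rw [div_lt_iff₀ hzx] at h1 ⊢
  have e0 : N x - 2 * (x - x) * (P - ε) = N x := by ring
  rw [e0] at h1
  linarith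

/-- Growth estimate along a trajectory. -/
lemma growth (h : E2 → ℝ → E2) (V : ℝ → E2) (z0 : E2)
    (hh : ∀ t : ℝ, DifferentiableOn ℂ (fun z => h z t) (Metric.ball (0 : E2) 1) ∧
        h 0 t = 0 ∧ fderiv ℂ (fun z => h z t) 0 = ContinuousLinearMap.id ℂ E2 ∧
        ∀ z ∈ Metric.ball (0 : E2) 1, z ≠ 0 → 0 < (inner ℂ z (h z t)).re)
    (hV : ∀ t : ℝ, 0 ≤ t → V t ∈ Metric.ball (0 : E2) 1 ∧
          IntervalIntegrable (fun s => h (V s) s) volume 0 t ∧
          V t = z0 - ∫ s in (0 : ℝ)..t, h (V s) s) (t : ℝ) (ht : 0 ≤ t) :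
    Real.exp t * ‖V t‖ ≤ ‖z0‖ / (1 - ‖z0‖) ^ 2 := by
  set H : ℝ → E2 := fun s => h (V s) s with hH
  have hint : ∀ t, 0 ≤ t → IntervalIntegrable H volume 0 t := fun t ht => (hV t ht).2.1
  have hVe : ∀ t, 0 ≤ t → V t = z0 - ∫ s in (0 : ℝ)..t, H s := fun t ht => (hV t ht).2.2
  have hV0 : V 0 = z0 := by rw [hVe 0 le_rfl]; simp
  have hb : ∀ t, 0 ≤ t → ‖V t‖ < 1 := fun t ht => by simpa using (hV t ht).1
  have hz1 : ‖z0‖ < 1 := by rw [← hV0]; exact hb 0 le_rfl
  set N : ℝ → ℝ := fun t => ‖V t‖ ^ 2 with hN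
  have hsq : ∀ t, √(N t) = ‖V t‖ := fun t => Real.sqrt_sq (norm_nonneg _)
  have hNlt : ∀ t, 0 ≤ t → N t < 1 := by
    intro t ht
    have := hb t ht
    have h2 := norm_nonneg (V t)
    simp only [hN]; nlinarith
  have hPhi : ∀ u, 0 ≤ u → Phi (N u) ≤ (inner ℂ (V u) (H u)).re := by
    intro u hu
    obtain ⟨h1, h2, h3, h4⟩ := hh u
    have := harnack (fun z => h z u) h1 h2 h3 h4 (V u) (hV u hu).1
    unfold Phi
    rw [hsq]
    exact this
  have hVc : ∀ b, 0 ≤ b → ContinuousOn V (Icc 0 b) := fun b hb => V_cont H V z0 hint hVe b hb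
  have hNc : ∀ b, 0 ≤ b → ContinuousOn N (Icc 0 b) := fun b hb => ((hVc b hb).norm.pow 2)
  have hineq : ∀ s t, 0 ≤ s → s ≤ t → N t ≤ N s - 2 * ∫ u in s..t, Phi (N u) := by
    intro s t hs hst
    have h1 := norm_sq_formula H V z0 hint hVe hs hst
    have h2 : ∫ u in s..t, Phi (N u) ≤ ∫ u in s..t, (inner ℂ (V u) (H u)).re := by
      apply intervalIntegral.integral_mono_on hst
      · apply ContinuousOn.intervalIntegrable
        rw [uIcc_of_le hst]
        exact (Phi_cont.comp_continuousOn (hNc t (hs.trans hst))).mono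
          (Icc_subset_Icc_left hs)
      · exact (inner_intervalIntegrable H V z0 hint hVe t (hs.trans hst)).mono_set
          (by rw [uIcc_of_le hst, uIcc_of_le (hs.trans hst)]; exact Icc_subset_Icc_left hs)
      · intro u hu
        exact hPhi u (hs.trans hu.1)
    simp only [hN] at *
    linarith
  have hz0nn : 0 ≤ ‖z0‖ / (1 - ‖z0‖) ^ 2 := by positivity
  by_cases hVt : V t = 0
  · rw [hVt]; simpa using hz0nn
  -- N > 0 on [0,t]
  have hanti : ∀ s, 0 ≤ s → s ≤ t → N t ≤ N s := by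
    intro s hs hst
    have h1 := hineq s t hs hst
    have h2 : 0 ≤ ∫ u in s..t, Phi (N u) := by
      apply intervalIntegral.integral_nonneg hst
      intro u hu
      exact Phi_nonneg (by simp only [hN]; positivity) (hNlt u (hs.trans hu.1))
    linarith
  have hNt : 0 < N t := by
    have : 0 < ‖V t‖ := norm_pos_iff.mpr hVt
    simp only [hN]; positivity
  have hcmp := comparison N t ht (hNc t ht) (fun s hs => lt_of_lt_of_le hNt (hanti s hs.1 hs.2))
    (fun s hs => hNlt s hs.1) (fun a b ha hab hbt => hineq a b ha hab)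
  have hN0 : 0 < N 0 := lt_of_lt_of_le hNt (hanti 0 le_rfl ht)
  unfold psi at hcmp
  rw [hsq, hsq] at hcmp
  have hlog : ∀ s, 0 < N s → (1 / 2) * Real.log (N s) = Real.log ‖V s‖ := by
    intro s hs
    simp only [hN]
    rw [Real.log_pow]; push_cast; ring
  rw [hlog t hNt, hlog 0 hN0, hV0] at hcmp
  have hVt0 : 0 < ‖V t‖ := norm_pos_iff.mpr hVt
  have hVt1 := hb t ht
  have hz0 : 0 < ‖z0‖ := by
    rw [← hV0]
    simp only [hN] at hN0
    by_contra hcon
    have : ‖V 0‖ = 0 := le_antisymm (not_lt.mp hcon) (norm_nonneg _)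
    rw [this] at hN0; simp at hN0
  have hl1 : Real.log (1 - ‖V t‖) ≤ 0 := Real.log_nonpos (by linarith) (by linarith)
  have hl2 : t + Real.log ‖V t‖ ≤ Real.log (‖z0‖ / (1 - ‖z0‖) ^ 2) := by
    rw [Real.log_div hz0.ne' (by nlinarith), Real.log_pow]
    push_cast
    linarith
  have hpos2 : 0 < ‖z0‖ / (1 - ‖z0‖) ^ 2 := by
    apply div_pos hz0
    have : 0 < 1 - ‖z0‖ := by linarith
    positivity
  calc Real.exp t * ‖V t‖ = Real.exp (t + Real.log ‖V t‖) := by
        rw [Real.exp_add, Real.exp_log hVt0]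
    _ ≤ Real.exp (Real.log (‖z0‖ / (1 - ‖z0‖) ^ 2)) := Real.exp_le_exp.mpr hl2
    _ = _ := Real.exp_log hpos2

end LoewB2
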