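import Mathlib
import Pool.Agent.Helper6.LoewnerA

/-! Helper for S02778: the Koebe flow. -/

namespace LoewB2

open MeasureTheory Set Filter Topology

/-- the Koebe function -/
noncomputable def k (ζ : ℂ) : ℂ := ζ / (1 - ζ) ^ 2

noncomputable def s0 (ζ : ℂ) : ℂ := (1 + ζ) / (1 - ζ)

noncomputable def WW (ζ : ℂ) (t : ℝ) : ℂ := 1 + (Real.exp (-t) : ℂ) * (s0 ζ ^ 2 - 1)

noncomputable def SS (ζ : ℂ) (t : ℝ) : ℂ := Complex.exp (Complex.log (WW ζ t) / 2)

/-- the Koebe flow: `k (kap ζ t) = e^{-t} k ζ` -/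
noncomputable def kap (ζ : ℂ) (t : ℝ) : ℂ := (SS ζ t - 1) / (SS ζ t + 1)

lemma one_sub_ne {ζ : ℂ} (h : ‖ζ‖ < 1) : 1 - ζ ≠ 0 := by
  intro hc
  have : ζ = 1 := by linear_combination -hc
  rw [this] at h; simp at h

lemma one_add_ne {ζ : ℂ} (h : ‖ζ‖ < 1) : 1 + ζ ≠ 0 := by
  intro hc
  have : ζ = -1 := by linear_combination hc
  rw [this] at h; simp at h

lemma normSq_lt {ζ : ℂ} (h : ‖ζ‖ < 1) : ζ.re * ζ.re + ζ.im * ζ.im < 1 := by
  have h1 : ‖ζ‖ ^ 2 < 1 := by nlinarith [norm_nonneg ζ]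
  rw [Complex.sq_norm, Complex.normSq_apply] at h1
  exact h1

lemma re_div_pos {ζ : ℂ} (h : ‖ζ‖ < 1) : 0 < (s0 ζ).re := by
  have h1 := normSq_lt h
  have h2 : 0 < Complex.normSq (1 - ζ) := Complex.normSq_pos.mpr (one_sub_ne h)
  unfold s0
  rw [Complex.div_re]
  have h3 : (1 + ζ).re * (1 - ζ).re / Complex.normSq (1 - ζ)
      + (1 + ζ).im * (1 - ζ).im / Complex.normSq (1 - ζ)
      = (1 - (ζ.re * ζ.re + ζ.im * ζ.im)) / Complex.normSq (1 - ζ) := by
    simp only [Complex.add_re, Complex.sub_re, Complex.one_re, Complex.add_im, Complex.sub_im,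
      Complex.one_im]
    field_simp; ring
  rw [h3]
  exact div_pos (by linarith) h2

lemma WW_slit {ζ : ℂ} (h : ‖ζ‖ < 1) {t : ℝ} (ht : 0 ≤ t) : WW ζ t ∈ Complex.slitPlane := by
  have hr := re_div_pos h
  have he : 0 < Real.exp (-t) := Real.exp_pos _
  have he1 : Real.exp (-t) ≤ 1 := Real.exp_le_one_iff.mpr (by linarith)
  set a := (s0 ζ).re with ha
  set b := (s0 ζ).im with hb
  have h1 : (WW ζ t).re = 1 + Real.exp (-t) * (a * a - b * b - 1) := by
    unfold WW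
    simp only [Complex.add_re, Complex.one_re, Complex.sub_re, sq,
      Complex.mul_re, Complex.ofReal_re, Complex.ofReal_im, ← ha, ← hb]
    ring
  have h2 : (WW ζ t).im = Real.exp (-t) * (2 * a * b) := by
    unfold WW
    simp only [Complex.add_im, Complex.one_im, Complex.sub_im, sq,
      Complex.mul_im, Complex.ofReal_re, Complex.ofReal_im, ← ha, ← hb]
    ring
  rw [Complex.mem_slitPlane_iff]
  by_cases hb0 : b = 0
  · left
    rw [h1, hb0]
    have : 0 < Real.exp (-t) * (a * a) := by positivity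
    nlinarith
  · right
    rw [h2]
    have := hr.ne'
    positivity

lemma SS_sq {ζ : ℂ} (h : ‖ζ‖ < 1) {t : ℝ} (ht : 0 ≤ t) : SS ζ t * SS ζ t = WW ζ t := by
  unfold SS
  rw [← Complex.exp_add]
  have : Complex.log (WW ζ t) / 2 + Complex.log (WW ζ t) / 2 = Complex.log (WW ζ t) := by ring
  rw [this, Complex.exp_log (Complex.slitPlane_ne_zero (WW_slit h ht))]

lemma SS_re {ζ : ℂ} (h : ‖ζ‖ < 1) {t : ℝ} (ht : 0 ≤ t) : 0 < (SS ζ t).re := by
  unfold SS
  rw [Complex.exp_re]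
  apply mul_pos (Real.exp_pos _)
  apply Real.cos_pos_of_mem_Ioo
  have him : (Complex.log (WW ζ t) / 2).im = Complex.arg (WW ζ t) / 2 := by
    have : Complex.log (WW ζ t) / 2 = ((2⁻¹ : ℝ) : ℂ) * Complex.log (WW ζ t) := by
      push_cast; ring
    rw [this, Complex.im_ofReal_mul, Complex.log_im]; ring
  rw [him]
  have h1 := Complex.neg_pi_lt_arg (WW ζ t)
  have h2 : Complex.arg (WW ζ t) < Real.pi := by
    apply lt_of_le_of_ne (Complex.arg_le_pi _)
    exact (Complex.mem_slitPlane_iff_arg.mp (WW_slit h ht)).1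
  constructor <;> linarith

lemma SS_ne {ζ : ℂ} (h : ‖ζ‖ < 1) {t : ℝ} (ht : 0 ≤ t) : SS ζ t ≠ 0 := by
  intro hc
  have := SS_re h ht
  rw [hc] at this; simp at this

lemma SS_add_ne {ζ : ℂ} (h : ‖ζ‖ < 1) {t : ℝ} (ht : 0 ≤ t) : SS ζ t + 1 ≠ 0 := by
  intro hc
  have := SS_re h ht
  have h2 := congrArg Complex.re hc
  simp at h2; linarith

lemma kap_zero {ζ : ℂ} (h : ‖ζ‖ < 1) : kap ζ 0 = ζ := by
  have h1 : SS ζ 0 * SS ζ 0 = s0 ζ * s0 ζ := by
    rw [SS_sq h le_rfl]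
    unfold WW; simp; ring
  have h2 : (SS ζ 0 - s0 ζ) * (SS ζ 0 + s0 ζ) = 0 := by linear_combination h1
  have h3 : SS ζ 0 + s0 ζ ≠ 0 := by
    intro hc
    have a1 := SS_re h (le_refl (0 : ℝ))
    have a2 := re_div_pos h
    have h2 := congrArg Complex.re hc
    simp at h2; linarith
  have h4 : SS ζ 0 = s0 ζ := by
    rcases mul_eq_zero.mp h2 with h | h
    · linear_combination h
    · exact absurd h h3
  unfold kap
  rw [h4]
  have h5 := one_sub_ne h
  have h6 : s0 ζ + 1 ≠ 0 := by rw [← h4]; exact SS_add_ne h le_rfl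
  have h7 : s0 ζ - 1 = ζ * (s0 ζ + 1) := by unfold s0; field_simp; ring
  rw [h7]; field_simp

lemma kap_norm_lt {ζ : ℂ} (h : ‖ζ‖ < 1) {t : ℝ} (ht : 0 ≤ t) : ‖kap ζ t‖ < 1 := by
  unfold kap
  rw [norm_div, div_lt_one (norm_pos_iff.mpr (SS_add_ne h ht))]
  rw [← sq_lt_sq₀ (norm_nonneg _) (norm_nonneg _), Complex.sq_norm, Complex.sq_norm,
    Complex.normSq_apply, Complex.normSq_apply]
  have := SS_re h ht
  simp
  nlinarith

lemma k_kap {ζ : ℂ} (h : ‖ζ‖ < 1) {t : ℝ} (ht : 0 ≤ t) :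
    k (kap ζ t) = (Real.exp (-t) : ℂ) * k ζ := by
  have h1 := SS_sq h ht
  have h2 := SS_add_ne h ht
  have h5 := one_sub_ne h
  have e1 : k (kap ζ t) = (SS ζ t * SS ζ t - 1) / 4 := by
    unfold k kap
    have : 1 - (SS ζ t - 1) / (SS ζ t + 1) = 2 / (SS ζ t + 1) := by field_simp; ring
    rw [this]; field_simp; ring
  have e2 : k ζ = (s0 ζ ^ 2 - 1) / 4 := by
    unfold k s0; field_simp; ring
  rw [e1, h1, e2]; unfold WW; ring

lemma kap_deriv {ζ : ℂ} (h : ‖ζ‖ < 1) {t : ℝ} (ht : 0 ≤ t) :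
    HasDerivAt (kap ζ) (-(kap ζ t * (1 - kap ζ t) / (1 + kap ζ t))) t := by
  have hW : HasDerivAt (WW ζ) (((-Real.exp (-t) : ℝ) : ℂ) * (s0 ζ ^ 2 - 1)) t := by
    unfold WW
    have h1 : HasDerivAt (fun t : ℝ => Real.exp (-t)) (-Real.exp (-t)) t := by
      simpa using ((hasDerivAt_id t).neg.exp)
    have h2 : HasDerivAt (fun t : ℝ => (Real.exp (-t) : ℂ)) ((-Real.exp (-t) : ℝ) : ℂ) t :=
      h1.ofReal_comp
    exact (h2.mul_const (s0 ζ ^ 2 - 1)).const_add 1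
  have hlog : HasDerivAt (fun t => Complex.log (WW ζ t))
      ((((-Real.exp (-t) : ℝ) : ℂ) * (s0 ζ ^ 2 - 1)) / WW ζ t) t :=
    hW.clog_real (WW_slit h ht)
  have hS : HasDerivAt (SS ζ) (SS ζ t * (((((-Real.exp (-t) : ℝ) : ℂ) * (s0 ζ ^ 2 - 1)) / WW ζ t) / 2)) t :=
    (hlog.div_const 2).cexp
  have hne := SS_add_ne h ht
  have hne0 := SS_ne h ht
  have hk := (hS.sub_const 1).div (hS.add_const 1) hne
  have hsq := SS_sq h ht
  have hW0 : WW ζ t ≠ 0 := Complex.slitPlane_ne_zero (WW_slit h ht)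
  have e1 : (((-Real.exp (-t) : ℝ) : ℂ) * (s0 ζ ^ 2 - 1)) = 1 - WW ζ t := by
    unfold WW; push_cast; ring
  have hval : -(kap ζ t * (1 - kap ζ t) / (1 + kap ζ t))
      = (SS ζ t * (((((-Real.exp (-t) : ℝ) : ℂ) * (s0 ζ ^ 2 - 1)) / WW ζ t) / 2) * (SS ζ t + 1)
        - (SS ζ t - 1) * (SS ζ t * (((((-Real.exp (-t) : ℝ) : ℂ) * (s0 ζ ^ 2 - 1)) / WW ζ t) / 2)))
        / (SS ζ t + 1) ^ 2 := by
    rw [e1, ← hsq]
    unfold kap
    set S := SS ζ t with hSdef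
    have a1 : 1 - (S - 1) / (S + 1) = 2 / (S + 1) := by field_simp; ring
    have a2 : 1 + (S - 1) / (S + 1) = 2 * S / (S + 1) := by field_simp; ring
    rw [a1, a2]
    field_simp
    ring
  rw [hval]
  exact hk

lemma kap_norm_le {ζ : ℂ} (h : ‖ζ‖ < 1) {t : ℝ} (ht : 0 ≤ t) : ‖kap ζ t‖ ≤ ‖ζ‖ := by
  have hanti : AntitoneOn (fun t => ‖kap ζ t‖ ^ 2) (Ici 0) := by
    have hd : ∀ s, 0 ≤ s → HasDerivAt (fun t => ‖kap ζ t‖ ^ 2)
        (2 * (inner ℝ (kap ζ s) (-(kap ζ s * (1 - kap ζ s) / (1 + kap ζ s))))) s := by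
      intro s hs
      exact (kap_deriv h hs).norm_sq
    apply antitoneOn_of_deriv_nonpos (convex_Ici 0)
    · intro s hs
      exact (hd s hs).continuousAt.continuousWithinAt
    · intro s hs
      rw [interior_Ici] at hs
      exact (hd s (le_of_lt hs)).differentiableAt.differentiableWithinAt
    · intro s hs
      rw [interior_Ici] at hs
      have hs' : 0 ≤ s := le_of_lt hs
      rw [(hd s hs').deriv]
      set w := kap ζ s with hw
      have hw1 : ‖w‖ < 1 := kap_norm_lt h hs'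
      have hre : 0 < ((1 - w) / (1 + w)).re := by
        have h1 : ‖-w‖ < 1 := by simpa using hw1
        have h2 := re_div_pos h1
        unfold s0 at h2
        have : (1 + -w) / (1 - -w) = (1 - w) / (1 + w) := by ring
        rwa [this] at h2
      have e : inner ℝ w (-(w * (1 - w) / (1 + w))) = -(‖w‖ ^ 2 * ((1 - w) / (1 + w)).re) := by
        rw [Complex.inner]
        have : (starRingEnd ℂ) w * -(w * (1 - w) / (1 + w))
            = -(((‖w‖ ^ 2 : ℝ) : ℂ) * ((1 - w) / (1 + w))) := by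
          have h3 : ((‖w‖ ^ 2 : ℝ) : ℂ) = starRingEnd ℂ w * w := by
            rw [mul_comm, Complex.mul_conj, Complex.normSq_eq_norm_sq]
          rw [h3]; ring
        rw [mul_comm] at this
        rw [this]
        rw [Complex.neg_re, Complex.re_ofReal_mul]
      rw [e]
      have : 0 ≤ ‖w‖ ^ 2 * ((1 - w) / (1 + w)).re := by positivity
      linarith
  have h1 := hanti (by simp : (0 : ℝ) ∈ Ici 0) (by simpa using ht : t ∈ Ici (0 : ℝ)) ht
  simp only [kap_zero h] at h1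
  exact (sq_le_sq₀ (norm_nonneg _) (norm_nonneg _)).mp h1

lemma k_inj {a b : ℂ} (ha : ‖a‖ < 1) (hb : ‖b‖ < 1) (h : k a = k b) : a = b := by
  unfold k at h
  have h1 := one_sub_ne ha
  have h2 := one_sub_ne hb
  rw [div_eq_div_iff (pow_ne_zero 2 h1) (pow_ne_zero 2 h2)] at h
  have h3 : (a - b) * (1 - a * b) = 0 := by linear_combination h
  rcases mul_eq_zero.mp h3 with h4 | h4
  · linear_combination h4
  · exfalso
    have h5 : ‖a * b‖ < 1 := by
      rw [norm_mul]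
      nlinarith [norm_nonneg a, norm_nonneg b]
    have h6 : a * b = 1 := by linear_combination -h4
    rw [h6] at h5; simp at h5

lemma kap_tendsto {ζ : ℂ} (h : ‖ζ‖ < 1) :
    Tendsto (fun t : ℝ => ((Real.exp t : ℝ) : ℂ) * kap ζ t) atTop (𝓝 (k ζ)) := by
  have e1 : ∀ t : ℝ, 0 ≤ t → kap ζ t = (Real.exp (-t) : ℂ) * k ζ * (1 - kap ζ t) ^ 2 := by
    intro t ht
    rw [← k_kap h ht]
    unfold k
    have := one_sub_ne (kap_norm_lt h ht)
    field_simp
  have hk0 : Tendsto (kap ζ) atTop (𝓝 0) := by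
    rw [tendsto_zero_iff_norm_tendsto_zero]
    have hb : ∀ᶠ t : ℝ in atTop, ‖kap ζ t‖ ≤ Real.exp (-t) * (‖k ζ‖ * 4) := by
      filter_upwards [eventually_ge_atTop 0] with t ht
      have h1 : ‖1 - kap ζ t‖ ≤ 2 := by
        calc ‖1 - kap ζ t‖ ≤ ‖(1 : ℂ)‖ + ‖kap ζ t‖ := norm_sub_le _ _
          _ ≤ 2 := by rw [norm_one]; linarith [kap_norm_lt h ht]
      have h2 : ‖1 - kap ζ t‖ ^ 2 ≤ 4 := by nlinarith [norm_nonneg (1 - kap ζ t)]
      calc ‖kap ζ t‖ = ‖(Real.exp (-t) : ℂ) * k ζ * (1 - kap ζ t) ^ 2‖ := by rw [← e1 t ht]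
        _ = Real.exp (-t) * ‖k ζ‖ * ‖1 - kap ζ t‖ ^ 2 := by
            rw [norm_mul, norm_mul, norm_pow, Complex.norm_real, Real.norm_of_nonneg (Real.exp_pos _).le]
        _ ≤ Real.exp (-t) * ‖k ζ‖ * 4 := by
            apply mul_le_mul_of_nonneg_left h2; positivity
        _ = _ := by ring
    have hlim : Tendsto (fun t : ℝ => Real.exp (-t) * (‖k ζ‖ * 4)) atTop (𝓝 0) := by
      have := Real.tendsto_exp_neg_atTop_nhds_zero.mul_const (‖k ζ‖ * 4)
      simpa using this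
    exact squeeze_zero' (Eventually.of_forall fun t => norm_nonneg _) hb hlim
  have hlim2 : Tendsto (fun t : ℝ => k ζ * (1 - kap ζ t) ^ 2) atTop (𝓝 (k ζ * (1 - 0) ^ 2)) :=
    ((tendsto_const_nhds.sub hk0).pow 2).const_mul _
  rw [sub_zero, one_pow, mul_one] at hlim2
  apply hlim2.congr'
  filter_upwards [eventually_ge_atTop 0] with t ht
  have h3 : ((Real.exp t : ℝ) : ℂ) * (Real.exp (-t) : ℂ) = 1 := by
    rw [← Complex.ofReal_mul, ← Real.exp_add]; simp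
  conv_rhs => rw [e1 t ht]
  linear_combination (- k ζ * (1 - kap ζ t) ^ 2) * h3

/-! ### vectors in `ℂ²` -/

noncomputable def mk (a b : ℂ) : E2 := a • EuclideanSpace.single 0 (1 : ℂ) + b • EuclideanSpace.single 1 (1 : ℂ)

@[simp] lemma mk_zero (a b : ℂ) : mk a b 0 = a := by simp [mk]
@[simp] lemma mk_one (a b : ℂ) : mk a b 1 = b := by simp [mk]

lemma ext2 {x y : E2} (h0 : x 0 = y 0) (h1 : x 1 = y 1) : x = y := by
  ext i; fin_cases i <;> simpa

lemma norm_sq_eq (x : E2) : ‖x‖ ^ 2 = ‖x 0‖ ^ 2 + ‖x 1‖ ^ 2 := by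
  rw [EuclideanSpace.norm_sq_eq, Fin.sum_univ_two]

lemma mem_ball_iff (x : E2) : x ∈ Metric.ball (0 : E2) 1 ↔ ‖x 0‖ ^ 2 + ‖x 1‖ ^ 2 < 1 := by
  rw [mem_ball_zero_iff, ← norm_sq_eq]
  constructor
  · intro h; nlinarith [norm_nonneg x]
  · intro h; nlinarith [norm_nonneg x]

lemma coord_lt {x : E2} (hx : x ∈ Metric.ball (0 : E2) 1) (i : Fin 2) : ‖x i‖ < 1 := by
  have h1 := (PiLp.norm_apply_le x i)
  have h2 : ‖x‖ < 1 := by simpa using hx
  linarith

lemma coord_le (x : E2) (i : Fin 2) : ‖x i‖ ≤ ‖x‖ := PiLp.norm_apply_le x i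

lemma mk_hasDerivAt {a b : ℝ → ℂ} {a' b' : ℂ} {t : ℝ} (ha : HasDerivAt a a' t)
    (hb : HasDerivAt b b' t) : HasDerivAt (fun t => mk (a t) (b t)) (mk a' b') t := by
  unfold mk
  exact (ha.smul_const _).add (hb.smul_const _)

lemma mk_continuousOn {a b : ℝ → ℂ} {s : Set ℝ} (ha : ContinuousOn a s) (hb : ContinuousOn b s) :
    ContinuousOn (fun t => mk (a t) (b t)) s := by
  unfold mk
  exact (ha.smul continuousOn_const).add (hb.smul continuousOn_const)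

lemma mk_differentiableOn {a b : E2 → ℂ} {s : Set E2} (ha : DifferentiableOn ℂ a s)
    (hb : DifferentiableOn ℂ b s) : DifferentiableOn ℂ (fun z => mk (a z) (b z)) s := by
  unfold mk
  exact (ha.smul_const _).add (hb.smul_const _)

lemma mk_hasFDerivAt {a b : E2 → ℂ} {a' b' : E2 →L[ℂ] ℂ} {z : E2} (ha : HasFDerivAt a a' z)
    (hb : HasFDerivAt b b' z) : HasFDerivAt (fun z => mk (a z) (b z))
      (a'.smulRight (EuclideanSpace.single 0 (1 : ℂ)) + b'.smulRight (EuclideanSpace.single 1 (1 : ℂ))) z := by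
  unfold mk
  exact (ha.smul_const _).add (hb.smul_const _)

lemma inner_mk (z : E2) (a b : ℂ) :
    inner ℂ z (mk a b) = starRingEnd ℂ (z 0) * a + starRingEnd ℂ (z 1) * b := by
  rw [PiLp.inner_apply, Fin.sum_univ_two]
  simp [mul_comm]

end LoewB2
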