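import Mathlib
import Pool.Agent.Helper6.LoewnerB

/-! Helper for S02778: the class `S⁰`, the support point and the two chains. -/

namespace LoewB2

open MeasureTheory Set Filter Topology

def IsS0 (g : E2 → E2) : Prop :=
  ∃ (h : EuclideanSpace ℂ (Fin 2) → ℝ → EuclideanSpace ℂ (Fin 2))
      (v : EuclideanSpace ℂ (Fin 2) → ℝ → EuclideanSpace ℂ (Fin 2)),
      (∀ t : ℝ, DifferentiableOn ℂ (fun z => h z t) (Metric.ball (0 : EuclideanSpace ℂ (Fin 2)) 1) ∧
        h 0 t = 0 ∧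
        fderiv ℂ (fun z => h z t) 0 = ContinuousLinearMap.id ℂ (EuclideanSpace ℂ (Fin 2)) ∧
        ∀ z ∈ Metric.ball (0 : EuclideanSpace ℂ (Fin 2)) 1, z ≠ 0 → 0 < (inner ℂ z (h z t)).re) ∧
      (∀ z ∈ Metric.ball (0 : EuclideanSpace ℂ (Fin 2)) 1,
        MeasureTheory.StronglyMeasurable (fun t : ℝ => h z t)) ∧
      (∀ z ∈ Metric.ball (0 : EuclideanSpace ℂ (Fin 2)) 1,
        (∀ t : ℝ, 0 ≤ t → v z t ∈ Metric.ball (0 : EuclideanSpace ℂ (Fin 2)) 1 ∧
          IntervalIntegrable (fun s => h (v z s) s) MeasureTheory.volume 0 t ∧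
          v z t = z - ∫ s in (0:ℝ)..t, h (v z s) s) ∧
        Filter.Tendsto (fun t : ℝ => ((Real.exp t : ℝ) : ℂ) • v z t) Filter.atTop (nhds (g z)))

def IsNLC (F : E2 → ℝ → E2) : Prop :=
      (∀ t : ℝ, 0 ≤ t →
        DifferentiableOn ℂ (fun z => F z t) (Metric.ball (0 : EuclideanSpace ℂ (Fin 2)) 1) ∧
        Set.InjOn (fun z => F z t) (Metric.ball (0 : EuclideanSpace ℂ (Fin 2)) 1) ∧
        F 0 t = 0 ∧
        fderiv ℂ (fun z => F z t) 0 =
          ((Real.exp t : ℝ) : ℂ) • ContinuousLinearMap.id ℂ (EuclideanSpace ℂ (Fin 2))) ∧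
      (∀ s t : ℝ, 0 ≤ s → s ≤ t →
        (fun z => F z s) '' Metric.ball (0 : EuclideanSpace ℂ (Fin 2)) 1 ⊆
          (fun z => F z t) '' Metric.ball (0 : EuclideanSpace ℂ (Fin 2)) 1) ∧
      (∀ r : ℝ, r < 1 → ∃ M : ℝ, ∀ t : ℝ, 0 ≤ t → ∀ z : EuclideanSpace ℂ (Fin 2),
        ‖z‖ ≤ r → ‖F z t‖ ≤ M * Real.exp t)

/-- general membership lemma: an autonomous field with an explicit flow -/
lemma isS0_of_flow (g : E2 → E2) (h : E2 → E2) (v : E2 → ℝ → E2)
    (hd : DifferentiableOn ℂ h (Metric.ball (0 : E2) 1)) (h0 : h 0 = 0)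
    (hder : fderiv ℂ h 0 = ContinuousLinearMap.id ℂ E2)
    (hpos : ∀ z ∈ Metric.ball (0 : E2) 1, z ≠ 0 → 0 < (inner ℂ z (h z)).re)
    (hv0 : ∀ z ∈ Metric.ball (0 : E2) 1, v z 0 = z)
    (hvm : ∀ z ∈ Metric.ball (0 : E2) 1, ∀ t : ℝ, 0 ≤ t → v z t ∈ Metric.ball (0 : E2) 1)
    (hvd : ∀ z ∈ Metric.ball (0 : E2) 1, ∀ t : ℝ, 0 ≤ t → HasDerivAt (v z) (-h (v z t)) t)
    (hlim : ∀ z ∈ Metric.ball (0 : E2) 1,
      Tendsto (fun t : ℝ => ((Real.exp t : ℝ) : ℂ) • v z t) atTop (𝓝 (g z))) : IsS0 g := by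
  refine ⟨fun z _ => h z, v, fun t => ⟨hd, h0, hder, hpos⟩,
    fun z _ => stronglyMeasurable_const, fun z hz => ⟨fun t ht => ⟨hvm z hz t ht, ?_, ?_⟩,
      hlim z hz⟩⟩
  · apply ContinuousOn.intervalIntegrable
    rw [uIcc_of_le ht]
    apply hd.continuousOn.comp
    · intro s hs
      exact (hvd z hz s hs.1).continuousAt.continuousWithinAt
    · intro s hs; exact hvm z hz s hs.1
  · have hI : IntervalIntegrable (fun s => -h (v z s)) volume 0 t := by
      apply IntervalIntegrable.neg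
      apply ContinuousOn.intervalIntegrable
      rw [uIcc_of_le ht]
      apply hd.continuousOn.comp
      · intro s hs
        exact (hvd z hz s hs.1).continuousAt.continuousWithinAt
      · intro s hs; exact hvm z hz s hs.1
    have h1 := intervalIntegral.integral_eq_sub_of_hasDerivAt (a := 0) (b := t) (f := v z)
      (f' := fun s => -h (v z s)) (fun s hs => by
        rw [uIcc_of_le ht] at hs
        exact hvd z hz s hs.1) hI
    rw [intervalIntegral.integral_neg, hv0 z hz] at h1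
    have h2 : v z t = z - ∫ s in (0 : ℝ)..t, h (v z s) := by
      rw [sub_eq_add_neg, h1]; abel
    exact h2

lemma id_isS0 : IsS0 (fun z => z) := by
  apply isS0_of_flow (fun z => z) (fun z => z) (fun z t => ((Real.exp (-t) : ℝ) : ℂ) • z)
  · exact differentiableOn_id
  · rfl
  · exact fderiv_fun_id
  · intro z _ hz
    rw [inner_self_eq_norm_sq_to_K]
    have : 0 < ‖z‖ := norm_pos_iff.mpr hz
    have h2 : (((‖z‖ : ℝ) : ℂ) ^ 2).re = ‖z‖ ^ 2 := by norm_cast
    simp only [Complex.coe_algebraMap] at *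
    rw [h2]; positivity
  · intro z _; simp
  · intro z hz t ht
    rw [mem_ball_zero_iff] at hz ⊢
    rw [norm_smul, Complex.norm_real, Real.norm_of_nonneg (Real.exp_pos _).le]
    have : Real.exp (-t) ≤ 1 := Real.exp_le_one_iff.mpr (by linarith)
    nlinarith [norm_nonneg z]
  · intro z _ t _
    have h1 : HasDerivAt (fun t : ℝ => Real.exp (-t)) (-Real.exp (-t)) t := by
      simpa using ((hasDerivAt_id t).neg.exp)
    have h2 : HasDerivAt (fun t : ℝ => ((Real.exp (-t) : ℝ) : ℂ)) ((-Real.exp (-t) : ℝ) : ℂ) t :=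
      h1.ofReal_comp
    have h3 := h2.smul_const z
    have e : -(((Real.exp (-t) : ℝ) : ℂ) • z) = ((-Real.exp (-t) : ℝ) : ℂ) • z := by
      push_cast; rw [neg_smul]
    rw [e]; exact h3
  · intro z _
    have : (fun t : ℝ => ((Real.exp t : ℝ) : ℂ) • (((Real.exp (-t) : ℝ) : ℂ) • z)) = fun _ => z := by
      funext t
      rw [smul_smul, ← Complex.ofReal_mul, ← Real.exp_add]; simp
    rw [this]; exact tendsto_const_nhds

/-- the support point -/
noncomputable def ff (z : E2) : E2 := mk (k (z 0)) (z 1)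

noncomputable def hh (z : E2) : E2 := mk (z 0 * (1 - z 0) / (1 + z 0)) (z 1)

noncomputable def vv (z : E2) (t : ℝ) : E2 := mk (kap (z 0) t) (((Real.exp (-t) : ℝ) : ℂ) * z 1)

noncomputable def pr (i : Fin 2) : E2 →L[ℂ] ℂ := EuclideanSpace.proj i

lemma pr_apply (i : Fin 2) (z : E2) : pr i z = z i := rfl

lemma coord_hasFDerivAt (i : Fin 2) (z : E2) : HasFDerivAt (fun z : E2 => z i) (pr i) z :=
  (pr i).hasFDerivAt

lemma coord_diff (i : Fin 2) (s : Set E2) : DifferentiableOn ℂ (fun z : E2 => z i) s :=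
  fun z _ => (coord_hasFDerivAt i z).differentiableAt.differentiableWithinAt

lemma coord_comp (i : Fin 2) (f : ℂ → ℂ) (hf : ∀ ζ : ℂ, ‖ζ‖ < 1 → DifferentiableAt ℂ f ζ) :
    DifferentiableOn ℂ (fun z : E2 => f (z i)) (Metric.ball 0 1) := by
  intro z hz
  exact ((hf (z i) (coord_lt hz i)).comp z
    (coord_hasFDerivAt i z).differentiableAt).differentiableWithinAt

lemma id_eq : (pr 0).smulRight (EuclideanSpace.single 0 (1 : ℂ))
    + (pr 1).smulRight (EuclideanSpace.single 1 (1 : ℂ)) = ContinuousLinearMap.id ℂ E2 := by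
  ext z i
  fin_cases i <;> simp [pr]

lemma ff_isS0 : IsS0 ff := by
  apply isS0_of_flow ff hh vv
  · unfold hh
    apply mk_differentiableOn
    · apply coord_comp 0 (fun ζ => ζ * (1 - ζ) / (1 + ζ))
      intro ζ hζ
      exact (by fun_prop : DifferentiableAt ℂ (fun ζ : ℂ => ζ * (1 - ζ)) ζ).fun_div (by fun_prop)
        (one_add_ne hζ)
    · exact coord_diff 1 _
  · unfold hh; apply ext2 <;> simp
  · have h1 : HasDerivAt (fun ζ : ℂ => ζ * (1 - ζ) / (1 + ζ)) 1 ((0 : E2) 0) := by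
      have h2 : HasDerivAt (fun ζ : ℂ => ζ * (1 - ζ)) (1 * (1 - 0) + 0 * (-1)) 0 :=
        (hasDerivAt_id' (0 : ℂ)).fun_mul ((hasDerivAt_id' (0 : ℂ)).const_sub 1)
      have h3 : HasDerivAt (fun ζ : ℂ => 1 + ζ) 1 0 := (hasDerivAt_id' (0 : ℂ)).const_add 1
      have h4 := h2.fun_div h3 (by norm_num)
      simpa using h4
    have h5 := h1.comp_hasFDerivAt (0 : E2) (coord_hasFDerivAt 0 0)
    have h6 := mk_hasFDerivAt h5 (coord_hasFDerivAt 1 0)
    rw [one_smul, id_eq] at h6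
    exact h6.fderiv
  · intro z hz hz0
    unfold hh
    rw [inner_mk]
    have h0 := coord_lt hz 0
    have hre : 0 < ((1 - z 0) / (1 + z 0)).re := by
      have h1 : ‖-z 0‖ < 1 := by simpa using h0
      have h2 := re_div_pos h1
      unfold s0 at h2
      have : (1 + -z 0) / (1 - -z 0) = (1 - z 0) / (1 + z 0) := by ring
      rwa [this] at h2
    have e1 : starRingEnd ℂ (z 0) * (z 0 * (1 - z 0) / (1 + z 0))
        = ((‖z 0‖ ^ 2 : ℝ) : ℂ) * ((1 - z 0) / (1 + z 0)) := by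
      have h3 : ((‖z 0‖ ^ 2 : ℝ) : ℂ) = starRingEnd ℂ (z 0) * z 0 := by
        rw [mul_comm, Complex.mul_conj, Complex.normSq_eq_norm_sq]
      rw [h3]; ring
    have e2 : starRingEnd ℂ (z 1) * z 1 = ((‖z 1‖ ^ 2 : ℝ) : ℂ) := by
      rw [mul_comm, Complex.mul_conj, Complex.normSq_eq_norm_sq]
    rw [e1, e2, Complex.add_re, Complex.re_ofReal_mul, Complex.ofReal_re]
    by_cases hz1 : z 1 = 0
    · have hz00 : z 0 ≠ 0 := by
        intro hc; apply hz0; apply ext2 <;> simp [hc, hz1]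
      have : 0 < ‖z 0‖ := norm_pos_iff.mpr hz00
      have h7 : 0 < ‖z 0‖ ^ 2 * ((1 - z 0) / (1 + z 0)).re := by positivity
      have h8 : 0 ≤ ‖z 1‖ ^ 2 := by positivity
      linarith
    · have : 0 < ‖z 1‖ := norm_pos_iff.mpr hz1
      have h7 : 0 ≤ ‖z 0‖ ^ 2 * ((1 - z 0) / (1 + z 0)).re := by positivity
      have h8 : 0 < ‖z 1‖ ^ 2 := by positivity
      linarith
  · intro z hz
    unfold vv
    apply ext2
    · simp [kap_zero (coord_lt hz 0)]
    · simp
  · intro z hz t ht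
    unfold vv
    rw [mem_ball_iff] at *
    simp only [mk_zero, mk_one]
    have h1 := kap_norm_le (ζ := z 0) (by
      have := norm_nonneg (z 1); have := norm_nonneg (z 0); nlinarith) ht
    have h2 : ‖((Real.exp (-t) : ℝ) : ℂ) * z 1‖ ≤ ‖z 1‖ := by
      rw [norm_mul, Complex.norm_real, Real.norm_of_nonneg (Real.exp_pos _).le]
      have : Real.exp (-t) ≤ 1 := Real.exp_le_one_iff.mpr (by linarith)
      nlinarith [norm_nonneg (z 1)]
    have h3 := pow_le_pow_left₀ (norm_nonneg _) h1 2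
    have h4 := pow_le_pow_left₀ (norm_nonneg _) h2 2
    linarith
  · intro z hz t ht
    unfold vv hh
    simp only [mk_zero, mk_one]
    have h1 := kap_deriv (coord_lt hz 0) ht
    have h2 : HasDerivAt (fun t : ℝ => Real.exp (-t)) (-Real.exp (-t)) t := by
      simpa using ((hasDerivAt_id t).neg.exp)
    have h3 : HasDerivAt (fun t : ℝ => ((Real.exp (-t) : ℝ) : ℂ) * z 1)
        (((-Real.exp (-t) : ℝ) : ℂ) * z 1) t := h2.ofReal_comp.mul_const _
    have h4 := mk_hasDerivAt h1 h3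
    have e : -mk (kap (z 0) t * (1 - kap (z 0) t) / (1 + kap (z 0) t))
        (((Real.exp (-t) : ℝ) : ℂ) * z 1)
        = mk (-(kap (z 0) t * (1 - kap (z 0) t) / (1 + kap (z 0) t)))
          (((-Real.exp (-t) : ℝ) : ℂ) * z 1) := by
      apply ext2
      · simp
      · simp
    rw [e]
    exact h4
  · intro z hz
    unfold vv ff
    have h1 := kap_tendsto (coord_lt hz 0)
    have e : (fun t : ℝ => ((Real.exp t : ℝ) : ℂ) • mk (kap (z 0) t) (((Real.exp (-t) : ℝ) : ℂ) * z 1))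
        = fun t : ℝ => (((Real.exp t : ℝ) : ℂ) * kap (z 0) t) • EuclideanSpace.single 0 (1 : ℂ)
          + z 1 • EuclideanSpace.single 1 (1 : ℂ) := by
      funext t
      have h3 : ((Real.exp t : ℝ) : ℂ) * (Real.exp (-t) : ℂ) = 1 := by
        rw [← Complex.ofReal_mul, ← Real.exp_add]; simp
      unfold mk
      rw [smul_add, smul_smul, smul_smul, ← mul_assoc, h3, one_mul]
    rw [e]
    unfold mk
    exact (h1.smul_const _).add_const _

/-! ### the upper bound for the functional -/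

noncomputable def z0 : E2 := mk (1 / 2) 0

lemma z0_norm : ‖z0‖ = 1 / 2 := by
  have h := norm_sq_eq z0
  unfold z0 at *
  simp only [mk_zero, mk_one] at h
  have h2 : ‖mk (1 / 2) 0‖ ^ 2 = (1 / 2) ^ 2 := by rw [h]; simp
  exact (pow_left_inj₀ (norm_nonneg _) (by norm_num) (by norm_num)).mp h2

lemma upper (g : E2 → E2) (hg : IsS0 g) : (g z0 0).re ≤ 2 := by
  obtain ⟨h, v, h1, -, h3⟩ := hg
  have hz : z0 ∈ Metric.ball (0 : E2) 1 := by
    rw [mem_ball_zero_iff, z0_norm]; norm_num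
  obtain ⟨h4, h5⟩ := h3 z0 hz
  have hb : ∀ t, 0 ≤ t → ‖((Real.exp t : ℝ) : ℂ) • v z0 t‖ ≤ 2 := by
    intro t ht
    have := growth h (v z0) z0 h1 h4 t ht
    rw [z0_norm] at this
    rw [norm_smul, Complex.norm_real, Real.norm_of_nonneg (Real.exp_pos _).le]
    norm_num at this
    exact this
  have hle : ‖g z0‖ ≤ 2 := by
    apply le_of_tendsto h5.norm
    filter_upwards [eventually_ge_atTop 0] with t ht
    exact hb t ht
  calc (g z0 0).re ≤ ‖g z0 0‖ := Complex.re_le_norm _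
    _ ≤ ‖g z0‖ := coord_le _ _
    _ ≤ 2 := hle

lemma ff_val : ff z0 0 = 2 := by
  unfold ff z0 k
  simp only [mk_zero]
  norm_num

/-! ### the chains -/

noncomputable def tau (δ t : ℝ) : ℝ := δ * (1 - Real.exp (-t))

noncomputable def FF (δ : ℝ) (z : E2) (t : ℝ) : E2 :=
  mk (((Real.exp t : ℝ) : ℂ) * k (z 0)) (((Real.exp t : ℝ) : ℂ) * (z 1 / (1 - (tau δ t : ℂ) * z 1)))

lemma tau_nonneg {δ t : ℝ} (hδ : 0 ≤ δ) (ht : 0 ≤ t) : 0 ≤ tau δ t := by
  unfold tau
  have : Real.exp (-t) ≤ 1 := Real.exp_le_one_iff.mpr (by linarith)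
  apply mul_nonneg hδ; linarith

lemma tau_le {δ t : ℝ} (hδ : 0 ≤ δ) (hδ1 : δ ≤ 1 / 4) (ht : 0 ≤ t) : tau δ t ≤ 1 / 4 := by
  unfold tau
  have : Real.exp (-t) ≤ 1 := Real.exp_le_one_iff.mpr (by linarith)
  have h2 : 0 < Real.exp (-t) := Real.exp_pos _
  nlinarith

lemma tau_ne {δ t : ℝ} (hδ : 0 ≤ δ) (hδ1 : δ ≤ 1 / 4) (ht : 0 ≤ t) {w : ℂ} (hw : ‖w‖ < 1) :
    1 - (tau δ t : ℂ) * w ≠ 0 := by
  apply one_sub_ne
  rw [norm_mul, Complex.norm_real, Real.norm_of_nonneg (tau_nonneg hδ ht)]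
  have := tau_le hδ hδ1 ht
  have := tau_nonneg hδ ht
  nlinarith [norm_nonneg w]

lemma tau_lower {δ t : ℝ} (hδ : 0 ≤ δ) (hδ1 : δ ≤ 1 / 4) (ht : 0 ≤ t) {w : ℂ} (hw : ‖w‖ < 1) :
    3 / 4 ≤ ‖1 - (tau δ t : ℂ) * w‖ := by
  have h1 : ‖(tau δ t : ℂ) * w‖ ≤ 1 / 4 := by
    rw [norm_mul, Complex.norm_real, Real.norm_of_nonneg (tau_nonneg hδ ht)]
    have := tau_le hδ hδ1 ht
    have := tau_nonneg hδ ht
    nlinarith [norm_nonneg w]
  have h2 := norm_sub_norm_le (1 : ℂ) ((tau δ t : ℂ) * w)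
  rw [norm_one] at h2
  linarith

lemma FF_isNLC (δ : ℝ) (hδ : 0 ≤ δ) (hδ1 : δ ≤ 1 / 4) : IsNLC (FF δ) := by
  refine ⟨fun t ht => ⟨?_, ?_, ?_, ?_⟩, ?_, ?_⟩
  · -- differentiable
    unfold FF k
    apply mk_differentiableOn
    · apply coord_comp 0 (fun ζ => ((Real.exp t : ℝ) : ℂ) * (ζ / (1 - ζ) ^ 2))
      intro ζ hζ
      apply DifferentiableAt.const_mul
      exact (differentiableAt_id).fun_div (by fun_prop) (pow_ne_zero 2 (one_sub_ne hζ))
    · apply coord_comp 1 (fun ζ => ((Real.exp t : ℝ) : ℂ) * (ζ / (1 - (tau δ t : ℂ) * ζ)))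
      intro ζ hζ
      apply DifferentiableAt.const_mul
      exact (differentiableAt_id).fun_div (by fun_prop) (tau_ne hδ hδ1 ht hζ)
  · -- injective
    intro z hz w hw hzw
    simp only [FF] at hzw
    have hne : ((Real.exp t : ℝ) : ℂ) ≠ 0 := by exact_mod_cast (Real.exp_pos t).ne'
    have e0 := congrArg (fun x : E2 => x 0) hzw
    have e1 := congrArg (fun x : E2 => x 1) hzw
    simp only [mk_zero, mk_one] at e0 e1
    have e0' := mul_left_cancel₀ hne e0
    have e1' := mul_left_cancel₀ hne e1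
    apply ext2
    · exact k_inj (coord_lt hz 0) (coord_lt hw 0) e0'
    · have a1 := tau_ne hδ hδ1 ht (coord_lt hz 1)
      have a2 := tau_ne hδ hδ1 ht (coord_lt hw 1)
      rw [div_eq_div_iff a1 a2] at e1'
      linear_combination e1'
  · unfold FF k; apply ext2 <;> simp
  · -- derivative
    have h1 : HasDerivAt (fun ζ : ℂ => ((Real.exp t : ℝ) : ℂ) * k ζ) ((Real.exp t : ℝ) : ℂ)
        ((0 : E2) 0) := by
      unfold k
      have h3 : HasDerivAt (fun ζ : ℂ => (1 - ζ) ^ 2) (2 * (1 - 0) ^ 1 * (-1)) 0 := by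
        simpa using ((hasDerivAt_id' (0 : ℂ)).const_sub 1).fun_pow 2
      have h4 := ((hasDerivAt_id' (0 : ℂ)).fun_div h3 (by norm_num)).const_mul ((Real.exp t : ℝ) : ℂ)
      simpa using h4
    have h2 : HasDerivAt (fun ζ : ℂ => ((Real.exp t : ℝ) : ℂ) * (ζ / (1 - (tau δ t : ℂ) * ζ)))
        ((Real.exp t : ℝ) : ℂ) ((0 : E2) 1) := by
      have h3 : HasDerivAt (fun ζ : ℂ => 1 - (tau δ t : ℂ) * ζ) (-((tau δ t : ℂ) * 1)) 0 :=
        ((hasDerivAt_id' (0 : ℂ)).const_mul _).const_sub 1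
      have h4 := ((hasDerivAt_id' (0 : ℂ)).fun_div h3 (by norm_num)).const_mul ((Real.exp t : ℝ) : ℂ)
      simpa using h4
    have h5 := h1.comp_hasFDerivAt (0 : E2) (coord_hasFDerivAt 0 0)
    have h6 := h2.comp_hasFDerivAt (0 : E2) (coord_hasFDerivAt 1 0)
    have h7 := mk_hasFDerivAt h5 h6
    have e : (((Real.exp t : ℝ) : ℂ) • pr 0).smulRight (EuclideanSpace.single 0 (1 : ℂ))
        + (((Real.exp t : ℝ) : ℂ) • pr 1).smulRight (EuclideanSpace.single 1 (1 : ℂ))
        = ((Real.exp t : ℝ) : ℂ) • ContinuousLinearMap.id ℂ E2 := by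
      rw [← id_eq]
      ext z i
      simp
    rw [e] at h7
    exact h7.fderiv
  · -- subordination
    intro s t hs hst
    have ht : 0 ≤ t := hs.trans hst
    rintro _ ⟨z, hz, rfl⟩
    set lam : ℝ := Real.exp (s - t) with hlam
    have hl0 : 0 < lam := Real.exp_pos _
    have hl1 : lam ≤ 1 := Real.exp_le_one_iff.mpr (by linarith)
    have hst' : 0 ≤ t - s := by linarith
    set X : ℝ := lam * tau δ t - tau δ s with hX
    have hes : Real.exp (-t) = lam * Real.exp (-s) := by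
      rw [hlam, ← Real.exp_add]; congr 1; ring
    have hes1 : Real.exp (-s) ≤ 1 := Real.exp_le_one_iff.mpr (by linarith)
    have hes0 : 0 < Real.exp (-s) := Real.exp_pos _
    have hXb : |X| ≤ 1 - lam := by
      have : X = (1 - lam) * (δ * (Real.exp (-s) * (1 + lam) - 1)) := by
        rw [hX]; unfold tau; rw [hes]; ring
      rw [this, abs_mul, abs_of_nonneg (by linarith : 0 ≤ 1 - lam)]
      have h2 : |δ * (Real.exp (-s) * (1 + lam) - 1)| ≤ 1 := by
        rw [abs_le]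
        have h3 : 0 ≤ Real.exp (-s) * (1 + lam) := by positivity
        have h4 : Real.exp (-s) * (1 + lam) ≤ 2 := by nlinarith
        constructor <;> nlinarith
      have h5 : 0 ≤ 1 - lam := by linarith
      nlinarith
    set w : ℂ := (lam : ℂ) * z 1 / (1 + (X : ℂ) * z 1) with hw
    have hz1 := coord_lt hz 1
    have hden : lam ≤ ‖1 + (X : ℂ) * z 1‖ := by
      have h1 : ‖(X : ℂ) * z 1‖ ≤ 1 - lam := by
        rw [norm_mul, Complex.norm_real, Real.norm_eq_abs]
        nlinarith [norm_nonneg (z 1), abs_nonneg X]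
      have h2 := norm_sub_norm_le (1 : ℂ) (-((X : ℂ) * z 1))
      rw [norm_one, norm_neg, sub_neg_eq_add] at h2
      linarith
    have hden0 : 1 + (X : ℂ) * z 1 ≠ 0 := by
      intro hc; rw [hc, norm_zero] at hden; linarith
    have hwn : ‖w‖ ≤ ‖z 1‖ := by
      rw [hw, norm_div, norm_mul, Complex.norm_real, Real.norm_of_nonneg hl0.le,
        div_le_iff₀ (by linarith)]
      nlinarith [norm_nonneg (z 1)]
    have hkn := kap_norm_le (coord_lt hz 0) hst'
    refine ⟨mk (kap (z 0) (t - s)) w, ?_, ?_⟩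
    · rw [mem_ball_iff] at *
      simp only [mk_zero, mk_one]
      have h3 := pow_le_pow_left₀ (norm_nonneg _) hkn 2
      have h4 := pow_le_pow_left₀ (norm_nonneg _) hwn 2
      linarith
    · simp only [FF, mk_zero, mk_one]
      have hlc : ((Real.exp t : ℝ) : ℂ) * (lam : ℂ) = ((Real.exp s : ℝ) : ℂ) := by
        rw [← Complex.ofReal_mul, hlam, ← Real.exp_add]; congr 2; ring
      apply ext2
      · simp only [mk_zero]
        rw [k_kap (coord_lt hz 0) hst']
        have : -(t - s) = s - t := by ring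
        rw [this, ← hlam, ← mul_assoc, hlc]
      · simp only [mk_one]
        have hw1 : ‖w‖ < 1 := lt_of_le_of_lt hwn hz1
        have a1 := tau_ne hδ hδ1 ht hw1
        have a2 := tau_ne hδ hδ1 hs hz1
        have e1 : 1 - (tau δ t : ℂ) * w = (1 - (tau δ s : ℂ) * z 1) / (1 + (X : ℂ) * z 1) := by
          rw [eq_div_iff hden0]
          have hX2 : (X : ℂ) = (lam : ℂ) * (tau δ t : ℂ) - (tau δ s : ℂ) := by
            rw [hX]; push_cast; ring
          have hwd : w * (1 + (X : ℂ) * z 1) = (lam : ℂ) * z 1 := by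
            rw [hw]; exact div_mul_cancel₀ _ hden0
          linear_combination (-(tau δ t : ℂ)) * hwd + z 1 * hX2
        have e2 : w / (1 - (tau δ t : ℂ) * w) = (lam : ℂ) * z 1 / (1 - (tau δ s : ℂ) * z 1) := by
          rw [e1]
          conv_lhs => rw [hw]
          rw [div_div_div_cancel_right₀ hden0]
        rw [e2, ← hlc]
        ring
  · -- normality
    intro r hr
    refine ⟨1 / (1 - r) ^ 2 + 4 / 3, ?_⟩
    intro t ht z hz
    have hzb : z ∈ Metric.ball (0 : E2) 1 := by rw [mem_ball_zero_iff]; linarith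
    have he : 0 < Real.exp t := Real.exp_pos t
    have h0 : ‖z 0‖ ≤ r := (coord_le z 0).trans hz
    have h1 : ‖z 1‖ ≤ 1 := (coord_lt hzb 1).le
    have hk : ‖k (z 0)‖ ≤ 1 / (1 - r) ^ 2 := by
      unfold k
      rw [norm_div, norm_pow]
      have h2 : 1 - r ≤ ‖1 - z 0‖ := by
        have h2 := norm_sub_norm_le (1 : ℂ) (z 0)
        rw [norm_one] at h2
        linarith
      have h3 : (1 - r) ^ 2 ≤ ‖1 - z 0‖ ^ 2 := pow_le_pow_left₀ (by linarith) h2 2
      have h4 : 0 < (1 - r) ^ 2 := by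
        have : 0 < 1 - r := by linarith
        positivity
      exact div_le_div₀ (by norm_num) (by linarith) h4 h3
    have hm : ‖z 1 / (1 - (tau δ t : ℂ) * z 1)‖ ≤ 4 / 3 := by
      rw [norm_div]
      have h2 := tau_lower hδ hδ1 ht (coord_lt hzb 1)
      rw [div_le_iff₀ (by linarith)]
      linarith
    unfold FF mk
    have hs0 : ‖(EuclideanSpace.single 0 (1 : ℂ) : E2)‖ = 1 := by simp
    have hs1 : ‖(EuclideanSpace.single 1 (1 : ℂ) : E2)‖ = 1 := by simp
    calc _ ≤ ‖(((Real.exp t : ℝ) : ℂ) * k (z 0)) • (EuclideanSpace.single 0 (1 : ℂ) : E2)‖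
          + ‖(((Real.exp t : ℝ) : ℂ) * (z 1 / (1 - (tau δ t : ℂ) * z 1))) •
            (EuclideanSpace.single 1 (1 : ℂ) : E2)‖ := norm_add_le _ _
      _ = Real.exp t * ‖k (z 0)‖ + Real.exp t * ‖z 1 / (1 - (tau δ t : ℂ) * z 1)‖ := by
          rw [norm_smul, norm_smul, hs0, hs1, norm_mul, norm_mul, Complex.norm_real,
            Real.norm_of_nonneg he.le]
          ring
      _ ≤ Real.exp t * (1 / (1 - r) ^ 2) + Real.exp t * (4 / 3) := by
          gcongr
      _ = _ := by ring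

end LoewB2
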