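import Mathlib

set_option autoImplicit false
open Complex Filter Topology

namespace Pool.Agent.Helper6.Prim

noncomputable section

def ζ (z : ℂ) : ℂ := -Complex.log (1 - z)
def h (w : ℂ) : ℂ := (w + 40) * (Complex.exp (I*w/2) - 1)
def k (w : ℂ) : ℂ := 1 + I*(w+40)/2 - Complex.exp (-(I*w/2))
def f (z : ℂ) : ℂ := Complex.exp (ζ z + I * ζ z/2) * k (ζ z)
def F (z : ℂ) : ℂ := h (ζ z)

def Ω : Set ℂ := {w | -1 < w.re ∧ |w.im| < Real.pi/2}

lemma Ω_convex : Convex ℝ Ω := by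
  have e : Ω = {w : ℂ | -1 < w.re} ∩ ({w : ℂ | w.im < Real.pi/2} ∩ {w : ℂ | -(Real.pi/2) < w.im}) := by
    ext w
    simp only [Ω, Set.mem_ofPred_eq, Set.mem_inter_iff, abs_lt]
    tauto
  rw [e]
  exact (convex_halfSpace_re_gt _).inter ((convex_halfSpace_im_lt _).inter (convex_halfSpace_im_gt _))

lemma one_sub_re {z : ℂ} (hz : z ∈ Metric.ball (0:ℂ) 1) : 0 < (1 - z).re := by
  rw [Metric.mem_ball, dist_zero_right] at hz
  have := Complex.re_le_norm z
  rw [Complex.sub_re, Complex.one_re]; linarith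

lemma one_sub_ne {z : ℂ} (hz : z ∈ Metric.ball (0:ℂ) 1) : 1 - z ≠ 0 := by
  intro h
  have := one_sub_re hz
  rw [h] at this; simp at this

lemma ζ_mem {z : ℂ} (hz : z ∈ Metric.ball (0:ℂ) 1) : ζ z ∈ Ω := by
  have h1 := one_sub_re hz
  have h0 := one_sub_ne hz
  have hz' : ‖z‖ < 1 := by rwa [Metric.mem_ball, dist_zero_right] at hz
  refine ⟨?_, ?_⟩
  · unfold ζ
    rw [Complex.neg_re, Complex.log_re]
    have h2 : ‖1 - z‖ < 2 := by
      have := norm_sub_le (1:ℂ) z
      rw [norm_one] at this; linarith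
    have h3 : Real.log ‖1 - z‖ < Real.log 2 := Real.log_lt_log (norm_pos_iff.mpr h0) h2
    have := Real.log_two_lt_d9
    linarith
  · unfold ζ
    rw [Complex.neg_im, Complex.log_im, abs_neg]
    exact Complex.abs_arg_lt_pi_div_two_iff.mpr (Or.inl h1)

lemma exp_neg_ζ {z : ℂ} (hz : z ∈ Metric.ball (0:ℂ) 1) : Complex.exp (-ζ z) = 1 - z := by
  unfold ζ
  rw [neg_neg, Complex.exp_log (one_sub_ne hz)]

lemma ζ_deriv {z : ℂ} (hz : z ∈ Metric.ball (0:ℂ) 1) : HasDerivAt ζ (Complex.exp (ζ z)) z := by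
  have h1 : HasDerivAt (fun z : ℂ => 1 - z) (-1) z := by
    simpa using (hasDerivAt_id z).const_sub 1
  have h2 := (h1.clog (Or.inl (one_sub_re hz))).neg
  have e : Complex.exp (ζ z) = -(-1 / (1 - z)) := by
    have h3 := exp_neg_ζ hz
    rw [← h3, Complex.exp_neg]
    have := Complex.exp_ne_zero (ζ z)
    field_simp
  rw [e]
  exact h2

lemma normE {w : ℂ} (hw : w ∈ Ω) : ‖Complex.exp (-(I*w/2))‖ ≤ 3 := by
  rw [Complex.norm_exp]
  have e : (-(I*w/2)).re = w.im/2 := by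
    simp
    ring
  rw [e]
  have h1 := (abs_lt.mp hw.2).2
  have h2 := Real.pi_lt_d2
  have h3 := Real.exp_one_lt_d9
  have h4 : Real.exp (w.im/2) ≤ Real.exp 1 := Real.exp_le_exp.mpr (by linarith)
  linarith

lemma k_im {w : ℂ} (hw : w ∈ Ω) : 33/2 ≤ (k w).im := by
  have h1 := normE hw
  have h2 := Complex.abs_im_le_norm (Complex.exp (-(I*w/2)))
  have h3 := (abs_le.mp (h2.trans h1)).2
  have h4 := hw.1
  have e : (k w).im = (w.re + 40)/2 - (Complex.exp (-(I*w/2))).im := by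
    unfold k
    rw [Complex.sub_im, Complex.add_im]
    simp
  rw [e]; linarith

lemma k_norm {w : ℂ} (hw : w ∈ Ω) : 33/2 ≤ ‖k w‖ :=
  (k_im hw).trans ((le_abs_self _).trans (Complex.abs_im_le_norm _))

lemma k_deriv (w : ℂ) : HasDerivAt k (I/2 + (I/2) * Complex.exp (-(I*w/2))) w := by
  have h1 : HasDerivAt (fun w : ℂ => -(I*w/2)) (-(I/2)) w := by
    have := (((hasDerivAt_id w).const_mul I).div_const 2).fun_neg
    simpa using this
  have h2 := h1.cexp
  have h3 : HasDerivAt (fun w : ℂ => 1 + I*(w+40)/2) (I/2) w := by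
    have := ((((hasDerivAt_id w).add_const 40).const_mul I).div_const 2).const_add 1
    simpa using this
  have h4 := h3.fun_sub h2
  exact h4.congr_deriv (by ring)

/-- the logarithm of `f`, minus the identity part -/
def φ (w : ℂ) : ℂ := I*w/2 + Complex.log (k w)

lemma φ_lip {x y : ℂ} (hx : x ∈ Ω) (hy : y ∈ Ω) : ‖φ y - φ x‖ ≤ (5/8) * ‖y - x‖ := by
  refine Ω_convex.norm_image_sub_le_of_norm_hasDerivWithin_le
    (f' := fun w => I/2 + (I/2 + (I/2) * Complex.exp (-(I*w/2))) / k w) ?_ ?_ hx hy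
  · intro w hw
    have h1 : HasDerivAt (fun w : ℂ => I*w/2) (I/2) w := by
      have := ((hasDerivAt_id w).const_mul I).div_const 2
      simpa using this
    have h2 : k w ∈ slitPlane := Or.inr (by have := k_im hw; linarith)
    exact (h1.add ((k_deriv w).clog h2)).hasDerivWithinAt
  · intro w hw
    have h1 := k_norm hw
    have h2 := normE hw
    have hI : ‖I/2‖ = 1/2 := by rw [norm_div, Complex.norm_I]; norm_num
    have h3 : ‖I/2 + (I/2) * Complex.exp (-(I*w/2))‖ ≤ 2 := by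
      calc ‖I/2 + (I/2) * Complex.exp (-(I*w/2))‖ ≤ ‖I/2‖ + ‖(I/2) * Complex.exp (-(I*w/2))‖ := norm_add_le _ _
        _ ≤ 1/2 + 1/2*3 := by rw [norm_mul, hI]; gcongr
        _ = 2 := by norm_num
    calc ‖I/2 + (I/2 + (I/2) * Complex.exp (-(I*w/2))) / k w‖
        ≤ ‖I/2‖ + ‖(I/2 + (I/2) * Complex.exp (-(I*w/2))) / k w‖ := norm_add_le _ _
      _ ≤ 1/2 + 2/(33/2) := by
          rw [hI, norm_div]
          gcongr
      _ ≤ 5/8 := by norm_num

lemma f_eq {z : ℂ} (hz : z ∈ Metric.ball (0:ℂ) 1) : f z = Complex.exp (ζ z + φ (ζ z)) := by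
  have h1 := k_norm (ζ_mem hz)
  have h2 : k (ζ z) ≠ 0 := by
    intro h0; rw [h0, norm_zero] at h1; linarith
  unfold f φ
  rw [← add_assoc, Complex.exp_add (ζ z + I * ζ z/2), Complex.exp_log h2]

lemma f_inj : Set.InjOn f (Metric.ball (0:ℂ) 1) := by
  intro x hx y hy hxy
  rw [f_eq hx, f_eq hy, Complex.exp_eq_exp_iff_exists_int] at hxy
  obtain ⟨n, hn⟩ := hxy
  have hl := φ_lip (ζ_mem hy) (ζ_mem hx)
  have hmx := ζ_mem hx
  have hmy := ζ_mem hy
  have hkey : ζ x = ζ y := by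
    have e : φ (ζ x) - φ (ζ y) = n * (2*Real.pi*I) - (ζ x - ζ y) := by linear_combination hn
    rw [e] at hl
    rcases eq_or_ne n 0 with h0 | h0
    · rw [h0] at hl
      have e2 : ‖((0:ℤ):ℂ) * (2*Real.pi*I) - (ζ x - ζ y)‖ = ‖ζ x - ζ y‖ := by
        rw [Int.cast_zero, zero_mul, zero_sub, norm_neg]
      rw [e2] at hl
      have : ‖ζ x - ζ y‖ = 0 := le_antisymm (by linarith) (norm_nonneg _)
      exact sub_eq_zero.mp (norm_eq_zero.mp this)
    · exfalso
      set Δ := ζ x - ζ y with hΔ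
      have him : |Δ.im| < Real.pi := by
        rw [hΔ, Complex.sub_im]
        have h1 := abs_lt.mp hmx.2
        have h2 := abs_lt.mp hmy.2
        rw [abs_lt]; constructor <;> linarith [h1.1, h1.2, h2.1, h2.2]
      have hsq : ‖(n:ℂ) * (2*Real.pi*I) - Δ‖^2 ≤ ((5/8) * ‖Δ‖)^2 := by
        gcongr
      rw [mul_pow, ← Complex.normSq_eq_norm_sq, ← Complex.normSq_eq_norm_sq, Complex.normSq_apply,
        Complex.normSq_apply] at hsq
      have er : ((n:ℂ) * (2*Real.pi*I) - Δ).re = -Δ.re := by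
        rw [Complex.sub_re]
        have : ((n:ℂ) * (2*Real.pi*I)) = ((n * (2*Real.pi) : ℝ) : ℂ) * I := by push_cast; ring
        rw [this, Complex.re_ofReal_mul, Complex.I_re]; ring
      have ei : ((n:ℂ) * (2*Real.pi*I) - Δ).im = n * (2*Real.pi) - Δ.im := by
        rw [Complex.sub_im]
        have : ((n:ℂ) * (2*Real.pi*I)) = ((n * (2*Real.pi) : ℝ) : ℂ) * I := by push_cast; ring
        rw [this, Complex.im_ofReal_mul, Complex.I_im]; ring
      rw [er, ei] at hsq
      have hn1 : (1:ℝ) ≤ |(n:ℝ)| := by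
        have := Int.one_le_abs h0
        exact_mod_cast this
      have hpi := Real.pi_pos
      have h5 : Real.pi ≤ |n * (2*Real.pi) - Δ.im| := by
        have h6 : |(n:ℝ) * (2*Real.pi)| ≤ |n * (2*Real.pi) - Δ.im| + |Δ.im| := by
          have := abs_add_le (n * (2*Real.pi) - Δ.im) Δ.im
          rwa [sub_add_cancel] at this
        rw [abs_mul, abs_of_pos (by positivity : (0:ℝ) < 2*Real.pi)] at h6
        nlinarith
      have h7 : Real.pi^2 ≤ (n * (2*Real.pi) - Δ.im)^2 := by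
        rw [← sq_abs (n * (2*Real.pi) - Δ.im)]; gcongr
      have h8 : Δ.im^2 < Real.pi^2 := by
        rw [← sq_abs Δ.im]
        exact pow_lt_pow_left₀ him (abs_nonneg _) (by norm_num)
      nlinarith [sq_nonneg Δ.re]
  have h1 := exp_neg_ζ hx
  have h2 := exp_neg_ζ hy
  rw [hkey, h2] at h1
  linear_combination h1

lemma F_deriv {z : ℂ} (hz : z ∈ Metric.ball (0:ℂ) 1) : HasDerivAt F (f z) z := by
  have h1 := ζ_deriv hz
  have hh : ∀ w : ℂ, HasDerivAt h (Complex.exp (I*w/2) * k w) w := by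
    intro w
    have h2 : HasDerivAt (fun w : ℂ => I*w/2) (I/2) w := by
      have := ((hasDerivAt_id w).const_mul I).div_const 2
      simpa using this
    have h3 := ((hasDerivAt_id' w).add_const 40).fun_mul (h2.cexp.sub_const 1)
    refine h3.congr_deriv ?_
    have e : Complex.exp (I*w/2) * Complex.exp (-(I*w/2)) = 1 := by
      rw [← Complex.exp_add]; simp
    simp only [k]
    linear_combination e
  have h4 := (hh (ζ z)).comp z h1
  have e : f z = Complex.exp (I*ζ z/2) * k (ζ z) * Complex.exp (ζ z) := by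
    unfold f; rw [Complex.exp_add]; ring
  rw [e]
  exact h4

lemma F_zero : F 0 = 0 := by
  unfold F h ζ
  simp

lemma f_diff : AnalyticOnNhd ℂ f (Metric.ball (0:ℂ) 1) := by
  apply DifferentiableOn.analyticOnNhd _ Metric.isOpen_ball
  intro z hz
  have h1 := (ζ_deriv hz).differentiableAt
  have h2 : DifferentiableAt ℂ (fun z => k (ζ z)) z := ((k_deriv (ζ z)).differentiableAt).comp z h1
  unfold f
  exact (((h1.add ((h1.const_mul I).div_const 2)).cexp).mul h2).differentiableWithinAt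

lemma unbounded (C : ℝ) : ∃ z ∈ Metric.ball (0:ℂ) 1, C < (1 - ‖z‖ ^ 2) * ‖f z‖ / (1 + ‖F z‖ ^ 2) := by
  obtain ⟨n, hn⟩ := exists_nat_gt C
  set t : ℝ := 4*Real.pi*(n:ℝ) with ht
  have hpi := Real.pi_gt_three
  have ht0 : 0 ≤ t := by positivity
  set e := Real.exp (-t) with he
  have he0 : 0 < e := Real.exp_pos _
  have he1 : e ≤ 1 := Real.exp_le_one_iff.mpr (by linarith)
  have hz : ((1 - e : ℝ) : ℂ) ∈ Metric.ball (0:ℂ) 1 := by
    rw [Metric.mem_ball, dist_zero_right, Complex.norm_real, Real.norm_eq_abs, abs_of_nonneg (by linarith)]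
    linarith
  have hζ : ζ ((1 - e : ℝ) : ℂ) = (t : ℂ) := by
    unfold ζ
    have e1 : (1 : ℂ) - ((1 - e : ℝ) : ℂ) = ((e : ℝ) : ℂ) := by push_cast; ring
    rw [e1, ← Complex.ofReal_log he0.le, he, Real.log_exp]
    push_cast; ring
  have hexp : Complex.exp (I * (t:ℂ) / 2) = 1 := by
    have e2 : I * (t:ℂ) / 2 = (n:ℂ) * (2 * Real.pi * I) := by rw [ht]; push_cast; ring
    rw [e2, Complex.exp_nat_mul_two_pi_mul_I]
  have hF : F ((1 - e : ℝ) : ℂ) = 0 := by
    unfold F h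
    rw [hζ, hexp, sub_self, mul_zero]
  have hk : k (t:ℂ) = ((t + 40)/2 : ℝ) * I := by
    unfold k
    rw [Complex.exp_neg, hexp]; push_cast; ring
  have hf : ‖f ((1 - e : ℝ) : ℂ)‖ = Real.exp t * ((t+40)/2) := by
    unfold f
    rw [hζ, Complex.exp_add, hexp, mul_one, hk, norm_mul, norm_mul, Complex.norm_I, mul_one,
      Complex.norm_real, Real.norm_eq_abs, abs_of_nonneg (by linarith), Complex.norm_exp, Complex.ofReal_re]
  refine ⟨_, hz, ?_⟩
  rw [hF, hf, norm_zero, Complex.norm_real, Real.norm_eq_abs, abs_of_nonneg (by linarith)]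
  have h1 : e * Real.exp t = 1 := by rw [he, ← Real.exp_add]; simp
  have h2 : (1 - (1 - e)^2) * (Real.exp t * ((t+40)/2)) / (1 + 0^2) = (2 - e) * (e * Real.exp t) * ((t+40)/2) := by
    ring
  rw [h2, h1]
  have hn' : (n:ℝ) ≤ (t+40)/2 := by
    rw [ht]
    have : (0:ℝ) ≤ n := Nat.cast_nonneg n
    nlinarith
  nlinarith

end
end Pool.Agent.Helper6.Prim
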