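import Mathlib

/-!
One-dimensional building block: the spiky density `w` and the profile `u1`.
-/

namespace SMP

open MeasureTheory Set Filter Topology

noncomputable def ep (j : ℕ) : ℝ := Real.exp (-((j : ℝ) + 2) ^ 2)

noncomputable def aa (j : ℕ) : ℝ := 1 - (1 / 2 : ℝ) ^ j

noncomputable def kap (j : ℕ) : ℝ := (1 / 2 : ℝ) ^ j / ep j

/-- the j-th thin shell -/
def II (j : ℕ) : Set ℝ := {x | aa j ≤ |x| ∧ |x| ≤ aa j + ep j}

/-- the spiky density -/
noncomputable def w (x : ℝ) : ℝ :=
  (∑' j : ℕ, (II j).indicator (fun _ => ENNReal.ofReal (kap j)) x).toReal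

/-- the profile -/
noncomputable def u1 (x : ℝ) : ℝ := (1 / 2) * ∫ t, w t * max (|t| - |x|) 0

lemma ep_pos (j : ℕ) : 0 < ep j := Real.exp_pos _

lemma exp_one_ge : (2 : ℝ) ≤ Real.exp 1 := by
  have := Real.add_one_le_exp (1 : ℝ); linarith

lemma ep_le (j : ℕ) : ep j ≤ (1 / 2 : ℝ) ^ (j + 2) := by
  have h1 : ep j ≤ Real.exp (-((j + 2 : ℕ) : ℝ)) := by
    unfold ep
    apply Real.exp_le_exp.mpr
    push_cast
    nlinarith [Nat.cast_nonneg (α := ℝ) j]
  have h2 : Real.exp (-((j + 2 : ℕ) : ℝ)) = (Real.exp (-1)) ^ (j + 2) := by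
    rw [← Real.exp_nat_mul]; congr 1; push_cast; ring
  have h3 : Real.exp (-1) ≤ 1 / 2 := by
    rw [Real.exp_neg, ← one_div]
    exact one_div_le_one_div_of_le (by norm_num) exp_one_ge
  rw [h2] at h1
  exact h1.trans (pow_le_pow_left₀ (Real.exp_pos _).le h3 _)

lemma kap_pos (j : ℕ) : 0 < kap j := by
  unfold kap; exact div_pos (by positivity) (ep_pos j)

lemma aa_nonneg (j : ℕ) : 0 ≤ aa j := by
  unfold aa
  have : (1 / 2 : ℝ) ^ j ≤ 1 := pow_le_one₀ (by norm_num) (by norm_num)
  linarith

lemma aa_add_lt (j : ℕ) : aa j + ep j < aa (j + 1) := by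
  have h := ep_le j
  have hp : (0 : ℝ) < (1 / 2 : ℝ) ^ j := by positivity
  unfold aa
  rw [pow_succ, pow_succ] at h
  rw [pow_succ]
  nlinarith

lemma aa_mono : Monotone aa := by
  intro i j hij
  unfold aa
  have : (1 / 2 : ℝ) ^ j ≤ (1 / 2 : ℝ) ^ i :=
    pow_le_pow_of_le_one (by norm_num) (by norm_num) hij
  linarith

lemma aa_lt_one (j : ℕ) : aa j < 1 := by
  unfold aa
  have hp : (0 : ℝ) < (1 / 2 : ℝ) ^ j := by positivity
  linarith

lemma II_abs_lt {j : ℕ} {x : ℝ} (hx : x ∈ II j) : |x| < 1 :=
  lt_of_le_of_lt hx.2 ((aa_add_lt j).trans (aa_lt_one _))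

lemma II_disj {i j : ℕ} {x : ℝ} (hi : x ∈ II i) (hj : x ∈ II j) : i = j := by
  rcases lt_trichotomy i j with h | h | h
  · exfalso
    have h1 : aa (i + 1) ≤ aa j := aa_mono h
    have := hi.2; have := hj.1; have := aa_add_lt i
    linarith
  · exact h
  · exfalso
    have h1 : aa (j + 1) ≤ aa i := aa_mono h
    have := hj.2; have := hi.1; have := aa_add_lt j
    linarith

lemma II_meas (j : ℕ) : MeasurableSet (II j) := by
  apply MeasurableSet.inter
  · exact measurableSet_le measurable_const continuous_abs.measurable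
  · exact measurableSet_le continuous_abs.measurable measurable_const

lemma w_on {j : ℕ} {x : ℝ} (hx : x ∈ II j) : w x = kap j := by
  unfold w
  rw [tsum_eq_single j]
  · rw [Set.indicator_of_mem hx, ENNReal.toReal_ofReal (kap_pos j).le]
  · intro i hij
    apply Set.indicator_of_notMem
    intro hi
    exact hij (II_disj hi hx)

lemma w_off {x : ℝ} (hx : ∀ j, x ∉ II j) : w x = 0 := by
  unfold w
  have : (∑' j : ℕ, (II j).indicator (fun _ => ENNReal.ofReal (kap j)) x) = 0 := by
    rw [ENNReal.tsum_eq_zero]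
    intro j
    exact Set.indicator_of_notMem (hx j) _
  rw [this]; rfl

lemma w_nonneg (x : ℝ) : 0 ≤ w x := ENNReal.toReal_nonneg

lemma w_meas : Measurable w := by
  unfold w
  apply ENNReal.measurable_toReal.comp
  apply Measurable.tsum
  intro j
  exact measurable_const.indicator (II_meas j)

lemma w_neg (x : ℝ) : w (-x) = w x := by
  by_cases h : ∃ j, x ∈ II j
  · obtain ⟨j, hj⟩ := h
    have : -x ∈ II j := by
      unfold II at *; simpa using hj
    rw [w_on hj, w_on this]
  · push Not at h
    have : ∀ j, -x ∉ II j := by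
      intro j hj
      apply h j
      unfold II at *; simpa using hj
    rw [w_off h, w_off this]

lemma w_eq_zero_of {x : ℝ} (hx : 1 ≤ |x|) : w x = 0 := by
  apply w_off
  intro j hj
  exact absurd (II_abs_lt hj) (not_lt.mpr hx)

lemma II_vol_le (j : ℕ) : volume (II j) ≤ ENNReal.ofReal (2 * ep j) := by
  have hsub : II j ⊆ Icc (aa j) (aa j + ep j) ∪ Icc (-(aa j + ep j)) (-(aa j)) := by
    intro x hx
    rcases le_total 0 x with h | h
    · left
      unfold II at hx
      simp only [mem_ofPred_eq, abs_of_nonneg h] at hx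
      exact hx
    · right
      unfold II at hx
      simp only [mem_ofPred_eq, abs_of_nonpos h] at hx
      constructor <;> linarith [hx.1, hx.2]
  calc volume (II j) ≤ volume (Icc (aa j) (aa j + ep j)) + volume (Icc (-(aa j + ep j)) (-(aa j))) :=
        (measure_mono hsub).trans (measure_union_le _ _)
    _ = ENNReal.ofReal (2 * ep j) := by
        rw [Real.volume_Icc, Real.volume_Icc, ← ENNReal.ofReal_add]
        · congr 1; ring
        · have := ep_pos j; linarith
        · have := ep_pos j; linarith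

lemma II_vol_ge (j : ℕ) : ENNReal.ofReal (ep j) ≤ volume (II j) := by
  have hsub : Icc (aa j) (aa j + ep j) ⊆ II j := by
    intro x hx
    have h0 : 0 ≤ x := (aa_nonneg j).trans hx.1
    unfold II
    simp only [mem_ofPred_eq, abs_of_nonneg h0]
    exact hx
  calc ENNReal.ofReal (ep j) = volume (Icc (aa j) (aa j + ep j)) := by
        rw [Real.volume_Icc]; congr 1; ring
    _ ≤ _ := measure_mono hsub

/-- integrability criterion -/
lemma integrable_crit (F : ℝ → ℝ) (hF : Measurable F) (hF0 : ∀ x, 0 ≤ F x)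
    (hoff : ∀ x, (∀ j, x ∉ II j) → F x = 0) (K : ℕ → ℝ) (hK : ∀ j, ∀ x ∈ II j, F x ≤ K j)
    (hK0 : ∀ j, 0 ≤ K j)
    (hsum : Summable fun j => K j * ep j) : Integrable F := by
  refine ⟨hF.aestronglyMeasurable, ?_⟩
  rw [hasFiniteIntegral_iff_enorm]
  have h1 : ∀ x, ‖F x‖ₑ = (⋃ j, II j).indicator (fun x => ‖F x‖ₑ) x := by
    intro x
    by_cases hx : x ∈ ⋃ j, II j
    · rw [Set.indicator_of_mem hx]
    · rw [Set.indicator_of_notMem hx]
      have : F x = 0 := by
        apply hoff
        intro j hj
        exact hx (Set.mem_iUnion.mpr ⟨j, hj⟩)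
      simp [this]
  have h2 : ∫⁻ x, ‖F x‖ₑ = ∫⁻ x in ⋃ j, II j, ‖F x‖ₑ := by
    rw [← lintegral_indicator (MeasurableSet.iUnion II_meas)]
    exact lintegral_congr h1
  rw [h2]
  have hs2 : Summable fun j => K j * (2 * ep j) := by
    have := hsum.mul_left 2
    refine this.congr ?_
    intro j; ring
  calc ∫⁻ x in ⋃ j, II j, ‖F x‖ₑ ≤ ∑' j, ∫⁻ x in II j, ‖F x‖ₑ := lintegral_iUnion_le _ _
    _ ≤ ∑' j, ENNReal.ofReal (K j * (2 * ep j)) := by
        apply ENNReal.tsum_le_tsum
        intro j
        calc ∫⁻ x in II j, ‖F x‖ₑ ≤ ∫⁻ _ in II j, ENNReal.ofReal (K j) := by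
              apply setLIntegral_mono' (II_meas j)
              intro x hx
              rw [Real.enorm_eq_ofReal (hF0 x)]
              exact ENNReal.ofReal_le_ofReal (hK j x hx)
          _ = ENNReal.ofReal (K j) * volume (II j) := by
              rw [setLIntegral_const]
          _ ≤ ENNReal.ofReal (K j) * ENNReal.ofReal (2 * ep j) := by
              gcongr; exact II_vol_le j
          _ = _ := by rw [← ENNReal.ofReal_mul (hK0 j)]
    _ < ⊤ := by
        have := hs2.tsum_ofReal_lt_top
        exact this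

lemma w_integrable : Integrable w := by
  apply integrable_crit w w_meas w_nonneg (fun x hx => w_off hx) kap
  · intro j x hx; exact (w_on hx).le
  · intro j; exact (kap_pos j).le
  · have : (fun j => kap j * ep j) = fun j : ℕ => (1 / 2 : ℝ) ^ j := by
      funext j
      unfold kap
      field_simp [(ep_pos j).ne']
    rw [this]
    exact summable_geometric_of_lt_one (by norm_num) (by norm_num)

lemma w_mul_bdd (x t : ℝ) : ‖w t * max (|t| - |x|) 0‖ ≤ w t := by
  by_cases ht : |t| < 1
  · rw [Real.norm_eq_abs, abs_mul, abs_of_nonneg (w_nonneg t)]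
    have h1 : |max (|t| - |x|) 0| ≤ 1 := by
      rw [abs_of_nonneg (le_max_right _ _)]
      apply max_le _ (by norm_num)
      have := abs_nonneg x
      linarith
    calc w t * |max (|t| - |x|) 0| ≤ w t * 1 := mul_le_mul_of_nonneg_left h1 (w_nonneg t)
      _ = w t := mul_one _
  · rw [w_eq_zero_of (not_lt.mp ht)]; simp

lemma tent_integrable (x : ℝ) : Integrable (fun t => w t * max (|t| - |x|) 0) := by
  apply w_integrable.mono' _ (Eventually.of_forall (w_mul_bdd x))
  apply Measurable.aestronglyMeasurable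
  apply w_meas.mul
  exact (((continuous_abs.sub continuous_const)).max continuous_const).measurable

lemma u1_cont : Continuous u1 := by
  unfold u1
  apply Continuous.mul continuous_const
  apply continuous_of_dominated (F := fun x t => w t * max (|t| - |x|) 0) (bound := w)
  · intro x; exact (tent_integrable x).aestronglyMeasurable
  · intro x; exact Eventually.of_forall (w_mul_bdd x)
  · exact w_integrable
  · apply Eventually.of_forall
    intro t
    exact continuous_const.mul ((continuous_const.sub continuous_abs).max continuous_const)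

lemma u1_nonneg (x : ℝ) : 0 ≤ u1 x := by
  unfold u1
  apply mul_nonneg (by norm_num)
  apply integral_nonneg
  intro t
  exact mul_nonneg (w_nonneg t) (le_max_right _ _)

lemma u1_zero {x : ℝ} (hx : 1 ≤ |x|) : u1 x = 0 := by
  unfold u1
  have : (fun t => w t * max (|t| - |x|) 0) = fun _ => 0 := by
    funext t
    by_cases ht : |t| < 1
    · rw [max_eq_right (by linarith)]; simp
    · rw [w_eq_zero_of (not_lt.mp ht)]; simp
  rw [this]; simp

lemma u1_lower {j : ℕ} {x : ℝ} (hx : |x| ≤ aa j + ep j) : (1 / 2 : ℝ) ^ (2 * j + 4) ≤ u1 x := by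
  have hmass : (1 / 2 : ℝ) ^ (j + 1) ≤ kap (j + 1) * (volume (II (j + 1))).toReal := by
    have h1 : ep (j + 1) ≤ (volume (II (j + 1))).toReal := by
      have h2 := II_vol_ge (j + 1)
      have h3 : volume (II (j + 1)) ≠ ⊤ := ne_top_of_le_ne_top ENNReal.ofReal_ne_top (II_vol_le _)
      exact (ENNReal.ofReal_le_iff_le_toReal h3).mp h2
    calc (1 / 2 : ℝ) ^ (j + 1) = kap (j + 1) * ep (j + 1) := by
          unfold kap; field_simp [(ep_pos (j + 1)).ne']
      _ ≤ _ := mul_le_mul_of_nonneg_left h1 (kap_pos _).le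
  have hgap : (1 / 2 : ℝ) ^ (j + 2) ≤ aa (j + 1) - |x| := by
    have h := ep_le j
    have hp : (0 : ℝ) < (1 / 2 : ℝ) ^ j := by positivity
    unfold aa at *
    rw [pow_succ, pow_succ] at h
    rw [pow_succ, pow_succ]
    nlinarith
  have hgap0 : 0 ≤ aa (j + 1) - |x| := le_trans (by positivity) hgap
  have h4 : kap (j + 1) * (volume (II (j + 1))).toReal * (aa (j + 1) - |x|)
      ≤ ∫ t, w t * max (|t| - |x|) 0 := by
    calc kap (j + 1) * (volume (II (j + 1))).toReal * (aa (j + 1) - |x|)
        = ∫ t in II (j + 1), kap (j + 1) * (aa (j + 1) - |x|) := by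
          rw [setIntegral_const]
          simp only [Measure.real, smul_eq_mul]; ring
      _ ≤ ∫ t in II (j + 1), w t * max (|t| - |x|) 0 := by
          apply setIntegral_mono_on
          · exact integrableOn_const
              (ne_top_of_le_ne_top ENNReal.ofReal_ne_top (II_vol_le _)) enorm_ne_top
          · exact (tent_integrable x).integrableOn
          · exact II_meas _
          · intro t ht
            rw [w_on ht]
            apply mul_le_mul_of_nonneg_left _ (kap_pos _).le
            apply le_max_of_le_left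
            linarith [ht.1]
      _ ≤ ∫ t, w t * max (|t| - |x|) 0 := by
          apply setIntegral_le_integral (tent_integrable x)
          apply Eventually.of_forall
          intro t
          exact mul_nonneg (w_nonneg t) (le_max_right _ _)
  unfold u1
  have h5 : (1 / 2 : ℝ) ^ (j + 1) * (1 / 2 : ℝ) ^ (j + 2)
      ≤ kap (j + 1) * (volume (II (j + 1))).toReal * (aa (j + 1) - |x|) :=
    mul_le_mul hmass hgap (by positivity) (le_trans (by positivity) hmass)
  have h6 : (1 / 2 : ℝ) ^ (2 * j + 4) = 1 / 2 * ((1 / 2 : ℝ) ^ (j + 1) * (1 / 2 : ℝ) ^ (j + 2)) := by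
    rw [← pow_add, ← pow_succ']; congr 1; ring
  rw [h6]
  linarith

/-! ### the quotient `w / u1` -/

noncomputable def v (x : ℝ) : ℝ := w x / u1 x

lemma v_nonneg (x : ℝ) : 0 ≤ v x := div_nonneg (w_nonneg x) (u1_nonneg x)

lemma v_meas : Measurable v := w_meas.div u1_cont.measurable

lemma v_mul_u1 (x : ℝ) : v x * u1 x = w x := by
  unfold v
  by_cases h : ∃ j, x ∈ II j
  · obtain ⟨j, hj⟩ := h
    have h1 : 0 < u1 x := lt_of_lt_of_le (by positivity) (u1_lower hj.2)
    field_simp
  · push Not at h
    rw [w_off h]; simp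

lemma v_le {j : ℕ} {x : ℝ} (hx : x ∈ II j) : v x ≤ (2 : ℝ) ^ (j + 4) / ep j := by
  have h1 := u1_lower hx.2
  have h2 : (0 : ℝ) < (1 / 2 : ℝ) ^ (2 * j + 4) := by positivity
  have h3 : 0 < u1 x := lt_of_lt_of_le h2 h1
  unfold v
  rw [w_on hx]
  calc kap j / u1 x ≤ kap j / (1 / 2 : ℝ) ^ (2 * j + 4) :=
        div_le_div_of_nonneg_left (kap_pos j).le h2 h1
    _ = (2 : ℝ) ^ (j + 4) / ep j := by
        unfold kap
        have he := (ep_pos j).ne'
        rw [show 2 * j + 4 = j + (j + 4) by ring, pow_add]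
        field_simp
        rw [← mul_pow]; norm_num

lemma sqrt_v_integrable (p : ℝ) (hp1 : 1 ≤ p) (hp2 : p < 2) :
    Integrable (fun x => Real.sqrt (v x) ^ p) := by
  have hp0 : 0 ≤ p := by linarith
  set δ : ℝ := 1 - p / 2 with hδ
  have hδ0 : 0 < δ := by rw [hδ]; linarith
  apply integrable_crit _ _ _ _ (fun j => Real.sqrt ((2 : ℝ) ^ (j + 4) / ep j) ^ p)
  · intro j x hx
    exact Real.rpow_le_rpow (Real.sqrt_nonneg _) (Real.sqrt_le_sqrt (v_le hx)) hp0
  · intro j; positivity
  · -- summability
    have hb : ∀ j : ℕ, Real.sqrt ((2 : ℝ) ^ (j + 4) / ep j) ^ p * ep j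
        ≤ Real.exp (1 / δ) * Real.exp (-1) ^ j := by
      intro j
      have he := ep_pos j
      have h2 : (0 : ℝ) < (2 : ℝ) ^ (j + 4) := by positivity
      have e1 : Real.sqrt ((2 : ℝ) ^ (j + 4) / ep j) ^ p
          = ((2 : ℝ) ^ (j + 4)) ^ (p / 2) / ep j ^ (p / 2) := by
        rw [Real.sqrt_eq_rpow, ← Real.rpow_mul (by positivity), Real.div_rpow h2.le he.le]
        congr 2 <;> ring
      have e2 : ((2 : ℝ) ^ (j + 4)) ^ (p / 2) ≤ (2 : ℝ) ^ (j + 4) := by
        have h1 : (1 : ℝ) ≤ (2 : ℝ) ^ (j + 4) := one_le_pow₀ (by norm_num)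
        calc ((2 : ℝ) ^ (j + 4)) ^ (p / 2) ≤ ((2 : ℝ) ^ (j + 4)) ^ (1 : ℝ) :=
              Real.rpow_le_rpow_of_exponent_le h1 (by linarith)
          _ = _ := Real.rpow_one _
      have e3 : ep j / ep j ^ (p / 2) = ep j ^ δ := by
        rw [hδ, Real.rpow_sub he, Real.rpow_one]
      have e4 : ep j ^ δ = Real.exp (-((j : ℝ) + 2) ^ 2 * δ) := by
        unfold ep; rw [← Real.exp_mul]
      have e5 : (2 : ℝ) ^ (j + 4) ≤ Real.exp ((j : ℝ) + 4) := by
        have : Real.exp ((j : ℝ) + 4) = Real.exp 1 ^ (j + 4) := by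
          rw [← Real.exp_nat_mul]; congr 1; push_cast; ring
        rw [this]
        exact pow_le_pow_left₀ (by norm_num) exp_one_ge _
      have e6 : Real.exp (-1) ^ j = Real.exp (-(j : ℝ)) := by
        rw [← Real.exp_nat_mul]; congr 1; ring
      calc Real.sqrt ((2 : ℝ) ^ (j + 4) / ep j) ^ p * ep j
          = ((2 : ℝ) ^ (j + 4)) ^ (p / 2) * (ep j / ep j ^ (p / 2)) := by rw [e1]; ring
        _ ≤ Real.exp ((j : ℝ) + 4) * Real.exp (-((j : ℝ) + 2) ^ 2 * δ) := by
            rw [e3, e4]
            exact mul_le_mul_of_nonneg_right (e2.trans e5) (Real.exp_pos _).le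
        _ = Real.exp ((j : ℝ) + 4 + -((j : ℝ) + 2) ^ 2 * δ) := by rw [← Real.exp_add]
        _ ≤ Real.exp (1 / δ + -(j : ℝ)) := by
            apply Real.exp_le_exp.mpr
            have h7 : 0 ≤ (δ * ((j : ℝ) + 2) - 1) ^ 2 / δ := by positivity
            have h8 : (δ * ((j : ℝ) + 2) - 1) ^ 2 / δ
                = δ * ((j : ℝ) + 2) ^ 2 - 2 * ((j : ℝ) + 2) + 1 / δ := by
              field_simp; ring
            rw [h8] at h7
            linarith
        _ = _ := by rw [Real.exp_add, e6]
    apply Summable.of_nonneg_of_le _ hb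
    · apply Summable.mul_left
      apply summable_geometric_of_lt_one (Real.exp_pos _).le
      rw [Real.exp_lt_one_iff]; norm_num
    · intro j
      have := ep_pos j
      positivity
  · exact (Real.continuous_sqrt.measurable.comp v_meas).pow_const p
  · intro x; positivity
  · intro x hx
    have : v x = 0 := by unfold v; rw [w_off hx]; simp
    simp only [this, Real.sqrt_zero]
    exact Real.zero_rpow (by linarith)

/-! ### test functions -/

lemma tent_test (f : ℝ → ℝ) (hf : ContDiff ℝ 2 f) (t : ℝ) (ht : 0 ≤ t) :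
    ∫ x, max (t - |x|) 0 * deriv (deriv f) x = f t + f (-t) - 2 * f 0 := by
  have hd1 : ∀ x, HasDerivAt f (deriv f x) x := fun x =>
    ((hf.differentiable (by norm_num)) x).hasDerivAt
  have hf1 : ContDiff ℝ 1 (deriv f) := by
    have : ContDiff ℝ (1 + 1) f := by simpa [one_add_one_eq_two] using hf
    exact ((contDiff_succ_iff_deriv (n := 1)).mp this).2.2
  have hd2 : ∀ x, HasDerivAt (deriv f) (deriv (deriv f) x) x := fun x =>
    ((hf1.differentiable (by norm_num)) x).hasDerivAt
  have hc1 : Continuous (deriv f) := hf1.continuous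
  have hc2 : Continuous (deriv (deriv f)) := hf1.continuous_deriv le_rfl
  have h1 : ∫ x, max (t - |x|) 0 * deriv (deriv f) x
      = ∫ x in (-t)..t, max (t - |x|) 0 * deriv (deriv f) x := by
    rw [intervalIntegral.integral_of_le (by linarith)]
    symm
    apply setIntegral_eq_integral_of_forall_compl_eq_zero
    intro x hx
    have : t ≤ |x| := by
      by_contra hlt
      push Not at hlt
      apply hx
      have := abs_lt.mp hlt
      exact ⟨this.1, this.2.le⟩
    rw [max_eq_right (by linarith)]; ring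
  have hcont : Continuous fun x => max (t - |x|) 0 * deriv (deriv f) x :=
    ((continuous_const.sub continuous_abs).max continuous_const).mul hc2
  rw [h1, ← intervalIntegral.integral_add_adjacent_intervals (b := 0)
    (hcont.intervalIntegrable _ _) (hcont.intervalIntegrable _ _)]
  have h2 : ∫ x in (-t)..0, max (t - |x|) 0 * deriv (deriv f) x
      = ∫ x in (-t)..0, (t + x) * deriv (deriv f) x := by
    apply intervalIntegral.integral_congr
    intro x hx
    rw [Set.uIcc_of_le (by linarith)] at hx
    simp only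
    rw [abs_of_nonpos hx.2, max_eq_left (by linarith [hx.1])]
    ring
  have h3 : ∫ x in (0 : ℝ)..t, max (t - |x|) 0 * deriv (deriv f) x
      = ∫ x in (0 : ℝ)..t, (t - x) * deriv (deriv f) x := by
    apply intervalIntegral.integral_congr
    intro x hx
    rw [Set.uIcc_of_le ht] at hx
    simp only
    rw [abs_of_nonneg hx.1, max_eq_left (by linarith [hx.2])]
  have h4 : ∫ x in (-t)..0, (t + x) * deriv (deriv f) x
      = (t + 0) * deriv f 0 - (t + -t) * deriv f (-t) - ∫ x in (-t)..0, 1 * deriv f x := by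
    apply intervalIntegral.integral_mul_deriv_eq_deriv_mul
    · intro x _
      simpa using (hasDerivAt_id x).const_add t
    · intro x _; exact hd2 x
    · exact (continuous_const).intervalIntegrable _ _
    · exact hc2.intervalIntegrable _ _
  have h5 : ∫ x in (0 : ℝ)..t, (t - x) * deriv (deriv f) x
      = (t - t) * deriv f t - (t - 0) * deriv f 0 - ∫ x in (0 : ℝ)..t, (-1) * deriv f x := by
    apply intervalIntegral.integral_mul_deriv_eq_deriv_mul
    · intro x _
      simpa using (hasDerivAt_id x).const_sub t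
    · intro x _; exact hd2 x
    · exact (continuous_const).intervalIntegrable _ _
    · exact hc2.intervalIntegrable _ _
  have h6 : ∫ x in (-t)..0, deriv f x = f 0 - f (-t) :=
    intervalIntegral.integral_eq_sub_of_hasDerivAt (fun x _ => hd1 x)
      (hc1.intervalIntegrable _ _)
  have h7 : ∫ x in (0 : ℝ)..t, deriv f x = f t - f 0 :=
    intervalIntegral.integral_eq_sub_of_hasDerivAt (fun x _ => hd1 x)
      (hc1.intervalIntegrable _ _)
  rw [h2, h3, h4, h5, intervalIntegral.integral_const_mul, intervalIntegral.integral_const_mul,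
    h6, h7]
  ring

lemma one_dim_ineq (f : ℝ → ℝ) (hf : ContDiff ℝ 2 f) (hcs : HasCompactSupport f)
    (hf0 : ∀ x, 0 ≤ f x) :
    ∫ x, u1 x * deriv (deriv f) x ≤ ∫ x, w x * f x := by
  have hf1 : ContDiff ℝ 1 (deriv f) := by
    have : ContDiff ℝ (1 + 1) f := by simpa [one_add_one_eq_two] using hf
    exact ((contDiff_succ_iff_deriv (n := 1)).mp this).2.2
  have hc2 : Continuous (deriv (deriv f)) := hf1.continuous_deriv le_rfl
  have hcs2 : HasCompactSupport (deriv (deriv f)) := hcs.deriv.deriv
  have hi2 : Integrable (deriv (deriv f)) := hc2.integrable_of_hasCompactSupport hcs2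
  have hprod : Integrable (Function.uncurry fun (x t : ℝ) =>
      w t * max (|t| - |x|) 0 * deriv (deriv f) x) (volume.prod volume) := by
    have hb : Integrable (fun z : ℝ × ℝ => |deriv (deriv f) z.1| * w z.2)
        (volume.prod volume) := hi2.abs.mul_prod w_integrable
    apply hb.mono'
    · apply Measurable.aestronglyMeasurable
      apply Measurable.mul
      · apply (w_meas.comp measurable_snd).mul
        exact (((continuous_abs.comp continuous_snd).sub
          (continuous_abs.comp continuous_fst)).max continuous_const).measurable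
      · exact hc2.measurable.comp measurable_fst
    · apply Eventually.of_forall
      rintro ⟨x, t⟩
      simp only [Function.uncurry]
      rw [norm_mul, Real.norm_eq_abs (deriv (deriv f) x), mul_comm]
      exact mul_le_mul_of_nonneg_left (w_mul_bdd x t) (abs_nonneg _)
  have hbd : ∃ C, ∀ x, |f x| ≤ C := by
    obtain ⟨C, hC⟩ := hcs.exists_bound_of_continuous hf.continuous
    exact ⟨C, hC⟩
  obtain ⟨C, hC⟩ := hbd
  have hwf : Integrable (fun t => w t * f t) := by
    apply w_integrable.mul_bdd (c := C)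
    · exact hf.continuous.aestronglyMeasurable
    · exact Eventually.of_forall hC
  have hwf' : Integrable (fun t => w t * f (-t)) := by
    apply w_integrable.mul_bdd (c := C)
    · exact (hf.continuous.comp continuous_neg).aestronglyMeasurable
    · exact Eventually.of_forall fun t => hC (-t)
  have e1 : ∫ x, u1 x * deriv (deriv f) x
      = (1 / 2) * ∫ x, ∫ t, w t * max (|t| - |x|) 0 * deriv (deriv f) x := by
    rw [← integral_const_mul]
    apply integral_congr_ae
    apply Eventually.of_forall
    intro x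
    simp only [u1]
    rw [integral_mul_const]
    ring
  have e2 : ∫ x, ∫ t, w t * max (|t| - |x|) 0 * deriv (deriv f) x
      = ∫ t, ∫ x, w t * max (|t| - |x|) 0 * deriv (deriv f) x := integral_integral_swap hprod
  have e3 : ∫ t, ∫ x, w t * max (|t| - |x|) 0 * deriv (deriv f) x
      = ∫ t, (w t * f t + w t * f (-t) - (2 * f 0) * w t) := by
    apply integral_congr_ae
    apply Eventually.of_forall
    intro t
    simp only
    have : ∀ x, w t * max (|t| - |x|) 0 * deriv (deriv f) x
        = w t * (max (|t| - |x|) 0 * deriv (deriv f) x) := fun x => by ring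
    simp_rw [this]
    rw [integral_const_mul, tent_test f hf |t| (abs_nonneg t)]
    rcases le_total 0 t with h | h
    · rw [abs_of_nonneg h]; ring
    · rw [abs_of_nonpos h, neg_neg]; ring
  have e4 : ∫ t, w t * f (-t) = ∫ t, w t * f t := by
    have := integral_neg_eq_self (fun t => w t * f t) (volume : Measure ℝ)
    rw [← this]
    apply integral_congr_ae
    apply Eventually.of_forall
    intro t
    simp only
    rw [w_neg]
  have hadd : Integrable (fun t => w t * f t + w t * f (-t)) := hwf.add hwf'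
  have e5 : ∫ t, (w t * f t + w t * f (-t) - (2 * f 0) * w t)
      = (∫ t, w t * f t) + (∫ t, w t * f t) - 2 * f 0 * ∫ t, w t := by
    rw [integral_sub hadd (w_integrable.const_mul _),
      integral_add hwf hwf', e4, integral_const_mul]
  rw [e1, e2, e3, e5]
  have hw0 : 0 ≤ ∫ t, w t := integral_nonneg w_nonneg
  nlinarith [mul_nonneg (hf0 0) hw0]

end SMP
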