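import Mathlib

/-! Helper for S02808. -/

namespace UcLevel

open MeasureTheory Set Filter Topology

abbrev E2 := EuclideanSpace ℝ (Fin 2)

noncomputable def pp (t : ℝ) : ℝ := max t 0

lemma pp_nonneg (t : ℝ) : 0 ≤ pp t := le_max_right _ _

lemma pp_cont : Continuous pp := by unfold pp; fun_prop

lemma pp_pow_deriv (k : ℕ) (t : ℝ) :
    HasDerivAt (fun t => pp t ^ (k + 2)) (((k : ℝ) + 2) * pp t ^ (k + 1)) t := by
  rcases lt_trichotomy t 0 with h | h | h
  · have h1 : pp t = 0 := by unfold pp; exact max_eq_right h.le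
    rw [h1]
    have : (fun t => pp t ^ (k + 2)) =ᶠ[𝓝 t] fun _ => 0 := by
      filter_upwards [gt_mem_nhds h] with s hs
      have : pp s = 0 := by unfold pp; exact max_eq_right (le_of_lt hs)
      rw [this]; simp
    have h2 : HasDerivAt (fun _ : ℝ => (0 : ℝ)) 0 t := hasDerivAt_const _ _
    have h3 := h2.congr_of_eventuallyEq this
    simpa using h3
  · subst h
    have h1 : pp 0 = 0 := by unfold pp; simp
    rw [h1]
    have h0 : ((k : ℝ) + 2) * (0 : ℝ) ^ (k + 1) = 0 := by simp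
    rw [h0]
    rw [hasDerivAt_iff_isLittleO_nhds_zero]
    simp only [zero_add, h1, smul_zero, sub_zero]
    have h2 : (fun h : ℝ => pp h ^ (k + 2) - 0 ^ (k + 2)) = fun h => pp h ^ (k + 1) * pp h := by
      funext h; rw [pow_succ]; simp
    rw [h2]
    have hO : (fun h : ℝ => pp h) =O[𝓝 0] fun h : ℝ => h := by
      apply Asymptotics.IsBigO.of_bound 1
      apply Eventually.of_forall
      intro h
      rw [one_mul, Real.norm_eq_abs, Real.norm_eq_abs]
      unfold pp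
      rw [abs_of_nonneg (le_max_right _ _)]
      exact max_le (le_abs_self h) (abs_nonneg h)
    have ho : (fun h : ℝ => pp h ^ (k + 1)) =o[𝓝 0] fun _ : ℝ => (1 : ℝ) := by
      rw [Asymptotics.isLittleO_one_iff]
      have : Tendsto (fun h => pp h ^ (k + 1)) (𝓝 0) (𝓝 (pp 0 ^ (k + 1))) :=
        (pp_cont.pow (k + 1)).tendsto 0
      simpa [h1] using this
    simpa using ho.mul_isBigO hO
  · have h1 : pp t = t := by unfold pp; exact max_eq_left h.le
    rw [h1]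
    have : (fun t => pp t ^ (k + 2)) =ᶠ[𝓝 t] fun s => s ^ (k + 2) := by
      filter_upwards [lt_mem_nhds h] with s hs
      have : pp s = s := by unfold pp; exact max_eq_left (le_of_lt hs)
      rw [this]
    have h2 : HasDerivAt (fun s : ℝ => s ^ (k + 2)) (((k + 2 : ℕ) : ℝ) * t ^ (k + 2 - 1)) t :=
      hasDerivAt_pow _ _
    have h3 := h2.congr_of_eventuallyEq this
    simpa using h3

noncomputable def pr (i : Fin 2) : E2 →L[ℝ] ℝ := EuclideanSpace.proj i

lemma pr_single (i j : Fin 2) : pr i (EuclideanSpace.single j 1) = if i = j then 1 else 0 := by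
  show (EuclideanSpace.single j (1 : ℝ) : E2) i = _
  simp [PiLp.single_apply]

lemma coord_hasFDerivAt (i : Fin 2) (z : E2) : HasFDerivAt (fun z : E2 => z i) (pr i) z :=
  (pr i).hasFDerivAt

noncomputable def P (k : ℕ) (z : E2) : ℝ := pp (z 0) ^ k

lemma P_hasFDerivAt (k : ℕ) (z : E2) :
    HasFDerivAt (P (k + 2)) ((((k : ℝ) + 2) * P (k + 1) z) • pr 0) z := by
  have h := HasDerivAt.comp_hasFDerivAt (h₂ := fun t => pp t ^ (k + 2)) z
    (pp_pow_deriv k (z 0)) (coord_hasFDerivAt 0 z)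
  exact h

lemma P_cont (k : ℕ) : Continuous (P k) := by
  unfold P
  exact (pp_cont.comp (pr 0).continuous).pow k

/-- the second solution -/
noncomputable def v (z : E2) : ℝ :=
  z 0 * z 1 - (3 / 2) * (P 2 z * z 1 ^ 2) - (6 / 5) * (P 5 z * z 1) + (1 / 4) * P 4 z - (3 / 8) * P 8 z

noncomputable def vx (z : E2) : ℝ :=
  (z 1 + P 3 z) * (1 - 3 * P 1 z * (z 1 + P 3 z))

noncomputable def G0 (z : E2) : ℝ := z 1 + P 3 z

noncomputable def G1 (z : E2) : ℝ := z 0 - 3 * (P 2 z * z 1) - (6 / 5) * P 5 z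

noncomputable def mm (z : E2) : ℝ := (1 - 3 * P 1 z * (z 1 + P 3 z))⁻¹

lemma v_hasFDerivAt (z : E2) : HasFDerivAt v (vx z • pr 0 + G1 z • pr 1) z := by
  unfold v
  have h0 := coord_hasFDerivAt 0 z
  have h1 := coord_hasFDerivAt 1 z
  have a1 := h0.mul h1
  have a2 := ((P_hasFDerivAt 0 z).mul (h1.pow 2)).const_mul (3 / 2 : ℝ)
  have a3 := ((P_hasFDerivAt 3 z).mul h1).const_mul (6 / 5 : ℝ)
  have a4 := (P_hasFDerivAt 2 z).const_mul (1 / 4 : ℝ)
  have a5 := (P_hasFDerivAt 6 z).const_mul (3 / 8 : ℝ)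
  have a := (((a1.sub a2).sub a3).add a4).sub a5
  refine a.congr_fderiv ?_
  ext w
  simp only [vx, G1, add_apply, sub_apply,
    smul_apply, smul_eq_mul]
  have hP : ∀ k, P k z = pp (z 0) ^ k := fun k => rfl
  simp only [hP]
  push_cast
  ring

lemma G0_hasFDerivAt (z : E2) : HasFDerivAt G0 (pr 1 + (3 * P 2 z) • pr 0) z := by
  unfold G0
  have a := (coord_hasFDerivAt 1 z).add (P_hasFDerivAt 1 z)
  refine a.congr_fderiv ?_
  ext w
  simp only [add_apply, smul_apply, smul_eq_mul]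
  push_cast
  ring

lemma G1_hasFDerivAt (z : E2) : HasFDerivAt G1
    ((1 - 6 * P 1 z * z 1 - 6 * P 4 z) • pr 0 + (-(3 * P 2 z)) • pr 1) z := by
  unfold G1
  have a := ((coord_hasFDerivAt 0 z).sub
    (((P_hasFDerivAt 0 z).mul (coord_hasFDerivAt 1 z)).const_mul (3 : ℝ))).sub
    ((P_hasFDerivAt 3 z).const_mul (6 / 5 : ℝ))
  refine a.congr_fderiv ?_
  ext w
  simp only [add_apply, sub_apply,
    smul_apply, smul_eq_mul]
  have hP : ∀ k, P k z = pp (z 0) ^ k := fun k => rfl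
  simp only [hP]
  push_cast
  ring

lemma G0_cont : Continuous G0 := by
  unfold G0
  exact (pr 1).continuous.add (P_cont 3)

lemma G1_cont : Continuous G1 := by
  unfold G1
  exact ((pr 0).continuous.sub (continuous_const.mul ((P_cont 2).mul (pr 1).continuous))).sub
    (continuous_const.mul (P_cont 5))

lemma vx_cont : Continuous vx := by
  unfold vx
  exact ((pr 1).continuous.add (P_cont 3)).mul
    (continuous_const.sub ((continuous_const.mul (P_cont 1)).mul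
      ((pr 1).continuous.add (P_cont 3))))

lemma v_contDiff : ContDiff ℝ 1 v := by
  rw [contDiff_one_iff_fderiv]
  refine ⟨fun z => (v_hasFDerivAt z).differentiableAt, ?_⟩
  have : fderiv ℝ v = fun z => vx z • pr 0 + G1 z • pr 1 := by
    funext z; exact (v_hasFDerivAt z).fderiv
  rw [this]
  exact (vx_cont.smul continuous_const).add (G1_cont.smul continuous_const)

/-- integration by parts against a smooth compactly supported function -/
lemma parts (G : E2 → ℝ) (hG : ∀ z, DifferentiableAt ℝ G z) (hGc : Continuous G)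
    (e : E2) (hGe : Continuous fun z => fderiv ℝ G z e)
    (φ : E2 → ℝ) (hφ : ContDiff ℝ ((⊤ : ℕ∞) : WithTop ℕ∞) φ) (hcs : HasCompactSupport φ) :
    Integrable (fun x => G x * fderiv ℝ φ x e) ∧
    ∫ x, G x * fderiv ℝ φ x e = - ∫ x, fderiv ℝ G x e * φ x := by
  have hφd : ContDiff ℝ ((⊤ : ℕ∞) : WithTop ℕ∞) (fun x => fderiv ℝ φ x e) :=
    (hφ.fderiv_right (by simp)).clm_apply contDiff_const
  have hφcs : HasCompactSupport (fun x => fderiv ℝ φ x e) := by
    have := hcs.fderiv (𝕜 := ℝ)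
    exact this.comp_left (g := fun L : E2 →L[ℝ] ℝ => L e) (by simp)
  have i1 : Integrable (fun x => fderiv ℝ G x e * φ x) :=
    (hGe.mul hφ.continuous).integrable_of_hasCompactSupport hcs.mul_left
  have i2 : Integrable (fun x => G x * fderiv ℝ φ x e) :=
    (hGc.mul hφd.continuous).integrable_of_hasCompactSupport hφcs.mul_left
  have i3 : Integrable (fun x => G x * φ x) :=
    (hGc.mul hφ.continuous).integrable_of_hasCompactSupport hcs.mul_left
  exact ⟨i2, integral_mul_fderiv_eq_neg_fderiv_mul_of_integrable i1 i2 i3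
    (fun x _ => hG x) (fun x _ => (hφ.differentiable (by simp)) x)⟩

/-- the coefficient matrix -/
noncomputable def A (z : E2) : Matrix (Fin 2) (Fin 2) ℝ := !![mm z, 0; 0, 1]

def Om : Set E2 := Metric.ball 0 (1 / 4)

lemma Om_bd {z : E2} (hz : z ∈ Om) : |z 0| < 1 / 4 ∧ |z 1| < 1 / 4 := by
  have h : ‖z‖ < 1 / 4 := by simpa [Om] using hz
  exact ⟨lt_of_le_of_lt (PiLp.norm_apply_le z 0) h, lt_of_le_of_lt (PiLp.norm_apply_le z 1) h⟩

lemma pp_le_abs (t : ℝ) : pp t ≤ |t| := max_le (le_abs_self t) (abs_nonneg t)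

lemma D_bd {z : E2} (hz : z ∈ Om) : |3 * P 1 z * (z 1 + P 3 z)| ≤ 1 / 4 := by
  obtain ⟨h0, h1⟩ := Om_bd hz
  have hp0 := pp_nonneg (z 0)
  have hp1 : pp (z 0) ≤ 1 / 4 := (pp_le_abs _).trans h0.le
  unfold P
  have hp3 : pp (z 0) ^ 3 ≤ 1 / 64 := by
    calc pp (z 0) ^ 3 ≤ (1 / 4) ^ 3 := pow_le_pow_left₀ hp0 hp1 3
      _ = _ := by norm_num
  have hp3' : 0 ≤ pp (z 0) ^ 3 := by positivity
  have h2 : |z 1 + pp (z 0) ^ 3| ≤ 17 / 64 := by
    calc |z 1 + pp (z 0) ^ 3| ≤ |z 1| + |pp (z 0) ^ 3| := abs_add_le _ _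
      _ ≤ 17 / 64 := by rw [abs_of_nonneg hp3']; linarith
  rw [abs_mul, pow_one, abs_mul, abs_of_nonneg hp0, abs_of_pos (by norm_num : (0 : ℝ) < 3)]
  have h3 := abs_nonneg (z 1 + pp (z 0) ^ 3)
  nlinarith

lemma den_bd {z : E2} (hz : z ∈ Om) :
    3 / 4 ≤ 1 - 3 * P 1 z * (z 1 + P 3 z) ∧ 1 - 3 * P 1 z * (z 1 + P 3 z) ≤ 5 / 4 := by
  have := abs_le.mp (D_bd hz)
  constructor <;> linarith [this.1, this.2]

lemma mm_mul_vx {z : E2} (hz : z ∈ Om) : mm z * vx z = G0 z := by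
  have := (den_bd hz).1
  unfold mm vx G0
  have h : 1 - 3 * P 1 z * (z 1 + P 3 z) ≠ 0 := by linarith
  field_simp

lemma mm_bd {z : E2} (hz : z ∈ Om) : 1 / 2 ≤ mm z ∧ mm z ≤ 2 := by
  obtain ⟨h1, h2⟩ := den_bd hz
  unfold mm
  set d := 1 - 3 * P 1 z * (z 1 + P 3 z)
  constructor
  · rw [← one_div]; rw [div_le_div_iff₀ (by norm_num) (by linarith)]; linarith
  · rw [inv_le_comm₀ (by linarith) (by norm_num)]; linarith

lemma pp_lip (s t : ℝ) : |pp s - pp t| ≤ |s - t| := by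
  unfold pp
  exact abs_max_sub_max_le_abs s t 0

lemma mm_lip {z w : E2} (hz : z ∈ Om) (hw : w ∈ Om) : |mm z - mm w| ≤ 4 * dist z w := by
  obtain ⟨h1, -⟩ := den_bd hz
  obtain ⟨h2, -⟩ := den_bd hw
  obtain ⟨a0, a1⟩ := Om_bd hz
  obtain ⟨b0, b1⟩ := Om_bd hw
  have d0 : |z 0 - w 0| ≤ dist z w := by
    rw [dist_eq_norm]; exact PiLp.norm_apply_le (z - w) 0
  have d1 : |z 1 - w 1| ≤ dist z w := by
    rw [dist_eq_norm]; exact PiLp.norm_apply_le (z - w) 1
  have dp := (pp_lip (z 0) (w 0)).trans d0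
  set D := dist z w with hD
  have hD0 : 0 ≤ D := dist_nonneg
  unfold mm
  set a := 1 - 3 * P 1 z * (z 1 + P 3 z) with ha
  set b := 1 - 3 * P 1 w * (w 1 + P 3 w) with hb
  have hab : |a - b| ≤ 2 * D := by
    have hpz := pp_nonneg (z 0)
    have hpw := pp_nonneg (w 0)
    have hpz1 : pp (z 0) ≤ 1 / 4 := (pp_le_abs _).trans a0.le
    have hpw1 : pp (w 0) ≤ 1 / 4 := (pp_le_abs _).trans b0.le
    set p := pp (z 0) with hp
    set q := pp (w 0) with hq
    have e : a - b = -(3 * ((p - q) * z 1 + q * (z 1 - w 1)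
        + (p - q) * (p ^ 3 + p ^ 2 * q + p * q ^ 2 + q ^ 3))) := by
      rw [ha, hb]; unfold P; rw [← hp, ← hq]; ring
    have hs0 : 0 ≤ p ^ 3 + p ^ 2 * q + p * q ^ 2 + q ^ 3 := by positivity
    have hs1 : p ^ 3 + p ^ 2 * q + p * q ^ 2 + q ^ 3 ≤ 1 / 16 := by
      have u1 : p ^ 3 ≤ (1 / 4) ^ 3 := pow_le_pow_left₀ hpz hpz1 3
      have u2 : q ^ 3 ≤ (1 / 4) ^ 3 := pow_le_pow_left₀ hpw hpw1 3
      have u3 : p ^ 2 ≤ (1 / 4) ^ 2 := pow_le_pow_left₀ hpz hpz1 2
      have u4 : q ^ 2 ≤ (1 / 4) ^ 2 := pow_le_pow_left₀ hpw hpw1 2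
      have u5 : p ^ 2 * q ≤ (1 / 4) ^ 2 * (1 / 4) := mul_le_mul u3 hpw1 hpw (by norm_num)
      have u6 : p * q ^ 2 ≤ (1 / 4) * (1 / 4) ^ 2 := mul_le_mul hpz1 u4 (by positivity) (by norm_num)
      norm_num at *
      linarith
    rw [e, abs_neg, abs_mul, abs_of_pos (by norm_num : (0 : ℝ) < 3)]
    have t1 : |(p - q) * z 1| ≤ D * (1 / 4) := by
      rw [abs_mul]; exact mul_le_mul dp a1.le (abs_nonneg _) hD0
    have t2 : |q * (z 1 - w 1)| ≤ (1 / 4) * D := by
      rw [abs_mul, abs_of_nonneg hpw]; exact mul_le_mul hpw1 d1 (abs_nonneg _) (by norm_num)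
    have t3 : |(p - q) * (p ^ 3 + p ^ 2 * q + p * q ^ 2 + q ^ 3)| ≤ D * (1 / 16) := by
      rw [abs_mul, abs_of_nonneg hs0]; exact mul_le_mul dp hs1 hs0 hD0
    have t4 := abs_add_le ((p - q) * z 1 + q * (z 1 - w 1))
      ((p - q) * (p ^ 3 + p ^ 2 * q + p * q ^ 2 + q ^ 3))
    have t5 := abs_add_le ((p - q) * z 1) (q * (z 1 - w 1))
    linarith
  have ha0 : a ≠ 0 := by linarith
  have hb0 : b ≠ 0 := by linarith
  have e2 : a⁻¹ - b⁻¹ = -(a - b) / (a * b) := by field_simp; ring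
  rw [e2, abs_div, abs_neg, abs_of_pos (mul_pos (by linarith) (by linarith) : 0 < a * b)]
  rw [div_le_iff₀ (mul_pos (by linarith) (by linarith))]
  nlinarith [mul_nonneg (by linarith : 0 ≤ a - 3 / 4) (by linarith : 0 ≤ b - 3 / 4)]

end UcLevel
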